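import Pool.Agent.Zk97.CB.Defs

/-!
# Pencils of plane curves of degree `d`: definitions

A polynomial `P : R[X][X]` is a polynomial in two variables: the inner variable is `x` (the polynomial
`C X`), the outer variable is `y` (the polynomial `X`).
-/

set_option autoImplicit false
set_option linter.all false

open Polynomial

namespace Pool.Agent.Zk97.CB

section
variable {R : Type} [CommRing R]

/-- the degree of `P` in `x` and `y` is at most `d` -/
def DegLe (d : ℕ) (P : R[X][X]) : Prop := ∀ i j : ℕ, (P.coeff i).coeff j ≠ 0 → i + j ≤ d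

/-- the polynomial of a plane curve of degree `d` which does not contain the point `(0 : 1 : 0)`:
the degree is at most `d` and the coefficient of `y^d` is `1` -/
def IsPlane (d : ℕ) (G : R[X][X]) : Prop := DegLe d G ∧ G.coeff d = 1

/-- the form of degree `d` of `P` for `x = 1`, as a polynomial in `y`: its zeros are the points at
infinity -/
noncomputable def top (d : ℕ) (P : R[X][X]) : R[X] :=
  ∑ i ∈ Finset.range (d + 1), C ((P.coeff i).coeff (d - i)) * X ^ i

/-- the derivative with respect to `x` -/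
noncomputable def dx (P : R[X][X]) : R[X][X] :=
  ∑ i ∈ Finset.range (P.natDegree + 1), C (derivative (P.coeff i)) * X ^ i

/-- the affine curve `G = 0` is smooth -/
def Smooth (G : R[X][X]) : Prop := ∃ u v s : R[X][X], u * G + v * dx G + s * derivative G = 1

/-- `G` is the polynomial of a smooth plane curve of degree `d` which does not contain the point
`(0 : 1 : 0)` and is not tangent to the line at infinity -/
def Good (d : ℕ) (G : R[X][X]) : Prop :=
  IsPlane d G ∧ Smooth G ∧ IsCoprime (top d G) (derivative (top d G))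

end

/-- U: irreducible form at infinity -/
def StU : Prop := ∀ (k : Type) [Field k] (d : ℕ), 0 < d → ∀ G : k[X][X], IsPlane d G →
  Irreducible (top d G) → Irreducible G ∧
    ∀ u : AdjoinRoot G, IsUnit u → ∃ c : k, c ≠ 0 ∧ u = AdjoinRoot.of G (C c)

/-- S: smooth plane curves are irreducible -/
def StS : Prop := ∀ (k : Type) [Field k] (d : ℕ), 0 < d → ∀ G : k[X][X], Good d G → Irreducible G

/-- Y: the bound of Weil for smooth plane curves -/
def StY : Prop := ∀ d : ℕ, 0 < d → ∃ c : ℝ, 0 ≤ c ∧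
  ∀ (F : Type) [Field F] [Finite F] (G : F[X][X]), Good d G →
    |(Nat.card {P : F × F // evalEval P.1 P.2 G = 0} : ℝ) - Nat.card F| ≤ c * √(Nat.card F : ℝ)

/-- J: the coordinate ring of a smooth plane curve -/
def StJ : Prop := ∀ (k : Type) [Field k] (G : k[X][X]), G.Monic → Irreducible G → Smooth G →
  IsDedekindDomain (AdjoinRoot G)

/-- Q: the rank of the class group, general form -/
def StQ : Prop := ∀ (T A ι : Type) [CommRing T] [IsDedekindDomain T] [CommRing A] [IsDomain A]
  [UniqueFactorizationMonoid A] (θ : A →+* T) (a : A) (b : ι → A), Function.Injective θ → a ≠ 0 →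
  (∀ z : T, ∃ (u : T) (k : ℕ) (P : A), IsUnit u ∧ u * θ a ^ k * z = θ P) →
  (∀ 𝔭 : Ideal T, 𝔭.IsPrime → 𝔭 ≠ ⊥ → θ a ∉ 𝔭 → ∃ π : A, 𝔭.comap θ = Ideal.span {π}) →
  (∀ i : ι, ∃ k : ℕ, θ (b i) ∣ θ a ^ k) →
  (∀ π : A, Irreducible π → (∃ k : ℕ, θ π ∣ θ a ^ k) →
    ∃ (u : T) (m : ℕ) (n n' : ι →₀ ℕ), IsUnit u ∧ m ≠ 0 ∧
      θ π ^ m * θ (n.prod fun i k => b i ^ k) = u * θ (n'.prod fun i k => b i ^ k)) →
  (∀ (u : T) (n n' : ι →₀ ℕ), IsUnit u →
    θ (n.prod fun i k => b i ^ k) = u * θ (n'.prod fun i k => b i ^ k) → n = n') →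
  Finite ι ∧ Module.rank ℤ (Additive (ClassGroup T)) + (Nat.card ι : Cardinal) =
    ({𝔮 : Ideal T | 𝔮.IsPrime ∧ θ a ∈ 𝔮}.ncard : Cardinal)

end Pool.Agent.Zk97.CB
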