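import Pool.Agent.Zk97.CB.Stm

/-!
# Pencils of `C_ab` curves, module W: irreducibility and units
-/

set_option autoImplicit false
set_option linter.all false

open Polynomial

namespace Pool.Agent.Zk97.CB.WW

variable {k : Type} [Field k]

/-- `x ↦ x T ^ l`, `y ↦ y T ^ n` -/
noncomputable def tau (l n : ℕ) : k[X][X] →+* k[X][X][X] :=
  eval₂RingHom (eval₂RingHom ((C : k[X][X] →+* k[X][X][X]).comp
    ((C : k[X] →+* k[X][X]).comp (C : k →+* k[X]))) (C (C X) * X ^ l : k[X][X][X]))
    (C X * X ^ n : k[X][X][X])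

lemma tau_monomial (l n i j : ℕ) (c : k) :
    tau l n (monomial i (monomial j c)) = monomial (l * j + n * i) (monomial i (monomial j c)) := by
  simp only [tau, coe_eval₂RingHom, eval₂_monomial]
  simp only [← C_mul_X_pow_eq_monomial, RingHom.comp_apply, mul_pow, map_mul, map_pow, ← pow_mul,
    pow_add]
  ring

lemma coeff_tau (l n d i j : ℕ) (P : k[X][X]) :
    (((tau l n P).coeff d).coeff i).coeff j =
      if l * j + n * i = d then (P.coeff i).coeff j else 0 := by
  induction P using Polynomial.induction_on' with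
  | add p q hp hq =>
    simp only [map_add, coeff_add, hp, hq]
    split_ifs <;> simp
  | monomial i' a =>
    induction a using Polynomial.induction_on' with
    | add p q hp hq =>
      simp only [map_add, coeff_add, hp, hq]
      split_ifs <;> simp
    | monomial j' c =>
      rw [tau_monomial]
      by_cases h1 : i' = i
      · subst h1
        by_cases h2 : j' = j
        · subst h2
          by_cases h3 : l * j' + n * i' = d
          · simp [h3, coeff_monomial]
          · simp [h3, coeff_monomial]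
        · by_cases h3 : l * j' + n * i' = d
          · simp [h3, coeff_monomial, h2]
          · simp [h3, coeff_monomial, h2]
      · by_cases h3 : l * j' + n * i' = d
        · simp [h3, coeff_monomial, h1]
        · simp [h3, coeff_monomial, h1]

lemma tau_ne_zero (l n : ℕ) {P : k[X][X]} (hP : P ≠ 0) : tau l n P ≠ 0 := by
  intro h
  apply hP
  ext i j
  have := coeff_tau l n (l * j + n * i) i j P
  rw [h] at this
  simpa using this.symm

/-- the weight -/
noncomputable def wt (l n : ℕ) (P : k[X][X]) : ℕ := (tau l n P).natDegree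

/-- the leading form -/
noncomputable def lf (l n : ℕ) (P : k[X][X]) : k[X][X] := (tau l n P).leadingCoeff

lemma lf_mul (l n : ℕ) (P Q : k[X][X]) : lf l n (P * Q) = lf l n P * lf l n Q := by
  unfold lf
  rw [map_mul, leadingCoeff_mul]

lemma wt_mul (l n : ℕ) {P Q : k[X][X]} (hP : P ≠ 0) (hQ : Q ≠ 0) :
    wt l n (P * Q) = wt l n P + wt l n Q := by
  unfold wt
  rw [map_mul, natDegree_mul (tau_ne_zero l n hP) (tau_ne_zero l n hQ)]

lemma lf_ne_zero (l n : ℕ) {P : k[X][X]} (hP : P ≠ 0) : lf l n P ≠ 0 :=
  leadingCoeff_ne_zero.2 (tau_ne_zero l n hP)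

/-- the form `y ^ l - x ^ n` -/
noncomputable def H (l n : ℕ) : k[X][X] := X ^ l - C (X ^ n)

lemma H_monic {l : ℕ} (hl : 0 < l) (n : ℕ) : (H l n : k[X][X]).Monic :=
  monic_X_pow_sub_C _ hl.ne'

lemma H_natDegree {l : ℕ} (hl : 0 < l) (n : ℕ) : (H l n : k[X][X]).natDegree = l :=
  natDegree_X_pow_sub_C

lemma H_coeff (l n i j : ℕ) : ((H l n : k[X][X]).coeff i).coeff j =
    (if i = l ∧ j = 0 then 1 else 0) - (if i = 0 ∧ j = n then 1 else 0) := by
  unfold H
  rw [coeff_sub, coeff_sub, coeff_X_pow, coeff_C]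
  congr 1
  · by_cases h1 : i = l
    · by_cases h2 : j = 0
      · simp [h1, h2]
      · simp [h1, h2, coeff_one]
    · simp [h1]
  · by_cases h1 : i = 0
    · by_cases h2 : j = n
      · simp [h1, h2]
      · simp [h1, h2, coeff_X_pow]
    · simp [h1]

/-- the parametrization `x ↦ s ^ l`, `y ↦ s ^ n` -/
noncomputable def psi (l n : ℕ) : k[X][X] →+* k[X] :=
  eval₂RingHom (eval₂RingHom C (X ^ l)) (X ^ n)

lemma psi_monomial (l n i j : ℕ) (c : k) :
    psi l n (monomial i (monomial j c)) = monomial (l * j + n * i) c := by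
  simp only [psi, coe_eval₂RingHom, eval₂_monomial]
  simp only [← C_mul_X_pow_eq_monomial, ← pow_mul, pow_add]
  ring

lemma psi_H (l n : ℕ) : psi l n (H l n : k[X][X]) = 0 := by
  unfold psi H
  rw [map_sub, map_pow, coe_eval₂RingHom, eval₂_X, eval₂_C, map_pow, coe_eval₂RingHom, eval₂_X,
    ← pow_mul, ← pow_mul, mul_comm, sub_self]

/-- the coefficients of the image of a reduced polynomial -/
lemma psi_coeff {l n : ℕ} (hl : 0 < l) (hln : l.Coprime n) (i j : ℕ) (hi : i < l) (R : k[X][X])
    (hR : ∀ i', l ≤ i' → R.coeff i' = 0) :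
    (psi l n R).coeff (l * j + n * i) = (R.coeff i).coeff j := by
  have h1 : R = ∑ i' ∈ Finset.range l, monomial i' (R.coeff i') := by
    conv_lhs => rw [R.as_sum_range' (max l (R.natDegree + 1)) (by omega)]
    symm
    apply Finset.sum_subset
    · intro a ha
      simp only [Finset.mem_range] at ha ⊢
      omega
    · intro a _ ha
      simp only [Finset.mem_range, not_lt] at ha
      rw [hR a ha, monomial_zero_right]
  have h2 : ∀ (i' : ℕ) (a : k[X]), i' < l → (psi l n (monomial i' a)).coeff (l * j + n * i) =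
      if i' = i then a.coeff j else 0 := by
    intro i' a hi'
    induction a using Polynomial.induction_on' with
    | add p q hp hq =>
      simp only [map_add, coeff_add, hp, hq]
      split_ifs <;> simp
    | monomial j' c =>
      rw [psi_monomial, coeff_monomial]
      by_cases h3 : i' = i
      · subst h3
        by_cases h4 : j' = j
        · subst h4
          simp
        · have : ¬ (l * j' + n * i' = l * j + n * i') := by
            intro h
            apply h4
            exact Nat.eq_of_mul_eq_mul_left hl (by omega)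
          simp [this, h4, coeff_monomial, hl.ne']
      · have : ¬ (l * j' + n * i' = l * j + n * i) := by
          intro h
          apply h3
          have h5 : (n * i') ≡ (n * i) [MOD l] := by
            have h6 : (l * j' + n * i') % l = (l * j + n * i) % l := by rw [h]
            rw [Nat.mul_add_mod, Nat.mul_add_mod] at h6
            exact h6
          have h7 : i' ≡ i [MOD l] := Nat.ModEq.cancel_left_of_coprime hln h5
          exact Nat.ModEq.eq_of_lt_of_lt h7 hi' hi
        simp [this, h3]
  conv_lhs => rw [h1]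
  rw [map_sum, finset_sum_coeff, Finset.sum_congr rfl
    (fun i' hi' => h2 i' (R.coeff i') (Finset.mem_range.1 hi'))]
  simp [Finset.sum_ite_eq', hi]

lemma H_prime {l n : ℕ} (hl : 0 < l) (hln : l.Coprime n) : Prime (H l n : k[X][X]) := by
  have hk : RingHom.ker (psi l n : k[X][X] →+* k[X]) = Ideal.span {(H l n : k[X][X])} := by
    apply le_antisymm
    · intro P hP
      rw [RingHom.mem_ker] at hP
      rw [Ideal.mem_span_singleton, ← modByMonic_eq_zero_iff_dvd (H_monic hl n)]
      have h1 : psi l n (P %ₘ H l n) = 0 := by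
        have := modByMonic_add_div P (H l n : k[X][X])
        have h2 : psi l n (P %ₘ H l n + H l n * (P /ₘ H l n)) = psi l n P := by rw [this]
        rw [map_add, map_mul, psi_H, zero_mul, add_zero, hP] at h2
        exact h2
      have h3 : ∀ i', l ≤ i' → (P %ₘ (H l n : k[X][X])).coeff i' = 0 := by
        intro i' hi'
        apply coeff_eq_zero_of_degree_lt
        refine lt_of_lt_of_le (degree_modByMonic_lt P (H_monic hl n)) ?_
        rw [degree_eq_natDegree (H_monic hl n).ne_zero, H_natDegree hl n]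
        exact_mod_cast hi'
      ext i j
      by_cases hi : i < l
      · rw [← psi_coeff hl hln i j hi _ h3, h1]
        simp
      · rw [h3 i (not_lt.1 hi)]
        simp
    · rw [Ideal.span_singleton_le_iff_mem, RingHom.mem_ker]
      exact psi_H l n
  rw [← Ideal.span_singleton_prime (H_monic hl n).ne_zero, ← hk]
  exact RingHom.ker_isPrime _

lemma natDegree_tau_G {l n : ℕ} (hl : 0 < l) (hn : 0 < n) {G : k[X][X]} (hG : IsCab l n G) :
    (tau l n G).coeff (l * n) = H l n ∧ (tau l n G).natDegree = l * n := by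
  have hc : ∀ i j : ℕ, l * n ≤ l * j + n * i → (G.coeff i).coeff j = ((H l n).coeff i).coeff j := by
    intro i j hij
    by_contra h
    have h1 : ((G - (X ^ l - C (X ^ n))).coeff i).coeff j ≠ 0 := by
      rw [coeff_sub, coeff_sub]
      exact sub_ne_zero.2 h
    have := hG i j h1
    omega
  have hH : ∀ i j : ℕ, l * j + n * i ≠ l * n → ((H l n : k[X][X]).coeff i).coeff j = 0 := by
    intro i j hij
    rw [H_coeff]
    have h1 : ¬ (i = l ∧ j = 0) := by
      rintro ⟨rfl, rfl⟩
      exact hij (by ring)
    have h2 : ¬ (i = 0 ∧ j = n) := by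
      rintro ⟨rfl, rfl⟩
      exact hij (by ring)
    simp [h1, h2]
  have h1 : (tau l n G).coeff (l * n) = H l n := by
    ext i j
    rw [coeff_tau]
    split_ifs with h
    · exact hc i j h.ge
    · exact (hH i j h).symm
  refine ⟨h1, ?_⟩
  apply le_antisymm
  · rw [natDegree_le_iff_coeff_eq_zero]
    intro d hd
    ext i j
    rw [coeff_tau]
    split_ifs with h
    · rw [hc i j (by omega), hH i j (by omega)]
      simp
    · simp
  · apply le_natDegree_of_ne_zero
    rw [h1]
    exact (H_monic hl n).ne_zero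

lemma lf_G {l n : ℕ} (hl : 0 < l) (hn : 0 < n) {G : k[X][X]} (hG : IsCab l n G) :
    lf l n G = H l n := by
  obtain ⟨h1, h2⟩ := natDegree_tau_G hl hn hG
  unfold lf
  rw [leadingCoeff, h2, h1]

lemma wt_G {l n : ℕ} (hl : 0 < l) (hn : 0 < n) {G : k[X][X]} (hG : IsCab l n G) :
    wt l n G = l * n := (natDegree_tau_G hl hn hG).2

/-- if the leading form is a unit then the polynomial is a constant -/
lemma const_of_lf {l n : ℕ} (hl : 0 < l) (hn : 0 < n) {P : k[X][X]} (hP : IsUnit (lf l n P)) :
    ∃ c : k, c ≠ 0 ∧ P = C (C c) := by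
  obtain ⟨a, ha, h1⟩ := Polynomial.isUnit_iff.1 hP
  obtain ⟨c, hc, h2⟩ := Polynomial.isUnit_iff.1 ha
  have hc0 : c ≠ 0 := hc.ne_zero
  have h3 : (((tau l n P).coeff (tau l n P).natDegree).coeff 0).coeff 0 = c := by
    have : (tau l n P).coeff (tau l n P).natDegree = C (C c) := by
      rw [h2, h1]
      rfl
    rw [this]
    simp
  rw [coeff_tau] at h3
  have h4 : (tau l n P).natDegree = 0 := by
    by_contra h
    rw [if_neg (by simpa using (Ne.symm h))] at h3
    exact hc0 h3.symm
  have h5 : ∀ i j : ℕ, l * j + n * i ≠ 0 → (P.coeff i).coeff j = 0 := by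
    intro i j hij
    have := coeff_tau l n (l * j + n * i) i j P
    rw [if_pos rfl] at this
    have h6 : (tau l n P).coeff (l * j + n * i) = 0 := coeff_eq_zero_of_natDegree_lt (by omega)
    rw [← this, h6]
    simp
  refine ⟨(P.coeff 0).coeff 0, ?_, ?_⟩
  · rw [h4, if_pos (by simp)] at h3
    rw [h3]
    exact hc0
  · ext i j
    by_cases hi : i = 0
    · subst hi
      by_cases hj : j = 0
      · subst hj
        simp
      · rw [h5 0 j (by have := Nat.mul_pos hl (Nat.pos_of_ne_zero hj); omega)]
        simp [coeff_C, hj]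
    · rw [h5 i j (by have := Nat.mul_pos hn (Nat.pos_of_ne_zero hi); omega)]
      simp [coeff_C, hi]

lemma coeff_lf_zero {l n : ℕ} {P : k[X][X]} {i : ℕ} (h : P.coeff i = 0) : (lf l n P).coeff i = 0 := by
  ext j
  unfold lf
  rw [leadingCoeff, coeff_tau, h]
  simp

/-- reduced polynomials have no leading form divisible by `y ^ l - x ^ n` -/
lemma not_dvd_lf {l n : ℕ} (hl : 0 < l) {P : k[X][X]} (hP : P ≠ 0)
    (hPl : ∀ i, l ≤ i → P.coeff i = 0) : ¬ H l n ∣ lf l n P := by
  intro h
  have h1 : (lf l n P).natDegree < l := by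
    rw [natDegree_lt_iff_degree_lt (lf_ne_zero l n hP), degree_lt_iff_coeff_zero]
    intro m hm
    exact coeff_lf_zero (hPl m (by exact_mod_cast hm))
  have h2 := natDegree_le_of_dvd h (lf_ne_zero l n hP)
  rw [H_natDegree hl n] at h2
  omega

lemma G_monic {l n : ℕ} (hl : 0 < l) (hn : 0 < n) {G : k[X][X]} (hG : IsCab l n G) :
    G.Monic ∧ G.natDegree = l := by
  have h0 : ∀ i, l ≤ i → (G - H l n).coeff i = 0 := by
    intro i hi
    ext j
    by_contra h
    have := hG i j h
    have h1 : l * n ≤ n * i := by rw [mul_comm l n]; exact Nat.mul_le_mul_left n hi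
    omega
  have h1 : (G - H l n).degree < (H l n : k[X][X]).degree := by
    rw [degree_eq_natDegree (H_monic hl n).ne_zero, H_natDegree hl n, degree_lt_iff_coeff_zero]
    intro m hm
    exact h0 m (by exact_mod_cast hm)
  have h2 : G = H l n + (G - H l n) := by ring
  have h3 : G.Monic := by
    rw [h2]
    exact (H_monic hl n).add_of_left h1
  refine ⟨h3, ?_⟩
  rw [h2, natDegree_add_eq_left_of_degree_lt h1, H_natDegree hl n]

theorem t_W : StW := by
  intro k _ l n hl hn hln G hG
  have hprime : Prime (H l n : k[X][X]) := H_prime hl hln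
  obtain ⟨hGm, hGd⟩ := G_monic hl hn hG
  have hG0 : G ≠ 0 := hGm.ne_zero
  refine ⟨⟨?_, ?_⟩, ?_⟩
  · intro hu
    have := natDegree_eq_zero_of_isUnit hu
    omega
  · intro P Q hPQ
    have h1 : H l n = lf l n P * lf l n Q := by
      rw [← lf_mul, ← hPQ, lf_G hl hn hG]
    rcases hprime.irreducible.isUnit_or_isUnit h1 with h | h
    · left
      obtain ⟨c, hc, rfl⟩ := const_of_lf hl hn h
      exact ((isUnit_iff_ne_zero.2 hc).map C).map C
    · right
      obtain ⟨c, hc, rfl⟩ := const_of_lf hl hn h
      exact ((isUnit_iff_ne_zero.2 hc).map C).map C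
  · intro u hu
    obtain ⟨z, hz⟩ := hu.exists_right_inv
    obtain ⟨U₀, rfl⟩ := AdjoinRoot.mk_surjective u
    obtain ⟨Z₀, rfl⟩ := AdjoinRoot.mk_surjective z
    have hred : ∀ P : k[X][X], AdjoinRoot.mk G P = AdjoinRoot.mk G (P %ₘ G) ∧
        ∀ i, l ≤ i → (P %ₘ G).coeff i = 0 := by
      intro P
      constructor
      · rw [AdjoinRoot.mk_eq_mk]
        refine ⟨P /ₘ G, ?_⟩
        have := modByMonic_add_div P G
        linear_combination -this
      · intro i hi
        apply coeff_eq_zero_of_degree_lt
        refine lt_of_lt_of_le (degree_modByMonic_lt P hGm) ?_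
        rw [degree_eq_natDegree hG0, hGd]
        exact_mod_cast hi
    obtain ⟨hU1, hU2⟩ := hred U₀
    obtain ⟨hZ1, hZ2⟩ := hred Z₀
    rw [hU1] at hz ⊢
    rw [hZ1] at hz
    set U := U₀ %ₘ G
    set Z := Z₀ %ₘ G
    rw [← map_mul, ← map_one (AdjoinRoot.mk G), AdjoinRoot.mk_eq_mk] at hz
    obtain ⟨Q, hQ⟩ := hz
    have hUZ : U * Z = G * Q + 1 := by linear_combination hQ
    have hQ0 : Q = 0 := by
      by_contra hQ0
      have hne : G * Q ≠ 0 := mul_ne_zero hG0 hQ0
      have hw : 0 < wt l n (G * Q) := by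
        rw [wt_mul l n hG0 hQ0, wt_G hl hn hG]
        positivity
      have h1 : lf l n (U * Z) = H l n * lf l n Q := by
        rw [hUZ, ← lf_G hl hn hG, ← lf_mul]
        unfold lf
        rw [map_add, map_one]
        apply leadingCoeff_add_of_degree_lt'
        rw [degree_one, degree_eq_natDegree (tau_ne_zero l n hne)]
        exact_mod_cast hw
      have hUZ0 : U * Z ≠ 0 := by
        intro h
        rw [h] at h1
        have : lf l n (0 : k[X][X]) = 0 := by simp [lf]
        rw [this] at h1
        exact mul_ne_zero hprime.ne_zero (lf_ne_zero l n hQ0) h1.symm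
      have hU0 : U ≠ 0 := left_ne_zero_of_mul hUZ0
      have hZ0 : Z ≠ 0 := right_ne_zero_of_mul hUZ0
      rw [lf_mul] at h1
      rcases hprime.dvd_or_dvd ⟨_, h1⟩ with h | h
      · exact not_dvd_lf hl hU0 hU2 h
      · exact not_dvd_lf hl hZ0 hZ2 h
    rw [hQ0, mul_zero, zero_add] at hUZ
    have hUu : IsUnit U := IsUnit.of_mul_eq_one _ hUZ
    obtain ⟨a, ha, h1⟩ := Polynomial.isUnit_iff.1 hUu
    obtain ⟨c, hc, h2⟩ := Polynomial.isUnit_iff.1 ha
    refine ⟨c, hc.ne_zero, ?_⟩
    rw [← h1, ← h2]
    rfl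

end Pool.Agent.Zk97.CB.WW

namespace Pool.Agent.Zk97.CB

/-- **Module W.** -/
theorem t_W : StW := WW.t_W

end Pool.Agent.Zk97.CB
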