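import Mathlib

/-!
# The divisor class group of a function field: definitions and statements
-/

set_option autoImplicit false
set_option linter.all false

open Polynomial

namespace Pool.Agent.Zk97.CB

section
variable (K L : Type) [Field K] [Field L] [Algebra K L]

/-- the places of `L` over `K`: the closed points of the smooth projective curve with the function
field `L` -/
def Place : Type := {O : ValuationSubring L // (∀ c : K, algebraMap K L c ∈ O) ∧ O ≠ ⊤}

/-- the orders of a function at the places, in the value groups -/
noncomputable def ordP : Additive Lˣ →+ ((O : Place K L) → Additive (O.1.ValueGroup)ˣ) :=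
  Pi.addMonoidHom fun O : Place K L =>
    MonoidHom.toAdditive (Units.map (O.1.valuation.toMonoidWithZeroHom : L →* O.1.ValueGroup))

/-- the divisors: almost all coordinates are zero -/
def DivP : AddSubgroup ((O : Place K L) → Additive (O.1.ValueGroup)ˣ) where
  carrier := {D | {O | D O ≠ 0}.Finite}
  zero_mem' := by
    show {O | (0 : (O : Place K L) → Additive (O.1.ValueGroup)ˣ) O ≠ 0}.Finite
    simp
  add_mem' := by
    intro D D' h h'
    refine (Set.Finite.union h h').subset ?_
    intro O hO
    by_contra h1
    apply hO
    rw [Set.mem_union, not_or] at h1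
    have e1 : D O = 0 := not_not.1 h1.1
    have e2 : D' O = 0 := not_not.1 h1.2
    show D O + D' O = 0
    rw [e1, e2, add_zero]
  neg_mem' := by
    intro D h
    refine h.subset ?_
    intro O hO h1
    apply hO
    show -D O = 0
    rw [h1, neg_zero]

/-- the rank of the divisor class group: the rank of the group of the divisors modulo the principal
divisors -/
noncomputable def picRank : Cardinal :=
  Module.rank ℤ (DivP K L ⧸ (ordP K L).range.comap (DivP K L).subtype)

/-- the rank of the group of the units of `T` modulo the constants (as in `GDefs`) -/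
noncomputable def uRank {K T : Type} [Field K] [CommRing T] (f : K →+* T) : Cardinal :=
  Module.rank ℤ (Additive Tˣ ⧸
    LinearMap.range (MonoidHom.toAdditive (Units.map (f : K →* T))).toIntLinearMap)

end

/-- X: the divisor class group, if `T` is a principal ideal domain with the fraction field `L`, and `Z`
is the set of the places which do not contain `T` -/
def StX : Prop := ∀ (K L T : Type) [Field K] [Field L] [Algebra K L] [CommRing T] [IsDomain T]
  [IsPrincipalIdealRing T] [Algebra T L] [IsFractionRing T L] (κ : K →+* T),
  (∀ c, algebraMap T L (κ c) = algebraMap K L c) →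
  (∀ t : L, {O : ValuationSubring L | (∀ c : K, algebraMap K L c ∈ O) ∧ t ∉ O}.Finite) →
  (∀ O : Place K L, IsDiscreteValuationRing O.1) →
  {O : Place K L | ¬ ∀ t : T, algebraMap T L t ∈ O.1}.Finite →
  (∀ t : L, (∀ O : Place K L, t ∈ O.1) → ∃ c : K, algebraMap K L c = t) →
  picRank K L + uRank κ = ({O : Place K L | ¬ ∀ t : T, algebraMap T L t ∈ O.1}.ncard : Cardinal)

/-- absolutely irreducible (as in `GDefs`) -/
def AbsIrrX {F : Type} [Field F] (G : F[X][X]) : Prop :=
  ∀ (k : Type) [Field k] (φ : F →+* k), Irreducible (G.map (mapRingHom φ))

/-- Y1: the places are discrete. Y2: only the constants have no poles. -/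
def StXY : Prop := ∀ (K L : Type) [Field K] [CharZero K] [Field L] [Algebra K L] (f : K[X][X]), f.Monic →
  0 < f.natDegree → AbsIrrX f → ∀ [Algebra (AdjoinRoot f) L] [IsFractionRing (AdjoinRoot f) L],
  (∀ c : K, algebraMap K L c = algebraMap (AdjoinRoot f) L (AdjoinRoot.of f (C c))) →
  (∀ O : Place K L, IsDiscreteValuationRing O.1) ∧
  (∀ t : L, (∀ O : Place K L, t ∈ O.1) → ∃ c : K, algebraMap K L c = t)

end Pool.Agent.Zk97.CB
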