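import Pool.Agent.Zk97.CB.Defs

/-!
# Pencils of `C_ab` curves: the modules
-/

set_option autoImplicit false
set_option linter.all false

open Polynomial

namespace Pool.Agent.Zk97.CB

/-- W: irreducibility and units -/
def StW : Prop := ∀ (k : Type) [Field k] (l n : ℕ), 0 < l → 0 < n → l.Coprime n →
  ∀ G : k[X][X], IsCab l n G → Irreducible G ∧
    ∀ u : AdjoinRoot G, IsUnit u → ∃ c : k, c ≠ 0 ∧ u = AdjoinRoot.of G (C c)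

/-- R: the rank of the class group -/
def StR : Prop := ∀ (T A : Type) [CommRing T] [IsDedekindDomain T] [CommRing A] [IsDomain A]
  [UniqueFactorizationMonoid A] (θ : A →+* T) (a : A), Function.Injective θ → a ≠ 0 →
  (∀ z : T, ∃ (u : T) (k : ℕ) (P : A), IsUnit u ∧ u * θ a ^ k * z = θ P) →
  (∀ 𝔭 : Ideal T, 𝔭.IsPrime → 𝔭 ≠ ⊥ → θ a ∉ 𝔭 → ∃ π : A, 𝔭.comap θ = Ideal.span {π}) →
  (∀ π : A, Irreducible π → ¬ π ∣ a → (∃ k : ℕ, θ π ∣ θ a ^ k) →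
    ∃ (u : T) (k : ℕ), IsUnit u ∧ θ π = u * θ a ^ k) →
  (∀ D₁ D₂ : A, (∃ k : ℕ, D₁ ∣ a ^ k) → (∃ k : ℕ, D₂ ∣ a ^ k) → IsRelPrime D₁ D₂ →
    (∃ u : T, IsUnit u ∧ θ D₁ = u * θ D₂) → IsUnit D₁ ∧ IsUnit D₂) →
  Module.rank ℤ (Additive (ClassGroup T)) + ((Ideal.span {a}).minimalPrimes.ncard : Cardinal) =
    ({𝔮 : Ideal T | 𝔮.IsPrime ∧ θ a ∈ 𝔮}.ncard : Cardinal)

/-- Z: the bound of Weil for `C_ab` curves (which may be singular) -/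
def StZ : Prop := ∀ l n : ℕ, 0 < l → 0 < n → l.Coprime n → ∃ c : ℝ, 0 ≤ c ∧
  ∀ (F : Type) [Field F] [Finite F] (G : F[X][X]), ((l : ℕ) : F) ≠ 0 → IsCab l n G →
    |(Nat.card {P : F × F // evalEval P.1 P.2 G = 0} : ℝ) - Nat.card F| ≤ c * √(Nat.card F : ℝ)

/-- D: dimension theory of the plane -/
def StD : Prop := ∀ (M : Type) [Field M],
  (∀ 𝔭 : Ideal M[X][X], 𝔭.IsMaximal → Algebra.trdeg M (M[X][X] ⧸ 𝔭) = 0) ∧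
  (∀ π : M[X][X], Irreducible π → Algebra.trdeg M (M[X][X] ⧸ Ideal.span {π}) = 1) ∧
  (∀ 𝔯 : Ideal M[X][X], 𝔯.IsPrime → ∀ π ∈ 𝔯, Irreducible π → 𝔯 = Ideal.span {π} ∨ 𝔯.IsMaximal) ∧
  (∀ 𝔯 : Ideal M[X][X], 𝔯.IsMaximal → ∀ a b : M[X][X], a ∉ 𝔯 →
    ∃ D : M[X], D ≠ 0 ∧ hm D b a ∈ 𝔯)

end Pool.Agent.Zk97.CB
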