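import Pool.Agent.Zk97.CB.P4

/-!
# Pencils of plane curves of degree `d`
-/

set_option autoImplicit false
set_option linter.all false

open Polynomial

namespace Pool.Agent.Zk97.CB

section
variable {R S : Type} [CommRing R] [CommRing S]

theorem top_coeff (d : ℕ) (P : R[X][X]) (i : ℕ) :
    (top d P).coeff i = if i ≤ d then (P.coeff i).coeff (d - i) else 0 := by
  unfold top
  rw [finsetSum_coeff]
  simp only [coeff_C_mul_X_pow]
  rw [Finset.sum_ite_eq]
  split_ifs with h1 h2 h2
  · rfl
  · exact absurd (Nat.lt_succ_iff.1 (Finset.mem_range.1 h1)) h2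
  · exact absurd (Finset.mem_range.2 (Nat.lt_succ_iff.2 h2)) h1
  · rfl

theorem top_map (φ : R →+* S) (d : ℕ) (P : R[X][X]) :
    (top d P).map φ = top d (P.map (mapRingHom φ)) := by
  ext i
  rw [coeff_map, top_coeff, top_coeff]
  split_ifs
  · rw [coeff_map, coe_mapRingHom, coeff_map]
  · rw [map_zero]

theorem dx_coeff (P : R[X][X]) (i : ℕ) : (dx P).coeff i = derivative (P.coeff i) := by
  unfold dx
  rw [finsetSum_coeff]
  simp only [coeff_C_mul_X_pow]
  rw [Finset.sum_ite_eq]
  split_ifs with h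
  · rfl
  · have h1 : P.natDegree < i := by
      rw [Finset.mem_range] at h
      omega
    rw [coeff_eq_zero_of_natDegree_lt h1, derivative_zero]

theorem dx_map (φ : R →+* S) (P : R[X][X]) :
    (dx P).map (mapRingHom φ) = dx (P.map (mapRingHom φ)) := by
  ext1 i
  rw [coeff_map, dx_coeff, dx_coeff, coeff_map, coe_mapRingHom, derivative_map]

theorem DegLe.map (φ : R →+* S) {d : ℕ} {P : R[X][X]} (h : DegLe d P) : DegLe d (P.map (mapRingHom φ)) := by
  intro i j hij
  apply h i j
  intro h0
  apply hij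
  rw [coeff_map, coe_mapRingHom, coeff_map, h0, map_zero]

theorem DegLe.sub {d : ℕ} {P Q : R[X][X]} (h : DegLe d P) (h' : DegLe d Q) : DegLe d (P - Q) := by
  intro i j hij
  by_cases h0 : (P.coeff i).coeff j = 0
  · apply h' i j
    intro h1
    apply hij
    rw [coeff_sub, coeff_sub, h0, h1, sub_zero]
  · exact h i j h0

theorem DegLe.cmul {d : ℕ} (c : R) {P : R[X][X]} (h : DegLe d P) : DegLe d (C (C c) * P) := by
  intro i j hij
  apply h i j
  intro h0
  apply hij
  rw [coeff_C_mul, coeff_C_mul, h0, mul_zero]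

theorem IsPlane.map (φ : R →+* S) {d : ℕ} {P : R[X][X]} (h : IsPlane d P) :
    IsPlane d (P.map (mapRingHom φ)) :=
  ⟨h.1.map φ, by rw [coeff_map, h.2, map_one]⟩

theorem DegLe.coeff_zero {d : ℕ} {P : R[X][X]} (h : DegLe d P) {i : ℕ} (hi : d < i) : P.coeff i = 0 := by
  ext j
  by_contra h0
  have := h i j h0
  omega

theorem IsPlane.monic [Nontrivial R] {d : ℕ} {P : R[X][X]} (h : IsPlane d P) :
    P.Monic ∧ P.natDegree = d := by
  have h1 : P.natDegree ≤ d := by
    rw [natDegree_le_iff_coeff_eq_zero]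
    exact fun i hi => h.1.coeff_zero hi
  have h2 : P.natDegree = d := le_antisymm h1 (le_natDegree_of_ne_zero (by rw [h.2]; exact one_ne_zero))
  exact ⟨by rw [Monic, leadingCoeff, h2, h.2], h2⟩

theorem IsPlane.top_monic [Nontrivial R] {d : ℕ} {P : R[X][X]} (h : IsPlane d P) :
    (top d P).Monic ∧ (top d P).natDegree = d := by
  have h0 : (top d P).coeff d = 1 := by
    rw [top_coeff, if_pos le_rfl, Nat.sub_self, h.2, coeff_one_zero]
  have h1 : (top d P).natDegree ≤ d := by
    rw [natDegree_le_iff_coeff_eq_zero]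
    intro i hi
    rw [top_coeff, if_neg (by omega)]
  have h2 : (top d P).natDegree = d := le_antisymm h1 (le_natDegree_of_ne_zero (by rw [h0]; exact one_ne_zero))
  exact ⟨by rw [Monic, leadingCoeff, h2, h0], h2⟩

theorem Smooth.map (φ : R →+* S) {G : R[X][X]} (h : Smooth G) : Smooth (G.map (mapRingHom φ)) := by
  obtain ⟨u, v, s, h1⟩ := h
  refine ⟨u.map (mapRingHom φ), v.map (mapRingHom φ), s.map (mapRingHom φ), ?_⟩
  rw [← dx_map, derivative_map, ← Polynomial.map_mul, ← Polynomial.map_mul, ← Polynomial.map_mul,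
    ← Polynomial.map_add, ← Polynomial.map_add, h1, Polynomial.map_one]

end

section
variable {S K : Type} [CommRing S] [IsDomain S] [Field K] [Algebra S K] [IsFractionRing S K]

theorem clearS1 (z : K[X]) : ∃ (D : S) (P : S[X]), D ≠ 0 ∧ P.map (algebraMap S K) = C (algebraMap S K D) * z := by
  induction z using Polynomial.induction_on' with
  | add p q hp hq =>
    obtain ⟨D1, P1, h1, h2⟩ := hp
    obtain ⟨D2, P2, h3, h4⟩ := hq
    refine ⟨D1 * D2, C D2 * P1 + C D1 * P2, mul_ne_zero h1 h3, ?_⟩
    rw [Polynomial.map_add, Polynomial.map_mul, Polynomial.map_mul, h2, h4, Polynomial.map_C,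
      Polynomial.map_C, map_mul, C_mul]
    ring
  | monomial n a =>
    obtain ⟨p, q, h1, rfl⟩ := IsFractionRing.div_surjective (A := S) a
    have hq : q ≠ 0 := nonZeroDivisors.ne_zero h1
    refine ⟨q, monomial n p, hq, ?_⟩
    rw [Polynomial.map_monomial, C_mul_monomial]
    congr 1
    have : algebraMap S K q ≠ 0 := by
      rw [Ne, map_eq_zero_iff _ (IsFractionRing.injective S K)]
      exact hq
    field_simp

theorem clearS2 (z : K[X][X]) : ∃ (D : S) (P : S[X][X]), D ≠ 0 ∧
    P.map (mapRingHom (algebraMap S K)) = C (C (algebraMap S K D)) * z := by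
  induction z using Polynomial.induction_on' with
  | add p q hp hq =>
    obtain ⟨D1, P1, h1, h2⟩ := hp
    obtain ⟨D2, P2, h3, h4⟩ := hq
    refine ⟨D1 * D2, C (C D2) * P1 + C (C D1) * P2, mul_ne_zero h1 h3, ?_⟩
    rw [Polynomial.map_add, Polynomial.map_mul, Polynomial.map_mul, h2, h4, Polynomial.map_C,
      Polynomial.map_C, coe_mapRingHom, Polynomial.map_C, Polynomial.map_C, map_mul, C_mul, C_mul]
    ring
  | monomial n a =>
    obtain ⟨D, P, h1, h2⟩ := clearS1 (S := S) a
    refine ⟨D, monomial n P, h1, ?_⟩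
    rw [Polynomial.map_monomial, C_mul_monomial, coe_mapRingHom, h2]

/-- smoothness spreads out -/
theorem spread_good {d : ℕ} {G : S[X][X]} (hG : IsPlane d G)
    (h : Good d (G.map (mapRingHom (algebraMap S K)))) :
    ∃ Δ : S, Δ ≠ 0 ∧ ∀ (k : Type) [Field k] (φ : S →+* k), φ Δ ≠ 0 → Good d (G.map (mapRingHom φ)) := by
  have hinj : Function.Injective (algebraMap S K) := IsFractionRing.injective S K
  have hinj1 : Function.Injective (mapRingHom (algebraMap S K)) := Polynomial.map_injective _ hinj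
  obtain ⟨-, ⟨u, v, s, h1⟩, ⟨a, b, h2⟩⟩ := h
  obtain ⟨D1, u', hD1, e1⟩ := clearS2 (S := S) u
  obtain ⟨D2, v', hD2, e2⟩ := clearS2 (S := S) v
  obtain ⟨D3, s', hD3, e3⟩ := clearS2 (S := S) s
  obtain ⟨E1, a', hE1, e4⟩ := clearS1 (S := S) a
  obtain ⟨E2, b', hE2, e5⟩ := clearS1 (S := S) b
  have k1 : C (C (D2 * D3)) * u' * G + C (C (D1 * D3)) * v' * dx G + C (C (D1 * D2)) * s' * derivative G =
      C (C (D1 * D2 * D3)) := by
    apply Polynomial.map_injective _ hinj1
    simp only [Polynomial.map_add, Polynomial.map_mul, Polynomial.map_C, coe_mapRingHom, e1, e2, e3]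
    rw [dx_map, ← derivative_map]
    have := congrArg (fun z => C (C (algebraMap S K (D1 * D2 * D3))) * z) h1
    simp only [mul_one, map_mul, C_mul] at this ⊢
    rw [← this]
    ring
  have k2 : C E2 * a' * top d G + C E1 * b' * derivative (top d G) = C (E1 * E2) := by
    apply Polynomial.map_injective _ hinj
    simp only [Polynomial.map_add, Polynomial.map_mul, Polynomial.map_C, e4, e5]
    rw [← derivative_map, top_map]
    have := congrArg (fun z => C (algebraMap S K (E1 * E2)) * z) h2
    simp only [mul_one, map_mul, C_mul] at this ⊢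
    rw [← this]
    ring
  refine ⟨D1 * D2 * D3 * (E1 * E2), mul_ne_zero (mul_ne_zero (mul_ne_zero hD1 hD2) hD3)
    (mul_ne_zero hE1 hE2), ?_⟩
  intro k _ φ hφ
  rw [map_mul] at hφ
  have hφ1 : φ (D1 * D2 * D3) ≠ 0 := left_ne_zero_of_mul hφ
  have hφ2 : φ (E1 * E2) ≠ 0 := right_ne_zero_of_mul hφ
  refine ⟨hG.map φ, ?_, ?_⟩
  · have k3 := congrArg (Polynomial.map (mapRingHom φ)) k1
    rw [Polynomial.map_add, Polynomial.map_add, Polynomial.map_mul, Polynomial.map_mul (p := C (C (D1 * D3)) * v'),
      Polynomial.map_mul (p := C (C (D1 * D2)) * s'), dx_map, ← derivative_map, Polynomial.map_C,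
      coe_mapRingHom, Polynomial.map_C] at k3
    refine ⟨C (C (φ (D1 * D2 * D3))⁻¹) * Polynomial.map (mapRingHom φ) (C (C (D2 * D3)) * u'),
      C (C (φ (D1 * D2 * D3))⁻¹) * Polynomial.map (mapRingHom φ) (C (C (D1 * D3)) * v'),
      C (C (φ (D1 * D2 * D3))⁻¹) * Polynomial.map (mapRingHom φ) (C (C (D1 * D2)) * s'), ?_⟩
    have hc : (C (C (φ (D1 * D2 * D3))⁻¹) * C (C (φ (D1 * D2 * D3))) : k[X][X]) = 1 := by
      rw [← C_mul, ← C_mul, inv_mul_cancel₀ hφ1, C_1, C_1]
    rw [← hc, ← k3]
    ring
  · have k3 := congrArg (Polynomial.map φ) k2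
    rw [Polynomial.map_add, Polynomial.map_mul, Polynomial.map_mul (p := C E1 * b'), top_map, ← derivative_map,
      top_map, Polynomial.map_C] at k3
    refine ⟨C (φ (E1 * E2))⁻¹ * Polynomial.map φ (C E2 * a'), C (φ (E1 * E2))⁻¹ * Polynomial.map φ (C E1 * b'), ?_⟩
    have hc : (C (φ (E1 * E2))⁻¹ * C (φ (E1 * E2)) : k[X]) = 1 := by
      rw [← C_mul, inv_mul_cancel₀ hφ2, C_1]
    rw [← hc, ← k3]
    ring

end

/-- the form at infinity of the generic member -/
theorem irr_pencil {M K : Type} [Field M] [Field K] [Algebra M K] {w : K} (hw : Transcendental M w)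
    (hK : ∀ z : K, ∃ p q : M[X], aeval w q ≠ 0 ∧ z * aeval w q = aeval w p) {p q : M[X]} (hp : p ≠ 0)
    (hq : q.Monic) (hd : p.natDegree < q.natDegree) (hpq : IsCoprime p q) :
    Irreducible (q.map (algebraMap M K) - C w * p.map (algebraMap M K)) := by
  let _ : Algebra M[X] K := (aeval w : M[X] →ₐ[M] K).toRingHom.toAlgebra
  have hinj : Function.Injective (algebraMap M[X] K) := transcendental_iff_injective.1 hw
  have hfs : FaithfulSMul M[X] K := (faithfulSMul_iff_algebraMap_injective _ _).2 hinj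
  have hfr : IsFractionRing M[X] K := by
    refine IsFractionRing.of_field M[X] K ?_
    intro z
    obtain ⟨a, b, h1, h2⟩ := hK z
    refine ⟨a, b, ?_⟩
    show z = aeval w a / aeval w b
    rw [← h2, mul_div_cancel_right₀ _ h1]
  have h1 : Irreducible (C (-p) * X + C q : M[X][X]) :=
    irreducible_C_mul_X_add_C (neg_ne_zero.2 hp) ((IsCoprime.neg_left hpq).isRelPrime)
  have h2 : Irreducible (Polynomial.Bivariate.swap (R := M) (C (-p) * X + C q)) := by
    rw [MulEquiv.irreducible_iff]
    exact h1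
  have e2 : Polynomial.Bivariate.swap (R := M) (C (-p) * X + C q) = q.map C - C X * p.map C := by
    rw [map_add, map_mul, Polynomial.Bivariate.swap_C, Polynomial.Bivariate.swap_C,
      Polynomial.Bivariate.swap_Y, Polynomial.map_neg]
    ring
  rw [e2] at h2
  have h3 : (q.map C - C X * p.map C : M[X][X]).Monic := by
    have h4 : (C X * p.map C : M[X][X]).degree < (q.map C : M[X][X]).degree := by
      rw [degree_mul, degree_C X_ne_zero, zero_add, degree_map_eq_of_injective C_injective,
        degree_map_eq_of_injective C_injective]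
      exact degree_lt_degree hd
    exact (hq.map C).sub_of_left h4
  have h5 := (h3.irreducible_iff_irreducible_map_fraction_map (K := K)).1 h2
  have e3 : (q.map C - C X * p.map C : M[X][X]).map (algebraMap M[X] K) =
      q.map (algebraMap M K) - C w * p.map (algebraMap M K) := by
    rw [Polynomial.map_sub, Polynomial.map_mul, Polynomial.map_map, Polynomial.map_map, Polynomial.map_C]
    have e4 : (algebraMap M[X] K).comp C = algebraMap M K := by
      refine RingHom.ext fun m => ?_
      exact aeval_C w m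
    have e5 : algebraMap M[X] K X = w := aeval_X w
    rw [e4, e5]
  rw [e3] at h5
  exact h5

end Pool.Agent.Zk97.CB
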