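import Pool.Agent.Zk97.CB.F2
import Pool.Agent.Zk97.CB.P5

/-!
# Pencils of plane curves of degree `d`: the counting statement
-/

set_option autoImplicit false
set_option linter.all false

open Polynomial

namespace Pool.Agent.Zk97.CB

/-- the number of the rational points of a plane curve of degree `d`, with the points at infinity,
minus `q + 1` -/
noncomputable def nqP (d : ℕ) (F : Type) [Field F] (G : F[X][X]) : ℝ :=
  nq F G + ((Nat.card {y : F // (top d G).eval y = 0} : ℝ) - 1)

open Classical in
/-- L: the sum over the members of a pencil which are not over the zeros of `D` -/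
def StL : Prop := ∀ d e : ℕ, 0 < d → ∃ K : ℝ, 0 ≤ K ∧ ∀ (F : Type) [Field F] [Fintype F]
  (a b : F[X][X]) (D : F[X]), IsPlane d b → DegLe d a → a.coeff d = 0 →
  IsCoprime (top d a) (top d b) → D ≠ 0 → D.natDegree ≤ e →
  |(∑ t : F, if D.eval t ≠ 0 then nqP d F (b - C (C t) * a) else 0) -
    ((Nat.card F : ℝ) * n2 a b - n1 a - n1 (hm D b a) + n1 (C D : F[X][X]))| ≤ K * (1 + n2 a b)

end Pool.Agent.Zk97.CB
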