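import Pool.Agent.Zk97.CB.A0

/-!
# Pencils of plane curves of degree `d`: the weights
-/

set_option autoImplicit false
set_option linter.all false

open Polynomial
open Pool.Agent.R410.NG (Wt IsWt)

namespace Pool.Agent.Zk97.CB

section
variable {R S : Type} [CommRing R] [CommRing S] {d : ℕ}

theorem Good.map (φ : R →+* S) {G : R[X][X]} (h : Good d G) : Good d (G.map (mapRingHom φ)) := by
  obtain ⟨h1, h2, h3⟩ := h
  refine ⟨h1.map φ, h2.map φ, ?_⟩
  have h4 := h3.map (mapRingHom φ)
  rw [coe_mapRingHom, ← derivative_map, top_map] at h4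
  exact h4

theorem plane_enc [Nontrivial R] {G : R[X][X]} (h : IsPlane d G) (j : Fin d) :
    (enc d d G j).Monic ∧ (enc d d G j).natDegree = d + 1 := by
  have h1 : (G.coeff (j : ℕ)).natDegree ≤ d := by
    rw [natDegree_le_iff_coeff_eq_zero]
    intro i hi
    by_contra h0
    have := h.1 _ _ h0
    omega
  have h2 : (G.coeff (j : ℕ)).degree < ((d + 1 : ℕ) : WithBot ℕ) := by
    refine degree_le_natDegree.trans_lt ?_
    rw [Nat.cast_withBot, Nat.cast_withBot, WithBot.coe_lt_coe]
    omega
  exact ⟨monic_X_pow_add h2, by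
    unfold enc
    rw [natDegree_add_eq_left_of_degree_lt (by rw [degree_X_pow]; exact h2), natDegree_X_pow]⟩

end

section
variable {d : ℕ}

theorem card_inf_le {F : Type} [Field F] (p : F[X]) (hp : p ≠ 0) :
    Nat.card {y : F // p.eval y = 0} ≤ p.natDegree := by
  classical
  have h1 : {y : F | p.eval y = 0} = (p.roots.toFinset : Set F) := by
    ext y
    simp [hp]
  have h2 : Nat.card {y : F // p.eval y = 0} = {y : F | p.eval y = 0}.ncard := rfl
  rw [h2, h1, Set.ncard_coe_finset]
  exact (Multiset.toFinset_card_le _).trans (card_roots' p)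

theorem nqP_iso {F F' : Type} [Field F] [Field F'] (e : F ≃+* F') (G : F[X][X]) :
    nqP d F' (G.map (mapRingHom (e : F →+* F'))) = nqP d F G := by
  unfold nqP
  rw [nq_iso]
  congr 3
  refine (Nat.card_congr (Equiv.subtypeEquiv e.toEquiv fun y => ?_)).symm
  rw [← top_map]
  show _ ↔ ((top d G).map (e : F →+* F')).eval ((e : F →+* F') y) = 0
  rw [eval_map_apply]
  exact (map_eq_zero_iff e e.injective).symm

open Classical in
/-- the weight -/
noncomputable def wtP (d : ℕ) : Wt (Fin d) := fun F _ p =>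
  if Good d (dec d d p) then nqP d F (dec d d p) else 0

theorem good_iso {F F' : Type} [Field F] [Field F'] (e : F ≃+* F') (G : F[X][X]) :
    Good d (G.map (mapRingHom (e : F →+* F'))) ↔ Good d G := by
  refine ⟨fun h => ?_, Good.map _⟩
  have h1 := Good.map (e.symm : F' →+* F) h
  rw [Polynomial.map_map, mapRingHom_comp] at h1
  have h2 : (e.symm : F' →+* F).comp (e : F →+* F') = RingHom.id F := by
    ext x
    simp
  rw [h2, mapRingHom_id, Polynomial.map_id] at h1
  exact h1

theorem isWt_wtP (hY : StY) (hd : 0 < d) : ∃ c : ℝ, IsWt (wtP d) (fun _ => d + 1) c := by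
  classical
  obtain ⟨c, hc0, h⟩ := hY d hd
  refine ⟨c + d, by positivity, ?_, ?_⟩
  · intro F F' _ _ e p
    unfold wtP
    rw [dec_map, nqP_iso]
    exact if_congr (good_iso e _) rfl rfl
  · intro F _ _ p _
    unfold wtP
    have hq : 1 ≤ (Nat.card F : ℝ) := by exact_mod_cast Nat.card_pos
    have hs : 1 ≤ √(Nat.card F : ℝ) := by rw [Real.one_le_sqrt]; exact hq
    have hd1 : (1 : ℝ) ≤ d := by exact_mod_cast hd
    split_ifs with h1
    · have e1 := h F _ h1
      have e2 : (Nat.card {y : F // (top d (dec d d p)).eval y = 0} : ℝ) ≤ d := by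
        have h2 := card_inf_le (top d (dec d d p)) h1.1.top_monic.1.ne_zero
        rw [h1.1.top_monic.2] at h2
        exact_mod_cast h2
      have e3 : (0 : ℝ) ≤ (Nat.card {y : F // (top d (dec d d p)).eval y = 0} : ℝ) := Nat.cast_nonneg _
      have e4 : |(Nat.card {y : F // (top d (dec d d p)).eval y = 0} : ℝ) - 1| ≤ d := by
        rw [abs_le]
        constructor <;> linarith
      unfold nqP
      refine (abs_add_le _ _).trans ?_
      rw [add_mul]
      refine add_le_add e1 (e4.trans ?_)
      exact le_mul_of_one_le_right (by positivity) hs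
    · rw [abs_zero]
      positivity

theorem wtP_enc {F : Type} [Field F] {G : F[X][X]} (h : Good d G) : wtP d F (enc d d G) = nqP d F G := by
  classical
  obtain ⟨h1, h2⟩ := h.1.monic
  unfold wtP
  rw [dec_enc h1 h2, if_pos h]

end

section
variable {A F : Type} [CommRing A] [Field F] [Fintype F] [Fintype (A →+* F)] {d : ℕ}

theorem hm_map {S : Type} [CommRing S] (φ : A →+* S) (D : A[X]) (b a : A[X][X])
    (hφ : φ D.leadingCoeff ≠ 0) : (hm D b a).map (mapRingHom φ) =
      hm (D.map φ) (b.map (mapRingHom φ)) (a.map (mapRingHom φ)) := by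
  unfold hm
  rw [natDegree_map_of_leadingCoeff_ne_zero φ hφ, Polynomial.map_sum]
  refine Finset.sum_congr rfl fun i _ => ?_
  rw [Polynomial.map_mul, Polynomial.map_mul, Polynomial.map_pow, Polynomial.map_pow, Polynomial.map_C,
    coe_mapRingHom, Polynomial.map_C, coeff_map]

open Classical in
/-- the sum over the points above a condition -/
theorem sum_wtP {a b : A[X][X]} {D : A[X]} (s : A)
    (hg : ∀ Φ : A[X] →+* F, Φ D ≠ 0 → Good d ((g1 a b).map (mapRingHom Φ)))
    [Fintype (A[X] →+* F)] (Q : (A →+* F) → Prop) :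
    (∑ Φ : A[X] →+* F, if Q (Φ.comp C) ∧ Φ (D * C s) ≠ 0 then
      wtP d F (fun j => (enc d d (g1 a b) j).map Φ) else 0) =
      ∑ φ : A →+* F, if Q φ ∧ φ s ≠ 0 then
        (∑ t : F, if (D.map φ).eval t ≠ 0 then
          nqP d F (b.map (mapRingHom φ) - C (C t) * a.map (mapRingHom φ)) else 0) else 0 := by
  rw [sum_line']
  refine Finset.sum_congr rfl fun φ _ => ?_
  have h0 : ∀ t : F, (eval₂RingHom φ t).comp C = φ := by
    intro t
    ext x
    simp
  have h1 : ∀ t : F, eval₂RingHom φ t (D * C s) = (D.map φ).eval t * φ s := by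
    intro t
    rw [map_mul, coe_eval₂RingHom, eval₂_C, eval_map]
  have h5 : ∀ t : F, eval₂RingHom φ t D = (D.map φ).eval t := by
    intro t
    rw [coe_eval₂RingHom, eval_map]
  by_cases h : Q φ ∧ φ s ≠ 0
  · rw [if_pos h]
    refine Finset.sum_congr rfl fun t _ => ?_
    rw [h0, h1]
    by_cases h2 : (D.map φ).eval t ≠ 0
    · rw [if_pos ⟨h.1, mul_ne_zero h2 h.2⟩, if_pos h2]
      have h3 : (fun j => (enc d d (g1 a b) j).map (eval₂RingHom φ t)) =
          enc d d ((g1 a b).map (mapRingHom (eval₂RingHom φ t))) := by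
        funext j
        rw [enc_map]
      rw [h3, wtP_enc (hg _ (by rw [h5]; exact h2)), g1_map]
    · rw [if_neg h2, if_neg]
      rintro ⟨-, h4⟩
      exact h2 (left_ne_zero_of_mul h4)
  · rw [if_neg h]
    refine Finset.sum_eq_zero fun t _ => ?_
    rw [h0, h1, if_neg]
    rintro ⟨h3, h4⟩
    exact h ⟨h3, right_ne_zero_of_mul h4⟩

end

end Pool.Agent.Zk97.CB
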