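import Pool.Agent.Zk97.CB.F1
import Pool.Agent.R410.NG.CBs

/-!
# Pencils of plane curves: the sums over the points
-/

set_option autoImplicit false
set_option linter.all false

open Polynomial
open Pool.Agent.R410.NG (Wt IsWt sR sT sR_eq sT_eq polyEquiv)

namespace Pool.Agent.Zk97.CB

section
variable {F : Type} [Field F] [Fintype F]

/-- the number of the common zeros -/
noncomputable def n1 (a : F[X][X]) : ℕ := Nat.card {P : F × F // evalEval P.1 P.2 a = 0}
noncomputable def n2 (a b : F[X][X]) : ℕ :=
  Nat.card {P : F × F // evalEval P.1 P.2 a = 0 ∧ evalEval P.1 P.2 b = 0}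

theorem card_filter {α : Type} [Fintype α] (p : α → Prop) [DecidablePred p] :
    (Nat.card {x : α // p x} : ℝ) = ∑ x : α, if p x then 1 else 0 := by
  rw [Nat.card_eq_fintype_card, Fintype.card_subtype, Finset.sum_ite, Finset.sum_const_zero, add_zero,
    Finset.sum_const, nsmul_eq_mul, mul_one]

theorem line_sum (a b : F[X][X]) : ∑ t : F, nq F (b - C (C t) * a) =
    (Nat.card F : ℝ) * n2 a b - n1 a := by
  classical
  set q : ℝ := (Nat.card F : ℝ) with hq
  have hqF : ((Fintype.card F : ℕ) : ℝ) = q := by rw [hq, Nat.card_eq_fintype_card]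
  have h1 : ∀ t : F, nq F (b - C (C t) * a) = (∑ P : F × F,
      if evalEval P.1 P.2 b = t * evalEval P.1 P.2 a then (1 : ℝ) else 0) - q := by
    intro t
    unfold nq
    rw [card_filter]
    congr 1
    refine Finset.sum_congr rfl fun P _ => if_congr ?_ rfl rfl
    rw [evalEval_sub, evalEval_mul, evalEval_CC, sub_eq_zero]
  rw [Finset.sum_congr rfl fun t _ => h1 t, Finset.sum_sub_distrib, Finset.sum_comm]
  have h2 : ∀ P : F × F, (∑ t : F, if evalEval P.1 P.2 b = t * evalEval P.1 P.2 a then (1 : ℝ) else 0) =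
      1 - (if evalEval P.1 P.2 a = 0 then (1 : ℝ) else 0) +
        q * (if evalEval P.1 P.2 a = 0 ∧ evalEval P.1 P.2 b = 0 then (1 : ℝ) else 0) := by
    intro P
    by_cases ha : evalEval P.1 P.2 a = 0
    · by_cases hb : evalEval P.1 P.2 b = 0
      · rw [if_pos ha, if_pos ⟨ha, hb⟩]
        rw [Finset.sum_congr rfl fun t _ => if_pos (by rw [ha, hb, mul_zero])]
        rw [Finset.sum_const, Finset.card_univ, nsmul_eq_mul, hqF]
        ring
      · rw [if_pos ha, if_neg (fun h => hb h.2)]
        rw [Finset.sum_congr rfl fun t _ => if_neg (by rw [ha, mul_zero]; exact hb)]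
        rw [Finset.sum_const_zero]
        ring
    · rw [if_neg ha, if_neg (fun h => ha h.1)]
      rw [Finset.sum_eq_single (evalEval P.1 P.2 b / evalEval P.1 P.2 a)]
      · rw [if_pos (by rw [div_mul_cancel₀ _ ha])]
        ring
      · intro t _ ht
        rw [if_neg]
        intro h
        apply ht
        rw [h, mul_div_cancel_right₀ _ ha]
      · intro h
        exact absurd (Finset.mem_univ _) h
  rw [Finset.sum_congr rfl fun P _ => h2 P, Finset.sum_add_distrib, Finset.sum_sub_distrib,
    ← Finset.mul_sum, Finset.sum_const, Finset.sum_const, Finset.card_univ, Finset.card_univ,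
    Fintype.card_prod]
  unfold n2 n1
  rw [card_filter, card_filter]
  push_cast
  rw [nsmul_eq_mul, nsmul_eq_mul, hqF]
  push_cast
  rw [hqF]
  ring

end

section
variable {A F : Type} [CommRing A] [Field F] [Fintype F]

theorem sum_line' [Fintype (A →+* F)] [Fintype (A[X] →+* F)] (f : (A[X] →+* F) → ℝ) :
    ∑ Φ : A[X] →+* F, f Φ = ∑ φ : A →+* F, ∑ t : F, f (eval₂RingHom φ t) := by
  refine (Fintype.sum_equiv (polyEquiv (A := A) (F := F)) _ (fun w => f (eval₂RingHom w.1 w.2))
    fun Φ => ?_).trans ?_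
  · show _ = f (eval₂RingHom (Φ.comp C) (Φ X))
    have e : eval₂RingHom (Φ.comp C) (Φ X) = Φ := by
      apply Polynomial.ringHom_ext
      · intro a
        rw [coe_eval₂RingHom, eval₂_C]
        rfl
      · rw [coe_eval₂RingHom, eval₂_X]
    rw [e]
  · rw [Fintype.sum_prod_type]

theorem ev2 (φ : A →+* F) (x y : F) (p : A[X][X]) :
    eval₂RingHom (eval₂RingHom φ x) y p = evalEval x y (p.map (mapRingHom φ)) := by
  have h : eval₂RingHom (eval₂RingHom φ x) y =
      (evalEvalRingHom x y).comp (mapRingHom (mapRingHom φ)) := by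
    apply Polynomial.ringHom_ext'
    · apply Polynomial.ringHom_ext'
      · ext a
        simp
      · simp
    · simp
  rw [h]
  rfl

theorem finite_poly [Finite (A →+* F)] : Finite (A[X] →+* F) :=
  Finite.of_equiv _ (polyEquiv (A := A) (F := F)).symm

open Classical in
/-- the points of a closed subset of the plane -/
theorem plane_count [Fintype (A →+* F)] (S : Finset A[X][X]) (s : A) :
    (Nat.card {Φ : A[X][X] →+* F // (∀ p ∈ S, Φ p = 0) ∧ Φ (C (C s)) ≠ 0} : ℝ) =
      ∑ φ : A →+* F, if φ s ≠ 0 then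
        (Nat.card {P : F × F // ∀ p ∈ S, evalEval P.1 P.2 (p.map (mapRingHom φ)) = 0} : ℝ) else 0 := by
  have h1 : Finite (A[X] →+* F) := finite_poly
  have h2 : Finite (A[X][X] →+* F) := finite_poly
  let _ : Fintype (A[X] →+* F) := Fintype.ofFinite _
  let _ : Fintype (A[X][X] →+* F) := Fintype.ofFinite _
  rw [card_filter, sum_line', sum_line']
  refine Finset.sum_congr rfl fun φ _ => ?_
  have h3 : ∀ x y : F, eval₂RingHom (eval₂RingHom φ x) y (C (C s)) = φ s := by
    intro x y
    rw [coe_eval₂RingHom, eval₂_C, coe_eval₂RingHom, eval₂_C]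
  by_cases hs : φ s ≠ 0
  · rw [if_pos hs, card_filter, Fintype.sum_prod_type]
    refine Finset.sum_congr rfl fun x _ => Finset.sum_congr rfl fun y _ => if_congr ?_ rfl rfl
    rw [h3]
    constructor
    · rintro ⟨h4, -⟩ p hp
      rw [← ev2]
      exact h4 p hp
    · intro h4
      exact ⟨fun p hp => by rw [ev2]; exact h4 p hp, hs⟩
  · rw [if_neg hs]
    refine Finset.sum_eq_zero fun x _ => Finset.sum_eq_zero fun y _ => ?_
    rw [if_neg]
    rintro ⟨-, h4⟩
    rw [h3] at h4
    exact hs h4

end

section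
variable {A : Type} [CommRing A] {l n : ℕ}

/-- the equation over the ring of polynomials in `w` -/
noncomputable def g1 (a b : A[X][X]) : A[X][X][X] :=
  b.map (mapRingHom C) - C (C X) * a.map (mapRingHom C)

theorem g1_cab {a b : A[X][X]} (hb : IsCab l n b) (ha : Below l n (l * n) a) : IsCab l n (g1 a b) := by
  have h1 : g1 a b - (X ^ l - C (X ^ n)) = (b - (X ^ l - C (X ^ n))).map (mapRingHom C) -
      C (C X) * a.map (mapRingHom C) := by
    unfold g1
    rw [Polynomial.map_sub, Polynomial.map_sub, Polynomial.map_pow, Polynomial.map_X, Polynomial.map_C,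
      coe_mapRingHom, Polynomial.map_pow, Polynomial.map_X]
    ring
  unfold IsCab
  rw [h1]
  exact (Below.map _ hb).sub (Below.cmul _ (ha.map _))

theorem g1_map {F : Type} [Field F] (φ : A →+* F) (t : F) (a b : A[X][X]) :
    (g1 a b).map (mapRingHom (eval₂RingHom φ t)) =
      b.map (mapRingHom φ) - C (C t) * a.map (mapRingHom φ) := by
  have h : (mapRingHom (eval₂RingHom φ t)).comp (mapRingHom (C : A →+* A[X])) = mapRingHom φ := by
    rw [mapRingHom_comp]
    congr 1
    ext x
    simp
  unfold g1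
  rw [Polynomial.map_sub, Polynomial.map_mul, Polynomial.map_map, Polynomial.map_map, h,
    Polynomial.map_C, coe_mapRingHom, Polynomial.map_C, coe_eval₂RingHom, eval₂_X]

variable {F : Type} [Field F] [Fintype F] [Fintype (A →+* F)]

open Classical in
/-- the sum over the points above a condition -/
theorem sum_wt (hl : 0 < l) (hn : 0 < n) {a b : A[X][X]} (hb : IsCab l n b) (ha : Below l n (l * n) a)
    (hF : ((l : ℕ) : F) ≠ 0) [Fintype (A[X] →+* F)] (Q : (A →+* F) → Prop) :
    (∑ Φ : A[X] →+* F, if Q (Φ.comp C) then wt l n F (fun j => (enc l n (g1 a b) j).map Φ) else 0) =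
      ∑ φ : A →+* F, if Q φ then ((Nat.card F : ℝ) * n2 (a.map (mapRingHom φ)) (b.map (mapRingHom φ)) -
        n1 (a.map (mapRingHom φ))) else 0 := by
  rw [sum_line']
  refine Finset.sum_congr rfl fun φ _ => ?_
  have h0 : ∀ t : F, (eval₂RingHom φ t).comp C = φ := by
    intro t
    ext x
    simp
  by_cases h : Q φ
  · rw [if_pos h, ← line_sum]
    refine Finset.sum_congr rfl fun t _ => ?_
    rw [h0, if_pos h]
    have h1 : (fun j => (enc l n (g1 a b) j).map (eval₂RingHom φ t)) =
        enc l n (b.map (mapRingHom φ) - C (C t) * a.map (mapRingHom φ)) := by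
      funext j
      rw [enc_map, g1_map]
    rw [h1, wt_enc hl hn _ hF]
    rw [← g1_map]
    exact (g1_cab hb ha).map _
  · rw [if_neg h]
    refine Finset.sum_eq_zero fun t _ => ?_
    rw [h0, if_neg h]

end

end Pool.Agent.Zk97.CB
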