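import Pool.Agent.Zk97.CB.Defs
import Pool.Agent.R410.NG.Asy

/-!
# Pencils of `C_ab` curves: the number of the points of a closed subset of the plane
-/

set_option autoImplicit false
set_option linter.all false

open Polynomial
open Pool.Agent.R410.LW (FG)
open Pool.Agent.R410.NG (Asy)

namespace Pool.Agent.Zk97.CB

/-- C: the points of a closed subset of the plane, of pure dimension `e` -/
def StC : Prop := ∀ (M : Type) [Field M] [CharZero M], FG M → ∀ d : ℕ, Algebra.trdeg ℚ M = d →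
  ∀ (A : Type) [CommRing A] [IsDomain A] [Algebra.FiniteType ℤ A] [Algebra A M] [IsFractionRing A M]
    (e : ℕ) (S : Finset A[X][X]) (I : Ideal M[X][X]),
    I = Ideal.span ((fun p : A[X][X] => p.map (mapRingHom (algebraMap A M))) '' (S : Set A[X][X])) →
    (∀ 𝔭 ∈ I.minimalPrimes, Algebra.trdeg M (M[X][X] ⧸ 𝔭) = e) →
    ∃ s₀ : A, s₀ ≠ 0 ∧ ∀ s : A, s ≠ 0 → s₀ ∣ s →
      Asy (fun F _ _ => (Nat.card {Φ : A[X][X] →+* F // (∀ p ∈ S, Φ p = 0) ∧ Φ (C (C s)) ≠ 0} : ℝ))
        (d + e) (I.minimalPrimes.ncard : ℝ)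

end Pool.Agent.Zk97.CB
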