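import Pool.Agent.Zk97.CB.G5
import Pool.Agent.Zk97.CB.F2
import Pool.Agent.Zk97.CB.StmC
import Pool.Agent.R410.NG.Nat2
import Pool.Agent.R410.NG.PPR
import Pool.Agent.R410.NG.CBr

/-!
# Pencils of plane curves: the averages
-/

set_option autoImplicit false
set_option linter.all false
set_option maxHeartbeats 1000000

open Polynomial NumberField IsDedekindDomain
open Pool.Agent.R410.LW (FG)
open Pool.Agent.R410.BS (cF cF_le cB cB_nonneg)
open Pool.Agent.R410.NG (Wt IsWt sR sT sR_eq sT_eq polyEquiv Asy avg natural_models phA phA_apply phA_inj phA_frac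
  gen_line trdeg_line exists_ringk)
open Filter (Tendsto atTop)
open Topology

namespace Pool.Agent.Zk97.CB

theorem asy_bd {T : Pool.Agent.R410.NG.Ff} {e : ℕ} {r : ℝ} (h : Asy T e r) : ∃ (C : ℝ) (N : ℕ), 0 ≤ C ∧ N ≠ 0 ∧
    ∀ (F : Type) [Field F] [Finite F], ((N : ℕ) : F) ≠ 0 → |T F| ≤ C * (Nat.card F : ℝ) ^ e := by
  obtain ⟨κ, i1, L, i2, i3, a, ha, C, N, hC, hN, h1⟩ := h
  refine ⟨C + cB L a, N, add_nonneg hC (cB_nonneg L a), hN, ?_⟩
  intro F _ _ hF
  have e1 := h1 F hF
  have hq : 1 ≤ (Nat.card F : ℝ) := by exact_mod_cast Nat.card_pos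
  have hs : 1 ≤ √(Nat.card F : ℝ) := by rw [Real.one_le_sqrt]; exact hq
  have e2 : |T F - cF L a F * (Nat.card F : ℝ) ^ e| ≤ C * (Nat.card F : ℝ) ^ e := by
    refine le_trans ?_ e1
    exact le_mul_of_one_le_right (abs_nonneg _) hs
  have e3 : |cF L a F * (Nat.card F : ℝ) ^ e| ≤ cB L a * (Nat.card F : ℝ) ^ e := by
    rw [abs_mul, abs_of_nonneg (by positivity : (0 : ℝ) ≤ (Nat.card F : ℝ) ^ e)]
    exact mul_le_mul_of_nonneg_right (cF_le L a F) (by positivity)
  calc |T F| = |(T F - cF L a F * (Nat.card F : ℝ) ^ e) + cF L a F * (Nat.card F : ℝ) ^ e| := by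
        rw [sub_add_cancel]
    _ ≤ _ := (abs_add_le _ _).trans (by rw [add_mul]; exact add_le_add e2 e3)

section
variable {R S : Type} [CommRing R] [CommRing S]

theorem lift_two (φ : R →+* S) (P : S[X][X]) (h : ∀ i j, (P.coeff i).coeff j ∈ φ.range) :
    ∃ p : R[X][X], p.map (mapRingHom φ) = P := by
  have h1 : P ∈ (mapRingHom (mapRingHom φ)).range := by
    rw [Polynomial.mem_map_range]
    intro i
    rw [Polynomial.mem_map_range]
    exact h i
  obtain ⟨p, hp⟩ := h1
  exact ⟨p, hp⟩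

theorem cab_of_map {φ : R →+* S} (hφ : Function.Injective φ) {l n : ℕ} {G : R[X][X]}
    (h : IsCab l n (G.map (mapRingHom φ))) : IsCab l n G := by
  intro i j hij
  apply h i j
  have e : G.map (mapRingHom φ) - (X ^ l - C (X ^ n)) =
      (G - (X ^ l - C (X ^ n))).map (mapRingHom φ) := by
    rw [Polynomial.map_sub, Polynomial.map_sub, Polynomial.map_pow, Polynomial.map_X, Polynomial.map_C,
      coe_mapRingHom, Polynomial.map_pow, Polynomial.map_X]
  rw [e, coeff_map, coe_mapRingHom, coeff_map]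
  exact fun h0 => hij (hφ (by rw [h0, map_zero]))

theorem below_of_map {φ : R →+* S} (hφ : Function.Injective φ) {l n d : ℕ} {G : R[X][X]}
    (h : Below l n d (G.map (mapRingHom φ))) : Below l n d G := by
  intro i j hij
  apply h i j
  rw [coeff_map, coe_mapRingHom, coeff_map]
  exact fun h0 => hij (hφ (by rw [h0, map_zero]))

end

section
variable {A O F : Type} [CommRing A] [CommRing O] [Field F] [Fintype F] {l n : ℕ}

open Classical in
theorem sT_pen (hl : 0 < l) (hn : 0 < n) {a b : A[X][X]} (hb : IsCab l n b)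
    (ha : Below l n (l * n) a) (hF : ((l : ℕ) : F) ≠ 0) [Fintype (A →+* F)] (s : A) :
    sT (wt l n) (enc l n (g1 a b)) (C s) F = ∑ φ : A →+* F, if φ s ≠ 0 then
      ((Nat.card F : ℝ) * n2 (a.map (mapRingHom φ)) (b.map (mapRingHom φ)) -
        n1 (a.map (mapRingHom φ))) else 0 := by
  have hf2 : Finite (A[X] →+* F) := finite_poly
  let _ : Fintype (A[X] →+* F) := Fintype.ofFinite _
  have e3 := sum_wt hl hn hb ha hF (fun φ : A →+* F => φ s ≠ 0)
  rw [sT_eq]
  refine Eq.trans (Finset.sum_congr rfl fun Φ _ => ?_) (e3.trans (Finset.sum_congr rfl fun φ _ => ?_))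
  · congr 1
  · congr 1

open Classical in
theorem sR_pen (hl : 0 < l) (hn : 0 < n) {a b : A[X][X]} (hb : IsCab l n b)
    (ha : Below l n (l * n) a) (hF : ((l : ℕ) : F) ≠ 0) [Fintype (A →+* F)] (s : A) (ρ : O →+* A)
    (ψ : O →+* F) :
    sR (wt l n) ((C : A →+* A[X]).comp ρ) (enc l n (g1 a b)) (C s) F ψ =
      ∑ φ : A →+* F, if φ.comp ρ = ψ ∧ φ s ≠ 0 then
        ((Nat.card F : ℝ) * n2 (a.map (mapRingHom φ)) (b.map (mapRingHom φ)) -
          n1 (a.map (mapRingHom φ))) else 0 := by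
  have hf2 : Finite (A[X] →+* F) := finite_poly
  let _ : Fintype (A[X] →+* F) := Fintype.ofFinite _
  have e3 := sum_wt hl hn hb ha hF (fun φ : A →+* F => φ.comp ρ = ψ ∧ φ s ≠ 0)
  rw [sR_eq]
  refine Eq.trans (Finset.sum_congr rfl fun Φ _ => ?_) (e3.trans (Finset.sum_congr rfl fun φ _ => ?_))
  · congr 1
  · congr 1

end

section
variable {R M K : Type} [CommRing R] [Field M] [Field K] [Algebra M K] {w : K} {A B : M[X][X]}

theorem g1_mapK (φ : R →+* M) (φ' : R[X] →+* K) (h : ∀ x, φ' (C x) = algebraMap M K (φ x))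
    (hX : φ' X = w) {a b : R[X][X]} (ha : a.map (mapRingHom φ) = A) (hb : b.map (mapRingHom φ) = B) :
    (g1 a b).map (mapRingHom φ') = ff w A B := by
  have e1 : (mapRingHom φ').comp (mapRingHom (C : R →+* R[X])) =
      (mapRingHom (algebraMap M K)).comp (mapRingHom φ) := by
    rw [mapRingHom_comp, mapRingHom_comp]
    congr 1
    exact RingHom.ext h
  unfold g1 ff
  rw [Polynomial.map_sub, Polynomial.map_mul, Polynomial.map_map, Polynomial.map_map, e1,
    ← Polynomial.map_map, ← Polynomial.map_map, ha, hb, Polynomial.map_C, coe_mapRingHom,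
    Polynomial.map_C, hX]
  rfl

end

section
variable {M K : Type} [Field M] [CharZero M] [Field K] [CharZero K] [Algebra M K] {w : K}
  {A B : M[X][X]} {l n : ℕ} {k : Type} [Field k] [NumberField k] [Algebra k M]

/-- **The natural average.** -/
theorem Pencil.natural (h : Pencil l n A B) (hW : StW) (hD : StD) (hZ : StZ) (hC : StC) (hM : FG M) {d : ℕ}
    (hd : Algebra.trdeg ℚ M = d) (hw : Transcendental M w)
    (htop : IntermediateField.adjoin M {w} = ⊤)
    (R : Type) [CommRing R] [IsDomain R] [Algebra.FiniteType ℤ R] [Algebra R K] [IsFractionRing R K]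
    [Algebra (𝓞 k) R] (hk : ∀ z : 𝓞 k, algebraMap R K (algebraMap (𝓞 k) R z) =
      algebraMap M K (algebraMap k M z)) (G : R[X][X])
    (hG : G.map (mapRingHom (algebraMap R K)) = ff w A B) {N : R} (hN : N ≠ 0)
    (S : Finset (HeightOneSpectrum (𝓞 k))) :
    Tendsto (Pool.Agent.W353.FB.average S fun v => avg (wt l n) (enc l n G) N (d + 1) v) atTop
      (𝓝 (((Ideal.span {A, B}).minimalPrimes.ncard : ℝ) - ((Ideal.span {A}).minimalPrimes.ncard : ℝ))) := by
  classical
  -- the ring of coefficients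
  obtain ⟨A₀, hA₀, hft, hfr, hAk⟩ := exists_ringk (k := k) hM (A.coeffs.biUnion Polynomial.coeffs ∪
    B.coeffs.biUnion Polynomial.coeffs)
  have hmem : ∀ P : M[X][X], P.coeffs.biUnion Polynomial.coeffs ⊆ A.coeffs.biUnion Polynomial.coeffs ∪
    B.coeffs.biUnion Polynomial.coeffs → ∀ i j, (P.coeff i).coeff j ∈ (algebraMap A₀ M).range := by
    intro P hP i j
    by_cases h0 : (P.coeff i).coeff j = 0
    · rw [h0]
      exact Subring.zero_mem _
    · have h1 : P.coeff i ≠ 0 := by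
        intro h2
        rw [h2, coeff_zero] at h0
        exact h0 rfl
      have h2 := hA₀ _ (hP (Finset.mem_biUnion.2 ⟨P.coeff i, coeff_mem_coeffs h1, coeff_mem_coeffs h0⟩))
      exact ⟨⟨_, h2⟩, rfl⟩
  obtain ⟨a, ha⟩ := lift_two (algebraMap A₀ M) A (hmem A Finset.subset_union_left)
  obtain ⟨b, hb⟩ := lift_two (algebraMap A₀ M) B (hmem B Finset.subset_union_right)
  have hinj : Function.Injective (algebraMap A₀ M) := IsFractionRing.injective A₀ M
  have hbc : IsCab l n b := cab_of_map hinj (by rw [hb]; exact h.cab)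
  have hac : Below l n (l * n) a := below_of_map hinj (by rw [ha]; exact h.low)
  -- the asymptotic values
  obtain ⟨s₁, hs₁, g₁⟩ := hC M hM d hd A₀ 1 {a} (Ideal.span {A}) (by
    rw [Finset.coe_singleton, Set.image_singleton, ha]) (by
    intro 𝔭 hp
    obtain ⟨π, hπ, rfl⟩ := mem_minimal_one 𝔭 h.A0 hp
    rw [(hD M).2.1 π hπ, Nat.cast_one])
  obtain ⟨s₂, hs₂, g₂⟩ := hC M hM d hd A₀ 0 {a, b} (Ideal.span {A, B}) (by
    rw [Finset.coe_insert, Finset.coe_singleton, Set.image_insert_eq, Set.image_singleton, ha, hb]) (by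
    intro 𝔭 hp
    obtain ⟨h1, h2, h3⟩ := (h.mem_minimal 𝔭 hW hD).1 hp
    rw [(hD M).1 𝔭 (h.isMaximal 𝔭 hW hD h1 h2 h3), Nat.cast_zero])
  set s : A₀ := s₁ * s₂ with hs
  have hs0 : s ≠ 0 := mul_ne_zero hs₁ hs₂
  have T1 := g₂ s hs0 (Dvd.intro_left _ rfl)
  have T2 := g₁ s hs0 (Dvd.intro _ rfl)
  rw [add_zero] at T1
  have T3 := T1.mulq.add T2.neg
  obtain ⟨C1, N1, hC1, hN1, b1⟩ := asy_bd T1.mulq
  obtain ⟨C2, N2, hC2, hN2, b2⟩ := asy_bd T2
  obtain ⟨κ, iκ, L, iL, nL, c, hc, C3, N3, hC3, hN3, b3⟩ := T3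
  -- the model
  obtain ⟨cw, hwt⟩ := isWt_wt hZ h.l0 h.n0 h.cop
  let _ : Algebra A₀[X] K := (phA (M := M) A₀ w).toAlgebra
  have hfr' : IsFractionRing A₀[X] K := phA_frac A₀ hw htop
  have hft0 : Algebra.FiniteType ℤ A₀[X] := inferInstance
  have hft' := Pool.Agent.R410.LW.ft_int _ hft0
  let ρ₀ : 𝓞 k →+* A₀ := Pool.Agent.R410.NG.rho hAk
  let _ : Algebra (𝓞 k) A₀[X] := ((C : A₀ →+* A₀[X]).comp ρ₀).toAlgebra
  have hrho : (algebraMap R K).comp (algebraMap (𝓞 k) R) =
      (algebraMap A₀[X] K).comp (algebraMap (𝓞 k) A₀[X]) := by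
    refine RingHom.ext fun z => ?_
    show algebraMap R K (algebraMap (𝓞 k) R z) = phA (M := M) A₀ w (C (ρ₀ z))
    rw [hk, phA_apply, Polynomial.map_C, aeval_C]
    rfl
  have hg1K : (g1 a b).map (mapRingHom (algebraMap A₀[X] K)) = ff w A B :=
    g1_mapK (algebraMap A₀ M) (algebraMap A₀[X] K) (fun x => by
      show phA (M := M) A₀ w (C x) = _
      rw [phA_apply, Polynomial.map_C, aeval_C]) (by
      show phA (M := M) A₀ w X = w
      rw [phA_apply, Polynomial.map_X, aeval_X]) ha hb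
  have hGc : IsCab l n G := cab_of_map (IsFractionRing.injective R K) (by rw [hG]; exact h.ff_cab w)
  have hgg : ∀ j, (enc l n G j).map (algebraMap R K) = (enc l n (g1 a b) j).map (algebraMap A₀[X] K) := by
    intro j
    rw [enc_map, enc_map, hG, hg1K]
  have hsum : ((Ideal.span {A, B}).minimalPrimes.ncard : ℝ) + -((Ideal.span {A}).minimalPrimes.ncard : ℝ) =
      ((Ideal.span {A, B}).minimalPrimes.ncard : ℝ) - ((Ideal.span {A}).minimalPrimes.ncard : ℝ) := by ring
  rw [hsum] at hc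
  have hfin : ∀ (F : Type) [Field F] [Finite F], Finite (A₀ →+* F) := fun F _ _ => inferInstance
  refine natural_models hwt (e := d + 1) (trdeg_line hd hw htop).le hrho hgg
    (fun j => enc_monic h.l0 h.n0 hGc j) hN (N' := C s) (C_ne_zero.2 hs0) L c hc ?_ ?_ S
  · -- the bound
    refine ⟨C1 + C2, l * (N1 * N2), add_nonneg hC1 hC2, mul_ne_zero h.l0.ne' (mul_ne_zero hN1 hN2), ?_⟩
    intro F _ _ hF ψ
    rw [Nat.cast_mul, Nat.cast_mul] at hF
    have hF1 : ((l : ℕ) : F) ≠ 0 := left_ne_zero_of_mul hF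
    have hF2 := left_ne_zero_of_mul (right_ne_zero_of_mul hF)
    have hF3 := right_ne_zero_of_mul (right_ne_zero_of_mul hF)
    let _ : Fintype F := Fintype.ofFinite F
    have hf1 : Finite (A₀ →+* F) := hfin F
    let _ : Fintype (A₀ →+* F) := Fintype.ofFinite _
    have hf2 : Finite (A₀[X] →+* F) := finite_poly
    let _ : Fintype (A₀[X] →+* F) := Fintype.ofFinite _
    have e1 := b1 F hF2
    have e2 := b2 F hF3
    rw [plane_count] at e1 e2
    have e4 := sR_pen h.l0 h.n0 hbc hac hF1 s ρ₀ ψ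
    refine le_trans (le_of_eq (congrArg abs e4)) ?_
    have hq : (0 : ℝ) ≤ (Nat.card F : ℝ) := Nat.cast_nonneg _
    refine (Finset.abs_sum_le_sum_abs _ _).trans ?_
    have e5 : ∀ φ : A₀ →+* F, |if φ.comp ρ₀ = ψ ∧ φ s ≠ 0 then
          ((Nat.card F : ℝ) * n2 (a.map (mapRingHom φ)) (b.map (mapRingHom φ)) -
            n1 (a.map (mapRingHom φ))) else 0| ≤
        (Nat.card F : ℝ) * (if φ s ≠ 0 then (Nat.card {P : F × F // ∀ p ∈ ({a, b} : Finset A₀[X][X]),
          evalEval P.1 P.2 (p.map (mapRingHom φ)) = 0} : ℝ) else 0) +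
        (if φ s ≠ 0 then (Nat.card {P : F × F // ∀ p ∈ ({a} : Finset A₀[X][X]),
          evalEval P.1 P.2 (p.map (mapRingHom φ)) = 0} : ℝ) else 0) := by
      intro φ
      have k1 : (Nat.card {P : F × F // ∀ p ∈ ({a, b} : Finset A₀[X][X]),
          evalEval P.1 P.2 (p.map (mapRingHom φ)) = 0} : ℝ) =
          n2 (a.map (mapRingHom φ)) (b.map (mapRingHom φ)) := by
        unfold n2
        congr 1
        refine Nat.card_congr (Equiv.subtypeEquivRight fun P => ?_)
        simp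
      have k2 : (Nat.card {P : F × F // ∀ p ∈ ({a} : Finset A₀[X][X]),
          evalEval P.1 P.2 (p.map (mapRingHom φ)) = 0} : ℝ) = n1 (a.map (mapRingHom φ)) := by
        unfold n1
        congr 1
        refine Nat.card_congr (Equiv.subtypeEquivRight fun P => ?_)
        simp
      rw [k1, k2]
      have p1 : (0 : ℝ) ≤ (Nat.card F : ℝ) * n2 (a.map (mapRingHom φ)) (b.map (mapRingHom φ)) := by positivity
      have p2 : (0 : ℝ) ≤ (n1 (a.map (mapRingHom φ)) : ℝ) := by positivity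
      by_cases hφ : φ s ≠ 0
      · rw [if_pos hφ, if_pos hφ]
        split_ifs with h9
        · rw [abs_le]
          constructor <;> linarith
        · rw [abs_zero]
          linarith
      · rw [if_neg (fun h9 => hφ h9.2), if_neg hφ, if_neg hφ, abs_zero]
        linarith
    refine (Finset.sum_le_sum fun φ _ => e5 φ).trans ?_
    rw [Finset.sum_add_distrib, ← Finset.mul_sum, add_mul]
    exact add_le_add ((le_abs_self _).trans e1) ((le_abs_self _).trans e2)
  · -- the asymptotic value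
    refine ⟨C3, l * N3, hC3, mul_ne_zero h.l0.ne' hN3, ?_⟩
    intro F _ _ hF
    rw [Nat.cast_mul] at hF
    have hF1 : ((l : ℕ) : F) ≠ 0 := left_ne_zero_of_mul hF
    let _ : Fintype F := Fintype.ofFinite F
    have hf1 : Finite (A₀ →+* F) := hfin F
    let _ : Fintype (A₀ →+* F) := Fintype.ofFinite _
    have hf2 : Finite (A₀[X] →+* F) := finite_poly
    let _ : Fintype (A₀[X] →+* F) := Fintype.ofFinite _
    have e0 := b3 F (right_ne_zero_of_mul hF)
    have e4 := sT_pen h.l0 h.n0 hbc hac hF1 s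
    have e6 : sT (wt l n) (enc l n (g1 a b)) (C s) F =
        (Nat.card F : ℝ) * (Nat.card {Φ : A₀[X][X] →+* F // (∀ p ∈ ({a, b} : Finset A₀[X][X]), Φ p = 0) ∧
          Φ (C (C s)) ≠ 0} : ℝ) + -(Nat.card {Φ : A₀[X][X] →+* F // (∀ p ∈ ({a} : Finset A₀[X][X]),
          Φ p = 0) ∧ Φ (C (C s)) ≠ 0} : ℝ) := by
      rw [e4, plane_count, plane_count, Finset.mul_sum, ← sub_eq_add_neg, ← Finset.sum_sub_distrib]
      refine Finset.sum_congr rfl fun φ _ => ?_
      have k1 : (Nat.card {P : F × F // ∀ p ∈ ({a, b} : Finset A₀[X][X]),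
          evalEval P.1 P.2 (p.map (mapRingHom φ)) = 0} : ℝ) =
          n2 (a.map (mapRingHom φ)) (b.map (mapRingHom φ)) := by
        unfold n2
        congr 1
        refine Nat.card_congr (Equiv.subtypeEquivRight fun P => ?_)
        simp
      have k2 : (Nat.card {P : F × F // ∀ p ∈ ({a} : Finset A₀[X][X]),
          evalEval P.1 P.2 (p.map (mapRingHom φ)) = 0} : ℝ) = n1 (a.map (mapRingHom φ)) := by
        unfold n1
        congr 1
        refine Nat.card_congr (Equiv.subtypeEquivRight fun P => ?_)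
        simp
      rw [k1, k2]
      split_ifs
      · rfl
      · rw [mul_zero, sub_zero]
    rw [e6]
    exact e0

end

end Pool.Agent.Zk97.CB
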