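import Pool.Agent.Zk97.CB.P5

/-!
# Pencils of plane curves of degree `d`: the rank
-/

set_option autoImplicit false
set_option linter.all false

open Polynomial

namespace Pool.Agent.Zk97.CB

/-- the data of a pencil of plane curves of degree `d` in general position -/
structure PP {M : Type} [Field M] (d : ℕ) (A B : M[X][X]) : Prop where
  d0 : 0 < d
  pl : IsPlane d B
  deg : DegLe d A
  A0 : A.coeff d = 0
  cop : IsCoprime (top d A) (top d B)

section
variable {M : Type} [Field M] {A B : M[X][X]} {d : ℕ}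

theorem PP.top_ne (h : PP d A B) : top d A ≠ 0 := by
  intro h0
  have h1 := h.cop
  rw [h0, isCoprime_zero_left] at h1
  have h2 := natDegree_eq_zero_of_isUnit h1
  rw [h.pl.top_monic.2] at h2
  have := h.d0
  omega

theorem PP.A_ne (h : PP d A B) : A ≠ 0 := by
  rintro rfl
  apply h.top_ne
  ext i
  rw [top_coeff, coeff_zero, coeff_zero, ite_self, coeff_zero]

theorem PP.degA (h : PP d A B) : A.natDegree < d := by
  by_contra h1
  push Not at h1
  have h2 : A.coeff A.natDegree ≠ 0 := by
    rw [coeff_natDegree]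
    exact leadingCoeff_ne_zero.2 h.A_ne
  rcases h1.lt_or_eq with h3 | h3
  · exact h2 (h.deg.coeff_zero h3)
  · rw [← h3] at h2
    exact h2 h.A0

theorem PP.pen (h : PP d A B) : Pen d A B where
  l0 := h.d0
  A0 := h.A_ne
  degA := h.degA
  monic := h.pl.monic.1
  degB := h.pl.monic.2

theorem PP.deg_top (h : PP d A B) : (top d A).natDegree < (top d B).natDegree := by
  rw [h.pl.top_monic.2]
  have h1 : (top d A).natDegree ≤ d - 1 := by
    rw [natDegree_le_iff_coeff_eq_zero]
    intro i hi
    rw [top_coeff]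
    split_ifs with h2
    · have h3 : i = d := by omega
      rw [h3, h.A0, coeff_zero]
    · rfl
  have := h.d0
  omega

variable {K : Type} [Field K] [Algebra M K] {w : K}

theorem PP.ff_plane (h : PP d A B) (w : K) : IsPlane d (ff w A B) := by
  refine ⟨?_, ?_⟩
  · exact (h.pl.1.map (algebraMap M K)).sub ((h.deg.map (algebraMap M K)).cmul w)
  · show (B.map (mapRingHom (algebraMap M K)) - C (C w) * A.map (mapRingHom (algebraMap M K))).coeff d = 1
    rw [coeff_sub, coeff_C_mul, coeff_map, coeff_map, h.pl.2, h.A0, map_one, map_zero, mul_zero, sub_zero]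

theorem top_ff (w : K) : top d (ff w A B) = (top d B).map (algebraMap M K) - C w * (top d A).map (algebraMap M K) := by
  ext i
  rw [top_coeff, coeff_sub, coeff_C_mul, coeff_map, coeff_map, top_coeff, top_coeff]
  split_ifs
  · show ((B.map (mapRingHom (algebraMap M K)) - C (C w) * A.map (mapRingHom (algebraMap M K))).coeff i).coeff (d - i) = _
    rw [coeff_sub, coeff_C_mul, coeff_map, coeff_map, coeff_sub, coeff_C_mul, coe_mapRingHom, coeff_map, coeff_map]
  · rw [map_zero, mul_zero, sub_zero]

theorem PP.irr_top (h : PP d A B) (hw : Transcendental M w)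
    (hK : ∀ z : K, ∃ p q : M[X], aeval w q ≠ 0 ∧ z * aeval w q = aeval w p) :
    Irreducible (top d (ff w A B)) := by
  rw [top_ff]
  exact irr_pencil hw hK h.top_ne h.pl.top_monic.1 h.deg_top h.cop

theorem PP.irr (h : PP d A B) (hU : StU) (hw : Transcendental M w)
    (hK : ∀ z : K, ∃ p q : M[X], aeval w q ≠ 0 ∧ z * aeval w q = aeval w p) :
    Irreducible (ff w A B) ∧
      ∀ u : AdjoinRoot (ff w A B), IsUnit u → ∃ c : K, c ≠ 0 ∧ u = ct w A B c :=
  hU K d h.d0 (ff w A B) (h.ff_plane w) (h.irr_top hw hK)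

theorem PP.gp (h : PP d A B) (hU : StU) (hw : Transcendental M w)
    (hK : ∀ z : K, ∃ p q : M[X], aeval w q ≠ 0 ∧ z * aeval w q = aeval w p) : GP d A B where
  pen := h.pen
  rel := by
    intro c h1 h2
    have hirr := (h.irr hU hw hK).1
    have h3 : (i2 c : K[X][X]) ∣ ff w A B := by
      unfold ff
      exact dvd_sub (_root_.map_dvd i2 h1) ((_root_.map_dvd i2 h2).mul_left _)
    obtain ⟨t, ht⟩ := h3
    have hinj : Function.Injective (mapRingHom (algebraMap M K)) :=
      Polynomial.map_injective _ (algebraMap M K).injective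
    have hc0 : c ≠ 0 := by
      rintro rfl
      exact h.A_ne (zero_dvd_iff.1 h2)
    have hdeg : (i2 c : K[X][X]).natDegree = c.natDegree := natDegree_map_eq_of_injective hinj c
    have hcA : c.natDegree < d := (natDegree_le_of_dvd h2 h.A_ne).trans_lt h.degA
    rcases hirr.isUnit_or_isUnit ht with h4 | h4
    · -- `c` is a constant
      have h5 : c.natDegree = 0 := by
        rw [← hdeg]
        exact natDegree_eq_zero_of_isUnit h4
      rw [eq_C_of_natDegree_eq_zero h5] at h4 ⊢
      have h6 : (i2 (C (c.coeff 0)) : K[X][X]) = C ((c.coeff 0).map (algebraMap M K)) := by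
        show (C (c.coeff 0)).map (mapRingHom (algebraMap M K)) = _
        rw [Polynomial.map_C]
        rfl
      rw [h6, isUnit_C] at h4
      have h7 : (c.coeff 0).natDegree = 0 := by
        rw [← natDegree_map_eq_of_injective (algebraMap M K).injective (c.coeff 0)]
        exact natDegree_eq_zero_of_isUnit h4
      have h8 : c.coeff 0 ≠ 0 := by
        intro h9
        rw [h9, Polynomial.map_zero] at h4
        exact not_isUnit_zero h4
      rw [eq_C_of_natDegree_eq_zero h7] at h8 ⊢
      exact isUnit_C.2 (isUnit_C.2 (isUnit_iff_ne_zero.2 (fun h9 => h8 (by rw [h9, C_0]))))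
    · exfalso
      have h5 := (h.ff_plane w).monic.2
      have h6 := (h.ff_plane w).monic.1.ne_zero
      rw [ht] at h5 h6
      rw [natDegree_mul (left_ne_zero_of_mul h6) (right_ne_zero_of_mul h6), natDegree_eq_zero_of_isUnit h4,
        hdeg] at h5
      omega

/-- good members are irreducible -/
theorem PP.om_one (h : PP d A B) (hg : GP d A B) (hS : StS) (p : MPt M)
    (hgood : letI : Fact (Irreducible p.1) := ⟨p.2.2⟩; Good d (ff (AdjoinRoot.root p.1) A B)) :
    om (hm p.1 B A) = 1 := by
  letI : Fact (Irreducible p.1) := ⟨p.2.2⟩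
  exact om_prime (hg.prime_hm (hS _ d h.d0 _ hgood))

/-- reduction of the equation modulo a point of the line -/
theorem f1_mk (p : MPt M) :
    letI : Fact (Irreducible p.1) := ⟨p.2.2⟩
    (f1 A B).map (mapRingHom (AdjoinRoot.mk p.1)) = ff (AdjoinRoot.root p.1) A B := by
  letI : Fact (Irreducible p.1) := ⟨p.2.2⟩
  have hκ : (mapRingHom (mapRingHom (AdjoinRoot.mk p.1)) : M[X][X][X] →+* (AdjoinRoot p.1)[X][X]) =
      ka (AdjoinRoot.root p.1) := by
    show mapRingHom (mapRingHom (AdjoinRoot.mk p.1)) = mapRingHom (mapRingHom _)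
    congr 2
    refine RingHom.ext fun q => ?_
    exact (AdjoinRoot.aeval_eq q).symm
  rw [← ka_f1, ← hκ]
  rfl

theorem PP.good (h : PP d A B) [CharZero K] (hw : Transcendental M w)
    (hK : ∀ z : K, ∃ p q : M[X], aeval w q ≠ 0 ∧ z * aeval w q = aeval w p)
    (hs : Smooth (ff w A B)) : Good d (ff w A B) :=
  ⟨h.ff_plane w, hs, (h.irr_top hw hK).separable⟩

/-- **The rank.** -/
theorem PP.rank (h : PP d A B) (hU : StU) (hD : StD) (hQ : StQ) (hJ : StJ) (hw : Transcendental M w)
    (hK : ∀ z : K, ∃ p q : M[X], aeval w q ≠ 0 ∧ z * aeval w q = aeval w p)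
    (hs : Smooth (ff w A B)) :
    ∃ _ : IsDedekindDomain (AdjoinRoot (ff w A B)), Finite (h.gp hU hw hK).I ∧
    Module.rank ℤ (Additive (ClassGroup (AdjoinRoot (ff w A B)))) +
      ((om A + ∑ᶠ p : MPt M, (om (hm p.1 B A) - 1) : ℕ) : Cardinal) =
      ((Ideal.span {A, B}).minimalPrimes.ncard : Cardinal) := by
  have hg := h.gp hU hw hK
  obtain ⟨h1, h2⟩ := h.irr hU hw hK
  have hT : IsDedekindDomain (AdjoinRoot (ff w A B)) := hJ K (ff w A B) (h.ff_plane w).monic.1 h1 hs
  obtain ⟨h3, h4⟩ := hg.rank hD hQ hw hK h2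
  rw [hg.card_I h3] at h4
  exact ⟨hT, h3, h4⟩

end

end Pool.Agent.Zk97.CB
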