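import Pool.Agent.Zk97.CB.A1
import Pool.Agent.Zk97.CB.P6
import Pool.Agent.Zk97.CB.F3

/-!
# Pencils of plane curves of degree `d`: the estimates
-/

set_option autoImplicit false
set_option linter.all false

open Polynomial

namespace Pool.Agent.Zk97.CB

section
variable {A F : Type} [CommRing A] [Field F] [Fintype F] [Fintype (A →+* F)]

open Classical in
theorem pc1 (p : A[X][X]) (s : A) :
    (Nat.card {Φ : A[X][X] →+* F // (∀ p' ∈ ({p} : Finset A[X][X]), Φ p' = 0) ∧ Φ (C (C s)) ≠ 0} : ℝ) =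
      ∑ φ : A →+* F, if φ s ≠ 0 then (n1 (p.map (mapRingHom φ)) : ℝ) else 0 := by
  rw [plane_count]
  refine Finset.sum_congr rfl fun φ _ => ?_
  have k2 : (Nat.card {P : F × F // ∀ p' ∈ ({p} : Finset A[X][X]),
      evalEval P.1 P.2 (p'.map (mapRingHom φ)) = 0} : ℝ) = n1 (p.map (mapRingHom φ)) := by
    unfold n1
    congr 1
    refine Nat.card_congr (Equiv.subtypeEquivRight fun P => ?_)
    simp
  rw [k2]

open Classical in
theorem pc2 (a b : A[X][X]) (s : A) :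
    (Nat.card {Φ : A[X][X] →+* F // (∀ p' ∈ ({a, b} : Finset A[X][X]), Φ p' = 0) ∧ Φ (C (C s)) ≠ 0} : ℝ) =
      ∑ φ : A →+* F, if φ s ≠ 0 then (n2 (a.map (mapRingHom φ)) (b.map (mapRingHom φ)) : ℝ) else 0 := by
  rw [plane_count]
  refine Finset.sum_congr rfl fun φ _ => ?_
  have k1 : (Nat.card {P : F × F // ∀ p ∈ ({a, b} : Finset A[X][X]),
      evalEval P.1 P.2 (p.map (mapRingHom φ)) = 0} : ℝ) =
      n2 (a.map (mapRingHom φ)) (b.map (mapRingHom φ)) := by
    unfold n2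
    congr 1
    refine Nat.card_congr (Equiv.subtypeEquivRight fun P => ?_)
    simp
  rw [k1]

end

/-- the data of a nice model -/
structure MD {A : Type} [CommRing A] (d : ℕ) (a b : A[X][X]) (Δ : A[X]) (s : A) : Prop where
  d0 : 0 < d
  pl : IsPlane d b
  deg : DegLe d a
  a0 : a.coeff d = 0
  good : ∀ (k : Type) [Field k] (Φ : A[X] →+* k), Φ Δ ≠ 0 → Good d ((g1 a b).map (mapRingHom Φ))
  lc : ∀ (k : Type) [Field k] (φ : A →+* k), φ s ≠ 0 → φ Δ.leadingCoeff ≠ 0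
  cop : ∀ (k : Type) [Field k] (φ : A →+* k), φ s ≠ 0 →
    IsCoprime (top d (a.map (mapRingHom φ))) (top d (b.map (mapRingHom φ)))

section
variable {A F : Type} [CommRing A] [Field F] [Fintype F] {d : ℕ} {a b : A[X][X]} {Δ : A[X]} {s : A}

open Classical in
/-- the sum over the good members -/
noncomputable def WW (d : ℕ) (a b : A[X][X]) (Δ : A[X]) (φ : A →+* F) : ℝ :=
  ∑ t : F, if (Δ.map φ).eval t ≠ 0 then
    nqP d F (b.map (mapRingHom φ) - C (C t) * a.map (mapRingHom φ)) else 0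

/-- the main term -/
noncomputable def main (a b : A[X][X]) (Δ : A[X]) (φ : A →+* F) : ℝ :=
  (Nat.card F : ℝ) * n2 (a.map (mapRingHom φ)) (b.map (mapRingHom φ)) - n1 (a.map (mapRingHom φ)) -
    n1 ((hm Δ b a).map (mapRingHom φ)) + n1 ((C Δ : A[X][X]).map (mapRingHom φ))

/-- the bound of the lemma `L` -/
def LK (d e : ℕ) (K : ℝ) : Prop := 0 ≤ K ∧ ∀ (F : Type) [Field F] [Fintype F]
  (a b : F[X][X]) (D : F[X]), IsPlane d b → DegLe d a → a.coeff d = 0 →
  IsCoprime (top d a) (top d b) → D ≠ 0 → D.natDegree ≤ e →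
  |WW d a b D (RingHom.id F) -
    ((Nat.card F : ℝ) * n2 a b - n1 a - n1 (hm D b a) + n1 (C D : F[X][X]))| ≤ K * (1 + n2 a b)

theorem exists_LK (hL : StL) (d e : ℕ) (hd : 0 < d) : ∃ K, LK d e K := by
  classical
  obtain ⟨K, h1, h2⟩ := hL d e hd
  refine ⟨K, h1, ?_⟩
  intro F _ _ a b D h3 h4 h5 h6 h7 h8
  have h9 := h2 F a b D h3 h4 h5 h6 h7 h8
  unfold WW
  rw [mapRingHom_id, Polynomial.map_id, Polynomial.map_id, Polynomial.map_id]
  convert h9

theorem MD.est (h : MD d a b Δ s) {K : ℝ} (hK : LK d Δ.natDegree K) (φ : A →+* F) (hφ : φ s ≠ 0) :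
    |WW d a b Δ φ - main a b Δ φ| ≤
      K * (1 + n2 (a.map (mapRingHom φ)) (b.map (mapRingHom φ))) := by
  classical
  have hlc := h.lc F φ hφ
  have h1 := hK.2 F (a.map (mapRingHom φ)) (b.map (mapRingHom φ)) (Δ.map φ) (h.pl.map φ) (h.deg.map φ)
    (by rw [coeff_map, h.a0, map_zero]) (h.cop F φ hφ) (by
      intro h0
      apply hlc
      have h2 := congrArg (fun p => p.coeff Δ.natDegree) h0
      simpa using h2) (natDegree_map_le)
  have e1 : WW d (a.map (mapRingHom φ)) (b.map (mapRingHom φ)) (Δ.map φ) (RingHom.id F) = WW d a b Δ φ := by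
    unfold WW
    rw [mapRingHom_id, Polynomial.map_id, Polynomial.map_id, Polynomial.map_id]
  rw [e1, ← hm_map φ Δ b a hlc] at h1
  have e2 : (C (Δ.map φ) : F[X][X]) = (C Δ : A[X][X]).map (mapRingHom φ) := by
    rw [Polynomial.map_C]
    rfl
  rw [e2] at h1
  exact h1

variable [Fintype (A →+* F)]

open Classical in
/-- the number of the points of a closed subset -/
noncomputable def cnt (s : A) (f : (A →+* F) → ℝ) : ℝ := ∑ φ : A →+* F, if φ s ≠ 0 then f φ else 0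

open Classical in
theorem MD.near (h : MD d a b Δ s) {K : ℝ} (hK : LK d Δ.natDegree K) :
    |(∑ φ : A →+* F, if φ s ≠ 0 then WW d a b Δ φ else 0) -
      ((Nat.card F : ℝ) * cnt s (fun φ : A →+* F => (n2 (a.map (mapRingHom φ)) (b.map (mapRingHom φ)) : ℝ)) -
        cnt s (fun φ : A →+* F => (n1 (a.map (mapRingHom φ)) : ℝ)) -
        cnt s (fun φ : A →+* F => (n1 ((hm Δ b a).map (mapRingHom φ)) : ℝ)) +
        cnt s (fun φ : A →+* F => (n1 ((C Δ : A[X][X]).map (mapRingHom φ)) : ℝ)))| ≤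
      K * (Nat.card (A →+* F) + cnt s (fun φ : A →+* F =>
        (n2 (a.map (mapRingHom φ)) (b.map (mapRingHom φ)) : ℝ))) := by
  have e1 : (Nat.card F : ℝ) * cnt s (fun φ : A →+* F => (n2 (a.map (mapRingHom φ)) (b.map (mapRingHom φ)) : ℝ)) -
        cnt s (fun φ : A →+* F => (n1 (a.map (mapRingHom φ)) : ℝ)) -
        cnt s (fun φ : A →+* F => (n1 ((hm Δ b a).map (mapRingHom φ)) : ℝ)) +
        cnt s (fun φ : A →+* F => (n1 ((C Δ : A[X][X]).map (mapRingHom φ)) : ℝ)) =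
      ∑ φ : A →+* F, if φ s ≠ 0 then main a b Δ φ else 0 := by
    unfold cnt
    rw [Finset.mul_sum, ← Finset.sum_sub_distrib, ← Finset.sum_sub_distrib, ← Finset.sum_add_distrib]
    refine Finset.sum_congr rfl fun φ _ => ?_
    unfold main
    split_ifs
    · rfl
    · ring
  rw [e1, ← Finset.sum_sub_distrib]
  refine (Finset.abs_sum_le_sum_abs _ _).trans ?_
  have e2 : K * (Nat.card (A →+* F) + cnt s (fun φ : A →+* F =>
        (n2 (a.map (mapRingHom φ)) (b.map (mapRingHom φ)) : ℝ))) =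
      ∑ φ : A →+* F, K * (1 + if φ s ≠ 0 then (n2 (a.map (mapRingHom φ)) (b.map (mapRingHom φ)) : ℝ) else 0) := by
    rw [← Finset.mul_sum, Finset.sum_add_distrib, Finset.sum_const, Finset.card_univ, nsmul_eq_mul, mul_one,
      Nat.card_eq_fintype_card]
    rfl
  rw [e2]
  refine Finset.sum_le_sum fun φ _ => ?_
  by_cases hφ : φ s ≠ 0
  · rw [if_pos hφ, if_pos hφ, if_pos hφ]
    exact h.est hK φ hφ
  · rw [if_neg hφ, if_neg hφ, if_neg hφ, sub_zero, abs_zero]
    have := hK.1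
    positivity

open Classical in
theorem MD.bd (h : MD d a b Δ s) {K : ℝ} (hK : LK d Δ.natDegree K) (Q : (A →+* F) → Prop) :
    |∑ φ : A →+* F, if Q φ ∧ φ s ≠ 0 then WW d a b Δ φ else 0| ≤
      (Nat.card F : ℝ) * cnt s (fun φ : A →+* F => (n2 (a.map (mapRingHom φ)) (b.map (mapRingHom φ)) : ℝ)) +
        cnt s (fun φ : A →+* F => (n1 (a.map (mapRingHom φ)) : ℝ)) +
        cnt s (fun φ : A →+* F => (n1 ((hm Δ b a).map (mapRingHom φ)) : ℝ)) +
        cnt s (fun φ : A →+* F => (n1 ((C Δ : A[X][X]).map (mapRingHom φ)) : ℝ)) +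
      K * (Nat.card (A →+* F) + cnt s (fun φ : A →+* F =>
        (n2 (a.map (mapRingHom φ)) (b.map (mapRingHom φ)) : ℝ))) := by
  refine (Finset.abs_sum_le_sum_abs _ _).trans ?_
  have e2 : (Nat.card F : ℝ) * cnt s (fun φ : A →+* F => (n2 (a.map (mapRingHom φ)) (b.map (mapRingHom φ)) : ℝ)) +
        cnt s (fun φ : A →+* F => (n1 (a.map (mapRingHom φ)) : ℝ)) +
        cnt s (fun φ : A →+* F => (n1 ((hm Δ b a).map (mapRingHom φ)) : ℝ)) +
        cnt s (fun φ : A →+* F => (n1 ((C Δ : A[X][X]).map (mapRingHom φ)) : ℝ)) +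
      K * (Nat.card (A →+* F) + cnt s (fun φ : A →+* F =>
        (n2 (a.map (mapRingHom φ)) (b.map (mapRingHom φ)) : ℝ))) =
      ∑ φ : A →+* F, (((Nat.card F : ℝ) * (if φ s ≠ 0 then (n2 (a.map (mapRingHom φ)) (b.map (mapRingHom φ)) : ℝ) else 0) +
        (if φ s ≠ 0 then (n1 (a.map (mapRingHom φ)) : ℝ) else 0) +
        (if φ s ≠ 0 then (n1 ((hm Δ b a).map (mapRingHom φ)) : ℝ) else 0) +
        (if φ s ≠ 0 then (n1 ((C Δ : A[X][X]).map (mapRingHom φ)) : ℝ) else 0)) +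
        K * (1 + if φ s ≠ 0 then (n2 (a.map (mapRingHom φ)) (b.map (mapRingHom φ)) : ℝ) else 0)) := by
    rw [Finset.sum_add_distrib, Finset.sum_add_distrib, Finset.sum_add_distrib, Finset.sum_add_distrib,
      ← Finset.mul_sum, ← Finset.mul_sum, Finset.sum_add_distrib, Finset.sum_const, Finset.card_univ,
      nsmul_eq_mul, mul_one, Nat.card_eq_fintype_card (α := A →+* F)]
    rfl
  rw [e2]
  refine Finset.sum_le_sum fun φ _ => ?_
  have hK0 := hK.1
  by_cases hφ : φ s ≠ 0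
  · rw [if_pos hφ, if_pos hφ, if_pos hφ, if_pos hφ]
    have h1 := h.est hK φ hφ
    have h2 : |main a b Δ φ| ≤ (Nat.card F : ℝ) * (n2 (a.map (mapRingHom φ)) (b.map (mapRingHom φ)) : ℝ) +
        (n1 (a.map (mapRingHom φ)) : ℝ) + (n1 ((hm Δ b a).map (mapRingHom φ)) : ℝ) +
        (n1 ((C Δ : A[X][X]).map (mapRingHom φ)) : ℝ) := by
      have p1 : (0 : ℝ) ≤ (Nat.card F : ℝ) * n2 (a.map (mapRingHom φ)) (b.map (mapRingHom φ)) := by positivity
      have p2 : (0 : ℝ) ≤ (n1 (a.map (mapRingHom φ)) : ℝ) := by positivity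
      have p3 : (0 : ℝ) ≤ (n1 ((hm Δ b a).map (mapRingHom φ)) : ℝ) := by positivity
      have p4 : (0 : ℝ) ≤ (n1 ((C Δ : A[X][X]).map (mapRingHom φ)) : ℝ) := by positivity
      unfold main
      rw [abs_le]
      constructor <;> linarith
    have h3 : |WW d a b Δ φ| ≤ |main a b Δ φ| + |WW d a b Δ φ - main a b Δ φ| := by
      have := abs_add_le (main a b Δ φ) (WW d a b Δ φ - main a b Δ φ)
      rwa [add_sub_cancel] at this
    have h4 : (0 : ℝ) ≤ (Nat.card F : ℝ) * (n2 (a.map (mapRingHom φ)) (b.map (mapRingHom φ)) : ℝ) +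
        (n1 (a.map (mapRingHom φ)) : ℝ) + (n1 ((hm Δ b a).map (mapRingHom φ)) : ℝ) +
        (n1 ((C Δ : A[X][X]).map (mapRingHom φ)) : ℝ) := by positivity
    have h5 : (0 : ℝ) ≤ K * (1 + (n2 (a.map (mapRingHom φ)) (b.map (mapRingHom φ)) : ℝ)) := by positivity
    split_ifs with h9
    · linarith
    · rw [abs_zero]
      linarith
  · rw [if_neg (fun h9 => hφ h9.2), if_neg hφ, if_neg hφ, if_neg hφ, if_neg hφ, abs_zero]
    simp only [mul_zero, add_zero, mul_one, zero_add]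
    positivity

end

end Pool.Agent.Zk97.CB
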