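import Pool.Agent.Zk97.CB.A2

/-!
# Pencils of plane curves of degree `d`: the asymptotic values
-/

set_option autoImplicit false
set_option linter.all false
set_option maxHeartbeats 1000000

open Polynomial NumberField IsDedekindDomain
open Pool.Agent.R410.LW (FG)
open Pool.Agent.R410.BS (cF cF_le cB cB_nonneg hom_le)
open Pool.Agent.R410.NG (Wt IsWt sR sT sR_eq sT_eq polyEquiv Asy avg)

namespace Pool.Agent.Zk97.CB

section
variable {R S : Type} [CommRing R] [CommRing S] {d : ℕ}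

theorem degLe_of_map {φ : R →+* S} (hφ : Function.Injective φ) {G : R[X][X]}
    (h : DegLe d (G.map (mapRingHom φ))) : DegLe d G := by
  intro i j hij
  apply h i j
  rw [coeff_map, coe_mapRingHom, coeff_map]
  exact fun h0 => hij (hφ (by rw [h0, map_zero]))

theorem coeff_of_map {φ : R →+* S} (hφ : Function.Injective φ) {G : R[X][X]} {i : ℕ} {c : R[X]}
    (h : (G.map (mapRingHom φ)).coeff i = c.map φ) : G.coeff i = c := by
  rw [coeff_map, coe_mapRingHom] at h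
  exact Polynomial.map_injective φ hφ h

theorem plane_of_map {φ : R →+* S} (hφ : Function.Injective φ) {G : R[X][X]}
    (h : IsPlane d (G.map (mapRingHom φ))) : IsPlane d G :=
  ⟨degLe_of_map hφ h.1, coeff_of_map hφ (by rw [h.2, Polynomial.map_one])⟩

theorem g1_plane {a b : R[X][X]} (hb : IsPlane d b) (ha : DegLe d a) (ha0 : a.coeff d = 0) :
    IsPlane d (g1 a b) := by
  refine ⟨?_, ?_⟩
  · exact (hb.1.map C).sub ((ha.map C).cmul X)
  · unfold g1
    rw [coeff_sub, coeff_C_mul, coeff_map, coeff_map, hb.2, ha0, map_one, map_zero, mul_zero, sub_zero]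

end

section
variable {A₀ M : Type} [CommRing A₀] [IsDomain A₀] [Field M] [Algebra A₀ M] [IsFractionRing A₀ M] {d : ℕ}

theorem cop_spread {a b : A₀[X][X]} (h : IsCoprime (top d (a.map (mapRingHom (algebraMap A₀ M))))
    (top d (b.map (mapRingHom (algebraMap A₀ M))))) :
    ∃ c₀ : A₀, c₀ ≠ 0 ∧ ∀ (k : Type) [Field k] (φ : A₀ →+* k), φ c₀ ≠ 0 →
      IsCoprime (top d (a.map (mapRingHom φ))) (top d (b.map (mapRingHom φ))) := by
  have hinj : Function.Injective (algebraMap A₀ M) := IsFractionRing.injective A₀ M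
  obtain ⟨u, v, h1⟩ := h
  obtain ⟨E1, u', hE1, e4⟩ := clearS1 (S := A₀) u
  obtain ⟨E2, v', hE2, e5⟩ := clearS1 (S := A₀) v
  have k2 : C E2 * u' * top d a + C E1 * v' * top d b = C (E1 * E2) := by
    apply Polynomial.map_injective _ hinj
    simp only [Polynomial.map_add, Polynomial.map_mul, Polynomial.map_C, e4, e5]
    rw [top_map, top_map]
    have := congrArg (fun z => C (algebraMap A₀ M (E1 * E2)) * z) h1
    simp only [mul_one, map_mul, C_mul] at this ⊢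
    rw [← this]
    ring
  refine ⟨E1 * E2, mul_ne_zero hE1 hE2, ?_⟩
  intro k _ φ hφ
  have k3 := congrArg (Polynomial.map φ) k2
  rw [Polynomial.map_add, Polynomial.map_mul, Polynomial.map_mul (p := C E1 * v'), top_map,
    top_map, Polynomial.map_C] at k3
  refine ⟨C (φ (E1 * E2))⁻¹ * Polynomial.map φ (C E2 * u'), C (φ (E1 * E2))⁻¹ * Polynomial.map φ (C E1 * v'), ?_⟩
  have hc : (C (φ (E1 * E2))⁻¹ * C (φ (E1 * E2)) : k[X]) = 1 := by
    rw [← C_mul, inv_mul_cancel₀ hφ, C_1]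
  rw [← hc, ← k3]
  ring

end

section
variable {A₀ M : Type} [CommRing A₀] [IsDomain A₀] [Algebra.FiniteType ℤ A₀] [Field M] [CharZero M]
  [Algebra A₀ M] [IsFractionRing A₀ M] {A B : M[X][X]} {d : ℕ}

/-- the asymptotic value of the number of the points of a curve -/
theorem asy_curve (hD : StD) (hC : StC) (hM : FG M) {e : ℕ} (he : Algebra.trdeg ℚ M = e) (p : A₀[X][X])
    {P : M[X][X]} (hp : p.map (mapRingHom (algebraMap A₀ M)) = P) (hP : P ≠ 0) :
    ∃ s₀ : A₀, s₀ ≠ 0 ∧ ∀ s : A₀, s ≠ 0 → s₀ ∣ s →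
      Asy (fun F _ _ => (Nat.card {Φ : A₀[X][X] →+* F // (∀ p' ∈ ({p} : Finset A₀[X][X]), Φ p' = 0) ∧
        Φ (C (C s)) ≠ 0} : ℝ)) (e + 1) (om P : ℝ) := by
  rw [← om_minimal hP]
  refine hC M hM e he A₀ 1 {p} (Ideal.span {P}) (by
    rw [Finset.coe_singleton, Set.image_singleton, hp]) ?_
  intro 𝔭 h1
  obtain ⟨π, hπ, rfl⟩ := mem_minimal_one 𝔭 hP h1
  rw [(hD M).2.1 π hπ, Nat.cast_one]

theorem asy_pp (hg : GP d A B) (hD : StD) (hC : StC) (hL : StL) (hM : FG M) {e : ℕ}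
    (he : Algebra.trdeg ℚ M = e) {a b : A₀[X][X]}
    (ha : a.map (mapRingHom (algebraMap A₀ M)) = A) (hb : b.map (mapRingHom (algebraMap A₀ M)) = B)
    {Δ : A₀[X]} (hΔ : Δ ≠ 0) {s₀ : A₀} (hs₀ : s₀ ≠ 0)
    (hmd : ∀ s : A₀, s ≠ 0 → s₀ ∣ s → MD d a b Δ s) :
    ∃ s : A₀, s ≠ 0 ∧
      (∃ (C' : ℝ) (m : ℕ), 0 ≤ C' ∧ m ≠ 0 ∧ ∀ (F : Type) [Field F] [Finite F], ((m : ℕ) : F) ≠ 0 →
        ∀ (O : Type) [CommRing O] (ρ₀ : O →+* A₀) (ψ : O →+* F),
          |sR (wtP d) ((C : A₀ →+* A₀[X]).comp ρ₀) (enc d d (g1 a b)) (Δ * C s) F ψ| ≤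
            C' * (Nat.card F : ℝ) ^ (e + 1)) ∧
      Asy (fun F _ _ => sT (wtP d) (enc d d (g1 a b)) (Δ * C s) F) (e + 1)
        (((Ideal.span {A, B}).minimalPrimes.ncard : ℝ) - om A -
          om (hm (Δ.map (algebraMap A₀ M)) B A) + om (C (Δ.map (algebraMap A₀ M)))) := by
  classical
  have hinj : Function.Injective (algebraMap A₀ M) := IsFractionRing.injective A₀ M
  have hlc : algebraMap A₀ M Δ.leadingCoeff ≠ 0 := by
    rw [Ne, map_eq_zero_iff _ hinj]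
    exact leadingCoeff_ne_zero.2 hΔ
  have hΔ' : Δ.map (algebraMap A₀ M) ≠ 0 := (Polynomial.map_ne_zero_iff hinj).2 hΔ
  have hhm : (hm Δ b a).map (mapRingHom (algebraMap A₀ M)) = hm (Δ.map (algebraMap A₀ M)) B A := by
    rw [hm_map _ Δ b a hlc, ha, hb]
  obtain ⟨s₁, hs₁, g₁⟩ := asy_curve hD hC hM he a ha hg.pen.A0
  obtain ⟨s₂, hs₂, g₂⟩ := hC M hM e he A₀ 0 {a, b} (Ideal.span {A, B}) (by
    rw [Finset.coe_insert, Finset.coe_singleton, Set.image_insert_eq, Set.image_singleton, ha, hb]) (by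
    intro 𝔭 hp
    obtain ⟨h1, h2, h3⟩ := (hg.mem_minimal 𝔭 hD).1 hp
    rw [(hD M).1 𝔭 (hg.isMaximal 𝔭 hD h1 h2 h3), Nat.cast_zero])
  obtain ⟨s₃, hs₃, g₃⟩ := asy_curve hD hC hM he (hm Δ b a) hhm (hm_deg hg.pen hΔ').2
  obtain ⟨s₄, hs₄, g₄⟩ := asy_curve hD hC hM he (C Δ : A₀[X][X]) (P := C (Δ.map (algebraMap A₀ M)))
    (by rw [Polynomial.map_C]; rfl) (C_ne_zero.2 hΔ')
  set s : A₀ := s₀ * (s₁ * (s₂ * (s₃ * s₄))) with hs
  have hs0 : s ≠ 0 := mul_ne_zero hs₀ (mul_ne_zero hs₁ (mul_ne_zero hs₂ (mul_ne_zero hs₃ hs₄)))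
  have T1 := g₂ s hs0 ⟨s₀ * s₁ * s₃ * s₄, by rw [hs]; ring⟩
  have T2 := g₁ s hs0 ⟨s₀ * s₂ * s₃ * s₄, by rw [hs]; ring⟩
  have T3 := g₃ s hs0 ⟨s₀ * s₁ * s₂ * s₄, by rw [hs]; ring⟩
  have T4 := g₄ s hs0 ⟨s₀ * s₁ * s₂ * s₃, by rw [hs]; ring⟩
  have hmds := hmd s hs0 ⟨_, hs⟩
  rw [add_zero] at T1
  have T5 := ((T1.mulq.add T2.neg).add T3.neg).add T4
  obtain ⟨C1, N1, hC1, hN1, b1⟩ := asy_bd T1
  obtain ⟨C2, N2, hC2, hN2, b2⟩ := asy_bd T2
  obtain ⟨C3, N3, hC3, hN3, b3⟩ := asy_bd T3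
  obtain ⟨C4, N4, hC4, hN4, b4⟩ := asy_bd T4
  obtain ⟨C0, hC0, b0⟩ := hom_le (R := A₀) (K := M) hinj he.le
  obtain ⟨K, hK⟩ := exists_LK hL d Δ.natDegree hmds.d0
  have hK0 := hK.1
  have hfin : ∀ (F : Type) [Field F] [Finite F], Finite (A₀ →+* F) := fun F _ _ => inferInstance
  refine ⟨s, hs0, ?_, ?_⟩
  · refine ⟨C1 + C2 + C3 + C4 + K * (C0 + C1), N1 * (N2 * (N3 * N4)), by positivity,
      mul_ne_zero hN1 (mul_ne_zero hN2 (mul_ne_zero hN3 hN4)), ?_⟩
    intro F _ _ hF O _ ρ₀ ψ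
    rw [Nat.cast_mul, Nat.cast_mul, Nat.cast_mul] at hF
    have e1 := b1 F (left_ne_zero_of_mul hF)
    have hF' := right_ne_zero_of_mul hF
    have e2 := b2 F (left_ne_zero_of_mul hF')
    have hF'' := right_ne_zero_of_mul hF'
    have e3 := b3 F (left_ne_zero_of_mul hF'')
    have e4 := b4 F (right_ne_zero_of_mul hF'')
    have e0 := b0 F
    let _ : Fintype F := Fintype.ofFinite F
    have hf1 : Finite (A₀ →+* F) := hfin F
    let _ : Fintype (A₀ →+* F) := Fintype.ofFinite _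
    have hf2 : Finite (A₀[X] →+* F) := finite_poly
    let _ : Fintype (A₀[X] →+* F) := Fintype.ofFinite _
    rw [pc2] at e1
    rw [pc1] at e2 e3 e4
    have e5 := hmds.bd hK (fun φ : A₀ →+* F => φ.comp ρ₀ = ψ)
    have e6 := sum_wtP s (fun Φ => hmds.good F Φ) (fun φ : A₀ →+* F => φ.comp ρ₀ = ψ)
    have e7 : sR (wtP d) ((C : A₀ →+* A₀[X]).comp ρ₀) (enc d d (g1 a b)) (Δ * C s) F ψ =
        ∑ φ : A₀ →+* F, if φ.comp ρ₀ = ψ ∧ φ s ≠ 0 then WW d a b Δ φ else 0 := by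
      rw [sR_eq]
      refine Eq.trans (Finset.sum_congr rfl fun Φ _ => ?_) (e6.trans (Finset.sum_congr rfl fun φ _ => ?_))
      · congr 1
      · unfold WW
        congr 1
    rw [e7]
    refine e5.trans ?_
    have hq1 : 1 ≤ (Nat.card F : ℝ) := by exact_mod_cast Nat.card_pos
    have hq : (Nat.card F : ℝ) ^ e ≤ (Nat.card F : ℝ) ^ (e + 1) := pow_le_pow_right₀ hq1 (Nat.le_succ e)
    have hq0 : (0 : ℝ) ≤ (Nat.card F : ℝ) ^ e := by positivity
    have f1 := (le_abs_self _).trans e1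
    have f2 := (le_abs_self _).trans e2
    have f3 := (le_abs_self _).trans e3
    have f4 := (le_abs_self _).trans e4
    have f5 : (Nat.card F : ℝ) * (∑ φ : A₀ →+* F, if φ s ≠ 0 then
        (n2 (a.map (mapRingHom φ)) (b.map (mapRingHom φ)) : ℝ) else 0) ≤ C1 * (Nat.card F : ℝ) ^ (e + 1) := by
      rw [pow_succ]
      have := mul_le_mul_of_nonneg_left f1 (by positivity : (0 : ℝ) ≤ (Nat.card F : ℝ))
      linarith
    have f6 : K * ((Nat.card (A₀ →+* F) : ℝ) + ∑ φ : A₀ →+* F, if φ s ≠ 0 then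
        (n2 (a.map (mapRingHom φ)) (b.map (mapRingHom φ)) : ℝ) else 0) ≤
        K * (C0 + C1) * (Nat.card F : ℝ) ^ (e + 1) := by
      rw [mul_assoc]
      refine mul_le_mul_of_nonneg_left ?_ hK0
      rw [add_mul]
      exact add_le_add (e0.trans (mul_le_mul_of_nonneg_left hq hC0)) (f1.trans (mul_le_mul_of_nonneg_left hq hC1))
    unfold cnt
    linarith
  · have T6 : Asy (fun F _ _ => sT (wtP d) (enc d d (g1 a b)) (Δ * C s) F) (e + 1)
        (((Ideal.span {A, B}).minimalPrimes.ncard : ℝ) + -(om A : ℝ) +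
          -(om (hm (Δ.map (algebraMap A₀ M)) B A) : ℝ) + om (C (Δ.map (algebraMap A₀ M)))) := by
      refine T5.near ⟨K * (C0 + C1), N1, by positivity, hN1, ?_⟩
      intro F _ _ hF
      have e1 := b1 F hF
      have e0 := b0 F
      let _ : Fintype F := Fintype.ofFinite F
      have hf1 : Finite (A₀ →+* F) := hfin F
      let _ : Fintype (A₀ →+* F) := Fintype.ofFinite _
      have hf2 : Finite (A₀[X] →+* F) := finite_poly
      let _ : Fintype (A₀[X] →+* F) := Fintype.ofFinite _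
      have e6 := sum_wtP s (fun Φ => hmds.good F Φ) (fun φ : A₀ →+* F => True)
      have e7 : sT (wtP d) (enc d d (g1 a b)) (Δ * C s) F =
          ∑ φ : A₀ →+* F, if φ s ≠ 0 then WW d a b Δ φ else 0 := by
        rw [sT_eq]
        refine Eq.trans (Finset.sum_congr rfl fun Φ _ => ?_) (e6.trans (Finset.sum_congr rfl fun φ _ => ?_))
        · by_cases h9 : Φ (Δ * C s) ≠ 0
          · rw [if_pos h9, if_pos ⟨trivial, h9⟩]
          · rw [if_neg h9, if_neg (fun h => h9 h.2)]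
        · unfold WW
          by_cases h9 : φ s ≠ 0
          · rw [if_pos h9, if_pos ⟨trivial, h9⟩]
          · rw [if_neg h9, if_neg (fun h => h9 h.2)]
      have e8 := hmds.near (F := F) hK
      rw [pc2] at e1
      have f1 := (le_abs_self _).trans e1
      have hq1 : 1 ≤ (Nat.card F : ℝ) := by exact_mod_cast Nat.card_pos
      have hsq : √(Nat.card F : ℝ) ≤ (Nat.card F : ℝ) := by
        rw [Real.sqrt_le_iff]
        constructor
        · linarith
        · nlinarith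
      have e9 : sT (wtP d) (enc d d (g1 a b)) (Δ * C s) F - ((Nat.card F : ℝ) *
          (Nat.card {Φ : A₀[X][X] →+* F // (∀ p ∈ ({a, b} : Finset A₀[X][X]), Φ p = 0) ∧ Φ (C (C s)) ≠ 0} : ℝ) +
          -(Nat.card {Φ : A₀[X][X] →+* F // (∀ p' ∈ ({a} : Finset A₀[X][X]), Φ p' = 0) ∧ Φ (C (C s)) ≠ 0} : ℝ) +
          -(Nat.card {Φ : A₀[X][X] →+* F // (∀ p' ∈ ({hm Δ b a} : Finset A₀[X][X]), Φ p' = 0) ∧
            Φ (C (C s)) ≠ 0} : ℝ) +
          (Nat.card {Φ : A₀[X][X] →+* F // (∀ p' ∈ ({C Δ} : Finset A₀[X][X]), Φ p' = 0) ∧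
            Φ (C (C s)) ≠ 0} : ℝ)) =
        (∑ φ : A₀ →+* F, if φ s ≠ 0 then WW d a b Δ φ else 0) -
          ((Nat.card F : ℝ) * cnt s (fun φ : A₀ →+* F => (n2 (a.map (mapRingHom φ)) (b.map (mapRingHom φ)) : ℝ)) -
          cnt s (fun φ : A₀ →+* F => (n1 (a.map (mapRingHom φ)) : ℝ)) -
          cnt s (fun φ : A₀ →+* F => (n1 ((hm Δ b a).map (mapRingHom φ)) : ℝ)) +
          cnt s (fun φ : A₀ →+* F => (n1 ((C Δ : A₀[X][X]).map (mapRingHom φ)) : ℝ))) := by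
        rw [e7, pc2, pc1, pc1, pc1]
        unfold cnt
        ring
      rw [e9]
      have e10 : K * ((Nat.card (A₀ →+* F) : ℝ) + cnt s (fun φ : A₀ →+* F =>
          (n2 (a.map (mapRingHom φ)) (b.map (mapRingHom φ)) : ℝ))) ≤ K * (C0 + C1) * (Nat.card F : ℝ) ^ e := by
        rw [mul_assoc]
        refine mul_le_mul_of_nonneg_left ?_ hK0
        rw [add_mul]
        exact add_le_add e0 f1
      calc _ ≤ (K * (C0 + C1) * (Nat.card F : ℝ) ^ e) * (Nat.card F : ℝ) :=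
            mul_le_mul (e8.trans e10) hsq (Real.sqrt_nonneg _) (by positivity)
        _ = _ := by rw [pow_succ]; ring
    convert T6 using 1
    ring

end

end Pool.Agent.Zk97.CB
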