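import Pool.Agent.Zk97.CB.F3
import Pool.Agent.R410.NG.Nat3

/-!
# A finite set of primes does not matter
-/

set_option autoImplicit false
set_option linter.all false

open Polynomial NumberField IsDedekindDomain Filter Topology
open Pool.Agent.R410.NG (sumT sumT_lim sumT_neg)

namespace Pool.Agent.Zk97.CB

section
variable {k : Type} [Field k] [NumberField k]

theorem sumT_fin {S : Finset (HeightOneSpectrum (𝓞 k))} {b b' : HeightOneSpectrum (𝓞 k) → ℝ} {r : ℝ}
    {E : Set (HeightOneSpectrum (𝓞 k))} (hE : E.Finite) (h : ∀ v, v ∉ E → b' v = b v)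
    (hlim : Tendsto (fun T : ℝ => sumT S b T / T) atTop (𝓝 r)) :
    Tendsto (fun T : ℝ => sumT S b' T / T) atTop (𝓝 r) := by
  classical
  set D : ℝ := ∑ v ∈ hE.toFinset, |b' v - b v| * |Real.log (Ideal.absNorm v.asIdeal : ℝ)| with hD
  have hfin : ∀ T : ℝ, {v : HeightOneSpectrum (𝓞 k) | v ∉ S ∧ (Ideal.absNorm v.asIdeal : ℝ) ≤ T}.Finite := by
    intro T
    refine ((Ideal.finite_setOf_absNorm_le (S := 𝓞 k) ⌊T⌋₊).preimage
      (f := fun v : HeightOneSpectrum (𝓞 k) => v.asIdeal)
      (fun v _ w _ h => HeightOneSpectrum.ext h)).subset ?_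
    rintro v ⟨h1, h2⟩
    exact Nat.le_floor h2
  have hdiff : ∀ T : ℝ, |sumT S b' T - sumT S b T| ≤ D := by
    intro T
    unfold sumT
    rw [finsum_mem_eq_finite_toFinset_sum _ (hfin T), finsum_mem_eq_finite_toFinset_sum _ (hfin T),
      ← Finset.sum_sub_distrib]
    have e1 : ∑ v ∈ (hfin T).toFinset, (b' v * Real.log (Ideal.absNorm v.asIdeal : ℝ) -
        b v * Real.log (Ideal.absNorm v.asIdeal : ℝ)) =
        ∑ v ∈ (hfin T).toFinset.filter (fun v => v ∈ E), (b' v - b v) *
          Real.log (Ideal.absNorm v.asIdeal : ℝ) := by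
      rw [Finset.sum_filter]
      refine Finset.sum_congr rfl fun v _ => ?_
      split_ifs with hv
      · ring
      · rw [h v hv, sub_self]
    rw [e1]
    refine (Finset.abs_sum_le_sum_abs _ _).trans ?_
    rw [hD]
    refine (Finset.sum_le_sum fun v _ => le_of_eq (abs_mul _ _)).trans ?_
    refine Finset.sum_le_sum_of_subset_of_nonneg ?_ fun v _ _ => by positivity
    intro v hv
    rw [Finset.mem_filter] at hv
    exact hE.mem_toFinset.2 hv.2
  have h0 : Tendsto (fun T : ℝ => (sumT S b' T - sumT S b T) / T) atTop (𝓝 0) := by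
    have h1 : Tendsto (fun T : ℝ => D / T) atTop (𝓝 0) := tendsto_const_nhds.div_atTop tendsto_id
    refine squeeze_zero_norm' ?_ h1
    filter_upwards [eventually_gt_atTop (0 : ℝ)] with T hT
    rw [Real.norm_eq_abs, abs_div, abs_of_pos hT]
    exact div_le_div_of_nonneg_right (hdiff T) hT.le
  have h2 := hlim.add h0
  rw [add_zero] at h2
  refine h2.congr fun T => ?_
  rw [← add_div, add_sub_cancel]

theorem finite_char (l : ℕ) (hl : l ≠ 0) :
    {v : HeightOneSpectrum (𝓞 k) | ((l : ℕ) : 𝓞 k ⧸ v.asIdeal) = 0}.Finite := by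
  have h1 : Ideal.span {((l : ℕ) : 𝓞 k)} ≠ 0 := by
    rw [Ne, Ideal.zero_eq_bot, Ideal.span_singleton_eq_bot]
    exact_mod_cast hl
  refine (Ideal.finite_factors h1).subset ?_
  intro v hv
  rw [Set.mem_setOf_eq] at hv
  show v.asIdeal ∣ _
  rw [Ideal.dvd_iff_le, Ideal.span_singleton_le_iff_mem, ← Ideal.Quotient.eq_zero_iff_mem]
  rw [map_natCast]
  exact hv

end

end Pool.Agent.Zk97.CB
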