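import Pool.Agent.Zk97.CB.A3
import Pool.Agent.Zk97.CB.F4

/-!
# Pencils of plane curves of degree `d`: the averages
-/

set_option autoImplicit false
set_option linter.all false
set_option maxHeartbeats 1000000

open Polynomial NumberField IsDedekindDomain
open Pool.Agent.R410.LW (FG)
open Pool.Agent.R410.BS (cF cF_le cB cB_nonneg)
open Pool.Agent.R410.NG (Wt IsWt sR sT sR_eq sT_eq polyEquiv Asy avg natural_models phA phA_apply phA_inj phA_frac
  gen_line trdeg_line exists_ringk)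
open Filter (Tendsto atTop)
open Topology

namespace Pool.Agent.Zk97.CB

section
variable {M K : Type} [Field M] [CharZero M] [Field K] [CharZero K] [Algebra M K] {w : K}
  {A B : M[X][X]} {d : ℕ} {k : Type} [Field k] [NumberField k] [Algebra k M]

/-- the good members over the points which are not zeros of `Δ` -/
theorem PP.om_good (h : PP d A B) (hg : GP d A B) (hS : StS) {A₀ : Type} [CommRing A₀] [Algebra A₀ M]
    {a b : A₀[X][X]} (ha : a.map (mapRingHom (algebraMap A₀ M)) = A)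
    (hb : b.map (mapRingHom (algebraMap A₀ M)) = B) {Δ : A₀[X]}
    (hgood : ∀ (k : Type) [Field k] (Φ : A₀[X] →+* k), Φ Δ ≠ 0 → Good d ((g1 a b).map (mapRingHom Φ)))
    (p : MPt M) (hp : ¬ p.1 ∣ Δ.map (algebraMap A₀ M)) : om (hm p.1 B A) = 1 := by
  have hfact : Fact (Irreducible p.1) := ⟨p.2.2⟩
  refine h.om_one hg hS p ?_
  let Φ : A₀[X] →+* AdjoinRoot p.1 := (AdjoinRoot.mk p.1).comp (mapRingHom (algebraMap A₀ M))
  have h1 : Φ Δ ≠ 0 := by
    show AdjoinRoot.mk p.1 (Δ.map (algebraMap A₀ M)) ≠ 0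
    rw [Ne, AdjoinRoot.mk_eq_zero]
    exact hp
  have h2 : (g1 a b).map (mapRingHom Φ) = ff (AdjoinRoot.root p.1) A B :=
    g1_mapK (algebraMap A₀ M) Φ (fun x => by
      show AdjoinRoot.mk p.1 ((C x : A₀[X]).map (algebraMap A₀ M)) = _
      rw [Polynomial.map_C]
      rfl) (by
      show AdjoinRoot.mk p.1 ((X : A₀[X]).map (algebraMap A₀ M)) = _
      rw [Polynomial.map_X]
      rfl) ha hb
  rw [← h2]
  exact hgood _ Φ h1

/-- **The natural average.** -/
theorem PP.natural (h : PP d A B) (hU : StU) (hS : StS) (hD : StD) (hY : StY) (hC : StC) (hL : StL)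
    (hM : FG M) {e : ℕ} (he : Algebra.trdeg ℚ M = e) (hw : Transcendental M w)
    (htop : IntermediateField.adjoin M {w} = ⊤) (hsm : Smooth (ff w A B))
    (R : Type) [CommRing R] [IsDomain R] [Algebra.FiniteType ℤ R] [Algebra R K] [IsFractionRing R K]
    [Algebra (𝓞 k) R] (hk : ∀ z : 𝓞 k, algebraMap R K (algebraMap (𝓞 k) R z) =
      algebraMap M K (algebraMap k M z)) (G : R[X][X])
    (hG : G.map (mapRingHom (algebraMap R K)) = ff w A B) {N : R} (hN : N ≠ 0)
    (S : Finset (HeightOneSpectrum (𝓞 k))) :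
    Tendsto (Pool.Agent.W353.FB.average S fun v => avg (wtP d) (enc d d G) N (e + 1) v) atTop
      (𝓝 (((Ideal.span {A, B}).minimalPrimes.ncard : ℝ) -
        ((om A + ∑ᶠ p : MPt M, (om (hm p.1 B A) - 1) : ℕ) : ℝ))) := by
  classical
  have hK : ∀ z : K, ∃ p q : M[X], aeval w q ≠ 0 ∧ z * aeval w q = aeval w p :=
    fun z => gen_line htop z hw
  have hg := h.gp hU hw hK
  -- the ring of coefficients
  obtain ⟨A₀, hA₀, hft, hfr, hAk⟩ := exists_ringk (k := k) hM (A.coeffs.biUnion Polynomial.coeffs ∪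
    B.coeffs.biUnion Polynomial.coeffs)
  have hmem : ∀ P : M[X][X], P.coeffs.biUnion Polynomial.coeffs ⊆ A.coeffs.biUnion Polynomial.coeffs ∪
    B.coeffs.biUnion Polynomial.coeffs → ∀ i j, (P.coeff i).coeff j ∈ (algebraMap A₀ M).range := by
    intro P hP i j
    by_cases h0 : (P.coeff i).coeff j = 0
    · rw [h0]
      exact Subring.zero_mem _
    · have h1 : P.coeff i ≠ 0 := by
        intro h2
        rw [h2, coeff_zero] at h0
        exact h0 rfl
      have h2 := hA₀ _ (hP (Finset.mem_biUnion.2 ⟨P.coeff i, coeff_mem_coeffs h1, coeff_mem_coeffs h0⟩))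
      exact ⟨⟨_, h2⟩, rfl⟩
  obtain ⟨a, ha⟩ := lift_two (algebraMap A₀ M) A (hmem A Finset.subset_union_left)
  obtain ⟨b, hb⟩ := lift_two (algebraMap A₀ M) B (hmem B Finset.subset_union_right)
  have hinj : Function.Injective (algebraMap A₀ M) := IsFractionRing.injective A₀ M
  have hbp : IsPlane d b := plane_of_map hinj (by rw [hb]; exact h.pl)
  have hap : DegLe d a := degLe_of_map hinj (by rw [ha]; exact h.deg)
  have ha0 : a.coeff d = 0 := coeff_of_map hinj (by rw [ha, h.A0, Polynomial.map_zero])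
  -- the model
  let _ : Algebra A₀[X] K := (phA (M := M) A₀ w).toAlgebra
  have hfr' : IsFractionRing A₀[X] K := phA_frac A₀ hw htop
  have hft0 : Algebra.FiniteType ℤ A₀[X] := inferInstance
  have hft' := Pool.Agent.R410.LW.ft_int _ hft0
  let ρ₀ : 𝓞 k →+* A₀ := Pool.Agent.R410.NG.rho hAk
  let _ : Algebra (𝓞 k) A₀[X] := ((C : A₀ →+* A₀[X]).comp ρ₀).toAlgebra
  have hrho : (algebraMap R K).comp (algebraMap (𝓞 k) R) =
      (algebraMap A₀[X] K).comp (algebraMap (𝓞 k) A₀[X]) := by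
    refine RingHom.ext fun z => ?_
    show algebraMap R K (algebraMap (𝓞 k) R z) = phA (M := M) A₀ w (C (ρ₀ z))
    rw [hk, phA_apply, Polynomial.map_C, aeval_C]
    rfl
  have hg1K : (g1 a b).map (mapRingHom (algebraMap A₀[X] K)) = ff w A B :=
    g1_mapK (algebraMap A₀ M) (algebraMap A₀[X] K) (fun x => by
      show phA (M := M) A₀ w (C x) = _
      rw [phA_apply, Polynomial.map_C, aeval_C]) (by
      show phA (M := M) A₀ w X = w
      rw [phA_apply, Polynomial.map_X, aeval_X]) ha hb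
  -- the discriminant
  obtain ⟨Δ, hΔ, hgood⟩ := spread_good (S := A₀[X]) (K := K) (g1_plane hbp hap ha0) (by
    rw [hg1K]
    exact h.good hw hK hsm)
  have hΔ' : Δ.map (algebraMap A₀ M) ≠ 0 := (Polynomial.map_ne_zero_iff hinj).2 hΔ
  obtain ⟨c₀, hc₀, hcop⟩ := cop_spread (A₀ := A₀) (M := M) (d := d) (a := a) (b := b) (by
    rw [ha, hb]
    exact h.cop)
  have hmd : ∀ s : A₀, s ≠ 0 → c₀ * Δ.leadingCoeff ∣ s → MD d a b Δ s := by
    intro s hs hdvd
    obtain ⟨t, rfl⟩ := hdvd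
    refine ⟨h.d0, hbp, hap, ha0, hgood, ?_, ?_⟩
    · intro k' _ φ hφ
      rw [map_mul, map_mul] at hφ
      exact right_ne_zero_of_mul (left_ne_zero_of_mul hφ)
    · intro k' _ φ hφ
      rw [map_mul, map_mul] at hφ
      exact hcop k' φ (left_ne_zero_of_mul (left_ne_zero_of_mul hφ))
  obtain ⟨s, hs0, hbd, hasy⟩ := asy_pp hg hD hC hL hM he ha hb hΔ
    (mul_ne_zero hc₀ (leadingCoeff_ne_zero.2 hΔ)) hmd
  have hom := hg.om_sub hΔ' (fun p hp => h.om_good hg hS ha hb hgood p hp)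
  have hlim : ((Ideal.span {A, B}).minimalPrimes.ncard : ℝ) - om A -
      om (hm (Δ.map (algebraMap A₀ M)) B A) + om (C (Δ.map (algebraMap A₀ M))) =
      ((Ideal.span {A, B}).minimalPrimes.ncard : ℝ) -
        ((om A + ∑ᶠ p : MPt M, (om (hm p.1 B A) - 1) : ℕ) : ℝ) := by
    rw [hom]
    push_cast
    ring
  rw [hlim] at hasy
  obtain ⟨κ, iκ, L, iL, nL, c, hc, C3, N3, hC3, hN3, b3⟩ := hasy
  obtain ⟨cw, hwt⟩ := isWt_wtP hY h.d0
  have hGc : IsPlane d G := plane_of_map (IsFractionRing.injective R K) (by rw [hG]; exact h.ff_plane w)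
  have hgg : ∀ j, (enc d d G j).map (algebraMap R K) = (enc d d (g1 a b) j).map (algebraMap A₀[X] K) := by
    intro j
    rw [enc_map, enc_map, hG, hg1K]
  refine natural_models hwt (e := e + 1) (trdeg_line he hw htop).le hrho hgg
    (fun j => plane_enc hGc j) hN (N' := Δ * C s) (mul_ne_zero hΔ (C_ne_zero.2 hs0)) L c hc ?_ ?_ S
  · obtain ⟨C', m, hC', hm', hb'⟩ := hbd
    exact ⟨C', m, hC', hm', fun F _ _ hF ψ => hb' F hF (𝓞 k) ρ₀ ψ⟩
  · exact ⟨C3, N3, hC3, hN3, fun F _ _ hF => b3 F hF⟩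

end

end Pool.Agent.Zk97.CB
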