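import Pool.Agent.Zk97.CB.A4

/-!
# Pencils of plane curves of degree `d`: the reducible members
-/

set_option autoImplicit false
set_option linter.all false

open Polynomial NumberField IsDedekindDomain
open Pool.Agent.R410.NG (avg sR sR_eq)

namespace Pool.Agent.Zk97.CB

section
variable {M : Type} [Field M] {A B : M[X][X]} {l d : ℕ}

/-- only finitely many members are reducible -/
theorem GP.supp_finite (h : GP l A B) (hfin : Finite h.I) : {p : MPt M | om (hm p.1 B A) ≠ 1}.Finite := by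
  have h1 : ∀ p : {p : MPt M | om (hm p.1 B A) ≠ 1}, ∃ x : PI M, x ∈ cset (hm p.1.1 B A) ∧ x ≠ h.x0 p.1 := by
    rintro ⟨p, hp⟩
    by_contra h2
    push Not at h2
    apply hp
    have h3 : cset (hm p.1 B A) = {h.x0 p} := by
      ext x
      rw [Set.mem_singleton_iff]
      refine ⟨fun h4 => h2 x h4, ?_⟩
      rintro rfl
      exact h.x0_dvd p
    show (cset (hm p.1 B A)).ncard = 1
    rw [h3, Set.ncard_singleton]
  choose f hf using h1
  let g : {p : MPt M | om (hm p.1 B A) ≠ 1} → h.I := fun p => ⟨f p, Or.inr ⟨p.1, (hf p).1, (hf p).2⟩⟩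
  have hg : Function.Injective g := by
    intro p q hpq
    have h2 : f p = f q := congrArg (fun z : h.I => (z.1 : PI M)) hpq
    apply Subtype.ext
    exact h.eq_of (gen_prime (f p)) (hf p).1 (by rw [h2]; exact (hf q).1)
  exact Set.finite_coe_iff.1 (Finite.of_injective g hg)

theorem comp_eq {P : M[X][X]} (hP : P ≠ 0) :
    {𝔭 : Ideal M[X][X] | ∃ π : M[X][X], Irreducible π ∧ π ∣ P ∧ 𝔭 = Ideal.span {π}} =
      (Ideal.span {P}).minimalPrimes := by
  ext 𝔯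
  constructor
  · rintro ⟨π, h1, h2, rfl⟩
    have hpr : (Ideal.span {π}).IsPrime := (Ideal.span_singleton_prime h1.ne_zero).2 h1.prime
    refine ⟨⟨hpr, (Ideal.span_singleton_le_iff_mem _).2 (Ideal.mem_span_singleton.2 h2)⟩, ?_⟩
    rintro 𝔮 ⟨hq, hqA⟩ hle
    have h3 : P ∈ 𝔮 := hqA (Ideal.mem_span_singleton_self P)
    obtain ⟨π', h4, h5⟩ : ∃ π' : M[X][X], Irreducible π' ∧ π' ∈ 𝔮 := by
      have h6 : 𝔮 ≠ ⊥ := by
        rintro rfl
        exact hP (Ideal.mem_bot.1 h3)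
      obtain ⟨p, hp, hp'⟩ := Ideal.IsPrime.exists_mem_prime_of_ne_bot hq h6
      exact ⟨p, hp'.irreducible, hp⟩
    have h7 : π ∣ π' := Ideal.mem_span_singleton.1 (hle h5)
    have h8 : Associated π π' := h1.associated_of_dvd h4 h7
    rw [Ideal.span_singleton_le_iff_mem]
    exact 𝔮.mem_of_dvd h8.symm.dvd h5
  · intro h
    obtain ⟨π, h1, rfl⟩ := mem_minimal_one 𝔯 hP h
    exact ⟨π, h1, Ideal.mem_span_singleton.1 (h.1.2 (Ideal.mem_span_singleton_self P)), rfl⟩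

/-- the number of the irreducible components -/
noncomputable def comps (P : M[X][X]) : ℕ :=
  Nat.card {𝔭 : Ideal M[X][X] // ∃ π : M[X][X], Irreducible π ∧ π ∣ P ∧ 𝔭 = Ideal.span {π}}

theorem comps_eq {P : M[X][X]} (hP : P ≠ 0) : comps P = om P := by
  rw [← om_minimal hP, ← comp_eq hP]
  rfl

/-- the number of the base points -/
noncomputable def bpts (A B : M[X][X]) : ℕ :=
  Nat.card {𝔪 : Ideal M[X][X] // 𝔪.IsMaximal ∧ A ∈ 𝔪 ∧ B ∈ 𝔪}

theorem GP.base_eq (h : GP l A B) (hD : StD) : {𝔪 : Ideal M[X][X] | 𝔪.IsMaximal ∧ A ∈ 𝔪 ∧ B ∈ 𝔪} =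
    (Ideal.span {A, B}).minimalPrimes := by
  ext 𝔯
  rw [h.mem_minimal 𝔯 hD]
  exact ⟨fun h' => ⟨h'.1.isPrime, h'.2⟩, fun h' => ⟨h.isMaximal 𝔯 hD h'.1 h'.2.1 h'.2.2, h'.2⟩⟩

theorem GP.bpts_eq (h : GP l A B) (hD : StD) : bpts A B = (Ideal.span {A, B}).minimalPrimes.ncard := by
  rw [← h.base_eq hD]
  rfl

theorem GP.sum_eq (h : GP l A B) : (∑ᶠ p : MPt M, (comps (hm p.1 B A) - 1)) =
    ∑ᶠ p : MPt M, (om (hm p.1 B A) - 1) :=
  finsum_congr fun p => by rw [comps_eq (hm_deg h.pen p.2.2.ne_zero).2]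

end

section
variable {k R : Type} [Field k] [NumberField k] [CommRing R] [Algebra.FiniteType ℤ R] [Algebra (𝓞 k) R] {d : ℕ}

theorem wtP_enc' {F : Type} [Field F] {G : F[X][X]} (h : IsPlane d G) (hn : ¬ Good d G) :
    wtP d F (enc d d G) = 0 := by
  classical
  obtain ⟨h1, h2⟩ := h.monic
  unfold wtP
  rw [dec_enc h1 h2, if_neg hn]

theorem sR_wtP {O F : Type} [CommRing O] [Field F] [Finite F] {G : R[X][X]} (hG : IsPlane d G) (N : R)
    (ρ : O →+* R) (ψ : O →+* F) :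
    sR (wtP d) ρ (enc d d G) N F ψ = ∑ᶠ φ : {φ : R →+* F // φ.comp ρ = ψ ∧ φ N ≠ 0 ∧
      Good d (G.map (mapRingHom φ))}, nqP d F (G.map (mapRingHom φ.1)) := by
  classical
  have hfin : Finite (R →+* F) := inferInstance
  let _ : Fintype (R →+* F) := Fintype.ofFinite _
  rw [sR_eq, Pool.Agent.R410.NG.finsum_sub (fun φ : R →+* F => φ.comp ρ = ψ ∧ φ N ≠ 0 ∧
    Good d (G.map (mapRingHom φ))) (fun φ => nqP d F (G.map (mapRingHom φ)))]
  refine Finset.sum_congr rfl fun φ _ => ?_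
  have e1 : (fun j => (enc d d G j).map φ) = enc d d (G.map (mapRingHom φ)) := by
    funext j
    exact enc_map _ _ _
  rw [e1]
  by_cases h1 : φ.comp ρ = ψ ∧ φ N ≠ 0
  · by_cases h2 : Good d (G.map (mapRingHom φ))
    · rw [if_pos h1, if_pos ⟨h1.1, h1.2, h2⟩, wtP_enc h2]
    · rw [if_pos h1, if_neg (fun h => h2 h.2.2), wtP_enc' (hG.map φ) h2]
  · rw [if_neg h1, if_neg (fun h => h1 ⟨h.1, h.2.1⟩)]

theorem avg_wtP {G : R[X][X]} (hG : IsPlane d G) (N : R) (m : ℕ) (v : HeightOneSpectrum (𝓞 k)) :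
    avg (wtP d) (enc d d G) N m v = ((Nat.card (𝓞 k ⧸ v.asIdeal) : ℝ) ^ m)⁻¹ *
      ∑ᶠ φ : {φ : R →+* 𝓞 k ⧸ v.asIdeal //
        φ.comp (algebraMap (𝓞 k) R) = Ideal.Quotient.mk v.asIdeal ∧ φ N ≠ 0 ∧
          Good d (G.map (mapRingHom φ))},
        nqP d (𝓞 k ⧸ v.asIdeal) (G.map (mapRingHom φ.1)) := by
  unfold avg
  rw [sR_wtP hG]

end

end Pool.Agent.Zk97.CB
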