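import Pool.Agent.Zk97.CB.GDefs
import Pool.Agent.Zk78.CB.L

/-!
# The open curves `B = w A ≠ 0`: counting
-/

set_option autoImplicit false
set_option linter.all false

open Polynomial
open Pool.Agent.R410.NG (Wt IsWt)
open Pool.Agent.Zk78.CB.LL (hm_ne hm_zero zs n1_CC)

namespace Pool.Agent.Zk97.CB

/-- the number of the elements of the field minus the number of the points of the open curve -/
noncomputable def nU (F : Type) [Field F] (G a : F[X][X]) : ℝ :=
  (Nat.card F : ℝ) - Nat.card {P : F × F // evalEval P.1 P.2 G = 0 ∧ evalEval P.1 P.2 a ≠ 0}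

section
variable {F : Type} [Field F] [Fintype F]

open Classical in
theorem sum_nU (a b : F[X][X]) {D : F[X]} (hD : D ≠ 0) :
    |(∑ t : F, if D.eval t ≠ 0 then nU F (b - C (C t) * a) a else 0) -
      ((n1 a : ℝ) + n1 (hm D b a) - n1 (C D : F[X][X]))| ≤ n2 a b := by
  classical
  set q : ℝ := (Nat.card F : ℝ) with hq
  have hqF : ((Fintype.card F : ℕ) : ℝ) = q := by rw [hq, Nat.card_eq_fintype_card]
  have h1 : ∀ t : F, (if D.eval t ≠ 0 then nU F (b - C (C t) * a) a else 0) =
      q * (1 - if D.eval t = 0 then (1 : ℝ) else 0) - ∑ P : F × F,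
        if D.eval t ≠ 0 ∧ evalEval P.1 P.2 b = t * evalEval P.1 P.2 a ∧ evalEval P.1 P.2 a ≠ 0 then (1 : ℝ) else 0 := by
    intro t
    by_cases ht : D.eval t = 0
    · rw [if_neg (not_not.2 ht), if_pos ht, sub_self, mul_zero, zero_sub, eq_comm, neg_eq_zero]
      refine Finset.sum_eq_zero fun P _ => if_neg ?_
      rintro ⟨h, -⟩
      exact h ht
    · rw [if_pos ht, if_neg ht, sub_zero, mul_one]
      unfold nU
      rw [card_filter]
      congr 1
      refine Finset.sum_congr rfl fun P _ => if_congr ?_ rfl rfl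
      rw [evalEval_sub, evalEval_mul, evalEval_CC, sub_eq_zero]
      exact ⟨fun h => ⟨ht, h⟩, fun h => h.2⟩
  have h2 : ∀ P : F × F, (∑ t : F, if D.eval t ≠ 0 ∧ evalEval P.1 P.2 b = t * evalEval P.1 P.2 a ∧
      evalEval P.1 P.2 a ≠ 0 then (1 : ℝ) else 0) =
      1 - (if evalEval P.1 P.2 a = 0 then (1 : ℝ) else 0) - (if evalEval P.1 P.2 (hm D b a) = 0 then (1 : ℝ) else 0) +
        (if evalEval P.1 P.2 a = 0 ∧ evalEval P.1 P.2 (hm D b a) = 0 then (1 : ℝ) else 0) := by
    intro P
    by_cases ha : evalEval P.1 P.2 a = 0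
    · rw [Finset.sum_eq_zero (fun t _ => if_neg (fun h => h.2.2 ha)), if_pos ha]
      by_cases hh : evalEval P.1 P.2 (hm D b a) = 0
      · rw [if_pos hh, if_pos ⟨ha, hh⟩]
        ring
      · rw [if_neg hh, if_neg (fun h => hh h.2)]
        ring
    · have hna : ¬ (evalEval P.1 P.2 a = 0 ∧ evalEval P.1 P.2 (hm D b a) = 0) := fun h => ha h.1
      rw [if_neg ha, if_neg hna]
      rw [Finset.sum_eq_single (evalEval P.1 P.2 b / evalEval P.1 P.2 a)]
      · by_cases hh : evalEval P.1 P.2 (hm D b a) = 0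
        · rw [if_pos hh, if_neg (fun h => h.1 ((hm_ne ha).1 hh))]
          ring
        · rw [if_neg hh, if_pos ⟨fun h => hh ((hm_ne ha).2 h), by rw [div_mul_cancel₀ _ ha], ha⟩]
          ring
      · intro t _ ht
        rw [if_neg]
        rintro ⟨-, h, -⟩
        apply ht
        rw [h, mul_div_cancel_right₀ _ ha]
      · intro h
        exact absurd (Finset.mem_univ _) h
  have h3 : (∑ P : F × F, if evalEval P.1 P.2 a = 0 ∧ evalEval P.1 P.2 (hm D b a) = 0 then (1 : ℝ) else 0) ≤
      n2 a b := by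
    unfold n2
    rw [card_filter]
    refine Finset.sum_le_sum fun P _ => ?_
    by_cases h : evalEval P.1 P.2 a = 0 ∧ evalEval P.1 P.2 (hm D b a) = 0
    · have hb : evalEval P.1 P.2 b = 0 := by
        by_contra hb
        exact hm_zero hD h.1 hb h.2
      rw [if_pos h, if_pos ⟨h.1, hb⟩]
    · rw [if_neg h]
      split_ifs <;> norm_num
  have h4 : (0 : ℝ) ≤ ∑ P : F × F, if evalEval P.1 P.2 a = 0 ∧ evalEval P.1 P.2 (hm D b a) = 0 then (1 : ℝ) else 0 := by
    refine Finset.sum_nonneg fun P _ => ?_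
    split_ifs <;> norm_num
  have h5 : (∑ t : F, if D.eval t ≠ 0 then nU F (b - C (C t) * a) a else 0) =
      ((n1 a : ℝ) + n1 (hm D b a) - n1 (C D : F[X][X])) -
        ∑ P : F × F, if evalEval P.1 P.2 a = 0 ∧ evalEval P.1 P.2 (hm D b a) = 0 then (1 : ℝ) else 0 := by
    rw [Finset.sum_congr rfl fun t _ => h1 t, Finset.sum_sub_distrib, Finset.sum_comm,
      Finset.sum_congr rfl fun P _ => h2 P, Finset.sum_add_distrib, Finset.sum_sub_distrib,
      Finset.sum_sub_distrib, ← Finset.mul_sum, Finset.sum_sub_distrib, n1_CC]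
    have e1 : (n1 a : ℝ) = ∑ P : F × F, if evalEval P.1 P.2 a = 0 then (1 : ℝ) else 0 := by
      unfold n1
      rw [card_filter]
    have e2 : (n1 (hm D b a) : ℝ) = ∑ P : F × F, if evalEval P.1 P.2 (hm D b a) = 0 then (1 : ℝ) else 0 := by
      unfold n1
      rw [card_filter]
    have e3 : zs D = ∑ t : F, if D.eval t = 0 then (1 : ℝ) else 0 := rfl
    rw [e1, e2, e3, Finset.sum_const, Finset.sum_const, Finset.card_univ, Finset.card_univ, Fintype.card_prod,
      nsmul_eq_mul, nsmul_eq_mul]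
    push_cast
    rw [hqF]
    ring
  rw [h5, sub_sub_cancel_left, abs_neg, abs_of_nonneg h4]
  exact h3

end

end Pool.Agent.Zk97.CB
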