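import Pool.Agent.Zk97.CB.B1

/-!
# The open curves `B = w A ≠ 0`: the weights
-/

set_option autoImplicit false
set_option linter.all false

open Polynomial
open Pool.Agent.R410.NG (Wt IsWt)

namespace Pool.Agent.Zk97.CB

section
variable {R S : Type} [CommRing R] [CommRing S] {l n : ℕ}

/-- the polynomial of degree `< l` with the given coefficients -/
noncomputable def dec0 (l n : ℕ) (p : Fin l → R[X]) : R[X][X] :=
  ∑ j : Fin l, C (p j - X ^ (n + 1)) * X ^ (j : ℕ)

theorem sum_coeff (q : Fin l → R[X]) (i : ℕ) :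
    (∑ j : Fin l, C (q j) * X ^ (j : ℕ) : R[X][X]).coeff i = if h : i < l then q ⟨i, h⟩ else 0 := by
  rw [finsetSum_coeff]
  simp only [coeff_C_mul_X_pow]
  split_ifs with h
  · rw [Finset.sum_eq_single ⟨i, h⟩]
    · rw [if_pos rfl]
    · intro j _ hj
      rw [if_neg]
      intro h1
      exact hj (Fin.ext h1.symm)
    · intro h1
      exact absurd (Finset.mem_univ _) h1
  · refine Finset.sum_eq_zero fun j _ => ?_
    rw [if_neg]
    intro h1
    have := j.2
    omega

theorem sum_degree (q : Fin l → R[X]) :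
    (∑ j : Fin l, C (q j) * X ^ (j : ℕ) : R[X][X]).degree < (l : WithBot ℕ) := by
  rw [degree_lt_iff_coeff_zero]
  intro i hi
  rw [sum_coeff, dif_neg (by omega)]

theorem dec_monic [Nontrivial R] (p : Fin l → R[X]) : (dec l n p).Monic ∧ (dec l n p).natDegree = l := by
  have h := sum_degree (fun j => p j - X ^ (n + 1))
  refine ⟨monic_X_pow_add h, ?_⟩
  unfold dec
  rw [natDegree_add_eq_left_of_degree_lt (by rw [degree_X_pow]; exact h), natDegree_X_pow]

theorem sub_deg [Nontrivial R] {p : R[X]} (h : p.Monic ∧ p.natDegree = n + 1) :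
    (p - X ^ (n + 1)).natDegree ≤ n := by
  rw [natDegree_le_iff_coeff_eq_zero]
  intro i hi
  rw [coeff_sub, coeff_X_pow]
  split_ifs with h1
  · have h2 : p.coeff (n + 1) = 1 := by
      have := h.1
      rw [Monic, leadingCoeff, h.2] at this
      exact this
    rw [h1, h2, sub_self]
  · rw [coeff_eq_zero_of_natDegree_lt (by omega), sub_zero]

theorem dec_coeff_deg [Nontrivial R] {p : Fin l → R[X]} (h : ∀ j, (p j).Monic ∧ (p j).natDegree = n + 1)
    (i : ℕ) : ((dec l n p).coeff i).natDegree ≤ n := by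
  unfold dec
  rw [coeff_add, sum_coeff, coeff_X_pow]
  split_ifs with h1 h2 h2
  · omega
  · rw [add_zero, natDegree_one]
    exact Nat.zero_le _
  · rw [zero_add]
    exact sub_deg (h _)
  · rw [add_zero, natDegree_zero]
    exact Nat.zero_le _

theorem dec0_coeff_deg [Nontrivial R] {p : Fin l → R[X]} (h : ∀ j, (p j).Monic ∧ (p j).natDegree = n + 1)
    (i : ℕ) : ((dec0 l n p).coeff i).natDegree ≤ n := by
  unfold dec0
  rw [sum_coeff]
  split_ifs with h2
  · exact sub_deg (h _)
  · rw [natDegree_zero]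
    exact Nat.zero_le _

theorem dec0_natDegree (hl : 0 < l) (p : Fin l → R[X]) : (dec0 l n p).natDegree < l := by
  have h := sum_degree (fun j => p j - X ^ (n + 1))
  by_cases h0 : dec0 l n p = 0
  · rw [h0, natDegree_zero]
    exact hl
  · exact (natDegree_lt_iff_degree_lt h0).2 h

theorem dec0_enc {a : R[X][X]} (ha : a.natDegree < l) : dec0 l n (enc l n a) = a := by
  ext1 i
  unfold dec0 enc
  rw [sum_coeff (fun j : Fin l => X ^ (n + 1) + a.coeff (j : ℕ) - X ^ (n + 1))]
  split_ifs with h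
  · rw [add_sub_cancel_left]
  · rw [coeff_eq_zero_of_natDegree_lt (by omega)]

theorem dec0_map (φ : R →+* S) (p : Fin l → R[X]) :
    dec0 l n (fun j => (p j).map φ) = (dec0 l n p).map (mapRingHom φ) := by
  unfold dec0
  rw [Polynomial.map_sum]
  refine Finset.sum_congr rfl fun j _ => ?_
  rw [Polynomial.map_mul, Polynomial.map_C, Polynomial.map_pow, Polynomial.map_X, coe_mapRingHom,
    Polynomial.map_sub, Polynomial.map_pow, Polynomial.map_X]

theorem enc_deg [Nontrivial R] {G : R[X][X]} (h : ∀ i, (G.coeff i).natDegree ≤ n) (j : Fin l) :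
    (enc l n G j).Monic ∧ (enc l n G j).natDegree = n + 1 := by
  have h1 := h j
  have h2 : (G.coeff (j : ℕ)).degree < ((n + 1 : ℕ) : WithBot ℕ) := by
    refine degree_le_natDegree.trans_lt ?_
    rw [Nat.cast_withBot, Nat.cast_withBot, WithBot.coe_lt_coe]
    omega
  exact ⟨monic_X_pow_add h2, by
    unfold enc
    rw [natDegree_add_eq_left_of_degree_lt (by rw [degree_X_pow]; exact h2), natDegree_X_pow]⟩

/-- two polynomials, encoded -/
noncomputable def enc2 (l n : ℕ) (G a : R[X][X]) : Fin l ⊕ Fin l → R[X] :=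
  Sum.elim (enc l n G) (enc l n a)

theorem enc2_deg [Nontrivial R] {G a : R[X][X]} (h : ∀ i, (G.coeff i).natDegree ≤ n)
    (h' : ∀ i, (a.coeff i).natDegree ≤ n) (j : Fin l ⊕ Fin l) :
    (enc2 l n G a j).Monic ∧ (enc2 l n G a j).natDegree = n + 1 := by
  rcases j with j | j
  · exact enc_deg h j
  · exact enc_deg h' j

theorem enc2_map (φ : R →+* S) (G a : R[X][X]) (j : Fin l ⊕ Fin l) :
    (enc2 l n G a j).map φ = enc2 l n (G.map (mapRingHom φ)) (a.map (mapRingHom φ)) j := by
  rcases j with j | j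
  · exact enc_map φ G j
  · exact enc_map φ a j

end

section
variable {l n : ℕ}

theorem AbsIrr.map {F F' : Type} [Field F] [Field F'] (φ : F →+* F') {G : F[X][X]} (h : AbsIrr G) :
    AbsIrr (G.map (mapRingHom φ)) := by
  intro k _ ψ
  rw [Polynomial.map_map, mapRingHom_comp]
  exact h k _

theorem absIrr_iso {F F' : Type} [Field F] [Field F'] (e : F ≃+* F') (G : F[X][X]) :
    AbsIrr (G.map (mapRingHom (e : F →+* F'))) ↔ AbsIrr G := by
  refine ⟨fun h => ?_, AbsIrr.map _⟩
  have h1 := AbsIrr.map (e.symm : F' →+* F) h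
  rw [Polynomial.map_map, mapRingHom_comp] at h1
  have h2 : (e.symm : F' →+* F).comp (e : F →+* F') = RingHom.id F := by
    ext x
    simp
  rw [h2, mapRingHom_id, Polynomial.map_id] at h1
  exact h1

theorem nU_iso {F F' : Type} [Field F] [Field F'] (e : F ≃+* F') (G a : F[X][X]) :
    nU F' (G.map (mapRingHom (e : F →+* F'))) (a.map (mapRingHom (e : F →+* F'))) = nU F G a := by
  unfold nU
  rw [Nat.card_congr e.toEquiv]
  congr 2
  refine (Nat.card_congr (Equiv.subtypeEquiv (Equiv.prodCongr e.toEquiv e.toEquiv) fun P => ?_)).symm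
  have h' : ∀ G : F[X][X], evalEval (e P.1) (e P.2) (G.map (mapRingHom (e : F →+* F'))) = e (evalEval P.1 P.2 G) :=
    fun G => Polynomial.map_mapRingHom_evalEval (e : F →+* F') G P.1 P.2
  show _ ↔ evalEval (e P.1) (e P.2) (G.map (mapRingHom (e : F →+* F'))) = 0 ∧
    evalEval (e P.1) (e P.2) (a.map (mapRingHom (e : F →+* F'))) ≠ 0
  rw [h', h']
  exact and_congr (map_eq_zero_iff e e.injective).symm (not_congr (map_eq_zero_iff e e.injective).symm)

open Classical in
/-- the weight -/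
noncomputable def wtU (l n : ℕ) : Wt (Fin l ⊕ Fin l) := fun F _ p =>
  if ((l : ℕ) : F) ≠ 0 ∧ AbsIrr (dec l n (fun j => p (Sum.inl j))) ∧
    dec0 l n (fun j => p (Sum.inr j)) ≠ 0 then
    nU F (dec l n (fun j => p (Sum.inl j))) (dec0 l n (fun j => p (Sum.inr j))) else 0

theorem nU_eq {F : Type} [Field F] [Finite F] (G a : F[X][X]) : nU F G a =
    (Nat.card F : ℝ) - Nat.card {P : F × F // evalEval P.1 P.2 G = 0} +
      Nat.card {P : F × F // evalEval P.1 P.2 G = 0 ∧ evalEval P.1 P.2 a = 0} := by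
  classical
  let _ : Fintype F := Fintype.ofFinite F
  unfold nU
  rw [card_filter, card_filter, card_filter]
  have h : ∀ P : F × F, (if evalEval P.1 P.2 G = 0 ∧ evalEval P.1 P.2 a ≠ 0 then (1 : ℝ) else 0) =
      (if evalEval P.1 P.2 G = 0 then (1 : ℝ) else 0) -
        (if evalEval P.1 P.2 G = 0 ∧ evalEval P.1 P.2 a = 0 then (1 : ℝ) else 0) := by
    intro P
    by_cases h1 : evalEval P.1 P.2 G = 0
    · by_cases h2 : evalEval P.1 P.2 a = 0
      · rw [if_neg (fun h => h.2 h2), if_pos h1, if_pos ⟨h1, h2⟩, sub_self]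
      · rw [if_pos ⟨h1, h2⟩, if_pos h1, if_neg (fun h => h2 h.2), sub_zero]
    · rw [if_neg (fun h => h1 h.1), if_neg h1, if_neg (fun h => h1 h.1), sub_self]
  rw [Finset.sum_congr rfl fun P _ => h P, Finset.sum_sub_distrib]
  ring

theorem isWt_wtU (hV : StV) (hB : StB) (hl : 0 < l) : ∃ c : ℝ, IsWt (wtU l n) (fun _ => n + 1) c := by
  classical
  obtain ⟨c, hc0, h⟩ := hV l n hl
  obtain ⟨c', h'⟩ := hB l n
  refine ⟨c + c', by positivity, ?_, ?_⟩
  · intro F F' _ _ e p
    unfold wtU
    rw [dec_map, dec0_map, nU_iso]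
    refine if_congr ?_ rfl rfl
    rw [absIrr_iso]
    have h1 : ((l : ℕ) : F') ≠ 0 ↔ ((l : ℕ) : F) ≠ 0 := by
      refine not_congr ?_
      rw [← map_natCast e, map_eq_zero_iff e e.injective]
    have h2 : (dec0 l n (fun j => p (Sum.inr j))).map (mapRingHom (e : F →+* F')) ≠ 0 ↔
        dec0 l n (fun j => p (Sum.inr j)) ≠ 0 :=
      Polynomial.map_ne_zero_iff (Polynomial.map_injective _ (e : F →+* F').injective)
    rw [h1, h2]
  · intro F _ _ p hp
    unfold wtU
    have hq : 1 ≤ (Nat.card F : ℝ) := by exact_mod_cast Nat.card_pos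
    have hs : 1 ≤ √(Nat.card F : ℝ) := by rw [Real.one_le_sqrt]; exact hq
    split_ifs with h1
    · obtain ⟨k1, k2, k3⟩ := h1
      have hm := dec_monic (n := n) (fun j => p (Sum.inl j))
      have hdeg := dec_coeff_deg (fun j => hp (Sum.inl j))
      have e1 := h F _ hm.1 hm.2 hdeg k1 k2
      have hirr : Irreducible (dec l n (fun j => p (Sum.inl j))) := by
        have := k2 F (RingHom.id F)
        rwa [mapRingHom_id, Polynomial.map_id] at this
      have e2 := h' F _ _ hm.1 hm.2 hirr hdeg (dec0_coeff_deg (fun j => hp (Sum.inr j)))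
        (dec0_natDegree hl _) k3
      rw [nU_eq]
      have e3 : (Nat.card {P : F × F // evalEval P.1 P.2 (dec l n (fun j => p (Sum.inl j))) = 0 ∧
          evalEval P.1 P.2 (dec0 l n (fun j => p (Sum.inr j))) = 0} : ℝ) ≤ c' := by exact_mod_cast e2
      have e4 : (0 : ℝ) ≤ (Nat.card {P : F × F // evalEval P.1 P.2 (dec l n (fun j => p (Sum.inl j))) = 0 ∧
          evalEval P.1 P.2 (dec0 l n (fun j => p (Sum.inr j))) = 0} : ℝ) := Nat.cast_nonneg _
      refine (abs_add_le _ _).trans ?_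
      rw [add_mul, abs_sub_comm, abs_of_nonneg e4]
      exact add_le_add e1 (e3.trans (le_mul_of_one_le_right (by positivity) hs))
    · rw [abs_zero]
      positivity

theorem wtU_enc {F : Type} [Field F] {G a : F[X][X]} (hG : G.Monic) (hd : G.natDegree = l)
    (ha : a.natDegree < l) (hF : ((l : ℕ) : F) ≠ 0) (hirr : AbsIrr G) (ha0 : a ≠ 0) :
    wtU l n F (enc2 l n G a) = nU F G a := by
  classical
  have e1 : dec l n (fun j => enc2 l n G a (Sum.inl j)) = G := dec_enc hG hd
  have e2 : dec0 l n (fun j => enc2 l n G a (Sum.inr j)) = a := dec0_enc ha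
  unfold wtU
  rw [e1, e2, if_pos ⟨hF, hirr, ha0⟩]

theorem wtU_enc' {F : Type} [Field F] {G a : F[X][X]} (hG : G.Monic) (hd : G.natDegree = l)
    (ha : a.natDegree < l) (h : ¬ (((l : ℕ) : F) ≠ 0 ∧ AbsIrr G ∧ a ≠ 0)) :
    wtU l n F (enc2 l n G a) = 0 := by
  classical
  have e1 : dec l n (fun j => enc2 l n G a (Sum.inl j)) = G := dec_enc hG hd
  have e2 : dec0 l n (fun j => enc2 l n G a (Sum.inr j)) = a := dec0_enc ha
  unfold wtU
  rw [e1, e2, if_neg h]

end

end Pool.Agent.Zk97.CB
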