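import Pool.Agent.Zk97.CB.B2

/-!
# The open curves `B = w A ≠ 0`: the asymptotic values
-/

set_option autoImplicit false
set_option linter.all false
set_option maxHeartbeats 1000000

open Polynomial NumberField IsDedekindDomain
open Pool.Agent.R410.LW (FG)
open Pool.Agent.R410.BS (cF cF_le cB cB_nonneg hom_le)
open Pool.Agent.R410.NG (Wt IsWt sR sT sR_eq sT_eq polyEquiv Asy avg)

namespace Pool.Agent.Zk97.CB

/-- the data of a nice model -/
structure MU {A : Type} [CommRing A] (l : ℕ) (a b : A[X][X]) (Δ : A[X]) (s : A) : Prop where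
  l0 : 0 < l
  bm : b.Monic
  bd : b.natDegree = l
  ad : a.natDegree < l
  good : ∀ (k : Type) [Field k] (Φ : A[X] →+* k), Φ Δ ≠ 0 → Irreducible ((g1 a b).map (mapRingHom Φ))
  lc : ∀ (k : Type) [Field k] (φ : A →+* k), φ s ≠ 0 → φ Δ.leadingCoeff ≠ 0
  an : ∀ (k : Type) [Field k] (φ : A →+* k), φ s ≠ 0 → a.map (mapRingHom φ) ≠ 0

section
variable {R : Type} [CommRing R] {l : ℕ}

theorem g1_monic [Nontrivial R] {a b : R[X][X]} (hb : b.Monic) (hd : b.natDegree = l) (ha : a.natDegree < l) :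
    (g1 a b).Monic ∧ (g1 a b).natDegree = l := by
  have h1 : (b.map (mapRingHom (C : R →+* R[X]))).Monic := hb.map _
  have h2 : (b.map (mapRingHom (C : R →+* R[X]))).natDegree = l := by rw [hb.natDegree_map, hd]
  have h3 : (C (C X) * a.map (mapRingHom C) : R[X][X][X]).degree <
      (b.map (mapRingHom (C : R →+* R[X]))).degree := by
    rw [degree_eq_natDegree h1.ne_zero, h2]
    refine (degree_le_natDegree).trans_lt ?_
    have h4 : (C (C X) * a.map (mapRingHom C) : R[X][X][X]).natDegree < l :=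
      ((natDegree_C_mul_le _ _).trans natDegree_map_le).trans_lt ha
    exact_mod_cast h4
  unfold g1
  refine ⟨h1.sub_of_left h3, ?_⟩
  rw [natDegree_sub_eq_left_of_natDegree_lt, h2]
  rw [h2]
  exact ((natDegree_C_mul_le _ _).trans natDegree_map_le).trans_lt ha

end

section
variable {A F : Type} [CommRing A] [Field F] [Fintype F] {l n : ℕ} {a b : A[X][X]} {Δ : A[X]} {s : A}

open Classical in
/-- the sum over the good members -/
noncomputable def WU (a b : A[X][X]) (Δ : A[X]) (φ : A →+* F) : ℝ :=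
  ∑ t : F, if (Δ.map φ).eval t ≠ 0 then
    nU F (b.map (mapRingHom φ) - C (C t) * a.map (mapRingHom φ)) (a.map (mapRingHom φ)) else 0

/-- the main term -/
noncomputable def mainU (a b : A[X][X]) (Δ : A[X]) (φ : A →+* F) : ℝ :=
  n1 (a.map (mapRingHom φ)) + n1 ((hm Δ b a).map (mapRingHom φ)) - n1 ((C Δ : A[X][X]).map (mapRingHom φ))

theorem MU.abs (h : MU l a b Δ s) {k : Type} [Field k] (Φ : A[X] →+* k) (hΦ : Φ Δ ≠ 0) :
    AbsIrr ((g1 a b).map (mapRingHom Φ)) := by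
  intro k' _ φ
  rw [Polynomial.map_map, mapRingHom_comp]
  refine h.good k' (φ.comp Φ) ?_
  rw [RingHom.comp_apply, Ne, map_eq_zero]
  exact hΦ

theorem MU.est (h : MU l a b Δ s) (φ : A →+* F) (hφ : φ s ≠ 0) :
    |WU a b Δ φ - mainU a b Δ φ| ≤ n2 (a.map (mapRingHom φ)) (b.map (mapRingHom φ)) := by
  classical
  have hlc := h.lc F φ hφ
  have hD : Δ.map φ ≠ 0 := by
    intro h0
    apply hlc
    have h2 := congrArg (fun p => p.coeff Δ.natDegree) h0
    simpa using h2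
  have h1 := sum_nU (a.map (mapRingHom φ)) (b.map (mapRingHom φ)) hD
  have e2 : (C (Δ.map φ) : F[X][X]) = (C Δ : A[X][X]).map (mapRingHom φ) := by
    rw [Polynomial.map_C]
    rfl
  rw [← hm_map φ Δ b a hlc, e2] at h1
  unfold WU mainU
  convert h1

variable [Fintype (A →+* F)]

open Classical in
/-- the sum over the points above a condition -/
theorem MU.sum_wtU (h : MU l a b Δ s) (hF : ((l : ℕ) : F) ≠ 0) [Fintype (A[X] →+* F)] (Q : (A →+* F) → Prop) :
    (∑ Φ : A[X] →+* F, if Q (Φ.comp C) ∧ Φ (Δ * C s) ≠ 0 then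
      wtU l n F (fun j => (enc2 l n (g1 a b) (a.map (mapRingHom C)) j).map Φ) else 0) =
      ∑ φ : A →+* F, if Q φ ∧ φ s ≠ 0 then WU a b Δ φ else 0 := by
  rw [sum_line']
  refine Finset.sum_congr rfl fun φ _ => ?_
  have h0 : ∀ t : F, (eval₂RingHom φ t).comp C = φ := by
    intro t
    ext x
    simp
  have h1 : ∀ t : F, eval₂RingHom φ t (Δ * C s) = (Δ.map φ).eval t * φ s := by
    intro t
    rw [map_mul, coe_eval₂RingHom, eval₂_C, eval_map]
  have h5 : ∀ t : F, eval₂RingHom φ t Δ = (Δ.map φ).eval t := by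
    intro t
    rw [coe_eval₂RingHom, eval_map]
  have h6 : ∀ t : F, (a.map (mapRingHom C)).map (mapRingHom (eval₂RingHom φ t)) = a.map (mapRingHom φ) := by
    intro t
    rw [Polynomial.map_map, mapRingHom_comp, h0]
  by_cases hh : Q φ ∧ φ s ≠ 0
  · rw [if_pos hh]
    unfold WU
    refine Finset.sum_congr rfl fun t _ => ?_
    rw [h0, h1]
    by_cases h2 : (Δ.map φ).eval t ≠ 0
    · rw [if_pos ⟨hh.1, mul_ne_zero h2 hh.2⟩, if_pos h2]
      have h3 : (fun j => (enc2 l n (g1 a b) (a.map (mapRingHom C)) j).map (eval₂RingHom φ t)) =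
          enc2 l n ((g1 a b).map (mapRingHom (eval₂RingHom φ t))) (a.map (mapRingHom φ)) := by
        funext j
        rw [enc2_map, h6]
      have hA : Nontrivial A := by
        by_contra hA
        have := not_nontrivial_iff_subsingleton.1 hA
        apply hh.2
        rw [Subsingleton.elim s 0, map_zero]
      have h7 := g1_monic h.bm h.bd h.ad
      rw [h3, wtU_enc (h7.1.map _) (by rw [h7.1.natDegree_map, h7.2]) (natDegree_map_le.trans_lt h.ad) hF
        (h.abs _ (by rw [h5]; exact h2)) (h.an F φ hh.2), g1_map]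
    · rw [if_neg h2, if_neg]
      rintro ⟨-, h4⟩
      exact h2 (left_ne_zero_of_mul h4)
  · rw [if_neg hh]
    refine Finset.sum_eq_zero fun t _ => ?_
    rw [h0, h1, if_neg]
    rintro ⟨h3, h4⟩
    exact hh ⟨h3, right_ne_zero_of_mul h4⟩

open Classical in
theorem MU.near (h : MU l a b Δ s) :
    |(∑ φ : A →+* F, if φ s ≠ 0 then WU a b Δ φ else 0) -
      (cnt s (fun φ : A →+* F => (n1 (a.map (mapRingHom φ)) : ℝ)) +
        cnt s (fun φ : A →+* F => (n1 ((hm Δ b a).map (mapRingHom φ)) : ℝ)) -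
        cnt s (fun φ : A →+* F => (n1 ((C Δ : A[X][X]).map (mapRingHom φ)) : ℝ)))| ≤
      cnt s (fun φ : A →+* F => (n2 (a.map (mapRingHom φ)) (b.map (mapRingHom φ)) : ℝ)) := by
  have e1 : cnt s (fun φ : A →+* F => (n1 (a.map (mapRingHom φ)) : ℝ)) +
        cnt s (fun φ : A →+* F => (n1 ((hm Δ b a).map (mapRingHom φ)) : ℝ)) -
        cnt s (fun φ : A →+* F => (n1 ((C Δ : A[X][X]).map (mapRingHom φ)) : ℝ)) =
      ∑ φ : A →+* F, if φ s ≠ 0 then mainU a b Δ φ else 0 := by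
    unfold cnt
    rw [← Finset.sum_add_distrib, ← Finset.sum_sub_distrib]
    refine Finset.sum_congr rfl fun φ _ => ?_
    unfold mainU
    split_ifs
    · rfl
    · ring
  rw [e1, ← Finset.sum_sub_distrib]
  refine (Finset.abs_sum_le_sum_abs _ _).trans ?_
  unfold cnt
  refine Finset.sum_le_sum fun φ _ => ?_
  by_cases hφ : φ s ≠ 0
  · rw [if_pos hφ, if_pos hφ, if_pos hφ]
    exact h.est φ hφ
  · rw [if_neg hφ, if_neg hφ, if_neg hφ, sub_zero, abs_zero]

open Classical in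
theorem MU.bdd (h : MU l a b Δ s) (Q : (A →+* F) → Prop) :
    |∑ φ : A →+* F, if Q φ ∧ φ s ≠ 0 then WU a b Δ φ else 0| ≤
      cnt s (fun φ : A →+* F => (n1 (a.map (mapRingHom φ)) : ℝ)) +
        cnt s (fun φ : A →+* F => (n1 ((hm Δ b a).map (mapRingHom φ)) : ℝ)) +
        cnt s (fun φ : A →+* F => (n1 ((C Δ : A[X][X]).map (mapRingHom φ)) : ℝ)) +
      cnt s (fun φ : A →+* F => (n2 (a.map (mapRingHom φ)) (b.map (mapRingHom φ)) : ℝ)) := by
  refine (Finset.abs_sum_le_sum_abs _ _).trans ?_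
  unfold cnt
  rw [← Finset.sum_add_distrib, ← Finset.sum_add_distrib, ← Finset.sum_add_distrib]
  refine Finset.sum_le_sum fun φ _ => ?_
  by_cases hφ : φ s ≠ 0
  · rw [if_pos hφ, if_pos hφ, if_pos hφ, if_pos hφ]
    have h1 := h.est φ hφ
    have h2 : |mainU a b Δ φ| ≤ (n1 (a.map (mapRingHom φ)) : ℝ) + (n1 ((hm Δ b a).map (mapRingHom φ)) : ℝ) +
        (n1 ((C Δ : A[X][X]).map (mapRingHom φ)) : ℝ) := by
      have p2 : (0 : ℝ) ≤ (n1 (a.map (mapRingHom φ)) : ℝ) := by positivity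
      have p3 : (0 : ℝ) ≤ (n1 ((hm Δ b a).map (mapRingHom φ)) : ℝ) := by positivity
      have p4 : (0 : ℝ) ≤ (n1 ((C Δ : A[X][X]).map (mapRingHom φ)) : ℝ) := by positivity
      unfold mainU
      rw [abs_le]
      constructor <;> linarith
    have h3 : |WU a b Δ φ| ≤ |mainU a b Δ φ| + |WU a b Δ φ - mainU a b Δ φ| := by
      have := abs_add_le (mainU a b Δ φ) (WU a b Δ φ - mainU a b Δ φ)
      rwa [add_sub_cancel] at this
    have h4 : (0 : ℝ) ≤ (n1 (a.map (mapRingHom φ)) : ℝ) + (n1 ((hm Δ b a).map (mapRingHom φ)) : ℝ) +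
        (n1 ((C Δ : A[X][X]).map (mapRingHom φ)) : ℝ) + (n2 (a.map (mapRingHom φ)) (b.map (mapRingHom φ)) : ℝ) := by
      positivity
    split_ifs with h9
    · linarith
    · rw [abs_zero]
      exact h4
  · rw [if_neg (fun h9 => hφ h9.2), if_neg hφ, if_neg hφ, if_neg hφ, if_neg hφ, abs_zero]
    simp only [add_zero, le_refl]

end

section
variable {A₀ M : Type} [CommRing A₀] [IsDomain A₀] [Algebra.FiniteType ℤ A₀] [Field M] [CharZero M]
  [Algebra A₀ M] [IsFractionRing A₀ M] {A B : M[X][X]} {l n : ℕ}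

theorem asy_u (hg : GP l A B) (hD : StD) (hC : StC) (hM : FG M) {e : ℕ}
    (he : Algebra.trdeg ℚ M = e) {a b : A₀[X][X]}
    (ha : a.map (mapRingHom (algebraMap A₀ M)) = A) (hb : b.map (mapRingHom (algebraMap A₀ M)) = B)
    {Δ : A₀[X]} (hΔ : Δ ≠ 0) {s₀ : A₀} (hs₀ : s₀ ≠ 0)
    (hmd : ∀ s : A₀, s ≠ 0 → s₀ ∣ s → MU l a b Δ s) :
    ∃ s : A₀, s ≠ 0 ∧
      (∃ (C' : ℝ) (m : ℕ), 0 ≤ C' ∧ m ≠ 0 ∧ ∀ (F : Type) [Field F] [Finite F], ((m : ℕ) : F) ≠ 0 →
        ∀ (O : Type) [CommRing O] (ρ₀ : O →+* A₀) (ψ : O →+* F),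
          |sR (wtU l n) ((C : A₀ →+* A₀[X]).comp ρ₀) (enc2 l n (g1 a b) (a.map (mapRingHom C))) (Δ * C s) F ψ| ≤
            C' * (Nat.card F : ℝ) ^ (e + 1)) ∧
      Asy (fun F _ _ => sT (wtU l n) (enc2 l n (g1 a b) (a.map (mapRingHom C))) (Δ * C s) F) (e + 1)
        ((om A : ℝ) + om (hm (Δ.map (algebraMap A₀ M)) B A) - om (C (Δ.map (algebraMap A₀ M)))) := by
  classical
  have hinj : Function.Injective (algebraMap A₀ M) := IsFractionRing.injective A₀ M
  have hlc : algebraMap A₀ M Δ.leadingCoeff ≠ 0 := by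
    rw [Ne, map_eq_zero_iff _ hinj]
    exact leadingCoeff_ne_zero.2 hΔ
  have hΔ' : Δ.map (algebraMap A₀ M) ≠ 0 := (Polynomial.map_ne_zero_iff hinj).2 hΔ
  have hhm : (hm Δ b a).map (mapRingHom (algebraMap A₀ M)) = hm (Δ.map (algebraMap A₀ M)) B A := by
    rw [hm_map _ Δ b a hlc, ha, hb]
  obtain ⟨s₁, hs₁, g₁⟩ := asy_curve hD hC hM he a ha hg.pen.A0
  obtain ⟨s₂, hs₂, g₂⟩ := hC M hM e he A₀ 0 {a, b} (Ideal.span {A, B}) (by
    rw [Finset.coe_insert, Finset.coe_singleton, Set.image_insert_eq, Set.image_singleton, ha, hb]) (by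
    intro 𝔭 hp
    obtain ⟨h1, h2, h3⟩ := (hg.mem_minimal 𝔭 hD).1 hp
    rw [(hD M).1 𝔭 (hg.isMaximal 𝔭 hD h1 h2 h3), Nat.cast_zero])
  obtain ⟨s₃, hs₃, g₃⟩ := asy_curve hD hC hM he (hm Δ b a) hhm (hm_deg hg.pen hΔ').2
  obtain ⟨s₄, hs₄, g₄⟩ := asy_curve hD hC hM he (C Δ : A₀[X][X]) (P := C (Δ.map (algebraMap A₀ M)))
    (by rw [Polynomial.map_C]; rfl) (C_ne_zero.2 hΔ')
  set s : A₀ := s₀ * (s₁ * (s₂ * (s₃ * s₄))) with hs
  have hs0 : s ≠ 0 := mul_ne_zero hs₀ (mul_ne_zero hs₁ (mul_ne_zero hs₂ (mul_ne_zero hs₃ hs₄)))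
  have T1 := g₂ s hs0 ⟨s₀ * s₁ * s₃ * s₄, by rw [hs]; ring⟩
  have T2 := g₁ s hs0 ⟨s₀ * s₂ * s₃ * s₄, by rw [hs]; ring⟩
  have T3 := g₃ s hs0 ⟨s₀ * s₁ * s₂ * s₄, by rw [hs]; ring⟩
  have T4 := g₄ s hs0 ⟨s₀ * s₁ * s₂ * s₃, by rw [hs]; ring⟩
  have hmds := hmd s hs0 ⟨_, hs⟩
  rw [add_zero] at T1
  have T5 := (T2.add T3).add T4.neg
  obtain ⟨C1, N1, hC1, hN1, b1⟩ := asy_bd T1
  obtain ⟨C2, N2, hC2, hN2, b2⟩ := asy_bd T2
  obtain ⟨C3, N3, hC3, hN3, b3⟩ := asy_bd T3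
  obtain ⟨C4, N4, hC4, hN4, b4⟩ := asy_bd T4
  have hfin : ∀ (F : Type) [Field F] [Finite F], Finite (A₀ →+* F) := fun F _ _ => inferInstance
  refine ⟨s, hs0, ?_, ?_⟩
  · refine ⟨C2 + C3 + C4 + C1, l * (N1 * (N2 * (N3 * N4))), by positivity,
      mul_ne_zero hmds.l0.ne' (mul_ne_zero hN1 (mul_ne_zero hN2 (mul_ne_zero hN3 hN4))), ?_⟩
    intro F _ _ hF O _ ρ₀ ψ
    rw [Nat.cast_mul, Nat.cast_mul, Nat.cast_mul, Nat.cast_mul] at hF
    have hlF : ((l : ℕ) : F) ≠ 0 := left_ne_zero_of_mul hF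
    have hF0 := right_ne_zero_of_mul hF
    have e1 := b1 F (left_ne_zero_of_mul hF0)
    have hF' := right_ne_zero_of_mul hF0
    have e2 := b2 F (left_ne_zero_of_mul hF')
    have hF'' := right_ne_zero_of_mul hF'
    have e3 := b3 F (left_ne_zero_of_mul hF'')
    have e4 := b4 F (right_ne_zero_of_mul hF'')
    let _ : Fintype F := Fintype.ofFinite F
    have hf1 : Finite (A₀ →+* F) := hfin F
    let _ : Fintype (A₀ →+* F) := Fintype.ofFinite _
    have hf2 : Finite (A₀[X] →+* F) := finite_poly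
    let _ : Fintype (A₀[X] →+* F) := Fintype.ofFinite _
    rw [pc2] at e1
    rw [pc1] at e2 e3 e4
    have e5 := hmds.bdd (F := F) (fun φ : A₀ →+* F => φ.comp ρ₀ = ψ)
    have e6 := hmds.sum_wtU (n := n) hlF (fun φ : A₀ →+* F => φ.comp ρ₀ = ψ)
    have e7 : sR (wtU l n) ((C : A₀ →+* A₀[X]).comp ρ₀) (enc2 l n (g1 a b) (a.map (mapRingHom C))) (Δ * C s) F ψ =
        ∑ φ : A₀ →+* F, if φ.comp ρ₀ = ψ ∧ φ s ≠ 0 then WU a b Δ φ else 0 := by
      rw [sR_eq]
      refine Eq.trans (Finset.sum_congr rfl fun Φ _ => ?_) (e6.trans (Finset.sum_congr rfl fun φ _ => ?_))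
      · congr 1
      · congr 1
    rw [e7]
    refine e5.trans ?_
    have hq1 : 1 ≤ (Nat.card F : ℝ) := by exact_mod_cast Nat.card_pos
    have hq : (Nat.card F : ℝ) ^ e ≤ (Nat.card F : ℝ) ^ (e + 1) := pow_le_pow_right₀ hq1 (Nat.le_succ e)
    have f1 := ((le_abs_self _).trans e1).trans (mul_le_mul_of_nonneg_left hq hC1)
    have f2 := (le_abs_self _).trans e2
    have f3 := (le_abs_self _).trans e3
    have f4 := (le_abs_self _).trans e4
    unfold cnt
    linarith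
  · have T6 : Asy (fun F _ _ => sT (wtU l n) (enc2 l n (g1 a b) (a.map (mapRingHom C))) (Δ * C s) F) (e + 1)
        ((om A : ℝ) + (om (hm (Δ.map (algebraMap A₀ M)) B A) : ℝ) +
          -(om (C (Δ.map (algebraMap A₀ M))) : ℝ)) := by
      refine T5.near ⟨C1, l * N1, hC1, mul_ne_zero hmds.l0.ne' hN1, ?_⟩
      intro F _ _ hF
      rw [Nat.cast_mul] at hF
      have hlF : ((l : ℕ) : F) ≠ 0 := left_ne_zero_of_mul hF
      have e1 := b1 F (right_ne_zero_of_mul hF)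
      let _ : Fintype F := Fintype.ofFinite F
      have hf1 : Finite (A₀ →+* F) := hfin F
      let _ : Fintype (A₀ →+* F) := Fintype.ofFinite _
      have hf2 : Finite (A₀[X] →+* F) := finite_poly
      let _ : Fintype (A₀[X] →+* F) := Fintype.ofFinite _
      have e6 := hmds.sum_wtU (n := n) hlF (fun φ : A₀ →+* F => True)
      have e7 : sT (wtU l n) (enc2 l n (g1 a b) (a.map (mapRingHom C))) (Δ * C s) F =
          ∑ φ : A₀ →+* F, if φ s ≠ 0 then WU a b Δ φ else 0 := by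
        rw [sT_eq]
        refine Eq.trans (Finset.sum_congr rfl fun Φ _ => ?_) (e6.trans (Finset.sum_congr rfl fun φ _ => ?_))
        · by_cases h9 : Φ (Δ * C s) ≠ 0
          · rw [if_pos h9, if_pos ⟨trivial, h9⟩]
          · rw [if_neg h9, if_neg (fun h => h9 h.2)]
        · by_cases h9 : φ s ≠ 0
          · rw [if_pos h9, if_pos ⟨trivial, h9⟩]
          · rw [if_neg h9, if_neg (fun h => h9 h.2)]
      have e8 := hmds.near (F := F)
      rw [pc2] at e1
      have f1 := (le_abs_self _).trans e1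
      have hq1 : 1 ≤ (Nat.card F : ℝ) := by exact_mod_cast Nat.card_pos
      have hsq : √(Nat.card F : ℝ) ≤ (Nat.card F : ℝ) := by
        rw [Real.sqrt_le_iff]
        constructor
        · linarith
        · nlinarith
      have e9 : sT (wtU l n) (enc2 l n (g1 a b) (a.map (mapRingHom C))) (Δ * C s) F -
          ((Nat.card {Φ : A₀[X][X] →+* F // (∀ p' ∈ ({a} : Finset A₀[X][X]), Φ p' = 0) ∧ Φ (C (C s)) ≠ 0} : ℝ) +
          (Nat.card {Φ : A₀[X][X] →+* F // (∀ p' ∈ ({hm Δ b a} : Finset A₀[X][X]), Φ p' = 0) ∧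
            Φ (C (C s)) ≠ 0} : ℝ) +
          -(Nat.card {Φ : A₀[X][X] →+* F // (∀ p' ∈ ({C Δ} : Finset A₀[X][X]), Φ p' = 0) ∧
            Φ (C (C s)) ≠ 0} : ℝ)) =
        (∑ φ : A₀ →+* F, if φ s ≠ 0 then WU a b Δ φ else 0) -
          (cnt s (fun φ : A₀ →+* F => (n1 (a.map (mapRingHom φ)) : ℝ)) +
          cnt s (fun φ : A₀ →+* F => (n1 ((hm Δ b a).map (mapRingHom φ)) : ℝ)) -
          cnt s (fun φ : A₀ →+* F => (n1 ((C Δ : A₀[X][X]).map (mapRingHom φ)) : ℝ))) := by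
        rw [e7, pc1, pc1, pc1]
        unfold cnt
        ring
      rw [e9]
      calc _ ≤ (C1 * (Nat.card F : ℝ) ^ e) * (Nat.card F : ℝ) :=
            mul_le_mul (e8.trans f1) hsq (Real.sqrt_nonneg _) (by positivity)
        _ = _ := by rw [pow_succ]; ring
    convert T6 using 1
    ring

end

end Pool.Agent.Zk97.CB
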