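import Pool.Agent.Zk97.CB.B3
import Pool.Agent.R410.LW.BN1

/-!
# The open curves `B = w A ≠ 0`: the averages
-/

set_option autoImplicit false
set_option linter.all false
set_option maxHeartbeats 1000000

open Polynomial NumberField IsDedekindDomain
open Pool.Agent.R410.LW (FG bn_poly)
open Pool.Agent.R410.NG (Wt IsWt sR sT sR_eq sT_eq polyEquiv Asy avg natural_models phA phA_apply phA_inj phA_frac
  gen_line trdeg_line exists_ringk)
open Filter (Tendsto atTop)
open Topology

namespace Pool.Agent.Zk97.CB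

section
variable {R S : Type} [CommRing R] [CommRing S] {n : ℕ}

theorem deg_of_map {φ : R →+* S} (hφ : Function.Injective φ) {G : R[X][X]}
    (h : ∀ i, ((G.map (mapRingHom φ)).coeff i).natDegree ≤ n) (i : ℕ) : (G.coeff i).natDegree ≤ n := by
  have h1 := h i
  rw [coeff_map, coe_mapRingHom, natDegree_map_eq_of_injective hφ] at h1
  exact h1

end

section
variable {M K : Type} [Field M] [CharZero M] [Field K] [CharZero K] [Algebra M K] {w : K}
  {A B : M[X][X]} {l n : ℕ} {k : Type} [Field k] [NumberField k] [Algebra k M]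

theorem ff_monic (h : GP l A B) (w : K) : (ff w A B).Monic ∧ (ff w A B).natDegree = l := by
  have h1 : (B.map (mapRingHom (algebraMap M K))).Monic := h.pen.monic.map _
  have h2 : (B.map (mapRingHom (algebraMap M K))).natDegree = l := by rw [h.pen.monic.natDegree_map, h.pen.degB]
  have h4 : (C (C w) * A.map (mapRingHom (algebraMap M K)) : K[X][X]).natDegree < l :=
    ((natDegree_C_mul_le _ _).trans natDegree_map_le).trans_lt h.pen.degA
  have h3 : (C (C w) * A.map (mapRingHom (algebraMap M K)) : K[X][X]).degree <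
      (B.map (mapRingHom (algebraMap M K))).degree := by
    rw [degree_eq_natDegree h1.ne_zero, h2]
    refine (degree_le_natDegree).trans_lt ?_
    exact_mod_cast h4
  refine ⟨h1.sub_of_left h3, ?_⟩
  show (B.map (mapRingHom (algebraMap M K)) - C (C w) * A.map (mapRingHom (algebraMap M K))).natDegree = l
  rw [natDegree_sub_eq_left_of_natDegree_lt, h2]
  rw [h2]
  exact h4

theorem ff_deg (w : K) (hA : ∀ i, (A.coeff i).natDegree ≤ n) (hB : ∀ i, (B.coeff i).natDegree ≤ n) (i : ℕ) :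
    ((ff w A B).coeff i).natDegree ≤ n := by
  show ((B.map (mapRingHom (algebraMap M K)) - C (C w) * A.map (mapRingHom (algebraMap M K))).coeff i).natDegree ≤ n
  rw [coeff_sub, coeff_C_mul, coeff_map, coeff_map]
  refine (natDegree_sub_le _ _).trans (max_le ?_ ?_)
  · exact natDegree_map_le.trans (hB i)
  · exact ((natDegree_C_mul_le _ _).trans natDegree_map_le).trans (hA i)

theorem GP.om_irr (hg : GP l A B) {A₀ : Type} [CommRing A₀] [Algebra A₀ M]
    {a b : A₀[X][X]} (ha : a.map (mapRingHom (algebraMap A₀ M)) = A)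
    (hb : b.map (mapRingHom (algebraMap A₀ M)) = B) {Δ : A₀[X]}
    (hgood : ∀ (k : Type) [Field k] (Φ : A₀[X] →+* k), Φ Δ ≠ 0 → Irreducible ((g1 a b).map (mapRingHom Φ)))
    (p : MPt M) (hp : ¬ p.1 ∣ Δ.map (algebraMap A₀ M)) : om (hm p.1 B A) = 1 := by
  have hfact : Fact (Irreducible p.1) := ⟨p.2.2⟩
  let Φ : A₀[X] →+* AdjoinRoot p.1 := (AdjoinRoot.mk p.1).comp (mapRingHom (algebraMap A₀ M))
  have h1 : Φ Δ ≠ 0 := by
    show AdjoinRoot.mk p.1 (Δ.map (algebraMap A₀ M)) ≠ 0
    rw [Ne, AdjoinRoot.mk_eq_zero]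
    exact hp
  have h2 : (g1 a b).map (mapRingHom Φ) = ff (AdjoinRoot.root p.1) A B :=
    g1_mapK (algebraMap A₀ M) Φ (fun x => by
      show AdjoinRoot.mk p.1 ((C x : A₀[X]).map (algebraMap A₀ M)) = _
      rw [Polynomial.map_C]
      rfl) (by
      show AdjoinRoot.mk p.1 ((X : A₀[X]).map (algebraMap A₀ M)) = _
      rw [Polynomial.map_X]
      rfl) ha hb
  refine om_prime (hg.prime_hm ?_)
  rw [← h2]
  exact hgood _ Φ h1

/-- **The natural average.** -/
theorem GP.natural (h : GP l A B) (hAn : ∀ i, (A.coeff i).natDegree ≤ n) (hBn : ∀ i, (B.coeff i).natDegree ≤ n)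
    (hD : StD) (hV : StV) (hBz : StB) (hC : StC)
    (hM : FG M) {e : ℕ} (he : Algebra.trdeg ℚ M = e) (hw : Transcendental M w)
    (htop : IntermediateField.adjoin M {w} = ⊤) (hirr : AbsIrr (ff w A B)) :
    {p : MPt M | om (hm p.1 B A) ≠ 1}.Finite ∧
    ∀ (R : Type) [CommRing R] [IsDomain R] [Algebra.FiniteType ℤ R] [Algebra R K] [IsFractionRing R K]
      [Algebra (𝓞 k) R], (∀ z : 𝓞 k, algebraMap R K (algebraMap (𝓞 k) R z) =
        algebraMap M K (algebraMap k M z)) → ∀ G aR : R[X][X],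
      G.map (mapRingHom (algebraMap R K)) = ff w A B →
      aR.map (mapRingHom (algebraMap R K)) = A.map (mapRingHom (algebraMap M K)) → ∀ N : R, N ≠ 0 →
      ∀ S : Finset (HeightOneSpectrum (𝓞 k)),
        Tendsto (Pool.Agent.W353.FB.average S fun v => avg (wtU l n) (enc2 l n G aR) N (e + 1) v) atTop
          (𝓝 (((om A + ∑ᶠ p : MPt M, (om (hm p.1 B A) - 1) : ℕ) : ℝ))) := by
  classical
  -- the ring of coefficients
  obtain ⟨A₀, hA₀, hft, hfr, hAk⟩ := exists_ringk (k := k) hM (A.coeffs.biUnion Polynomial.coeffs ∪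
    B.coeffs.biUnion Polynomial.coeffs)
  have hmem : ∀ P : M[X][X], P.coeffs.biUnion Polynomial.coeffs ⊆ A.coeffs.biUnion Polynomial.coeffs ∪
    B.coeffs.biUnion Polynomial.coeffs → ∀ i j, (P.coeff i).coeff j ∈ (algebraMap A₀ M).range := by
    intro P hP i j
    by_cases h0 : (P.coeff i).coeff j = 0
    · rw [h0]
      exact Subring.zero_mem _
    · have h1 : P.coeff i ≠ 0 := by
        intro h2
        rw [h2, coeff_zero] at h0
        exact h0 rfl
      have h2 := hA₀ _ (hP (Finset.mem_biUnion.2 ⟨P.coeff i, coeff_mem_coeffs h1, coeff_mem_coeffs h0⟩))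
      exact ⟨⟨_, h2⟩, rfl⟩
  obtain ⟨a, ha⟩ := lift_two (algebraMap A₀ M) A (hmem A Finset.subset_union_left)
  obtain ⟨b, hb⟩ := lift_two (algebraMap A₀ M) B (hmem B Finset.subset_union_right)
  have hinj : Function.Injective (algebraMap A₀ M) := IsFractionRing.injective A₀ M
  have hinj1 : Function.Injective (mapRingHom (algebraMap A₀ M)) := Polynomial.map_injective _ hinj
  have hbm : b.Monic := Polynomial.monic_of_injective hinj1 (by rw [hb]; exact h.pen.monic)
  have hbd : b.natDegree = l := by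
    rw [← natDegree_map_eq_of_injective hinj1, hb, h.pen.degB]
  have had : a.natDegree < l := by
    rw [← natDegree_map_eq_of_injective hinj1, ha]
    exact h.pen.degA
  have ha0 : a ≠ 0 := by
    rintro rfl
    rw [Polynomial.map_zero] at ha
    exact h.pen.A0 ha.symm
  -- the model
  let _ : Algebra A₀[X] K := (phA (M := M) A₀ w).toAlgebra
  have hfr' : IsFractionRing A₀[X] K := phA_frac A₀ hw htop
  have hft0 : Algebra.FiniteType ℤ A₀[X] := inferInstance
  have hft' := Pool.Agent.R410.LW.ft_int _ hft0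
  let ρ₀ : 𝓞 k →+* A₀ := Pool.Agent.R410.NG.rho hAk
  let _ : Algebra (𝓞 k) A₀[X] := ((C : A₀ →+* A₀[X]).comp ρ₀).toAlgebra
  have hphC : ∀ x, algebraMap A₀[X] K (C x) = algebraMap M K (algebraMap A₀ M x) := fun x => by
    show phA (M := M) A₀ w (C x) = _
    rw [phA_apply, Polynomial.map_C, aeval_C]
  have hg1K : (g1 a b).map (mapRingHom (algebraMap A₀[X] K)) = ff w A B :=
    g1_mapK (algebraMap A₀ M) (algebraMap A₀[X] K) hphC (by
      show phA (M := M) A₀ w X = w
      rw [phA_apply, Polynomial.map_X, aeval_X]) ha hb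
  have haK : (a.map (mapRingHom C)).map (mapRingHom (algebraMap A₀[X] K)) =
      A.map (mapRingHom (algebraMap M K)) := by
    rw [Polynomial.map_map, mapRingHom_comp, ← ha, Polynomial.map_map, mapRingHom_comp]
    congr 2
    exact RingHom.ext hphC
  -- the discriminant
  have hgm := g1_monic hbm hbd had
  obtain ⟨Δ, hΔ, hgood⟩ := bn_poly (A := A₀[X]) (k := K) (kb := AlgebraicClosure K) (g1 a b) hgm.1
    (by rw [hgm.2]; exact h.pen.l0) (by
      have h1 := hirr (AlgebraicClosure K) (algebraMap K (AlgebraicClosure K))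
      rw [← hg1K, Polynomial.map_map, mapRingHom_comp] at h1
      exact h1)
  have hΔ' : Δ.map (algebraMap A₀ M) ≠ 0 := (Polynomial.map_ne_zero_iff hinj).2 hΔ
  have homi : ∀ p : MPt M, ¬ p.1 ∣ Δ.map (algebraMap A₀ M) → om (hm p.1 B A) = 1 :=
    fun p hp => h.om_irr ha hb hgood p hp
  refine ⟨(dset_finite hΔ').subset fun p hp => ?_, ?_⟩
  · by_contra h1
    exact hp (homi p h1)
  intro R _ _ _ _ _ _ hk G aR hG haR N hN S
  have hrho : (algebraMap R K).comp (algebraMap (𝓞 k) R) =
      (algebraMap A₀[X] K).comp (algebraMap (𝓞 k) A₀[X]) := by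
    refine RingHom.ext fun z => ?_
    show algebraMap R K (algebraMap (𝓞 k) R z) = phA (M := M) A₀ w (C (ρ₀ z))
    rw [hk, phA_apply, Polynomial.map_C, aeval_C]
    rfl
  obtain ⟨i, hi⟩ : ∃ i, a.coeff i ≠ 0 := by
    by_contra h1
    push Not at h1
    exact ha0 (Polynomial.ext fun i => by rw [h1 i, coeff_zero])
  obtain ⟨j, hj⟩ : ∃ j, (a.coeff i).coeff j ≠ 0 := by
    by_contra h1
    push Not at h1
    exact hi (Polynomial.ext fun j => by rw [h1 j, coeff_zero])
  have hmd : ∀ s : A₀, s ≠ 0 → (a.coeff i).coeff j * Δ.leadingCoeff ∣ s → MU l a b Δ s := by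
    intro s hs hdvd
    obtain ⟨t, rfl⟩ := hdvd
    refine ⟨h.pen.l0, hbm, hbd, had, hgood, ?_, ?_⟩
    · intro k' _ φ hφ
      rw [map_mul, map_mul] at hφ
      exact right_ne_zero_of_mul (left_ne_zero_of_mul hφ)
    · intro k' _ φ hφ h0
      rw [map_mul, map_mul] at hφ
      apply left_ne_zero_of_mul (left_ne_zero_of_mul hφ)
      have h1 := congrArg (fun P : k'[X][X] => (P.coeff i).coeff j) h0
      simpa using h1
  obtain ⟨s, hs0, hbd', hasy⟩ := asy_u (n := n) h hD hC hM he ha hb hΔ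
    (mul_ne_zero hj (leadingCoeff_ne_zero.2 hΔ)) hmd
  have hom := h.om_sub hΔ' homi
  have hlim : (om A : ℝ) + om (hm (Δ.map (algebraMap A₀ M)) B A) - om (C (Δ.map (algebraMap A₀ M))) =
      ((om A + ∑ᶠ p : MPt M, (om (hm p.1 B A) - 1) : ℕ) : ℝ) := by
    rw [hom]
    push_cast
    ring
  rw [hlim] at hasy
  obtain ⟨κ, iκ, L, iL, nL, c, hc, C3, N3, hC3, hN3, b3⟩ := hasy
  obtain ⟨cw, hwt⟩ := isWt_wtU (n := n) hV hBz h.pen.l0
  have hRinj : Function.Injective (algebraMap R K) := IsFractionRing.injective R K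
  have hGn : ∀ i, (G.coeff i).natDegree ≤ n := deg_of_map hRinj (by rw [hG]; exact ff_deg w hAn hBn)
  have haRn : ∀ i, (aR.coeff i).natDegree ≤ n := deg_of_map hRinj (by
    rw [haR]
    intro i
    rw [coeff_map, coe_mapRingHom]
    exact natDegree_map_le.trans (hAn i))
  have hgg : ∀ j, (enc2 l n G aR j).map (algebraMap R K) =
      (enc2 l n (g1 a b) (a.map (mapRingHom C)) j).map (algebraMap A₀[X] K) := by
    intro j
    rw [enc2_map, enc2_map, hG, haR, hg1K, haK]
  refine natural_models hwt (e := e + 1) (trdeg_line he hw htop).le hrho hgg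
    (fun j => enc2_deg hGn haRn j) hN (N' := Δ * C s) (mul_ne_zero hΔ (C_ne_zero.2 hs0)) L c hc ?_ ?_ S
  · obtain ⟨C', m, hC', hm', hb'⟩ := hbd'
    exact ⟨C', m, hC', hm', fun F _ _ hF ψ => hb' F hF (𝓞 k) ρ₀ ψ⟩
  · exact ⟨C3, N3, hC3, hN3, fun F _ _ hF => b3 F hF⟩

end

end Pool.Agent.Zk97.CB
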