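import Pool.Agent.Zk97.CB.B2

/-!
# The weight `1` for the good members
-/

set_option autoImplicit false
set_option linter.all false

open Polynomial NumberField IsDedekindDomain
open Pool.Agent.R410.LW (FG)
open Pool.Agent.R410.NG (Wt IsWt avg)
open Filter (Tendsto atTop)
open Topology

namespace Pool.Agent.Zk97.CB

open Classical in
/-- the weight `1` for absolutely irreducible curves and nonzero `a` -/
noncomputable def wt2 (l n : ℕ) : Wt (Fin l ⊕ Fin l) := fun F _ p =>
  if ((l : ℕ) : F) ≠ 0 ∧ AbsIrr (dec l n (fun j => p (Sum.inl j))) ∧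
    dec0 l n (fun j => p (Sum.inr j)) ≠ 0 then 1 else 0

/-- H2: the average of the weight `1` -/
def StH2 : Prop := ∀ (k : Type) [Field k] [NumberField k] (κ : Type) [Field κ] [CharZero κ] [Algebra k κ],
  FG κ → ∀ e : ℕ, Algebra.trdeg ℚ κ = e → ∀ l n : ℕ, 0 < l →
  ∀ (R : Type) [CommRing R] [IsDomain R] [Algebra.FiniteType ℤ R] [Algebra R κ] [IsFractionRing R κ]
    [Algebra (𝓞 k) R],
    (∀ z : 𝓞 k, algebraMap R κ (algebraMap (𝓞 k) R z) = algebraMap k κ z) →
    ∀ G a : R[X][X], G.Monic → G.natDegree = l → (∀ i, (G.coeff i).natDegree ≤ n) →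
      a.natDegree < l → (∀ i, (a.coeff i).natDegree ≤ n) → a ≠ 0 →
      AbsIrr (G.map (mapRingHom (algebraMap R κ))) → ∀ N : R, N ≠ 0 →
      ∀ S : Finset (HeightOneSpectrum (𝓞 k)),
        Tendsto (Pool.Agent.W353.FB.average S fun v => avg (wt2 l n) (enc2 l n G a) N e v) atTop (𝓝 1)

end Pool.Agent.Zk97.CB
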