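import Pool.Agent.Zk97.CB.B4
import Pool.Agent.Zk97.CB.HDefs

/-!
# The points of a finite set of closed points
-/

set_option autoImplicit false
set_option linter.all false
set_option maxHeartbeats 1000000

open Polynomial NumberField IsDedekindDomain
open Pool.Agent.R410.LW (FG)
open Pool.Agent.R410.NG (Wt IsWt sR sT sR_eq sT_eq avg)
open Filter (Tendsto atTop)
open Topology

namespace Pool.Agent.Zk97.CB

theorem fg_frac (E κ : Type) [CommRing E] [Algebra.FiniteType ℤ E] [Field κ] [Algebra E κ] [IsFractionRing E κ] :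
    FG κ := by
  classical
  obtain ⟨S, hS⟩ := (Algebra.FiniteType.out : (⊤ : Subalgebra ℤ E).FG)
  refine ⟨S.image (algebraMap E κ), ?_⟩
  set T := Subfield.closure ((S.image (algebraMap E κ) : Finset κ) : Set κ) with hT
  have h1 : ∀ a : E, algebraMap E κ a ∈ T := by
    intro a
    have ha : a ∈ Algebra.adjoin ℤ (S : Set E) := by
      rw [hS]
      trivial
    induction ha using Algebra.adjoin_induction with
    | mem x hx =>
      exact Subfield.subset_closure (Finset.mem_coe.2 (Finset.mem_image_of_mem _ hx))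
    | algebraMap r =>
      have : algebraMap E κ (algebraMap ℤ E r) = (r : κ) := by simp
      rw [this]
      exact intCast_mem _ r
    | add x y _ _ hx hy => rw [map_add]; exact add_mem hx hy
    | mul x y _ _ hx hy => rw [map_mul]; exact mul_mem hx hy
  rw [eq_top_iff]
  intro z _
  obtain ⟨a, b, -, rfl⟩ := IsFractionRing.div_surjective (A := E) z
  exact div_mem (h1 a) (h1 b)

theorem trdeg_alg {K κ : Type} [Field K] [CharZero K] [Field κ] [CharZero κ] (ι : K →+* κ)
    (h : ∀ z : κ, ∃ p : K[X], p ≠ 0 ∧ p.eval₂ ι z = 0) {m : ℕ} (hm : Algebra.trdeg ℚ K = m) :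
    Algebra.trdeg ℚ κ = m := by
  let _ : Algebra K κ := ι.toAlgebra
  have h0 : Algebra.IsAlgebraic K κ := ⟨fun z => by
    obtain ⟨p, h1, h2⟩ := h z
    exact ⟨p, h1, h2⟩⟩
  have h1 := trdeg_add_eq ℚ K (A := κ)
  have h2 : Algebra.trdeg K κ = 0 := trdeg_eq_zero
  rw [h2, add_zero, hm] at h1
  exact h1.symm

section
variable {k : Type} [Field k] [NumberField k] {K : Type} [Field K] [CharZero K] {l n m : ℕ}

/-- the points of `Spec R` in `F` at which the curve is good -/
def good {R O F : Type} [CommRing R] [CommRing O] [Field F] (ρ : O →+* R) (ψ : O →+* F) (l : ℕ) (G a : R[X][X])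
    (N : R) (φ : R →+* F) : Prop :=
  φ.comp ρ = ψ ∧ φ N ≠ 0 ∧ ((l : ℕ) : F) ≠ 0 ∧ AbsIrr (G.map (mapRingHom φ)) ∧ a.map (mapRingHom φ) ≠ 0

open Classical in
theorem sR_wt2 {R O F : Type} [CommRing R] [CommRing O] [Field F] [Fintype (R →+* F)] (ρ : O →+* R)
    (ψ : O →+* F) {G a : R[X][X]} (hG : G.Monic) (hl : G.natDegree = l) (ha : a.natDegree < l) (N : R) :
    sR (wt2 l n) ρ (enc2 l n G a) N F ψ = ∑ φ : R →+* F, if good ρ ψ l G a N φ then 1 else 0 := by
  rw [sR_eq]
  refine Finset.sum_congr rfl fun φ _ => ?_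
  have e1 : (fun j => (enc2 l n G a j).map φ) = enc2 l n (G.map (mapRingHom φ)) (a.map (mapRingHom φ)) := by
    funext j
    exact enc2_map _ _ _ _
  have e2 : dec l n (fun j => enc2 l n (G.map (mapRingHom φ)) (a.map (mapRingHom φ)) (Sum.inl j)) =
      G.map (mapRingHom φ) := dec_enc (hG.map _) (by rw [hG.natDegree_map, hl])
  have e3 : dec0 l n (fun j => enc2 l n (G.map (mapRingHom φ)) (a.map (mapRingHom φ)) (Sum.inr j)) =
      a.map (mapRingHom φ) := dec0_enc (natDegree_map_le.trans_lt ha)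
  rw [e1]
  unfold wt2 good
  rw [e2, e3]
  by_cases h1 : φ.comp ρ = ψ ∧ φ N ≠ 0
  · by_cases h2 : ((l : ℕ) : F) ≠ 0 ∧ AbsIrr (G.map (mapRingHom φ)) ∧ a.map (mapRingHom φ) ≠ 0
    · rw [if_pos h1, if_pos h2, if_pos ⟨h1.1, h1.2, h2⟩]
    · rw [if_pos h1, if_neg h2, if_neg (fun h => h2 h.2.2)]
  · rw [if_neg h1, if_neg (fun h => h1 ⟨h.1, h.2.1⟩)]

theorem ext_avg (hH : StH2) {κ : Type} [Field κ] [CharZero κ] (ι : K →+* κ)
    (hal : ∀ z : κ, ∃ p : K[X], p ≠ 0 ∧ p.eval₂ ι z = 0) (hm : Algebra.trdeg ℚ K = m) (kK : k →+* K)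
    {R : Type} [CommRing R] [IsDomain R] [Algebra.FiniteType ℤ R] [Algebra R K] [IsFractionRing R K]
    [Algebra (𝓞 k) R] (hk : ∀ z : 𝓞 k, algebraMap R K (algebraMap (𝓞 k) R z) = kK z) (hl : 0 < l)
    {G a : R[X][X]} (hG : G.Monic) (hGl : G.natDegree = l) (hGn : ∀ i, (G.coeff i).natDegree ≤ n)
    (hal' : a.natDegree < l) (han : ∀ i, (a.coeff i).natDegree ≤ n) (ha0 : a ≠ 0)
    (hirr : AbsIrr (G.map (mapRingHom (algebraMap R K))))
    {E : Type} [CommRing E] [IsDomain E] [Algebra.FiniteType ℤ E] [Algebra R E] [Algebra E κ]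
    [IsFractionRing E κ] (hE : ∀ r : R, algebraMap E κ (algebraMap R E r) = ι (algebraMap R K r))
    {N : R} (hN : N ≠ 0) (S : Finset (HeightOneSpectrum (𝓞 k))) :
    Tendsto (Pool.Agent.W353.FB.average S fun v => ((Nat.card (𝓞 k ⧸ v.asIdeal) : ℝ) ^ m)⁻¹ *
      ∑ᶠ φ : {φ : R →+* 𝓞 k ⧸ v.asIdeal // good (algebraMap (𝓞 k) R) (Ideal.Quotient.mk v.asIdeal) l G a N φ},
        (Nat.card {ψ : E →+* 𝓞 k ⧸ v.asIdeal // ψ.comp (algebraMap R E) = φ.1} : ℝ)) atTop (𝓝 1) := by
  classical
  let _ : Algebra (𝓞 k) E := ((algebraMap R E).comp (algebraMap (𝓞 k) R)).toAlgebra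
  let _ : Algebra k κ := (ι.comp kK).toAlgebra
  have hRK : Function.Injective (algebraMap R K) := IsFractionRing.injective R K
  have hinj : Function.Injective (algebraMap R E) := by
    intro x y hxy
    have h1 := congrArg (algebraMap E κ) hxy
    rw [hE, hE] at h1
    exact hRK (ι.injective h1)
  have hinj1 : Function.Injective (mapRingHom (algebraMap R E)) := Polynomial.map_injective _ hinj
  have hGE : (G.map (mapRingHom (algebraMap R E))).map (mapRingHom (algebraMap E κ)) =
      (G.map (mapRingHom (algebraMap R K))).map (mapRingHom ι) := by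
    rw [Polynomial.map_map, Polynomial.map_map, mapRingHom_comp, mapRingHom_comp]
    congr 2
    exact RingHom.ext hE
  have h1 := hH k κ (fg_frac E κ) m (trdeg_alg ι hal hm) l n hl E (fun z => by
      show algebraMap E κ (algebraMap R E (algebraMap (𝓞 k) R z)) = ι (kK z)
      rw [hE, hk]) (G.map (mapRingHom (algebraMap R E))) (a.map (mapRingHom (algebraMap R E))) (hG.map _)
    (by rw [hG.natDegree_map, hGl]) (fun i => by
      rw [coeff_map, coe_mapRingHom]
      exact natDegree_map_le.trans (hGn i)) (natDegree_map_le.trans_lt hal') (fun i => by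
      rw [coeff_map, coe_mapRingHom]
      exact natDegree_map_le.trans (han i)) ((Polynomial.map_ne_zero_iff hinj1).2 ha0) (by
      rw [hGE]
      exact hirr.map ι) (algebraMap R E N) ((map_ne_zero_iff _ hinj).2 hN) S
  refine h1.congr fun T => ?_
  congr 1
  funext v
  unfold avg
  congr 1
  set F := 𝓞 k ⧸ v.asIdeal with hF
  have hfR : Finite (R →+* F) := inferInstance
  have hfE : Finite (E →+* F) := inferInstance
  let _ : Fintype (R →+* F) := Fintype.ofFinite _
  let _ : Fintype (E →+* F) := Fintype.ofFinite _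
  rw [sR_wt2 _ _ (hG.map _) (by rw [hG.natDegree_map, hGl]) (natDegree_map_le.trans_lt hal'),
    Pool.Agent.R410.NG.finsum_sub (fun φ : R →+* F => good (algebraMap (𝓞 k) R)
      (Ideal.Quotient.mk v.asIdeal) l G a N φ)
      (fun φ => (Nat.card {ψ : E →+* F // ψ.comp (algebraMap R E) = φ} : ℝ))]
  have e1 : ∀ ψ : E →+* F, good (algebraMap (𝓞 k) E) (Ideal.Quotient.mk v.asIdeal) l
      (G.map (mapRingHom (algebraMap R E))) (a.map (mapRingHom (algebraMap R E))) (algebraMap R E N) ψ ↔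
      good (algebraMap (𝓞 k) R) (Ideal.Quotient.mk v.asIdeal) l G a N (ψ.comp (algebraMap R E)) := by
    intro ψ
    unfold good
    rw [Polynomial.map_map, Polynomial.map_map, mapRingHom_comp]
    exact Iff.rfl
  have e2 : ∀ ψ : E →+* F, (if good (algebraMap (𝓞 k) E) (Ideal.Quotient.mk v.asIdeal) l
      (G.map (mapRingHom (algebraMap R E))) (a.map (mapRingHom (algebraMap R E))) (algebraMap R E N) ψ
      then (1 : ℝ) else 0) = ∑ φ : R →+* F, if ψ.comp (algebraMap R E) = φ then
        (if good (algebraMap (𝓞 k) R) (Ideal.Quotient.mk v.asIdeal) l G a N φ then (1 : ℝ) else 0) else 0 := by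
    intro ψ
    rw [Finset.sum_ite_eq, if_pos (Finset.mem_univ _)]
    exact if_congr (e1 ψ) rfl rfl
  rw [Finset.sum_congr rfl fun ψ _ => e2 ψ, Finset.sum_comm]
  refine Finset.sum_congr rfl fun φ _ => ?_
  by_cases h : good (algebraMap (𝓞 k) R) (Ideal.Quotient.mk v.asIdeal) l G a N φ
  · simp only [if_pos h]
    rw [card_filter]
  · simp only [if_neg h, ite_self]
    exact Finset.sum_const_zero

end

end Pool.Agent.Zk97.CB
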