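import Pool.Agent.Zk97.CB.B5
import Pool.Agent.Zk97.CB.F4

/-!
# The average for the smooth projective curve
-/

set_option autoImplicit false
set_option linter.all false
set_option maxHeartbeats 1000000

open Polynomial NumberField IsDedekindDomain
open Pool.Agent.R410.LW (FG)
open Pool.Agent.R410.NG (Wt IsWt sR sT sR_eq sT_eq avg sumT sumT_lim sumT_neg)
open Filter Topology

namespace Pool.Agent.Zk97.CB

section
variable {k : Type} [Field k] [NumberField k]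

theorem norm_fin (S : Finset (HeightOneSpectrum (𝓞 k))) (T : ℝ) :
    {v : HeightOneSpectrum (𝓞 k) | v ∉ S ∧ (Ideal.absNorm v.asIdeal : ℝ) ≤ T}.Finite := by
  refine ((Ideal.finite_setOf_absNorm_le (S := 𝓞 k) ⌊T⌋₊).preimage
    (f := fun v : HeightOneSpectrum (𝓞 k) => v.asIdeal)
    (fun v _ w _ h => HeightOneSpectrum.ext h)).subset ?_
  rintro v ⟨h1, h2⟩
  exact Nat.le_floor h2

theorem sumT_add (S : Finset (HeightOneSpectrum (𝓞 k))) (b b' : HeightOneSpectrum (𝓞 k) → ℝ) (T : ℝ) :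
    sumT S (fun v => b v + b' v) T = sumT S b T + sumT S b' T := by
  unfold sumT
  rw [finsum_mem_eq_finite_toFinset_sum _ (norm_fin S T), finsum_mem_eq_finite_toFinset_sum _ (norm_fin S T),
    finsum_mem_eq_finite_toFinset_sum _ (norm_fin S T), ← Finset.sum_add_distrib]
  exact Finset.sum_congr rfl fun v _ => by ring

theorem lim_add {S : Finset (HeightOneSpectrum (𝓞 k))} {b b' : HeightOneSpectrum (𝓞 k) → ℝ} {r r' : ℝ}
    (h : Tendsto (fun T : ℝ => sumT S b T / T) atTop (𝓝 r))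
    (h' : Tendsto (fun T : ℝ => sumT S b' T / T) atTop (𝓝 r')) :
    Tendsto (fun T : ℝ => sumT S (fun v => b v + b' v) T / T) atTop (𝓝 (r + r')) := by
  refine (h.add h').congr fun T => ?_
  rw [sumT_add, add_div]

theorem lim_neg {S : Finset (HeightOneSpectrum (𝓞 k))} {b : HeightOneSpectrum (𝓞 k) → ℝ} {r : ℝ}
    (h : Tendsto (fun T : ℝ => sumT S b T / T) atTop (𝓝 r)) :
    Tendsto (fun T : ℝ => sumT S (fun v => -b v) T / T) atTop (𝓝 (-r)) := by
  refine h.neg.congr fun T => ?_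
  rw [sumT_neg, neg_div]

theorem lim_sum {S : Finset (HeightOneSpectrum (𝓞 k))} {ι : Type} (s : Finset ι)
    (b : ι → HeightOneSpectrum (𝓞 k) → ℝ)
    (h : ∀ z ∈ s, Tendsto (fun T : ℝ => sumT S (b z) T / T) atTop (𝓝 1)) :
    Tendsto (fun T : ℝ => sumT S (fun v => ∑ z ∈ s, b z v) T / T) atTop (𝓝 (s.card : ℝ)) := by
  classical
  induction s using Finset.induction_on with
  | empty =>
    simp only [Finset.sum_empty, Finset.card_empty, Nat.cast_zero]
    refine tendsto_const_nhds.congr fun T => ?_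
    have : sumT S (fun _ : HeightOneSpectrum (𝓞 k) => (0 : ℝ)) T = 0 := by
      unfold sumT
      simp
    rw [this, zero_div]
  | insert z s hz ih =>
    have h1 := lim_add (h z (Finset.mem_insert_self _ _)) (ih fun x hx => h x (Finset.mem_insert_of_mem hx))
    rw [Finset.card_insert_of_notMem hz, Nat.cast_add, Nat.cast_one, add_comm (s.card : ℝ) 1]
    refine h1.congr fun T => ?_
    congr 2
    funext v
    rw [Finset.sum_insert hz]

end

/-- the number of the points of the open curve -/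
noncomputable def oP (F : Type) [Field F] (G a : F[X][X]) : ℕ :=
  Nat.card {P : F × F // evalEval P.1 P.2 G = 0 ∧ evalEval P.1 P.2 a ≠ 0}

section
variable {k : Type} [Field k] [NumberField k] {R ι : Type} [CommRing R] [Algebra (𝓞 k) R]

/-- the average of the traces -/
noncomputable def avC (G a : R[X][X]) (E : ι → Type) [∀ z, CommRing (E z)] [∀ z, Algebra R (E z)]
    (N : R) (m : ℕ) (v : HeightOneSpectrum (𝓞 k)) : ℝ :=
  ((Nat.card (𝓞 k ⧸ v.asIdeal) : ℝ) ^ m)⁻¹ *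
    ∑ᶠ φ : {φ : R →+* 𝓞 k ⧸ v.asIdeal //
      φ.comp (algebraMap (𝓞 k) R) = Ideal.Quotient.mk v.asIdeal ∧ φ N ≠ 0 ∧
        AbsIrr (G.map (mapRingHom φ)) ∧ a.map (mapRingHom φ) ≠ 0},
      ((Nat.card (𝓞 k ⧸ v.asIdeal) : ℝ) + 1 -
        oP (𝓞 k ⧸ v.asIdeal) (G.map (mapRingHom φ.1)) (a.map (mapRingHom φ.1)) -
        ∑ᶠ z : ι, (Nat.card {ψ : E z →+* 𝓞 k ⧸ v.asIdeal // ψ.comp (algebraMap R (E z)) = φ.1} : ℝ))

end

section
variable {k : Type} [Field k] [NumberField k] {K : Type} [Field K] [CharZero K] {l n m : ℕ}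

open Classical in
theorem sR_wtU {R O F : Type} [CommRing R] [CommRing O] [Field F] [Fintype (R →+* F)] (ρ : O →+* R)
    (ψ : O →+* F) {G a : R[X][X]} (hG : G.Monic) (hl : G.natDegree = l) (ha : a.natDegree < l) (N : R) :
    sR (wtU l n) ρ (enc2 l n G a) N F ψ = ∑ φ : R →+* F, if good ρ ψ l G a N φ then
      nU F (G.map (mapRingHom φ)) (a.map (mapRingHom φ)) else 0 := by
  rw [sR_eq]
  refine Finset.sum_congr rfl fun φ _ => ?_
  have e1 : (fun j => (enc2 l n G a j).map φ) = enc2 l n (G.map (mapRingHom φ)) (a.map (mapRingHom φ)) := by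
    funext j
    exact enc2_map _ _ _ _
  have hm := hG.map (mapRingHom φ)
  have hd : (G.map (mapRingHom φ)).natDegree = l := by rw [hG.natDegree_map, hl]
  have ha' : (a.map (mapRingHom φ)).natDegree < l := natDegree_map_le.trans_lt ha
  rw [e1]
  unfold good
  by_cases h1 : φ.comp ρ = ψ ∧ φ N ≠ 0
  · by_cases h2 : ((l : ℕ) : F) ≠ 0 ∧ AbsIrr (G.map (mapRingHom φ)) ∧ a.map (mapRingHom φ) ≠ 0
    · rw [if_pos h1, if_pos ⟨h1.1, h1.2, h2⟩, wtU_enc hm hd ha' h2.1 h2.2.1 h2.2.2]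
    · rw [if_pos h1, if_neg (fun h => h2 h.2.2), wtU_enc' hm hd ha' h2]
  · rw [if_neg h1, if_neg (fun h => h1 ⟨h.1, h.2.1⟩)]

theorem final_avg (hH : StH2) (hm : Algebra.trdeg ℚ K = m) (kK : k →+* K)
    {R : Type} [CommRing R] [IsDomain R] [Algebra.FiniteType ℤ R] [Algebra R K] [IsFractionRing R K]
    [Algebra (𝓞 k) R] (hk : ∀ z : 𝓞 k, algebraMap R K (algebraMap (𝓞 k) R z) = kK z) (hl : 0 < l)
    {G a : R[X][X]} (hG : G.Monic) (hGl : G.natDegree = l) (hGn : ∀ i, (G.coeff i).natDegree ≤ n)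
    (hal' : a.natDegree < l) (han : ∀ i, (a.coeff i).natDegree ≤ n) (ha0 : a ≠ 0)
    (hirr : AbsIrr (G.map (mapRingHom (algebraMap R K))))
    {ι : Type} [Fintype ι] (κ : ι → Type) [∀ z, Field (κ z)] [∀ z, CharZero (κ z)] (res : ∀ z, K →+* κ z)
    (hal : ∀ z, ∀ x : κ z, ∃ p : K[X], p ≠ 0 ∧ p.eval₂ (res z) x = 0)
    (E : ι → Type) [∀ z, CommRing (E z)] [∀ z, IsDomain (E z)] [∀ z, Algebra.FiniteType ℤ (E z)]
    [∀ z, Algebra R (E z)] [∀ z, Algebra (E z) (κ z)] [∀ z, IsFractionRing (E z) (κ z)]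
    (hE : ∀ z, ∀ r : R, algebraMap (E z) (κ z) (algebraMap R (E z) r) = res z (algebraMap R K r))
    {N : R} (hN : N ≠ 0) (S : Finset (HeightOneSpectrum (𝓞 k))) {u : ℝ}
    (hu : Tendsto (Pool.Agent.W353.FB.average S fun v => avg (wtU l n) (enc2 l n G a) N m v) atTop (𝓝 u)) :
    Tendsto (fun T : ℝ => sumT S (fun v => avC G a E N m v) T / T) atTop
      (𝓝 (u + 1 - (Fintype.card ι : ℝ))) := by
  classical
  let _ : ∀ z, Algebra K (κ z) := fun z => (res z).toAlgebra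
  have h1 := sumT_lim hu
  have h2 := sumT_lim (ext_avg hH (RingHom.id K) (fun z => ⟨X - C z, X_sub_C_ne_zero z, by simp⟩) hm kK hk hl
    hG hGl hGn hal' han ha0 hirr (E := R) (fun r => rfl) hN S)
  have h3 := lim_sum Finset.univ (fun (z : ι) v => ((Nat.card (𝓞 k ⧸ v.asIdeal) : ℝ) ^ m)⁻¹ *
      ∑ᶠ φ : {φ : R →+* 𝓞 k ⧸ v.asIdeal // good (algebraMap (𝓞 k) R) (Ideal.Quotient.mk v.asIdeal) l G a N φ},
        (Nat.card {ψ : E z →+* 𝓞 k ⧸ v.asIdeal // ψ.comp (algebraMap R (E z)) = φ.1} : ℝ))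
    (fun z _ => sumT_lim (ext_avg hH (res z) (hal z) hm kK hk hl hG hGl hGn hal' han ha0 hirr
      (hE z) hN S))
  have h4 := lim_add (lim_add h1 h2) (lim_neg h3)
  rw [Finset.card_univ] at h4
  rw [show u + 1 - (Fintype.card ι : ℝ) = u + 1 + -(Fintype.card ι : ℝ) by ring]
  refine sumT_fin (finite_char (k := k) l hl.ne') ?_ h4
  intro v hv
  have hv' : ((l : ℕ) : 𝓞 k ⧸ v.asIdeal) ≠ 0 := hv
  set F := 𝓞 k ⧸ v.asIdeal with hF
  have hfR : Finite (R →+* F) := inferInstance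
  let _ : Fintype (R →+* F) := Fintype.ofFinite _
  have e0 : avg (wtU l n) (enc2 l n G a) N m v = ((Nat.card F : ℝ) ^ m)⁻¹ *
      sR (wtU l n) (algebraMap (𝓞 k) R) (enc2 l n G a) N F (Ideal.Quotient.mk v.asIdeal) := rfl
  rw [e0, sR_wtU _ _ hG hGl hal']
  unfold avC
  have e1 : ∀ φ : R →+* F, (φ.comp (algebraMap (𝓞 k) R) = Ideal.Quotient.mk v.asIdeal ∧ φ N ≠ 0 ∧
      AbsIrr (G.map (mapRingHom φ)) ∧ a.map (mapRingHom φ) ≠ 0) ↔
      good (algebraMap (𝓞 k) R) (Ideal.Quotient.mk v.asIdeal) l G a N φ := by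
    intro φ
    unfold good
    exact ⟨fun h => ⟨h.1, h.2.1, hv', h.2.2⟩, fun h => ⟨h.1, h.2.1, h.2.2.2⟩⟩
  rw [Pool.Agent.R410.NG.finsum_sub (fun φ : R →+* F => φ.comp (algebraMap (𝓞 k) R) =
      Ideal.Quotient.mk v.asIdeal ∧ φ N ≠ 0 ∧ AbsIrr (G.map (mapRingHom φ)) ∧ a.map (mapRingHom φ) ≠ 0)
      (fun φ => (Nat.card F : ℝ) + 1 - oP F (G.map (mapRingHom φ)) (a.map (mapRingHom φ)) -
        ∑ᶠ z : ι, (Nat.card {ψ : E z →+* F // ψ.comp (algebraMap R (E z)) = φ} : ℝ)),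
    Pool.Agent.R410.NG.finsum_sub (fun φ : R →+* F => good (algebraMap (𝓞 k) R)
      (Ideal.Quotient.mk v.asIdeal) l G a N φ)
      (fun φ => (Nat.card {ψ : R →+* F // ψ.comp (algebraMap R R) = φ} : ℝ))]
  have e2 : ∀ z : ι, (∑ᶠ φ : {φ : R →+* F // good (algebraMap (𝓞 k) R) (Ideal.Quotient.mk v.asIdeal) l G a N φ},
        (Nat.card {ψ : E z →+* F // ψ.comp (algebraMap R (E z)) = φ.1} : ℝ)) =
      ∑ φ : R →+* F, if good (algebraMap (𝓞 k) R) (Ideal.Quotient.mk v.asIdeal) l G a N φ then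
        (Nat.card {ψ : E z →+* F // ψ.comp (algebraMap R (E z)) = φ} : ℝ) else 0 := fun z =>
    Pool.Agent.R410.NG.finsum_sub (fun φ : R →+* F => good (algebraMap (𝓞 k) R)
      (Ideal.Quotient.mk v.asIdeal) l G a N φ)
      (fun φ => (Nat.card {ψ : E z →+* F // ψ.comp (algebraMap R (E z)) = φ} : ℝ))
  have e4 : (∑ z : ι, ((Nat.card F : ℝ) ^ m)⁻¹ *
      ∑ᶠ φ : {φ : R →+* F // good (algebraMap (𝓞 k) R) (Ideal.Quotient.mk v.asIdeal) l G a N φ},
        (Nat.card {ψ : E z →+* F // ψ.comp (algebraMap R (E z)) = φ.1} : ℝ)) =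
      ((Nat.card F : ℝ) ^ m)⁻¹ * ∑ φ : R →+* F,
        if good (algebraMap (𝓞 k) R) (Ideal.Quotient.mk v.asIdeal) l G a N φ then
          ∑ z : ι, (Nat.card {ψ : E z →+* F // ψ.comp (algebraMap R (E z)) = φ} : ℝ) else 0 := by
    rw [← Finset.mul_sum]
    congr 1
    have e5 : ∀ φ : R →+* F, (if good (algebraMap (𝓞 k) R) (Ideal.Quotient.mk v.asIdeal) l G a N φ then
          ∑ z : ι, (Nat.card {ψ : E z →+* F // ψ.comp (algebraMap R (E z)) = φ} : ℝ) else 0) =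
        ∑ z : ι, if good (algebraMap (𝓞 k) R) (Ideal.Quotient.mk v.asIdeal) l G a N φ then
          (Nat.card {ψ : E z →+* F // ψ.comp (algebraMap R (E z)) = φ} : ℝ) else 0 := by
      intro φ
      by_cases h : good (algebraMap (𝓞 k) R) (Ideal.Quotient.mk v.asIdeal) l G a N φ
      · simp only [if_pos h]
      · simp only [if_neg h, Finset.sum_const_zero]
    rw [Finset.sum_congr rfl fun φ _ => e5 φ, Finset.sum_comm]
    exact Finset.sum_congr rfl fun z _ => e2 z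
  rw [e4, ← mul_add, ← mul_neg, ← mul_add]
  congr 1
  rw [← Finset.sum_add_distrib, ← Finset.sum_neg_distrib, ← Finset.sum_add_distrib]
  refine Finset.sum_congr rfl fun φ _ => ?_
  by_cases h : good (algebraMap (𝓞 k) R) (Ideal.Quotient.mk v.asIdeal) l G a N φ
  · rw [if_pos ((e1 φ).2 h), if_pos h, if_pos h, if_pos h, finsum_eq_sum_of_fintype]
    have e3 : Nat.card {ψ : R →+* F // ψ.comp (algebraMap R R) = φ} = 1 := by
      rw [Nat.card_eq_one_iff_unique]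
      refine ⟨⟨fun x y => ?_⟩, ⟨⟨φ, ?_⟩⟩⟩
      · apply Subtype.ext
        have hx : x.1.comp (RingHom.id R) = φ := x.2
        have hy : y.1.comp (RingHom.id R) = φ := y.2
        rw [RingHom.comp_id] at hx hy
        rw [hx, hy]
      · show φ.comp (RingHom.id R) = φ
        rw [RingHom.comp_id]
    rw [e3]
    unfold nU oP
    push_cast
    ring
  · rw [if_neg (fun h' => h ((e1 φ).1 h')), if_neg h, if_neg h, if_neg h]
    ring

end

end Pool.Agent.Zk97.CB
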