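import Pool.Agent.Zk97.CB.B6
import Pool.Agent.Zk97.CB.XDefs

/-!
# The function field, the places outside the open curve, and the good points
-/

set_option autoImplicit false
set_option linter.all false

open Polynomial NumberField IsDedekindDomain
open Pool.Agent.R410.LW (FG bn_poly)

namespace Pool.Agent.Zk97.CB

section
variable {M K : Type} [Field M] [Field K] [Algebra M K] {w : K} {A B : M[X][X]} {l : ℕ}

theorem all_quot (h : GP l A B) (hw : Transcendental M w)
    (hK : ∀ z : K, ∃ p q : M[X], aeval w q ≠ 0 ∧ z * aeval w q = aeval w p) (z : AdjoinRoot (ff w A B)) :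
    ∃ P Q : M[X][X], Q ≠ 0 ∧ z * th w A B Q = th w A B P := by
  obtain ⟨D, k, P, hD, h1⟩ := h1_exp h.pen hw hK z
  refine ⟨P * A ^ D.natDegree, hm D B A * A ^ k, mul_ne_zero (hm_deg h.pen hD).2 (pow_ne_zero _ h.pen.A0), ?_⟩
  rw [map_mul, map_mul, map_pow, map_pow, th_hm, ← h1]
  ring

variable {L : Type} [Field L] [Algebra K L] [Algebra (AdjoinRoot (ff w A B)) L]
  [IsFractionRing (AdjoinRoot (ff w A B)) L]

theorem theta (h : GP l A B) (hw : Transcendental M w)
    (hK : ∀ z : K, ∃ p q : M[X], aeval w q ≠ 0 ∧ z * aeval w q = aeval w p)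
    (hL : ∀ c : K, algebraMap K L c = algebraMap (AdjoinRoot (ff w A B)) L (AdjoinRoot.of _ (C c))) :
    ∃ θ : M[X][X] →+* L, Function.Injective θ ∧
      (∀ c : M, θ (C (C c)) = algebraMap K L (algebraMap M K c)) ∧
      (∀ z : L, ∃ P Q : M[X][X], Q ≠ 0 ∧ z * θ Q = θ P) ∧ algebraMap K L w * θ A = θ B := by
  have hinj : Function.Injective (algebraMap (AdjoinRoot (ff w A B)) L) := IsFractionRing.injective _ L
  refine ⟨(algebraMap (AdjoinRoot (ff w A B)) L).comp (th w A B), hinj.comp (th_inj h.pen hw hK), ?_, ?_, ?_⟩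
  · intro c
    rw [RingHom.comp_apply, th_CC, hL]
    rfl
  · intro z
    obtain ⟨a, b, hb, rfl⟩ := IsFractionRing.div_surjective (A := AdjoinRoot (ff w A B)) z
    obtain ⟨P1, Q1, hQ1, e1⟩ := all_quot h hw hK a
    obtain ⟨P2, Q2, hQ2, e2⟩ := all_quot h hw hK b
    have hdom : IsDomain (AdjoinRoot (ff w A B)) := hinj.isDomain
    have hb0 : b ≠ 0 := nonZeroDivisors.ne_zero hb
    have hbL : algebraMap (AdjoinRoot (ff w A B)) L b ≠ 0 := (map_ne_zero_iff _ hinj).2 hb0
    have hP2 : P2 ≠ 0 := by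
      rintro rfl
      rw [map_zero] at e2
      rcases mul_eq_zero.1 e2 with h3 | h3
      · exact hb0 h3
      · exact hQ2 (th_inj h.pen hw hK (by rw [h3, map_zero]))
    refine ⟨P1 * Q2, P2 * Q1, mul_ne_zero hP2 hQ1, ?_⟩
    rw [RingHom.comp_apply, RingHom.comp_apply, map_mul (th w A B), map_mul (th w A B), ← e1, ← e2, map_mul,
      map_mul, map_mul, map_mul]
    field_simp
  · rw [RingHom.comp_apply, RingHom.comp_apply, th_B, map_mul, hL]
    rfl

/-- the ring of the open curve and the places -/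
theorem out_iff (T : Type) [CommRing T] [Algebra (AdjoinRoot (ff w A B)) T]
    [IsLocalization.Away (th w A B A) T] [Algebra T L] [IsScalarTower (AdjoinRoot (ff w A B)) T L]
    (hL : ∀ c : K, algebraMap K L c = algebraMap (AdjoinRoot (ff w A B)) L (AdjoinRoot.of _ (C c)))
    (hA : th w A B A ≠ 0) (O : Place K L) : (∀ t : T, algebraMap T L t ∈ O.1) ↔
      (algebraMap (AdjoinRoot (ff w A B)) L (AdjoinRoot.of _ X) ∈ O.1 ∧
        algebraMap (AdjoinRoot (ff w A B)) L (AdjoinRoot.root _) ∈ O.1 ∧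
        (algebraMap (AdjoinRoot (ff w A B)) L (th w A B A))⁻¹ ∈ O.1) := by
  have hinj : Function.Injective (algebraMap (AdjoinRoot (ff w A B)) L) := IsFractionRing.injective _ L
  have htow : ∀ a : AdjoinRoot (ff w A B), algebraMap T L (algebraMap _ T a) = algebraMap _ L a := fun a =>
    (IsScalarTower.algebraMap_apply _ T L a).symm
  constructor
  · intro h
    refine ⟨?_, ?_, ?_⟩
    · rw [← htow]
      exact h _
    · rw [← htow]
      exact h _
    · have h1 := IsLocalization.Away.algebraMap_isUnit (S := T) (th w A B A)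
      obtain ⟨u, hu⟩ := h1
      have h2 : (algebraMap (AdjoinRoot (ff w A B)) L (th w A B A))⁻¹ = algebraMap T L (u⁻¹ : Tˣ) := by
        rw [← htow, ← hu]
        refine inv_eq_of_mul_eq_one_right ?_
        rw [← map_mul, Units.mul_inv, map_one]
      rw [h2]
      exact h _
  · rintro ⟨h1, h2, h3⟩ t
    -- the elements of `K[x, y]`
    have h4 : ∀ a : AdjoinRoot (ff w A B), algebraMap (AdjoinRoot (ff w A B)) L a ∈ O.1 := by
      intro a
      obtain ⟨P, rfl⟩ := AdjoinRoot.mk_surjective a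
      induction P using Polynomial.induction_on' with
      | add p q hp hq =>
        rw [map_add, map_add]
        exact O.1.add_mem _ _ hp hq
      | monomial n p =>
        rw [← C_mul_X_pow_eq_monomial, map_mul, map_mul, map_pow, map_pow]
        refine O.1.mul_mem _ _ ?_ (pow_mem h2 n)
        show algebraMap _ L (AdjoinRoot.of _ p) ∈ O.1
        induction p using Polynomial.induction_on' with
        | add p q hp hq =>
          rw [map_add, map_add]
          exact O.1.add_mem _ _ hp hq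
        | monomial n c =>
          rw [← C_mul_X_pow_eq_monomial, map_mul, map_mul, map_pow, map_pow, ← hL]
          exact O.1.mul_mem _ _ (O.2.1 c) (pow_mem h1 n)
    obtain ⟨n, a, h5⟩ := IsLocalization.Away.surj (th w A B A) t
    have h6 := congrArg (algebraMap T L) h5
    rw [map_mul, map_pow, htow, htow] at h6
    have hA' : algebraMap (AdjoinRoot (ff w A B)) L (th w A B A) ≠ 0 := (map_ne_zero_iff _ hinj).2 hA
    have h7 : algebraMap T L t = algebraMap _ L a * (algebraMap (AdjoinRoot (ff w A B)) L (th w A B A))⁻¹ ^ n := by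
      rw [← h6, inv_pow, mul_assoc, mul_inv_cancel₀ (pow_ne_zero _ hA'), mul_one]
    rw [h7]
    exact O.1.mul_mem _ _ (h4 a) (pow_mem h3 n)

theorem out_finite (hfin : ∀ t : L, {O : ValuationSubring L | (∀ c : K, algebraMap K L c ∈ O) ∧ t ∉ O}.Finite)
    (x y z : L) : {O : Place K L | ¬ (x ∈ O.1 ∧ y ∈ O.1 ∧ z ∈ O.1)}.Finite := by
  have h1 := ((hfin x).union ((hfin y).union (hfin z)))
  refine Set.Finite.of_finite_image (f := fun O : Place K L => O.1) (h1.subset ?_) Subtype.val_injective.injOn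
  rintro _ ⟨O, hO, rfl⟩
  by_contra h2
  apply hO
  rw [Set.mem_union, Set.mem_union, not_or, not_or] at h2
  obtain ⟨h3, h4, h5⟩ := h2
  refine ⟨?_, ?_, ?_⟩
  · by_contra h6
    exact h3 ⟨O.2.1, h6⟩
  · by_contra h6
    exact h4 ⟨O.2.1, h6⟩
  · by_contra h6
    exact h5 ⟨O.2.1, h6⟩

end

theorem exists_bound {R : Type} [CommRing R] (P : R[X][X]) : ∃ n, ∀ i, (P.coeff i).natDegree ≤ n := by
  refine ⟨P.support.sup fun i => (P.coeff i).natDegree, fun i => ?_⟩
  by_cases h : i ∈ P.support
  · exact Finset.le_sup (f := fun i => (P.coeff i).natDegree) h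
  · rw [notMem_support_iff.1 h, natDegree_zero]
    exact Nat.zero_le _

theorem exists_N0 {R K : Type} [CommRing R] [IsDomain R] [Field K] [Algebra R K] [IsFractionRing R K] {l : ℕ}
    (hl : 0 < l) {G a : R[X][X]} (hG : G.Monic) (hGl : G.natDegree = l) (ha0 : a ≠ 0)
    (hirr : AbsIrr (G.map (mapRingHom (algebraMap R K)))) :
    ∃ N₀ : R, N₀ ≠ 0 ∧ ∀ (F : Type) [Field F] (φ : R →+* F), φ N₀ ≠ 0 →
      AbsIrr (G.map (mapRingHom φ)) ∧ a.map (mapRingHom φ) ≠ 0 := by
  obtain ⟨Δ, hΔ, hgood⟩ := bn_poly (A := R) (k := K) (kb := AlgebraicClosure K) G hG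
    (by rw [hGl]; exact hl) (by
      have h1 := hirr (AlgebraicClosure K) (algebraMap K (AlgebraicClosure K))
      rw [Polynomial.map_map, mapRingHom_comp] at h1
      exact h1)
  obtain ⟨i, hi⟩ : ∃ i, a.coeff i ≠ 0 := by
    by_contra h1
    push Not at h1
    exact ha0 (Polynomial.ext fun i => by rw [h1 i, coeff_zero])
  obtain ⟨j, hj⟩ : ∃ j, (a.coeff i).coeff j ≠ 0 := by
    by_contra h1
    push Not at h1
    exact hi (Polynomial.ext fun j => by rw [h1 j, coeff_zero])
  refine ⟨Δ * (a.coeff i).coeff j, mul_ne_zero hΔ hj, ?_⟩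
  intro F _ φ hφ
  rw [map_mul] at hφ
  refine ⟨?_, ?_⟩
  · intro k' _ ψ
    rw [Polynomial.map_map, mapRingHom_comp]
    refine hgood k' (ψ.comp φ) ?_
    rw [RingHom.comp_apply, Ne, map_eq_zero]
    exact left_ne_zero_of_mul hφ
  · intro h0
    apply right_ne_zero_of_mul hφ
    have h1 := congrArg (fun P : F[X][X] => (P.coeff i).coeff j) h0
    simpa using h1

end Pool.Agent.Zk97.CB
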