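import Mathlib

/-!
# Pencils of `C_ab` curves: definitions

A polynomial `P : R[X][X]` is a polynomial in two variables: the inner variable is `x` (the polynomial
`C X`), the outer variable is `y` (the polynomial `X`).
-/

set_option autoImplicit false
set_option linter.all false

open Polynomial

namespace Pool.Agent.Zk97.CB

section
variable {R : Type} [CommRing R]

/-- every monomial `x^j y^i` of `P` has the weight `l j + n i < d` -/
def Below (l n d : ℕ) (P : R[X][X]) : Prop :=
  ∀ i j : ℕ, (P.coeff i).coeff j ≠ 0 → l * j + n * i < d

/-- `G = y^l - x^n +` monomials of smaller weight (`x` has the weight `l` and `y` the weight `n`) -/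
def IsCab (l n : ℕ) (G : R[X][X]) : Prop := Below l n (l * n) (G - (X ^ l - C (X ^ n)))

/-- the homogenization of `D` at `(b, a)`: it is `a ^ deg D * D(b / a)` -/
noncomputable def hm (D : R[X]) (b a : R[X][X]) : R[X][X] :=
  ∑ i ∈ Finset.range (D.natDegree + 1), C (C (D.coeff i)) * b ^ i * a ^ (D.natDegree - i)

end

end Pool.Agent.Zk97.CB
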