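import Pool.Agent.Zk97.CB.G3
import Pool.Agent.R410.NG.Tr2

/-!
# Pencils of plane curves: the traces as weights
-/

set_option autoImplicit false
set_option linter.all false

open Polynomial
open Pool.Agent.R410.NG (Wt IsWt)

namespace Pool.Agent.Zk97.CB

section
variable {R S : Type} [CommRing R] [CommRing S] {l n : ℕ}

/-- the coefficients, made monic of degree `n + 1` -/
noncomputable def enc (l n : ℕ) (G : R[X][X]) : Fin l → R[X] := fun j => X ^ (n + 1) + G.coeff j

/-- the polynomial with the given coefficients -/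
noncomputable def dec (l n : ℕ) (p : Fin l → R[X]) : R[X][X] :=
  X ^ l + ∑ j : Fin l, C (p j - X ^ (n + 1)) * X ^ (j : ℕ)

theorem dec_enc {G : R[X][X]} (hG : G.Monic) (hd : G.natDegree = l) : dec l n (enc l n G) = G := by
  unfold dec enc
  have h1 := hG.as_sum
  rw [hd] at h1
  conv_rhs => rw [h1]
  congr 1
  rw [Finset.sum_range]
  refine Finset.sum_congr rfl fun j _ => ?_
  rw [add_sub_cancel_left]

theorem enc_map (φ : R →+* S) (G : R[X][X]) (j : Fin l) :
    (enc l n G j).map φ = enc l n (G.map (mapRingHom φ)) j := by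
  unfold enc
  rw [Polynomial.map_add, Polynomial.map_pow, Polynomial.map_X, coeff_map, coe_mapRingHom]

theorem dec_map (φ : R →+* S) (p : Fin l → R[X]) :
    dec l n (fun j => (p j).map φ) = (dec l n p).map (mapRingHom φ) := by
  unfold dec
  rw [Polynomial.map_add, Polynomial.map_pow, Polynomial.map_X, Polynomial.map_sum]
  congr 1
  refine Finset.sum_congr rfl fun j _ => ?_
  rw [Polynomial.map_mul, Polynomial.map_C, Polynomial.map_pow, Polynomial.map_X, coe_mapRingHom,
    Polynomial.map_sub, Polynomial.map_pow, Polynomial.map_X]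

theorem IsCab.map (φ : R →+* S) {G : R[X][X]} (h : IsCab l n G) : IsCab l n (G.map (mapRingHom φ)) := by
  have e : G.map (mapRingHom φ) - (X ^ l - C (X ^ n)) =
      (G - (X ^ l - C (X ^ n))).map (mapRingHom φ) := by
    rw [Polynomial.map_sub, Polynomial.map_sub, Polynomial.map_pow, Polynomial.map_X, Polynomial.map_C,
      coe_mapRingHom, Polynomial.map_pow, Polynomial.map_X]
  unfold IsCab
  rw [e]
  exact Below.map φ h

theorem cab_coeff [Nontrivial R] (hl : 0 < l) (hn : 0 < n) {G : R[X][X]} (h : IsCab l n G) {i : ℕ} (hi : i < l) :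
    (G.coeff i).natDegree ≤ n := by
  have e : G.coeff i = (G - (X ^ l - C (X ^ n))).coeff i - (C (X ^ n) : R[X][X]).coeff i := by
    rw [coeff_sub, coeff_sub, coeff_X_pow, if_neg (by omega)]
    ring
  rw [e]
  refine (natDegree_sub_le _ _).trans (max_le ?_ ?_)
  · rw [natDegree_le_iff_coeff_eq_zero]
    intro j hj
    by_contra h0
    have h1 := h i j h0
    have h2 : l * n < l * j := Nat.mul_lt_mul_of_pos_left hj hl
    omega
  · rw [coeff_C]
    split_ifs
    · exact natDegree_X_pow_le n
    · rw [natDegree_zero]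
      exact Nat.zero_le _

theorem enc_monic [Nontrivial R] (hl : 0 < l) (hn : 0 < n) {G : R[X][X]} (h : IsCab l n G) (j : Fin l) :
    (enc l n G j).Monic ∧ (enc l n G j).natDegree = n + 1 := by
  have h1 := cab_coeff hl hn h j.2
  have h2 : (G.coeff (j : ℕ)).degree < ((n + 1 : ℕ) : WithBot ℕ) := by
    refine degree_le_natDegree.trans_lt ?_
    rw [Nat.cast_withBot, Nat.cast_withBot, WithBot.coe_lt_coe]
    omega
  exact ⟨monic_X_pow_add h2, by
    unfold enc
    rw [natDegree_add_eq_left_of_degree_lt (by rw [degree_X_pow]; exact h2), natDegree_X_pow]⟩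

/-- the number of the points minus the number of the elements of the field -/
noncomputable def nq (F : Type) [Field F] (G : F[X][X]) : ℝ :=
  (Nat.card {P : F × F // evalEval P.1 P.2 G = 0} : ℝ) - Nat.card F

theorem nq_iso {F F' : Type} [Field F] [Field F'] (e : F ≃+* F') (G : F[X][X]) :
    nq F' (G.map (mapRingHom (e : F →+* F'))) = nq F G := by
  unfold nq
  rw [Nat.card_congr e.toEquiv]
  congr 2
  refine (Nat.card_congr (Equiv.subtypeEquiv (Equiv.prodCongr e.toEquiv e.toEquiv) fun P => ?_)).symm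
  have h := Polynomial.map_mapRingHom_evalEval (e : F →+* F') G P.1 P.2
  show _ ↔ evalEval (e P.1) (e P.2) (G.map (mapRingHom (e : F →+* F'))) = 0
  have h' : evalEval (e P.1) (e P.2) (G.map (mapRingHom (e : F →+* F'))) = e (evalEval P.1 P.2 G) := h
  rw [h']
  exact (map_eq_zero_iff e e.injective).symm

open Classical in
/-- the weight -/
noncomputable def wt (l n : ℕ) : Wt (Fin l) := fun F _ p =>
  if ((l : ℕ) : F) ≠ 0 ∧ IsCab l n (dec l n p) then nq F (dec l n p) else 0

theorem cab_iso {F F' : Type} [Field F] [Field F'] (e : F ≃+* F') (G : F[X][X]) :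
    IsCab l n (G.map (mapRingHom (e : F →+* F'))) ↔ IsCab l n G := by
  refine ⟨fun h => ?_, IsCab.map _⟩
  have h1 := IsCab.map (e.symm : F' →+* F) h
  rw [Polynomial.map_map, mapRingHom_comp] at h1
  have h2 : (e.symm : F' →+* F).comp (e : F →+* F') = RingHom.id F := by
    ext x
    simp
  rw [h2, mapRingHom_id, Polynomial.map_id] at h1
  exact h1

theorem isWt_wt (hZ : StZ) (hl : 0 < l) (hn : 0 < n) (hc : l.Coprime n) :
    ∃ c : ℝ, IsWt (wt l n) (fun _ => n + 1) c := by
  classical
  obtain ⟨c, hc0, h⟩ := hZ l n hl hn hc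
  refine ⟨c, hc0, ?_, ?_⟩
  · intro F F' _ _ e p
    unfold wt
    rw [dec_map]
    have h1 : (((l : ℕ) : F') ≠ 0 ∧ IsCab l n ((dec l n p).map (mapRingHom (e : F →+* F')))) ↔
        (((l : ℕ) : F) ≠ 0 ∧ IsCab l n (dec l n p)) := by
      rw [cab_iso]
      refine and_congr_left fun _ => not_congr ?_
      rw [← map_natCast e, map_eq_zero_iff e e.injective]
    rw [nq_iso]
    exact if_congr h1 rfl rfl
  · intro F _ _ p _
    unfold wt
    split_ifs with h1
    · exact h F _ h1.1 h1.2
    · rw [abs_zero]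
      positivity

theorem wt_enc {F : Type} [Field F] (hl : 0 < l) (hn : 0 < n) {G : F[X][X]} (h : IsCab l n G)
    (hF : ((l : ℕ) : F) ≠ 0) : wt l n F (enc l n G) = nq F G := by
  classical
  obtain ⟨h1, h2⟩ := h.monic hn hl
  unfold wt
  rw [dec_enc h1 h2, if_pos ⟨hF, h⟩]

end

end Pool.Agent.Zk97.CB
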