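import Pool.Agent.Zk97.CB.Stm

/-!
# Pencils of plane curves: the rings
-/

set_option autoImplicit false
set_option linter.all false

open Polynomial

namespace Pool.Agent.Zk97.CB

section
variable {M K : Type} [Field M] [Field K] [Algebra M K]

/-- extension of the constants -/
noncomputable def i2 : M[X][X] →+* K[X][X] := mapRingHom (mapRingHom (algebraMap M K))

/-- the equation of the generic member -/
noncomputable def ff (w : K) (A B : M[X][X]) : K[X][X] := i2 B - C (C w) * i2 A

/-- the polynomials in `w`, `x`, `y` -/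
noncomputable def ka (w : K) : M[X][X][X] →+* K[X][X] :=
  mapRingHom (mapRingHom (aeval w : M[X] →ₐ[M] K).toRingHom)

/-- polynomials without `w` -/
noncomputable def up2 : M[X][X] →+* M[X][X][X] := mapRingHom (mapRingHom C)

noncomputable def f1 (A B : M[X][X]) : M[X][X][X] := up2 B - C (C X) * up2 A

theorem ka_up2 (w : K) (P : M[X][X]) : ka w (up2 P) = (i2 P : K[X][X]) := by
  show (P.map (mapRingHom C)).map _ = P.map _
  rw [Polynomial.map_map]
  congr 1
  apply Polynomial.ringHom_ext
  · intro m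
    show ((C m : M[X]).map C).map (aeval w : M[X] →ₐ[M] K).toRingHom = (C m : M[X]).map (algebraMap M K)
    rw [Polynomial.map_C, Polynomial.map_C, Polynomial.map_C]
    congr 1
    exact aeval_C w m
  · show ((X : M[X]).map C).map (aeval w : M[X] →ₐ[M] K).toRingHom = (X : M[X]).map (algebraMap M K)
    rw [Polynomial.map_X, Polynomial.map_X, Polynomial.map_X]

theorem ka_CC (w : K) (D : M[X]) : ka w (C (C D)) = C (C (aeval w D)) := by
  show ((C (C D) : M[X][X][X]).map _) = _
  rw [Polynomial.map_C]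
  show C ((C D : M[X][X]).map _) = _
  rw [Polynomial.map_C]
  rfl

theorem ka_f1 (w : K) (A B : M[X][X]) : ka w (f1 A B) = ff w A B := by
  have h1 := RingHom.map_sub (ka w) (up2 B) (C (C (X : M[X])) * up2 A)
  have h2 := RingHom.map_mul (ka w) (C (C (X : M[X]))) (up2 A)
  refine h1.trans ?_
  rw [h2, ka_up2, ka_up2, ka_CC, aeval_X]
  rfl

theorem ka_inj {w : K} (hw : Transcendental M w) : Function.Injective (ka w : M[X][X][X] →+* K[X][X]) :=
  Polynomial.map_injective _ (Polynomial.map_injective _ (transcendental_iff_injective.1 hw))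

theorem aeval_ne {w : K} (hw : Transcendental M w) {D : M[X]} (hD : D ≠ 0) : aeval w D ≠ 0 := by
  intro h
  apply hD
  apply transcendental_iff_injective.1 hw
  rw [h, map_zero]

/-- clearing the denominators -/
theorem clear1 {w : K} (hw : Transcendental M w)
    (hK : ∀ z : K, ∃ p q : M[X], aeval w q ≠ 0 ∧ z * aeval w q = aeval w p) (z : K[X]) :
    ∃ (D : M[X]) (P : M[X][X]), D ≠ 0 ∧
      (P.map (aeval w : M[X] →ₐ[M] K).toRingHom) = C (aeval w D) * z := by
  induction z using Polynomial.induction_on' with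
  | add p q hp hq =>
    obtain ⟨D1, P1, h1, h2⟩ := hp
    obtain ⟨D2, P2, h3, h4⟩ := hq
    refine ⟨D1 * D2, C D2 * P1 + C D1 * P2, mul_ne_zero h1 h3, ?_⟩
    rw [Polynomial.map_add, Polynomial.map_mul, Polynomial.map_mul, h2, h4, Polynomial.map_C,
      Polynomial.map_C, map_mul, C_mul]
    show C (aeval w D2) * _ + C (aeval w D1) * _ = _
    ring
  | monomial n a =>
    obtain ⟨p, q, h1, h2⟩ := hK a
    refine ⟨q, monomial n p, ?_, ?_⟩
    · rintro rfl
      exact h1 (map_zero _)
    · rw [Polynomial.map_monomial, C_mul_monomial]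
      congr 1
      show aeval w p = _
      rw [← h2, mul_comm]

theorem clear2 {w : K} (hw : Transcendental M w)
    (hK : ∀ z : K, ∃ p q : M[X], aeval w q ≠ 0 ∧ z * aeval w q = aeval w p) (z : K[X][X]) :
    ∃ (D : M[X]) (P : M[X][X][X]), D ≠ 0 ∧ ka w P = C (C (aeval w D)) * z := by
  induction z using Polynomial.induction_on' with
  | add p q hp hq =>
    obtain ⟨D1, P1, h1, h2⟩ := hp
    obtain ⟨D2, P2, h3, h4⟩ := hq
    refine ⟨D1 * D2, C (C D2) * P1 + C (C D1) * P2, mul_ne_zero h1 h3, ?_⟩
    rw [map_add, map_mul, map_mul, h2, h4, ka_CC, ka_CC, map_mul, C_mul, C_mul]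
    ring
  | monomial n a =>
    obtain ⟨D, P, h1, h2⟩ := clear1 hw hK a
    refine ⟨D, monomial n P, h1, ?_⟩
    show (monomial n P).map _ = _
    rw [Polynomial.map_monomial, C_mul_monomial]
    congr 1

end

section
variable {M K : Type} [Field M] [Field K] [Algebra M K] (w : K) (A B : M[X][X])

noncomputable def th : M[X][X] →+* AdjoinRoot (ff w A B) := (AdjoinRoot.mk (ff w A B)).comp i2

noncomputable def mu : M[X][X][X] →+* AdjoinRoot (ff w A B) := (AdjoinRoot.mk (ff w A B)).comp (ka w)

/-- the constants -/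
noncomputable def ct (z : K) : AdjoinRoot (ff w A B) := AdjoinRoot.mk (ff w A B) (C (C z))

theorem ct_unit {z : K} (hz : z ≠ 0) : IsUnit (ct w A B z) := by
  apply IsUnit.map
  exact isUnit_C.2 (isUnit_C.2 (isUnit_iff_ne_zero.2 hz))

theorem mu_up2 (P : M[X][X]) : mu w A B (up2 P) = th w A B P := by
  show AdjoinRoot.mk _ (ka w (up2 P)) = AdjoinRoot.mk _ (i2 P)
  rw [ka_up2]

theorem mu_CC (D : M[X]) : mu w A B (C (C D)) = ct w A B (aeval w D) := by
  show AdjoinRoot.mk _ (ka w (C (C D))) = AdjoinRoot.mk _ _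
  rw [ka_CC]

theorem th_B : th w A B B = ct w A B w * th w A B A := by
  have h : AdjoinRoot.mk (ff w A B) (ff w A B) = 0 := AdjoinRoot.mk_self
  have h1 : AdjoinRoot.mk (ff w A B) (ff w A B) = th w A B B - ct w A B w * th w A B A := by
    show AdjoinRoot.mk (ff w A B) (i2 B - C (C w) * i2 A) = _
    rw [map_sub, map_mul]
    rfl
  rw [h] at h1
  exact (sub_eq_zero.1 h1.symm)

theorem th_CC (m : M) : th w A B (C (C m)) = ct w A B (algebraMap M K m) := by
  rw [← mu_up2]
  have : up2 (C (C m) : M[X][X]) = C (C (C m)) := by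
    show ((C (C m) : M[X][X]).map _) = _
    rw [Polynomial.map_C]
    show C ((C m : M[X]).map _) = _
    rw [Polynomial.map_C]
  rw [this, mu_CC, aeval_C]

theorem ct_mul (z z' : K) : ct w A B (z * z') = ct w A B z * ct w A B z' := by
  unfold ct
  rw [C_mul, C_mul, map_mul]

theorem ct_add (z z' : K) : ct w A B (z + z') = ct w A B z + ct w A B z' := by
  unfold ct
  rw [C_add, C_add, map_add]

/-- the homogenization -/
theorem th_hm (D : M[X]) : th w A B (hm D B A) = ct w A B (aeval w D) * th w A B A ^ D.natDegree := by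
  have hc : ∀ z : K, ct w A B z = ((AdjoinRoot.mk (ff w A B)).comp ((C : K[X] →+* K[X][X]).comp C)) z :=
    fun z => rfl
  unfold hm
  rw [map_sum, aeval_eq_sum_range, hc, map_sum, Finset.sum_mul]
  refine Finset.sum_congr rfl fun i hi => ?_
  have hi' : i ≤ D.natDegree := Nat.lt_succ_iff.1 (Finset.mem_range.1 hi)
  rw [map_mul, map_mul, map_pow, map_pow, th_CC, th_B, ← hc, Algebra.smul_def, ct_mul, mul_pow]
  have e1 : ct w A B (w ^ i) = ct w A B w ^ i := by
    rw [hc, hc, map_pow]
  have e2 : th w A B A ^ D.natDegree = th w A B A ^ i * th w A B A ^ (D.natDegree - i) := by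
    rw [← pow_add]
    congr 1
    omega
  rw [e1, e2]
  ring

end

end Pool.Agent.Zk97.CB
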