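import Pool.Agent.Zk97.CB.G1

/-!
# Pencils of plane curves: evaluation at `w = B / A`
-/

set_option autoImplicit false
set_option linter.all false

open Polynomial

namespace Pool.Agent.Zk97.CB

section
variable {M K : Type} [Field M] [Field K] [Algebra M K] {w : K} {A B : M[X][X]} {l : ℕ}

/-- the members of the kernel -/
theorem mu_zero (hw : Transcendental M w)
    (hK : ∀ z : K, ∃ p q : M[X], aeval w q ≠ 0 ∧ z * aeval w q = aeval w p) {P : M[X][X][X]}
    (hP : mu w A B P = 0) : ∃ (D : M[X]) (z : M[X][X][X]), D ≠ 0 ∧ C (C D) * P = f1 A B * z := by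
  have h1 : ff w A B ∣ ka w P := AdjoinRoot.mk_eq_zero.1 hP
  obtain ⟨z, hz⟩ := h1
  obtain ⟨D, z', hD, h2⟩ := clear2 hw hK z
  refine ⟨D, z', hD, ka_inj hw ?_⟩
  have e1 := RingHom.map_mul (ka w) (C (C D)) P
  have e2 := RingHom.map_mul (ka w) (f1 A B) z'
  refine e1.trans (Eq.trans ?_ e2.symm)
  rw [ka_CC, hz, ka_f1, h2]
  ring

/-- the conditions on the degrees in `y` -/
structure Pen (l : ℕ) (A B : M[X][X]) : Prop where
  l0 : 0 < l
  A0 : A ≠ 0
  degA : A.natDegree < l
  monic : B.Monic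
  degB : B.natDegree = l

theorem hm_split (D : M[X]) : hm D B A = C (C D.leadingCoeff) * B ^ D.natDegree +
    ∑ i ∈ Finset.range D.natDegree, C (C (D.coeff i)) * B ^ i * A ^ (D.natDegree - i) := by
  unfold hm
  rw [Finset.sum_range_succ, Nat.sub_self, pow_zero, mul_one, add_comm]
  rfl

theorem hm_deg (h : Pen l A B) {D : M[X]} (hD : D ≠ 0) : (hm D B A).natDegree = l * D.natDegree ∧
    hm D B A ≠ 0 := by
  have hl := h.l0
  have hlc : D.leadingCoeff ≠ 0 := leadingCoeff_ne_zero.2 hD
  have e1 : (C (C D.leadingCoeff) * B ^ D.natDegree : M[X][X]).degree = ((l * D.natDegree : ℕ) : WithBot ℕ) := by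
    rw [degree_mul, degree_C (C_ne_zero.2 hlc), zero_add, degree_eq_natDegree (pow_ne_zero _ h.monic.ne_zero),
      h.monic.natDegree_pow, h.degB, mul_comm]
  have e2 : (∑ i ∈ Finset.range D.natDegree, C (C (D.coeff i)) * B ^ i * A ^ (D.natDegree - i) :
      M[X][X]).degree < ((l * D.natDegree : ℕ) : WithBot ℕ) := by
    by_cases h0 : D.natDegree = 0
    · rw [h0, Finset.range_zero, Finset.sum_empty, degree_zero]
      exact WithBot.bot_lt_coe _
    refine (degree_sum_le _ _).trans_lt ?_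
    rw [Finset.sup_lt_iff (WithBot.bot_lt_coe _)]
    intro i hi
    have hi' : i < D.natDegree := Finset.mem_range.1 hi
    refine degree_le_natDegree.trans_lt ?_
    rw [Nat.cast_withBot, Nat.cast_withBot, WithBot.coe_lt_coe]
    have a1 : (C (C (D.coeff i)) * B ^ i * A ^ (D.natDegree - i) : M[X][X]).natDegree ≤
        i * l + (D.natDegree - i) * A.natDegree := by
      refine natDegree_mul_le.trans (Nat.add_le_add ?_ natDegree_pow_le)
      refine (natDegree_C_mul_le _ _).trans ?_
      rw [h.monic.natDegree_pow, h.degB]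
    have a2 : (D.natDegree - i) * A.natDegree < (D.natDegree - i) * l :=
      Nat.mul_lt_mul_of_pos_left h.degA (by omega)
    have a3 : i * l + (D.natDegree - i) * l = l * D.natDegree := by
      rw [← add_mul, mul_comm]
      congr 1
      omega
    omega
  have e3 : (hm D B A).degree = ((l * D.natDegree : ℕ) : WithBot ℕ) := by
    rw [hm_split, degree_add_eq_left_of_degree_lt (by rw [e1]; exact e2), e1]
  have e4 : hm D B A ≠ 0 := by
    intro h5
    rw [h5, degree_zero] at e3
    exact absurd e3 (WithBot.bot_ne_coe)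
  exact ⟨natDegree_eq_of_degree_eq_some e3, e4⟩

/-- an element dividing `A` and the homogenization divides a power of `B` -/
theorem dvd_hm {D : M[X]} (hD : D ≠ 0) {δ : M[X][X]} (h1 : δ ∣ A) (h2 : δ ∣ hm D B A) :
    δ ∣ B ^ D.natDegree := by
  have hlc : D.leadingCoeff ≠ 0 := leadingCoeff_ne_zero.2 hD
  rw [hm_split] at h2
  have h3 : δ ∣ ∑ i ∈ Finset.range D.natDegree, C (C (D.coeff i)) * B ^ i * A ^ (D.natDegree - i) := by
    refine Finset.dvd_sum fun i hi => ?_
    have hi' : i < D.natDegree := Finset.mem_range.1 hi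
    exact (h1.trans (dvd_pow_self A (by omega))).mul_left _
  have h4 : δ ∣ C (C D.leadingCoeff) * B ^ D.natDegree := (dvd_add_left h3).1 h2
  have hu : IsUnit (C (C D.leadingCoeff) : M[X][X]) := isUnit_C.2 (isUnit_C.2 (isUnit_iff_ne_zero.2 hlc))
  exact (hu.dvd_mul_left).1 h4

/-- the homogenization of a product -/
noncomputable def rho (A B : M[X][X]) : M[X] →+* FractionRing M[X][X] :=
  eval₂RingHom ((algebraMap M[X][X] (FractionRing M[X][X])).comp ((C : M[X] →+* M[X][X]).comp C))
    (algebraMap _ _ B / algebraMap _ _ A)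

theorem al_inj : Function.Injective (algebraMap M[X][X] (FractionRing M[X][X])) :=
  IsFractionRing.injective _ _

theorem rho_hm (hA : A ≠ 0) (D : M[X]) :
    rho A B D * algebraMap M[X][X] (FractionRing M[X][X]) A ^ D.natDegree = algebraMap _ _ (hm D B A) := by
  have hA' : algebraMap M[X][X] (FractionRing M[X][X]) A ≠ 0 := by
    rw [Ne, map_eq_zero_iff _ al_inj]
    exact hA
  unfold rho hm
  rw [map_sum, coe_eval₂RingHom, eval₂_eq_sum_range, Finset.sum_mul]
  refine Finset.sum_congr rfl fun i hi => ?_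
  have hi' : i ≤ D.natDegree := Nat.lt_succ_iff.1 (Finset.mem_range.1 hi)
  rw [map_mul, map_mul, map_pow, map_pow, div_pow]
  have e2 : algebraMap M[X][X] (FractionRing M[X][X]) A ^ D.natDegree =
      algebraMap M[X][X] (FractionRing M[X][X]) A ^ i *
        algebraMap M[X][X] (FractionRing M[X][X]) A ^ (D.natDegree - i) := by
    rw [← pow_add]
    congr 1
    omega
  rw [e2]
  have h3 : algebraMap M[X][X] (FractionRing M[X][X]) A ^ i ≠ 0 := pow_ne_zero _ hA'
  simp only [RingHom.comp_apply]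
  field_simp

theorem hm_mul (hA : A ≠ 0) {D E : M[X]} (hD : D ≠ 0) (hE : E ≠ 0) :
    hm (D * E) B A = hm D B A * hm E B A := by
  apply al_inj
  rw [map_mul, ← rho_hm hA, ← rho_hm hA, ← rho_hm hA, natDegree_mul hD hE, map_mul, pow_add]
  ring

theorem rho_ne (h : Pen l A B) {D : M[X]} (hD : D ≠ 0) : rho A B D ≠ 0 := by
  intro h0
  have h1 := rho_hm (B := B) h.A0 D
  rw [h0, zero_mul] at h1
  exact (hm_deg h hD).2 (al_inj (by rw [← h1, map_zero]))

/-- evaluation at `w = B / A` -/
noncomputable def ev (A B : M[X][X]) : M[X][X][X] →+* FractionRing M[X][X] :=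
  eval₂RingHom (eval₂RingHom (rho A B) (algebraMap M[X][X] _ (C X))) (algebraMap M[X][X] _ X)

theorem ev_CC (D : M[X]) : ev A B (C (C D)) = rho A B D := by
  show eval₂ _ _ (C (C D)) = _
  rw [eval₂_C]
  show eval₂ _ _ (C D) = _
  rw [eval₂_C]

theorem ev_CX : ev A B (C X) = algebraMap M[X][X] _ (C X) := by
  show eval₂ _ _ (C X) = _
  rw [eval₂_C]
  show eval₂ _ _ X = _
  rw [eval₂_X]

theorem ev_X : ev A B X = algebraMap M[X][X] _ X := by
  show eval₂ _ _ X = _
  rw [eval₂_X]

theorem rho_X : rho A B X = algebraMap _ _ B / algebraMap _ _ A := by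
  show eval₂ _ _ X = _
  rw [eval₂_X]

theorem rho_C (m : M) : rho A B (C m) = algebraMap M[X][X] _ (C (C m)) := by
  show eval₂ _ _ (C m) = _
  rw [eval₂_C]
  rfl

theorem up2_CX : up2 (C X : M[X][X]) = C X := by
  show ((C X : M[X][X]).map _) = _
  rw [Polynomial.map_C]
  show C ((X : M[X]).map _) = _
  rw [Polynomial.map_X]

theorem up2_X : up2 (X : M[X][X]) = X := by
  show ((X : M[X][X]).map _) = _
  rw [Polynomial.map_X]

theorem up2_CC (m : M) : up2 (C (C m) : M[X][X]) = C (C (C m)) := by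
  show ((C (C m) : M[X][X]).map _) = _
  rw [Polynomial.map_C]
  show C ((C m : M[X]).map _) = _
  rw [Polynomial.map_C]

theorem ev_up2 (P : M[X][X]) : ev A B (up2 P) = algebraMap M[X][X] _ P := by
  have h : (ev A B).comp up2 = algebraMap M[X][X] (FractionRing M[X][X]) := by
    apply Polynomial.ringHom_ext'
    · apply Polynomial.ringHom_ext
      · intro m
        show ev A B (up2 (C (C m))) = _
        rw [up2_CC, ev_CC, rho_C]
        rfl
      · show ev A B (up2 (C X)) = _
        rw [up2_CX, ev_CX]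
        rfl
    · show ev A B (up2 X) = _
      rw [up2_X, ev_X]
  exact congrArg (fun g : M[X][X] →+* FractionRing M[X][X] => g P) h

theorem ev_f1 (hA : A ≠ 0) : ev A B (f1 A B) = 0 := by
  have hA' : algebraMap M[X][X] (FractionRing M[X][X]) A ≠ 0 := by
    rw [Ne, map_eq_zero_iff _ al_inj]
    exact hA
  have h1 := RingHom.map_sub (ev A B) (up2 B) (C (C (X : M[X])) * up2 A)
  have h2 := RingHom.map_mul (ev A B) (C (C (X : M[X]))) (up2 A)
  refine h1.trans ?_
  rw [h2, ev_up2, ev_up2, ev_CC, rho_X, div_mul_cancel₀ _ hA', sub_self]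

theorem ev_zero (h : Pen l A B) (hw : Transcendental M w)
    (hK : ∀ z : K, ∃ p q : M[X], aeval w q ≠ 0 ∧ z * aeval w q = aeval w p) {P : M[X][X][X]}
    (hP : mu w A B P = 0) : ev A B P = 0 := by
  obtain ⟨D, z, hD, h1⟩ := mu_zero hw hK hP
  have h2 := RingHom.map_mul (ev A B) (C (C D)) P
  have h3 := RingHom.map_mul (ev A B) (f1 A B) z
  rw [h1, h3, ev_f1 h.A0, zero_mul, ev_CC] at h2
  exact (mul_eq_zero.1 h2.symm).resolve_left (rho_ne h hD)

theorem th_inj (h : Pen l A B) (hw : Transcendental M w)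
    (hK : ∀ z : K, ∃ p q : M[X], aeval w q ≠ 0 ∧ z * aeval w q = aeval w p) :
    Function.Injective (th w A B) := by
  rw [injective_iff_map_eq_zero]
  intro P hP
  rw [← mu_up2] at hP
  have h1 := ev_zero h hw hK hP
  rw [ev_up2] at h1
  exact al_inj (by rw [h1, map_zero])

/-- the property of the numerators -/
def Pr (w : K) (A B : M[X][X]) (P : M[X][X][X]) : Prop :=
  ∃ (k : ℕ) (Q : M[X][X]), algebraMap M[X][X] (FractionRing M[X][X]) A ^ k * ev A B P = algebraMap _ _ Q ∧
    th w A B A ^ k * mu w A B P = th w A B Q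

theorem Pr.add {P P' : M[X][X][X]} (h : Pr w A B P) (h' : Pr w A B P') : Pr w A B (P + P') := by
  obtain ⟨k, Q, h1, h2⟩ := h
  obtain ⟨k', Q', h3, h4⟩ := h'
  refine ⟨k + k', A ^ k' * Q + A ^ k * Q', ?_, ?_⟩
  · have e := RingHom.map_add (ev A B) P P'
    rw [e, map_add, map_mul, map_mul, ← h1, ← h3, pow_add, map_pow, map_pow]
    ring
  · have e := RingHom.map_add (mu w A B) P P'
    rw [e, map_add, map_mul, map_mul, ← h2, ← h4, pow_add, map_pow, map_pow]
    ring

theorem Pr.mul {P P' : M[X][X][X]} (h : Pr w A B P) (h' : Pr w A B P') : Pr w A B (P * P') := by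
  obtain ⟨k, Q, h1, h2⟩ := h
  obtain ⟨k', Q', h3, h4⟩ := h'
  refine ⟨k + k', Q * Q', ?_, ?_⟩
  · have e := RingHom.map_mul (ev A B) P P'
    rw [e, map_mul, ← h1, ← h3, pow_add]
    ring
  · have e := RingHom.map_mul (mu w A B) P P'
    rw [e, map_mul, ← h2, ← h4, pow_add]
    ring

theorem Pr.pow {P : M[X][X][X]} (h : Pr w A B P) (n : ℕ) : Pr w A B (P ^ n) := by
  induction n with
  | zero =>
    rw [pow_zero]
    refine ⟨0, 1, ?_, ?_⟩
    · have e := RingHom.map_one (ev A B)
      rw [e, pow_zero, map_one, one_mul]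
    · have e := RingHom.map_one (mu w A B)
      rw [e, pow_zero, map_one, one_mul]
  | succ n ih =>
    rw [pow_succ]
    exact ih.mul h

theorem pr_up2 (P : M[X][X]) : Pr w A B (up2 P) :=
  ⟨0, P, by rw [pow_zero, one_mul, ev_up2], by rw [pow_zero, one_mul, mu_up2]⟩

theorem pr_all (hA : A ≠ 0) (P : M[X][X][X]) : Pr w A B P := by
  have hA' : algebraMap M[X][X] (FractionRing M[X][X]) A ≠ 0 := by
    rw [Ne, map_eq_zero_iff _ al_inj]
    exact hA
  have h0 : Pr w A B (C (C (X : M[X]))) := by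
    refine ⟨1, B, ?_, ?_⟩
    · rw [pow_one, ev_CC, rho_X, mul_div_cancel₀ _ hA']
    · rw [pow_one, mu_CC, aeval_X, th_B, mul_comm]
  have h1 : ∀ D : M[X], Pr w A B (C (C D)) := by
    intro D
    induction D using Polynomial.induction_on' with
    | add p q hp hq =>
      rw [C_add, C_add]
      exact hp.add hq
    | monomial n a =>
      rw [← C_mul_X_pow_eq_monomial, C_mul, C_mul, C_pow, C_pow]
      refine Pr.mul ?_ (h0.pow n)
      rw [← up2_CC]
      exact pr_up2 _
  have h2 : ∀ b : M[X][X], Pr w A B (C b) := by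
    intro b
    induction b using Polynomial.induction_on' with
    | add p q hp hq =>
      rw [C_add]
      exact hp.add hq
    | monomial n a =>
      rw [← C_mul_X_pow_eq_monomial, C_mul, C_pow]
      refine Pr.mul (h1 a) (Pr.pow ?_ n)
      rw [← up2_CX]
      exact pr_up2 _
  induction P using Polynomial.induction_on' with
  | add p q hp hq => exact hp.add hq
  | monomial n a =>
    rw [← C_mul_X_pow_eq_monomial]
    refine Pr.mul (h2 a) (Pr.pow ?_ n)
    rw [← up2_X]
    exact pr_up2 _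

/-- H1 -/
theorem h1_exp (h : Pen l A B) (hw : Transcendental M w)
    (hK : ∀ z : K, ∃ p q : M[X], aeval w q ≠ 0 ∧ z * aeval w q = aeval w p) (z : AdjoinRoot (ff w A B)) :
    ∃ (D : M[X]) (k : ℕ) (P : M[X][X]), D ≠ 0 ∧
      ct w A B (aeval w D) * th w A B A ^ k * z = th w A B P := by
  obtain ⟨z', rfl⟩ := AdjoinRoot.mk_surjective z
  obtain ⟨D, P, hD, h1⟩ := clear2 hw hK z'
  obtain ⟨k, Q, -, h3⟩ := pr_all (w := w) (B := B) h.A0 P
  refine ⟨D, k, Q, hD, ?_⟩
  rw [← h3]
  have h4 : mu w A B P = ct w A B (aeval w D) * AdjoinRoot.mk _ z' := by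
    show AdjoinRoot.mk _ (ka w P) = _
    rw [h1, map_mul]
    rfl
  rw [h4]
  ring

end

end Pool.Agent.Zk97.CB
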