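import Pool.Agent.Zk97.CB.G2

/-!
# Pencils of plane curves: the fibres are irreducible
-/

set_option autoImplicit false
set_option linter.all false

open Polynomial

namespace Pool.Agent.Zk97.CB

section
variable {R : Type} [CommRing R] {l n d : ℕ}

theorem Below.map {S : Type} [CommRing S] (φ : R →+* S) {P : R[X][X]} (h : Below l n d P) :
    Below l n d (P.map (mapRingHom φ)) := by
  intro i j hij
  apply h i j
  intro h0
  apply hij
  rw [coeff_map, coe_mapRingHom, coeff_map, h0, map_zero]

theorem Below.sub {P Q : R[X][X]} (h : Below l n d P) (h' : Below l n d Q) : Below l n d (P - Q) := by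
  intro i j hij
  by_cases h0 : (P.coeff i).coeff j = 0
  · apply h' i j
    intro h1
    apply hij
    rw [coeff_sub, coeff_sub, h0, h1, sub_zero]
  · exact h i j h0

theorem Below.cmul (c : R) {P : R[X][X]} (h : Below l n d P) : Below l n d (C (C c) * P) := by
  intro i j hij
  apply h i j
  intro h0
  apply hij
  rw [coeff_C_mul, coeff_C_mul, h0, mul_zero]

theorem Below.natDegree_lt (hn : 0 < n) (hl : 0 < l) {P : R[X][X]} (h : Below l n (l * n) P) :
    P.natDegree < l := by
  by_contra hlt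
  push Not at hlt
  by_cases h0 : P = 0
  · rw [h0, natDegree_zero] at hlt
    omega
  have h1 : P.coeff P.natDegree ≠ 0 := by
    rw [coeff_natDegree]
    exact leadingCoeff_ne_zero.2 h0
  have h2 : ∃ j, (P.coeff P.natDegree).coeff j ≠ 0 := by
    by_contra h3
    push Not at h3
    exact h1 (Polynomial.ext fun j => by rw [h3 j, coeff_zero])
  obtain ⟨j, hj⟩ := h2
  have h4 := h _ _ hj
  have h5 : n * l ≤ n * P.natDegree := Nat.mul_le_mul_left n hlt
  have h6 : l * n = n * l := mul_comm l n
  omega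

theorem IsCab.monic [Nontrivial R] (hn : 0 < n) (hl : 0 < l) {G : R[X][X]} (h : IsCab l n G) :
    G.Monic ∧ G.natDegree = l := by
  have h1 : (G - (X ^ l - C (X ^ n))).natDegree < l := Below.natDegree_lt hn hl h
  have e : G = X ^ l + (G - (X ^ l - C (X ^ n)) - C (X ^ n)) := by ring
  have h2 : (G - (X ^ l - C (X ^ n)) - C (X ^ n)).degree < (l : WithBot ℕ) := by
    refine (degree_sub_le _ _).trans_lt (max_lt ?_ ?_)
    · exact degree_le_natDegree.trans_lt (by exact_mod_cast h1)
    · exact degree_C_le.trans_lt (by exact_mod_cast hl)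
  constructor
  · rw [e]
    exact monic_X_pow_add h2
  · rw [e]
    rw [natDegree_add_eq_left_of_degree_lt (by rw [degree_X_pow]; exact h2), natDegree_X_pow]

end

section
variable {M : Type} [Field M] {A B : M[X][X]} {l n : ℕ}

/-- the data of the pencil -/
structure Pencil (l n : ℕ) (A B : M[X][X]) : Prop where
  l0 : 0 < l
  n0 : 0 < n
  cop : l.Coprime n
  cab : IsCab l n B
  A0 : A ≠ 0
  low : Below l n (l * n) A

theorem Pencil.pen (h : Pencil l n A B) : Pen l A B where
  l0 := h.l0
  A0 := h.A0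
  degA := Below.natDegree_lt h.n0 h.l0 h.low
  monic := (h.cab.monic h.n0 h.l0).1
  degB := (h.cab.monic h.n0 h.l0).2

theorem Pencil.ff_cab (h : Pencil l n A B) {K : Type} [Field K] [Algebra M K] (w : K) :
    IsCab l n (ff w A B) := by
  have h1 : ff w A B - (X ^ l - C (X ^ n)) = (B - (X ^ l - C (X ^ n))).map (mapRingHom (algebraMap M K)) -
      C (C w) * A.map (mapRingHom (algebraMap M K)) := by
    unfold ff
    show B.map (mapRingHom (algebraMap M K)) - C (C w) * A.map (mapRingHom (algebraMap M K)) - _ = _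
    rw [Polynomial.map_sub, Polynomial.map_sub, Polynomial.map_pow, Polynomial.map_X, Polynomial.map_C,
      coe_mapRingHom, Polynomial.map_pow, Polynomial.map_X]
    ring
  unfold IsCab
  rw [h1]
  exact (Below.map _ h.cab).sub (Below.cmul _ (h.low.map _))

theorem Pencil.irr (h : Pencil l n A B) (hW : StW) {K : Type} [Field K] [Algebra M K] (w : K) :
    Irreducible (ff w A B) := (hW K l n h.l0 h.n0 h.cop _ (h.ff_cab w)).1

theorem Pencil.irrB (h : Pencil l n A B) (hW : StW) : Irreducible B := (hW M l n h.l0 h.n0 h.cop _ h.cab).1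

theorem Pencil.not_dvd (h : Pencil l n A B) : ¬ B ∣ A := by
  intro h1
  have h2 := h.pen
  have h3 := natDegree_le_of_dvd h1 h2.A0
  have h4 := h2.degA
  rw [h2.degB] at h3
  omega

theorem Pencil.rel (h : Pencil l n A B) (hW : StW) : IsRelPrime B A :=
  (h.irrB hW).isRelPrime_iff_not_dvd.2 h.not_dvd

theorem Pencil.rel_hm (h : Pencil l n A B) (hW : StW) {D : M[X]} (hD : D ≠ 0) (k : ℕ) :
    IsRelPrime (hm D B A) (A ^ k) := by
  refine IsRelPrime.pow_right ?_
  intro c h1 h2
  exact (IsRelPrime.pow_left (h.rel hW) : IsRelPrime (B ^ D.natDegree) A) (dvd_hm hD h2 h1) h2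

theorem ker_sigma {p : M[X]} {P : M[X][X][X]}
    (h : (mapRingHom (mapRingHom (AdjoinRoot.mk p)) : M[X][X][X] →+* (AdjoinRoot p)[X][X]) P = 0) :
    ∃ P' : M[X][X][X], P = C (C p) * P' := by
  have h1 : C (C p) ∣ P := by
    rw [C_dvd_iff_dvd_coeff]
    intro i
    rw [C_dvd_iff_dvd_coeff]
    intro j
    rw [← AdjoinRoot.mk_eq_zero]
    have h2 := congrArg (fun Q : (AdjoinRoot p)[X][X] => (Q.coeff i).coeff j) h
    simp only [coe_mapRingHom, coeff_map, coeff_zero] at h2
    exact h2
  exact h1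

/-- the homogenization vanishing on a member -/
theorem Pencil.dvd_of_zero (h : Pencil l n A B) (hW : StW) {p : M[X]} [hfact : Fact (Irreducible p)]
    {G : M[X][X]} (hG : th (AdjoinRoot.root p) A B G = 0) : hm p B A ∣ G := by
  have hp : Irreducible p := hfact.out
  have hA := h.A0
  obtain ⟨z, hz⟩ := AdjoinRoot.mk_eq_zero.1 hG
  let σ : M[X][X][X] →+* (AdjoinRoot p)[X][X] := mapRingHom (mapRingHom (AdjoinRoot.mk p))
  have hσs : Function.Surjective σ :=
    Polynomial.map_surjective _ (Polynomial.map_surjective _ AdjoinRoot.mk_surjective)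
  have hκ : σ = ka (AdjoinRoot.root p) := by
    show mapRingHom (mapRingHom (AdjoinRoot.mk p)) = mapRingHom (mapRingHom _)
    congr 2
    refine RingHom.ext fun q => ?_
    exact (AdjoinRoot.aeval_eq q).symm
  obtain ⟨z', hz'⟩ := hσs z
  have h1 : σ (up2 G - f1 A B * z') = 0 := by
    have e1 := RingHom.map_sub σ (up2 G) (f1 A B * z')
    have e2 := RingHom.map_mul σ (f1 A B) z'
    refine e1.trans ?_
    rw [e2, hz', hκ, ka_up2, ka_f1, hz, sub_self]
  obtain ⟨P, hP⟩ := ker_sigma h1
  have h2 : ev A B (up2 G) = rho A B p * ev A B P := by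
    have e1 := RingHom.map_sub (ev A B) (up2 G) (f1 A B * z')
    have e2 := RingHom.map_mul (ev A B) (f1 A B) z'
    have e3 := RingHom.map_mul (ev A B) (C (C p)) P
    rw [hP, e3, e2, ev_f1 hA, zero_mul, sub_zero, ev_CC] at e1
    exact e1.symm
  rw [ev_up2] at h2
  obtain ⟨k, Q, h3, -⟩ := pr_all (w := AdjoinRoot.root p) (B := B) hA P
  have h4 : A ^ (k + p.natDegree) * G = hm p B A * Q := by
    apply al_inj
    rw [map_mul, map_mul, map_pow, ← h3, ← rho_hm hA, h2, pow_add]
    ring
  exact (h.rel_hm hW hp.ne_zero (k + p.natDegree)).dvd_of_dvd_mul_left (Dvd.intro _ h4.symm)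

theorem Pencil.prime_hm (h : Pencil l n A B) (hW : StW) {p : M[X]} (hp : Irreducible p) :
    Prime (hm p B A) := by
  have hfact : Fact (Irreducible p) := ⟨hp⟩
  have hdeg := hm_deg h.pen hp.ne_zero
  have hp1 : 0 < p.natDegree := hp.natDegree_pos
  refine ⟨hdeg.2, ?_, ?_⟩
  · intro hu
    have h1 := natDegree_eq_zero_of_isUnit hu
    rw [hdeg.1] at h1
    have := Nat.mul_pos h.l0 hp1
    omega
  · intro G H hGH
    have hdom : IsDomain (AdjoinRoot (ff (AdjoinRoot.root p) A B)) :=
      AdjoinRoot.isDomain_of_prime (h.irr hW _).prime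
    have h0 : th (AdjoinRoot.root p) A B (hm p B A) = 0 := by
      rw [th_hm]
      have : aeval (AdjoinRoot.root p) p = 0 := by
        rw [AdjoinRoot.aeval_eq, AdjoinRoot.mk_self]
      rw [this]
      unfold ct
      rw [C_0, C_0, map_zero, zero_mul]
    obtain ⟨Q, hQ⟩ := hGH
    have h1 : th (AdjoinRoot.root p) A B G * th (AdjoinRoot.root p) A B H = 0 := by
      rw [← map_mul, hQ, map_mul, h0, zero_mul]
    rcases mul_eq_zero.1 h1 with h2 | h2
    · exact Or.inl (h.dvd_of_zero hW h2)
    · exact Or.inr (h.dvd_of_zero hW h2)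

theorem hm_C (c : M) : hm (C c) B A = C (C c) := by
  unfold hm
  rw [natDegree_C, zero_add, Finset.sum_range_one, pow_zero, Nat.sub_self, pow_zero, mul_one, mul_one,
    coeff_C_zero]

/-- a prime dividing the homogenization divides the homogenization of an irreducible factor -/
theorem dvd_factor (hA : A ≠ 0) {π : M[X][X]} (hπ : Prime π) (D : M[X]) : D ≠ 0 → π ∣ hm D B A →
    ∃ p, Irreducible p ∧ p ∣ D ∧ π ∣ hm p B A := by
  induction D using WfDvdMonoid.induction_on_irreducible with
  | zero => intro h; exact absurd rfl h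
  | unit u hu =>
    intro _ h1
    obtain ⟨c, hc, rfl⟩ := Polynomial.isUnit_iff.1 hu
    rw [hm_C] at h1
    exact absurd (isUnit_of_dvd_unit h1 (isUnit_C.2 (isUnit_C.2 hc))) hπ.not_unit
  | mul a p ha0 hp ih =>
    intro _ h1
    rw [hm_mul hA hp.ne_zero ha0] at h1
    rcases hπ.dvd_or_dvd h1 with h2 | h2
    · exact ⟨p, hp, Dvd.intro _ rfl, h2⟩
    · obtain ⟨q, h3, h4, h5⟩ := ih ha0 h2
      exact ⟨q, h3, h4.mul_left _, h5⟩

end

end Pool.Agent.Zk97.CB
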