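import Pool.Agent.Zk97.CB.G3

/-!
# Pencils of plane curves: the hypotheses of the rank lemma
-/

set_option autoImplicit false
set_option linter.all false

open Polynomial

namespace Pool.Agent.Zk97.CB

section
variable {M K : Type} [Field M] [Field K] [Algebra M K] {w : K} {A B : M[X][X]} {l n : ℕ}

theorem Pencil.dom (h : Pencil l n A B) (hW : StW) : IsDomain (AdjoinRoot (ff w A B)) :=
  AdjoinRoot.isDomain_of_prime (h.irr hW _).prime

theorem thA_ne (h : Pencil l n A B) (hw : Transcendental M w)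
    (hK : ∀ z : K, ∃ p q : M[X], aeval w q ≠ 0 ∧ z * aeval w q = aeval w p) : th w A B A ≠ 0 := by
  intro h0
  exact h.A0 (th_inj h.pen hw hK (by rw [h0, map_zero]))

theorem H2 (h : Pencil l n A B) (hW : StW) (hD : StD) (hw : Transcendental M w)
    (hK : ∀ z : K, ∃ p q : M[X], aeval w q ≠ 0 ∧ z * aeval w q = aeval w p)
    (𝔭 : Ideal (AdjoinRoot (ff w A B))) (hp : 𝔭.IsPrime) (h0 : 𝔭 ≠ ⊥) (hA : th w A B A ∉ 𝔭) :
    ∃ π : M[X][X], 𝔭.comap (th w A B) = Ideal.span {π} := by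
  have hdom := h.dom (w := w) hW
  obtain ⟨z, hz, hz0⟩ := Submodule.exists_mem_ne_zero_of_ne_bot h0
  obtain ⟨D, k, P, hD0, h1⟩ := h1_exp h.pen hw hK z
  have hr : (𝔭.comap (th w A B)).IsPrime := Ideal.comap_isPrime _ _
  have hP : P ∈ 𝔭.comap (th w A B) := by
    rw [Ideal.mem_comap, ← h1]
    exact 𝔭.mul_mem_left _ hz
  have hP0 : P ≠ 0 := by
    rintro rfl
    rw [map_zero] at h1
    rcases mul_eq_zero.1 h1 with h2 | h2
    · rcases mul_eq_zero.1 h2 with h3 | h3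
      · exact (ct_unit w A B (aeval_ne hw hD0)).ne_zero h3
      · exact (pow_ne_zero k (thA_ne h hw hK)) h3
    · exact hz0 h2
  obtain ⟨π, hπ, hπP⟩ : ∃ π, Irreducible π ∧ π ∈ 𝔭.comap (th w A B) := by
    have hw1 : ∀ P : M[X][X], P ≠ 0 → P ∈ 𝔭.comap (th w A B) →
        ∃ π, Irreducible π ∧ π ∈ 𝔭.comap (th w A B) := by
      intro P
      induction P using WfDvdMonoid.induction_on_irreducible with
      | zero => intro h; exact absurd rfl h
      | unit u hu =>
        intro _ h2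
        exact absurd (Ideal.eq_top_of_isUnit_mem _ h2 hu) hr.ne_top
      | mul a p ha0 hp' ih =>
        intro _ h2
        rcases hr.mem_or_mem h2 with h3 | h3
        · exact ⟨p, hp', h3⟩
        · exact ih ha0 h3
    exact hw1 P hP0 hP
  rcases (hD M).2.2.1 _ hr π hπP hπ with h2 | h2
  · exact ⟨π, h2⟩
  · exfalso
    obtain ⟨E, hE0, hE⟩ := (hD M).2.2.2 _ h2 A B (fun h3 => hA h3)
    rw [Ideal.mem_comap, th_hm] at hE
    rcases hp.mem_or_mem hE with h3 | h3
    · exact hp.ne_top (Ideal.eq_top_of_isUnit_mem _ h3 (ct_unit w A B (aeval_ne hw hE0)))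
    · exact hA (hp.mem_of_pow_mem _ h3)

theorem H3 (h : Pencil l n A B) (hW : StW) (hw : Transcendental M w)
    (hK : ∀ z : K, ∃ p q : M[X], aeval w q ≠ 0 ∧ z * aeval w q = aeval w p)
    (π : M[X][X]) (hπ : Irreducible π) (hA : ¬ π ∣ A) (hk : ∃ k : ℕ, th w A B π ∣ th w A B A ^ k) :
    ∃ (u : AdjoinRoot (ff w A B)) (k : ℕ), IsUnit u ∧ th w A B π = u * th w A B A ^ k := by
  obtain ⟨k, z, hz⟩ := hk
  obtain ⟨D, j, P, hD0, h1⟩ := h1_exp h.pen hw hK z
  have h2 : π * P * A ^ D.natDegree = hm D B A * A ^ (k + j) := by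
    apply th_inj h.pen hw hK
    rw [map_mul, map_mul, map_mul, th_hm, ← h1, map_pow, map_pow, pow_add, hz]
    ring
  have hπp : Prime π := hπ.prime
  have h3 : π ∣ hm D B A := by
    have h4 : π ∣ hm D B A * A ^ (k + j) := by
      rw [← h2, mul_assoc]
      exact Dvd.intro _ rfl
    rcases hπp.dvd_or_dvd h4 with h5 | h5
    · exact h5
    · exact absurd (hπp.dvd_of_dvd_pow h5) hA
  obtain ⟨p, hp, hpD, h5⟩ := dvd_factor h.A0 hπp D hD0 h3
  obtain ⟨v, hv⟩ := h5
  have h6 : Irreducible (hm p B A) := (h.prime_hm hW hp).irreducible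
  have h7 : IsUnit v := (h6.isUnit_or_isUnit hv).resolve_left hπ.not_isUnit
  obtain ⟨v', hv'⟩ := h7.exists_right_inv
  refine ⟨ct w A B (aeval w p) * th w A B v', p.natDegree,
    (ct_unit w A B (aeval_ne hw hp.ne_zero)).mul ?_, ?_⟩
  · exact (IsUnit.of_mul_eq_one v (by rw [mul_comm]; exact hv')).map _
  · have h8 : π = hm p B A * v' := by
      rw [hv, mul_assoc, hv', mul_one]
    rw [h8, map_mul, th_hm]
    ring

theorem eq_lift (h : Pencil l n A B) (hw : Transcendental M w)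
    (hK : ∀ z : K, ∃ p q : M[X], aeval w q ≠ 0 ∧ z * aeval w q = aeval w p) {p q : M[X]} {D₁ D₂ : M[X][X]}
    (he : ct w A B (aeval w q) * th w A B D₁ = ct w A B (aeval w p) * th w A B D₂) :
    hm q B A * A ^ p.natDegree * D₁ = hm p B A * A ^ q.natDegree * D₂ := by
  apply th_inj h.pen hw hK
  rw [map_mul, map_mul, map_mul, map_mul, th_hm, th_hm, map_pow, map_pow]
  calc _ = (ct w A B (aeval w q) * th w A B D₁) * (th w A B A ^ q.natDegree * th w A B A ^ p.natDegree) := by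
        ring
    _ = _ := by rw [he]; ring

theorem unit_of (h : Pencil l n A B) (hW : StW) (hw : Transcendental M w)
    (hK : ∀ z : K, ∃ p q : M[X], aeval w q ≠ 0 ∧ z * aeval w q = aeval w p) {p q : M[X]} (hp0 : p ≠ 0)
    (hq0 : q ≠ 0) (hpq : IsCoprime p q) {D₁ D₂ : M[X][X]} (h1 : ∃ k : ℕ, D₁ ∣ A ^ k)
    (he : ct w A B (aeval w q) * th w A B D₁ = ct w A B (aeval w p) * th w A B D₂) : IsUnit p := by
  by_contra hpu
  obtain ⟨p₁, hp₁, hpp⟩ := WfDvdMonoid.exists_irreducible_factor hpu hp0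
  have hpr := h.prime_hm hW hp₁
  have hA : ∀ k : ℕ, ¬ hm p₁ B A ∣ A ^ k := by
    intro k hk
    exact hpr.not_unit (h.rel_hm hW hp₁.ne_zero k dvd_rfl hk)
  obtain ⟨k, hk⟩ := h1
  have e := eq_lift h hw hK he
  obtain ⟨t, rfl⟩ := hpp
  have ht0 : t ≠ 0 := right_ne_zero_of_mul hp0
  have h2 : hm p₁ B A ∣ hm q B A * A ^ (p₁ * t).natDegree * D₁ := by
    rw [e, hm_mul h.A0 hp₁.ne_zero ht0]
    exact ((Dvd.intro _ rfl : hm p₁ B A ∣ hm p₁ B A * hm t B A).mul_right _).mul_right _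
  have h3 : hm p₁ B A ∣ hm q B A := by
    rcases hpr.dvd_or_dvd h2 with h4 | h4
    · rcases hpr.dvd_or_dvd h4 with h5 | h5
      · exact h5
      · exact absurd h5 (hA _)
    · exact absurd (h4.trans hk) (hA _)
  obtain ⟨u, v, huv⟩ := (IsCoprime.of_mul_left_left hpq : IsCoprime p₁ q)
  have h6 : hm u B A * hm p₁ B A * A ^ (v.natDegree + q.natDegree) +
      hm v B A * hm q B A * A ^ (u.natDegree + p₁.natDegree) =
      A ^ (u.natDegree + p₁.natDegree + v.natDegree + q.natDegree) := by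
    apply al_inj
    have e1 := congrArg (rho A B) huv
    rw [map_add, map_mul, map_mul, map_one] at e1
    rw [map_add, map_mul, map_mul, map_mul, map_mul, ← rho_hm h.A0, ← rho_hm h.A0, ← rho_hm h.A0,
      ← rho_hm h.A0, map_pow, map_pow, map_pow]
    calc _ = (rho A B u * rho A B p₁ + rho A B v * rho A B q) *
          algebraMap M[X][X] (FractionRing M[X][X]) A ^
            (u.natDegree + p₁.natDegree + v.natDegree + q.natDegree) := by
          rw [pow_add, pow_add, pow_add, pow_add, pow_add]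
          ring
      _ = _ := by rw [e1, one_mul]
  apply hA (u.natDegree + p₁.natDegree + v.natDegree + q.natDegree)
  rw [← h6]
  refine dvd_add ?_ ?_
  · exact (Dvd.intro_left _ rfl : hm p₁ B A ∣ hm u B A * hm p₁ B A).mul_right _
  · exact (h3.mul_left _).mul_right _

theorem H4 (h : Pencil l n A B) (hW : StW) (hw : Transcendental M w)
    (hK : ∀ z : K, ∃ p q : M[X], aeval w q ≠ 0 ∧ z * aeval w q = aeval w p) (D₁ D₂ : M[X][X])
    (h1 : ∃ k : ℕ, D₁ ∣ A ^ k) (h2 : ∃ k : ℕ, D₂ ∣ A ^ k) (hr : IsRelPrime D₁ D₂)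
    (hu : ∃ u : AdjoinRoot (ff w A B), IsUnit u ∧ th w A B D₁ = u * th w A B D₂) :
    IsUnit D₁ ∧ IsUnit D₂ := by
  classical
  obtain ⟨u, huu, he⟩ := hu
  obtain ⟨c, hc0, rfl⟩ := (hW K l n h.l0 h.n0 h.cop _ (h.ff_cab w)).2 u huu
  have hct : AdjoinRoot.of (ff w A B) (C c) = ct w A B c := rfl
  rw [hct] at he
  obtain ⟨p, q, hq, hpq⟩ := hK c
  have hq0 : q ≠ 0 := by
    rintro rfl
    exact hq (map_zero _)
  have hp0 : p ≠ 0 := by
    rintro rfl
    rw [map_zero] at hpq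
    exact (mul_ne_zero hc0 hq) hpq
  -- reduce the fraction
  have hg0 : EuclideanDomain.gcd p q ≠ 0 := by
    intro h0
    exact hq0 (EuclideanDomain.gcd_eq_zero_iff.1 h0).2
  obtain ⟨p', hp'⟩ := EuclideanDomain.gcd_dvd_left p q
  obtain ⟨q', hq'⟩ := EuclideanDomain.gcd_dvd_right p q
  set g := EuclideanDomain.gcd p q with hg
  have hp'0 : p' ≠ 0 := by
    rintro rfl
    exact hp0 (by rw [hp', mul_zero])
  have hq'0 : q' ≠ 0 := by
    rintro rfl
    exact hq0 (by rw [hq', mul_zero])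
  have hcop : IsCoprime p' q' := by
    have e := EuclideanDomain.gcd_eq_gcd_ab p q
    refine ⟨EuclideanDomain.gcdA p q, EuclideanDomain.gcdB p q, ?_⟩
    apply mul_left_cancel₀ hg0
    rw [mul_one]
    calc _ = (g * p') * EuclideanDomain.gcdA p q + (g * q') * EuclideanDomain.gcdB p q := by ring
      _ = g := by rw [← hp', ← hq', ← e]
  have hc : c * aeval w q' = aeval w p' := by
    apply mul_left_cancel₀ (aeval_ne hw hg0)
    rw [← map_mul, ← hp', ← hpq, hq', map_mul]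
    ring
  have he' : ct w A B (aeval w q') * th w A B D₁ = ct w A B (aeval w p') * th w A B D₂ := by
    rw [he, ← mul_assoc, ← ct_mul, mul_comm (aeval w q'), hc]
  have hu1 := unit_of h hW hw hK hp'0 hq'0 hcop h1 he'
  have hu2 := unit_of h hW hw hK hq'0 hp'0 hcop.symm h2 he'.symm
  obtain ⟨a, ha, rfl⟩ := Polynomial.isUnit_iff.1 hu1
  obtain ⟨b, hb, rfl⟩ := Polynomial.isUnit_iff.1 hu2
  have e := eq_lift h hw hK he'
  rw [hm_C, hm_C, natDegree_C, natDegree_C, pow_zero, mul_one, mul_one] at e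
  have ua : IsUnit (C (C a) : M[X][X]) := isUnit_C.2 (isUnit_C.2 ha)
  have ub : IsUnit (C (C b) : M[X][X]) := isUnit_C.2 (isUnit_C.2 hb)
  have d1 : D₁ ∣ D₂ := (ua.dvd_mul_left).1 (e ▸ Dvd.intro_left _ rfl)
  have d2 : D₂ ∣ D₁ := (ub.dvd_mul_left).1 (e.symm ▸ Dvd.intro_left _ rfl)
  exact ⟨hr dvd_rfl d1, hr d2 dvd_rfl⟩

end

end Pool.Agent.Zk97.CB
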