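import Pool.Agent.Zk97.CB.G4

/-!
# Pencils of plane curves: the primes over the base points, and the rank
-/

set_option autoImplicit false
set_option linter.all false

open Polynomial

namespace Pool.Agent.Zk97.CB

section
variable {M K : Type} [Field M] [Field K] [Algebra M K] {w : K} {A B : M[X][X]} {l n : ℕ}

/-- the constants -/
noncomputable def cc2 : M →+* M[X][X] := (C : M[X] →+* M[X][X]).comp (C : M →+* M[X])

noncomputable def sw0 : M[X] →+* M[X][X][X] := mapRingHom (cc2 (M := M))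

noncomputable def sw1 : M[X][X] →+* M[X][X][X] := eval₂RingHom (sw0 (M := M)) (C (C (X : M[X])))

/-- `w` becomes the outer variable -/
noncomputable def sw : M[X][X][X] →+* M[X][X][X] := eval₂RingHom (sw1 (M := M)) (C (X : M[X][X]))

theorem sw_CC (D : M[X]) : sw (C (C D) : M[X][X][X]) = D.map (cc2 (M := M)) := by
  show eval₂ _ _ (C (C D)) = _
  rw [eval₂_C]
  show eval₂ _ _ (C D) = _
  rw [eval₂_C]
  rfl

theorem sw_CX : sw (C (X : M[X][X]) : M[X][X][X]) = C (C (X : M[X])) := by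
  show eval₂ _ _ (C X) = _
  rw [eval₂_C]
  show eval₂ _ _ X = _
  rw [eval₂_X]

theorem sw_X : sw (X : M[X][X][X]) = C (X : M[X][X]) := by
  show eval₂ _ _ X = _
  rw [eval₂_X]

theorem sw_up2 (P : M[X][X]) : sw (up2 P) = C P := by
  have h : (sw : M[X][X][X] →+* M[X][X][X]).comp up2 = (C : M[X][X] →+* M[X][X][X]) := by
    apply Polynomial.ringHom_ext'
    · apply Polynomial.ringHom_ext
      · intro m
        show sw (up2 (C (C m))) = _
        rw [up2_CC, sw_CC, Polynomial.map_C]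
        rfl
      · show sw (up2 (C (X : M[X]))) = _
        rw [up2_CX, sw_CX]
        rfl
    · show sw (up2 (X : M[X][X])) = _
      rw [up2_X, sw_X]
  exact congrArg (fun g : M[X][X] →+* M[X][X][X] => g P) h

noncomputable def Th (w : K) (A B : M[X][X]) : M[X][X][X] →+* AdjoinRoot (ff w A B) :=
  eval₂RingHom (th w A B) (ct w A B w)

theorem Th_sw (P : M[X][X][X]) : Th w A B (sw P) = mu w A B P := by
  have h : (Th w A B).comp sw = mu w A B := by
    apply Polynomial.ringHom_ext'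
    · apply Polynomial.ringHom_ext'
      · apply Polynomial.ringHom_ext
        · intro m
          show Th w A B (sw (C (C (C m)))) = mu w A B (C (C (C m)))
          rw [sw_CC, mu_CC, Polynomial.map_C, aeval_C]
          show eval₂ _ _ (C _) = _
          rw [eval₂_C]
          exact th_CC w A B m
        · show Th w A B (sw (C (C (X : M[X])))) = mu w A B (C (C (X : M[X])))
          rw [sw_CC, mu_CC, Polynomial.map_X, aeval_X]
          show eval₂ _ _ X = _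
          rw [eval₂_X]
      · show Th w A B (sw (C (X : M[X][X]))) = mu w A B (C (X : M[X][X]))
        rw [sw_CX, ← up2_CX, mu_up2]
        show eval₂ _ _ (C _) = _
        rw [eval₂_C]
    · show Th w A B (sw (X : M[X][X][X])) = mu w A B (X : M[X][X][X])
      rw [sw_X, ← up2_X, mu_up2]
      show eval₂ _ _ (C _) = _
      rw [eval₂_C]
  exact congrArg (fun g : M[X][X][X] →+* AdjoinRoot (ff w A B) => g P) h

variable (𝔯 : Ideal M[X][X])

/-- reduction modulo the ideal -/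
noncomputable def chi : M[X][X][X] →+* (M[X][X] ⧸ 𝔯)[X] := (mapRingHom (Ideal.Quotient.mk 𝔯)).comp (sw (M := M))

theorem chi_up2 (P : M[X][X]) : chi 𝔯 (up2 P) = C (Ideal.Quotient.mk 𝔯 P) := by
  show ((sw (up2 P)).map _) = _
  rw [sw_up2, Polynomial.map_C]

theorem chi_CC (D : M[X]) : chi 𝔯 (C (C D)) =
    D.map ((Ideal.Quotient.mk 𝔯).comp (cc2 (M := M))) := by
  show ((sw (C (C D))).map _) = _
  rw [sw_CC, Polynomial.map_map]

theorem chi_ne (hr : 𝔯.IsPrime) {D : M[X]} (hD : D ≠ 0) : chi 𝔯 (C (C D)) ≠ 0 := by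
  rw [chi_CC]
  have : Nontrivial (M[X][X] ⧸ 𝔯) := Ideal.Quotient.nontrivial_iff.2 hr.ne_top
  intro h
  apply hD
  apply Polynomial.map_injective ((Ideal.Quotient.mk 𝔯).comp (cc2 (M := M)))
    (RingHom.injective _)
  rw [h, Polynomial.map_zero]

theorem chi_f1 (hA : A ∈ 𝔯) (hB : B ∈ 𝔯) : chi 𝔯 (f1 A B) = 0 := by
  have h1 := RingHom.map_sub (chi 𝔯) (up2 B) (C (C (X : M[X])) * up2 A)
  have h2 := RingHom.map_mul (chi 𝔯) (C (C (X : M[X]))) (up2 A)
  refine h1.trans ?_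
  rw [h2, chi_up2, chi_up2, Ideal.Quotient.eq_zero_iff_mem.2 hA, Ideal.Quotient.eq_zero_iff_mem.2 hB,
    C_0, mul_zero, sub_self]

theorem chi_zero (hr : 𝔯.IsPrime) (hA : A ∈ 𝔯) (hB : B ∈ 𝔯) (hw : Transcendental M w)
    (hK : ∀ z : K, ∃ p q : M[X], aeval w q ≠ 0 ∧ z * aeval w q = aeval w p) {P : M[X][X][X]}
    (hP : mu w A B P = 0) : chi 𝔯 P = 0 := by
  obtain ⟨D, z, hD, h1⟩ := mu_zero hw hK hP
  have h2 := RingHom.map_mul (chi 𝔯) (C (C D)) P
  have h3 := RingHom.map_mul (chi 𝔯) (f1 A B) z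
  rw [h1, h3, chi_f1 𝔯 hA hB, zero_mul] at h2
  have : IsDomain (M[X][X] ⧸ 𝔯) := Ideal.Quotient.isDomain 𝔯
  exact (mul_eq_zero.1 h2.symm).resolve_left (chi_ne 𝔯 hr hD)

theorem mem_of_chi {P : M[X][X][X]} (h : chi 𝔯 P = 0) : mu w A B P ∈ 𝔯.map (th w A B) := by
  rw [← Th_sw]
  have h1 : ∀ i, (sw P).coeff i ∈ 𝔯 := by
    intro i
    have h2 := congrArg (fun Q : (M[X][X] ⧸ 𝔯)[X] => Q.coeff i) h
    rw [← Ideal.Quotient.eq_zero_iff_mem]
    have h3 : (chi 𝔯 P).coeff i = Ideal.Quotient.mk 𝔯 ((sw P).coeff i) := coeff_map _ _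
    rw [← h3, h, coeff_zero]
  show eval₂ (th w A B) (ct w A B w) (sw P) ∈ _
  rw [eval₂_eq_sum_range]
  refine Ideal.sum_mem _ fun i _ => Ideal.mul_mem_right _ _ (Ideal.mem_map_of_mem _ (h1 i))

theorem mem_map_iff (hw : Transcendental M w)
    (hK : ∀ z : K, ∃ p q : M[X], aeval w q ≠ 0 ∧ z * aeval w q = aeval w p)
    (z : AdjoinRoot (ff w A B)) : z ∈ 𝔯.map (th w A B) ↔
    ∃ (D : M[X]) (P : M[X][X][X]), D ≠ 0 ∧ ct w A B (aeval w D) * z = mu w A B P ∧ chi 𝔯 P = 0 := by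
  constructor
  · intro h
    unfold Ideal.map at h
    induction h using Submodule.span_induction with
    | mem x hx =>
      obtain ⟨r, hr, rfl⟩ := hx
      refine ⟨1, up2 r, one_ne_zero, ?_, ?_⟩
      · rw [map_one, mu_up2]
        show AdjoinRoot.mk _ (C (C 1)) * _ = _
        rw [C_1, C_1, map_one, one_mul]
      · rw [chi_up2, Ideal.Quotient.eq_zero_iff_mem.2 hr, C_0]
    | zero =>
      refine ⟨1, 0, one_ne_zero, ?_, RingHom.map_zero _⟩
      rw [mul_zero]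
      exact (RingHom.map_zero _).symm
    | add x y _ _ hx hy =>
      obtain ⟨D, P, hD, h1, h2⟩ := hx
      obtain ⟨E, Q, hE, h3, h4⟩ := hy
      refine ⟨D * E, C (C E) * P + C (C D) * Q, mul_ne_zero hD hE, ?_, ?_⟩
      · have e1 := RingHom.map_add (mu w A B) (C (C E) * P) (C (C D) * Q)
        have e2 := RingHom.map_mul (mu w A B) (C (C E)) P
        have e3 := RingHom.map_mul (mu w A B) (C (C D)) Q
        rw [e1, e2, e3, mu_CC, mu_CC, ← h1, ← h3, map_mul, ct_mul]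
        ring
      · have e1 := RingHom.map_add (chi 𝔯) (C (C E) * P) (C (C D) * Q)
        have e2 := RingHom.map_mul (chi 𝔯) (C (C E)) P
        have e3 := RingHom.map_mul (chi 𝔯) (C (C D)) Q
        rw [e1, e2, e3, h2, h4, mul_zero, mul_zero, add_zero]
    | smul a x _ hx =>
      obtain ⟨D, P, hD, h1, h2⟩ := hx
      obtain ⟨a', rfl⟩ := AdjoinRoot.mk_surjective a
      obtain ⟨E, Q, hE, h3⟩ := clear2 hw hK a'
      refine ⟨E * D, Q * P, mul_ne_zero hE hD, ?_, ?_⟩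
      · have e2 := RingHom.map_mul (mu w A B) Q P
        have e4 : mu w A B Q = ct w A B (aeval w E) * AdjoinRoot.mk _ a' := by
          show AdjoinRoot.mk _ (ka w Q) = _
          rw [h3, map_mul]
          rfl
        rw [e2, e4, ← h1, map_mul, ct_mul, smul_eq_mul]
        ring
      · have e2 := RingHom.map_mul (chi 𝔯) Q P
        rw [e2, h2, mul_zero]
  · rintro ⟨D, P, hD, h1, h2⟩
    have h3 := mem_of_chi (w := w) (A := A) (B := B) 𝔯 h2
    rw [← h1] at h3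
    exact (Ideal.unit_mul_mem_iff_mem _ (ct_unit w A B (aeval_ne hw hD))).1 h3

theorem map_prime (hr : 𝔯.IsPrime) (hA : A ∈ 𝔯) (hB : B ∈ 𝔯) (hw : Transcendental M w)
    (hK : ∀ z : K, ∃ p q : M[X], aeval w q ≠ 0 ∧ z * aeval w q = aeval w p) :
    (𝔯.map (th w A B)).IsPrime := by
  have : IsDomain (M[X][X] ⧸ 𝔯) := Ideal.Quotient.isDomain 𝔯
  refine ⟨?_, ?_⟩
  · intro h
    have h1 : (1 : AdjoinRoot (ff w A B)) ∈ 𝔯.map (th w A B) := by
      rw [h]
      trivial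
    obtain ⟨D, P, hD, h2, h3⟩ := (mem_map_iff 𝔯 hw hK _).1 h1
    have h4 : mu w A B (C (C D) - P) = 0 := by
      have e := RingHom.map_sub (mu w A B) (C (C D)) P
      rw [e, ← h2, mu_CC, mul_one, sub_self]
    have h5 := chi_zero 𝔯 hr hA hB hw hK h4
    have e := RingHom.map_sub (chi 𝔯) (C (C D)) P
    rw [e, h3, sub_zero] at h5
    exact chi_ne 𝔯 hr hD h5
  · intro x y hxy
    obtain ⟨D, P, hD, h1, h2⟩ := (mem_map_iff 𝔯 hw hK _).1 hxy
    obtain ⟨x', rfl⟩ := AdjoinRoot.mk_surjective x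
    obtain ⟨y', rfl⟩ := AdjoinRoot.mk_surjective y
    obtain ⟨E, Q, hE, h3⟩ := clear2 hw hK x'
    obtain ⟨F, S, hF, h4⟩ := clear2 hw hK y'
    have eQ : mu w A B Q = ct w A B (aeval w E) * AdjoinRoot.mk _ x' := by
      show AdjoinRoot.mk _ (ka w Q) = _
      rw [h3, map_mul]
      rfl
    have eS : mu w A B S = ct w A B (aeval w F) * AdjoinRoot.mk _ y' := by
      show AdjoinRoot.mk _ (ka w S) = _
      rw [h4, map_mul]
      rfl
    have h5 : mu w A B (C (C D) * (Q * S) - C (C (E * F)) * P) = 0 := by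
      have e1 := RingHom.map_sub (mu w A B) (C (C D) * (Q * S)) (C (C (E * F)) * P)
      have e2 := RingHom.map_mul (mu w A B) (C (C D)) (Q * S)
      have e3 := RingHom.map_mul (mu w A B) Q S
      have e4 := RingHom.map_mul (mu w A B) (C (C (E * F))) P
      rw [e1, e2, e3, e4, mu_CC, mu_CC, eQ, eS, ← h1, map_mul, ct_mul]
      ring
    have h6 := chi_zero 𝔯 hr hA hB hw hK h5
    have e1 := RingHom.map_sub (chi 𝔯) (C (C D) * (Q * S)) (C (C (E * F)) * P)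
    have e2 := RingHom.map_mul (chi 𝔯) (C (C D)) (Q * S)
    have e3 := RingHom.map_mul (chi 𝔯) Q S
    have e4 := RingHom.map_mul (chi 𝔯) (C (C (E * F))) P
    rw [e1, e2, e3, e4, h2, mul_zero, sub_zero] at h6
    rcases mul_eq_zero.1 h6 with h7 | h7
    · exact absurd h7 (chi_ne 𝔯 hr hD)
    rcases mul_eq_zero.1 h7 with h8 | h8
    · left
      exact (mem_map_iff 𝔯 hw hK _).2 ⟨E, Q, hE, eQ.symm, h8⟩
    · right
      exact (mem_map_iff 𝔯 hw hK _).2 ⟨F, S, hF, eS.symm, h8⟩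

theorem Pencil.isMaximal (h : Pencil l n A B) (hW : StW) (hD : StD) (hr : 𝔯.IsPrime) (hA : A ∈ 𝔯)
    (hB : B ∈ 𝔯) : 𝔯.IsMaximal := by
  rcases (hD M).2.2.1 𝔯 hr B hB (h.irrB hW) with h1 | h1
  · rw [h1, Ideal.mem_span_singleton] at hA
    exact absurd hA h.not_dvd
  · exact h1

theorem Pencil.mem_minimal (h : Pencil l n A B) (hW : StW) (hD : StD) :
    𝔯 ∈ (Ideal.span {A, B}).minimalPrimes ↔ 𝔯.IsPrime ∧ A ∈ 𝔯 ∧ B ∈ 𝔯 := by
  have hsp : ∀ 𝔮 : Ideal M[X][X], Ideal.span {A, B} ≤ 𝔮 ↔ A ∈ 𝔮 ∧ B ∈ 𝔮 := by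
    intro 𝔮
    rw [Ideal.span_le, Set.insert_subset_iff, Set.singleton_subset_iff]
    rfl
  constructor
  · intro h1
    exact ⟨h1.1.1, (hsp _).1 h1.1.2⟩
  · rintro ⟨h1, h2, h3⟩
    refine ⟨⟨h1, (hsp _).2 ⟨h2, h3⟩⟩, ?_⟩
    intro 𝔮 hq hle
    have h4 := (hsp _).1 hq.2
    have h5 := h.isMaximal 𝔮 hW hD hq.1 h4.1 h4.2
    exact (h5.eq_of_le h1.ne_top hle).ge

theorem mem_minimal_one (hA : A ≠ 0) (h : 𝔯 ∈ (Ideal.span {A}).minimalPrimes) :
    ∃ π : M[X][X], Irreducible π ∧ 𝔯 = Ideal.span {π} := by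
  have hr := h.1.1
  have hA' : A ∈ 𝔯 := h.1.2 (Ideal.mem_span_singleton_self A)
  have hw1 : ∀ P : M[X][X], P ≠ 0 → P ∈ 𝔯 → ∃ π, Irreducible π ∧ π ∣ P ∧ π ∈ 𝔯 := by
    intro P
    induction P using WfDvdMonoid.induction_on_irreducible with
    | zero => intro h; exact absurd rfl h
    | unit u hu =>
      intro _ h2
      exact absurd (Ideal.eq_top_of_isUnit_mem _ h2 hu) hr.ne_top
    | mul a p ha0 hp' ih =>
      intro _ h2
      rcases hr.mem_or_mem h2 with h3 | h3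
      · exact ⟨p, hp', Dvd.intro _ rfl, h3⟩
      · obtain ⟨π, h4, h5, h6⟩ := ih ha0 h3
        exact ⟨π, h4, h5.mul_left _, h6⟩
  obtain ⟨π, hπ, h1, h2⟩ := hw1 A hA hA'
  refine ⟨π, hπ, ?_⟩
  have hpr : (Ideal.span {π}).IsPrime := (Ideal.span_singleton_prime hπ.ne_zero).2 hπ.prime
  have h3 : Ideal.span {π} ≤ 𝔯 := (Ideal.span_singleton_le_iff_mem _).2 h2
  exact le_antisymm (h.2 ⟨hpr, (Ideal.span_singleton_le_iff_mem _).2
    (Ideal.mem_span_singleton.2 h1)⟩ h3) h3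

/-- the primes over the base points -/
theorem Pencil.card_primes (h : Pencil l n A B) (hW : StW) (hD : StD) (hw : Transcendental M w)
    (hK : ∀ z : K, ∃ p q : M[X], aeval w q ≠ 0 ∧ z * aeval w q = aeval w p)
    [IsDedekindDomain (AdjoinRoot (ff w A B))] :
    {𝔮 : Ideal (AdjoinRoot (ff w A B)) | 𝔮.IsPrime ∧ th w A B A ∈ 𝔮}.ncard =
      (Ideal.span {A, B}).minimalPrimes.ncard := by
  have hB : ∀ 𝔮 : Ideal (AdjoinRoot (ff w A B)), th w A B A ∈ 𝔮 → th w A B B ∈ 𝔮 := by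
    intro 𝔮 h1
    rw [th_B]
    exact 𝔮.mul_mem_left _ h1
  have key : ∀ 𝔮 : Ideal (AdjoinRoot (ff w A B)), 𝔮.IsPrime → th w A B A ∈ 𝔮 →
      (𝔮.comap (th w A B)).map (th w A B) = 𝔮 := by
    intro 𝔮 h1 h2
    have h3 : (𝔮.comap (th w A B)).IsPrime := Ideal.comap_isPrime _ _
    have h4 := map_prime (𝔮.comap (th w A B)) h3 h2 (hB 𝔮 h2) hw hK
    have h5 : (𝔮.comap (th w A B)).map (th w A B) ≤ 𝔮 := Ideal.map_comap_le
    have h6 : (𝔮.comap (th w A B)).map (th w A B) ≠ ⊥ := by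
      intro h7
      have h8 : th w A B A ∈ (𝔮.comap (th w A B)).map (th w A B) := Ideal.mem_map_of_mem _ h2
      rw [h7, Ideal.mem_bot] at h8
      exact thA_ne h hw hK h8
    exact (h4.isMaximal h6).eq_of_le h1.ne_top h5
  refine Set.ncard_congr (fun 𝔮 _ => 𝔮.comap (th w A B)) ?_ ?_ ?_
  · rintro 𝔮 ⟨h1, h2⟩
    exact (h.mem_minimal _ hW hD).2 ⟨Ideal.comap_isPrime _ _, h2, hB 𝔮 h2⟩
  · rintro 𝔮 𝔮' ⟨h1, h2⟩ ⟨h3, h4⟩ he
    rw [← key 𝔮 h1 h2, ← key 𝔮' h3 h4]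
    exact congrArg _ he
  · intro 𝔯 hr
    obtain ⟨h1, h2, h3⟩ := (h.mem_minimal _ hW hD).1 hr
    have h4 := map_prime 𝔯 h1 h2 h3 hw hK
    have h5 : th w A B A ∈ 𝔯.map (th w A B) := Ideal.mem_map_of_mem _ h2
    refine ⟨𝔯.map (th w A B), ⟨h4, h5⟩, ?_⟩
    have h6 := h.isMaximal 𝔯 hW hD h1 h2 h3
    exact (h6.eq_of_le (Ideal.comap_isPrime (th w A B) (𝔯.map (th w A B))).ne_top Ideal.le_comap_map).symm

/-- **The rank of the group of the points of the Jacobian of the generic member.** -/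
theorem Pencil.rank (h : Pencil l n A B) (hW : StW) (hD : StD) (hR : StR) (hw : Transcendental M w)
    (hK : ∀ z : K, ∃ p q : M[X], aeval w q ≠ 0 ∧ z * aeval w q = aeval w p)
    [IsDedekindDomain (AdjoinRoot (ff w A B))] :
    Module.rank ℤ (Additive (ClassGroup (AdjoinRoot (ff w A B)))) +
      ((Ideal.span {A}).minimalPrimes.ncard : Cardinal) =
      ((Ideal.span {A, B}).minimalPrimes.ncard : Cardinal) := by
  rw [← h.card_primes hW hD hw hK]
  refine hR (AdjoinRoot (ff w A B)) M[X][X] (th w A B) A (th_inj h.pen hw hK) h.A0 ?_ ?_ ?_ ?_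
  · intro z
    obtain ⟨D, k, P, hD0, h1⟩ := h1_exp h.pen hw hK z
    exact ⟨ct w A B (aeval w D), k, P, ct_unit w A B (aeval_ne hw hD0), h1⟩
  · exact H2 h hW hD hw hK
  · exact H3 h hW hw hK
  · exact H4 h hW hw hK

end

end Pool.Agent.Zk97.CB
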