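import Pool.Agent.Zk97.CB.A5

/-!
# Curves whose function field is purely transcendental over `M`: definitions and statements
-/

set_option autoImplicit false
set_option linter.all false

open Polynomial NumberField IsDedekindDomain
open Pool.Agent.R410.LW (FG)
open Pool.Agent.R410.NG (Wt IsWt avg)
open Filter (Tendsto atTop)
open Topology

namespace Pool.Agent.Zk97.CB

/-- absolutely irreducible -/
def AbsIrr {F : Type} [Field F] (G : F[X][X]) : Prop :=
  ∀ (k : Type) [Field k] (φ : F →+* k), Irreducible (G.map (mapRingHom φ))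

/-- V: the bound of Weil for absolutely irreducible plane curves, monic in `y` -/
def StV : Prop := ∀ l n : ℕ, 0 < l → ∃ c : ℝ, 0 ≤ c ∧
  ∀ (F : Type) [Field F] [Finite F] (G : F[X][X]), G.Monic → G.natDegree = l →
    (∀ i, (G.coeff i).natDegree ≤ n) → ((l : ℕ) : F) ≠ 0 → AbsIrr G →
    |(Nat.card {P : F × F // evalEval P.1 P.2 G = 0} : ℝ) - Nat.card F| ≤ c * √(Nat.card F : ℝ)

/-- B: two curves have few common points -/
def StB : Prop := ∀ l n : ℕ, ∃ c : ℕ,
  ∀ (F : Type) [Field F] [Finite F] (G a : F[X][X]), G.Monic → G.natDegree = l → Irreducible G →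
    (∀ i, (G.coeff i).natDegree ≤ n) → (∀ i, (a.coeff i).natDegree ≤ n) → a.natDegree < l → a ≠ 0 →
    Nat.card {P : F × F // evalEval P.1 P.2 G = 0 ∧ evalEval P.1 P.2 a = 0} ≤ c

/-- the constants in an extension of `K[x,y]/(f)` -/
noncomputable def kc {K : Type} [Field K] (f : K[X][X]) (T : Type) [CommRing T]
    [Algebra (AdjoinRoot f) T] : K →+* T :=
  (algebraMap (AdjoinRoot f) T).comp ((AdjoinRoot.of f).comp C)

/-- the rank of the group of the units of `T` modulo the constants -/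
noncomputable def unitRank {K T : Type} [Field K] [CommRing T] (f : K →+* T) : Cardinal :=
  Module.rank ℤ (Additive Tˣ ⧸
    LinearMap.range (MonoidHom.toAdditive (Units.map (f : K →* T))).toIntLinearMap)

/-- E: the ring of the open curve `A ≠ 0`, and its units -/
def StE : Prop := ∀ (M K : Type) [Field M] [Field K] [Algebra M K] (w : K) (A B : M[X][X]) (l : ℕ)
  (h : GP l A B), Transcendental M w →
  (∀ z : K, ∃ p q : M[X], aeval w q ≠ 0 ∧ z * aeval w q = aeval w p) → Irreducible (ff w A B) →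
  {p : MPt M | om (hm p.1 B A) ≠ 1}.Finite →
  ∀ (T : Type) [CommRing T] [Algebra (AdjoinRoot (ff w A B)) T] [IsLocalization.Away (th w A B A) T],
    IsDomain T ∧ IsPrincipalIdealRing T ∧
    unitRank (kc (ff w A B) T) = ((om A + ∑ᶠ p : MPt M, (om (hm p.1 B A) - 1) : ℕ) : Cardinal)

/-- P: the places of a function field -/
def StP : Prop := ∀ (K L : Type) [Field K] [CharZero K] [Field L] [Algebra K L] (f : K[X][X]), f.Monic →
  0 < f.natDegree → Irreducible f → ∀ [Algebra (AdjoinRoot f) L] [IsFractionRing (AdjoinRoot f) L],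
  (∀ c : K, algebraMap K L c = kc f L c) →
  (∀ t : L, {O : ValuationSubring L | (∀ c : K, algebraMap K L c ∈ O) ∧ t ∉ O}.Finite) ∧
  (∀ O : ValuationSubring L, (hO : ∀ c : K, algebraMap K L c ∈ O) → O ≠ ⊤ →
    ∀ z : IsLocalRing.ResidueField O, ∃ p : K[X], p ≠ 0 ∧
      p.eval₂ ((IsLocalRing.residue O).comp ((algebraMap K L).codRestrict O.toSubring hO)) z = 0) ∧
  (∃ O : ValuationSubring L, (∀ c : K, algebraMap K L c ∈ O) ∧
    algebraMap (AdjoinRoot f) L (AdjoinRoot.of f X) ∉ O)

open Classical in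
/-- the weight `1` for absolutely irreducible curves -/
noncomputable def wt1 (l n : ℕ) : Wt (Fin l) := fun F _ p =>
  if ((l : ℕ) : F) ≠ 0 ∧ AbsIrr (dec l n p) then 1 else 0

/-- H: the average of the weight `1` -/
def StH : Prop := ∀ (k : Type) [Field k] [NumberField k] (κ : Type) [Field κ] [CharZero κ] [Algebra k κ],
  FG κ → ∀ e : ℕ, Algebra.trdeg ℚ κ = e → ∀ l n : ℕ, 0 < l →
  ∀ (R : Type) [CommRing R] [IsDomain R] [Algebra.FiniteType ℤ R] [Algebra R κ] [IsFractionRing R κ]
    [Algebra (𝓞 k) R],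
    (∀ z : 𝓞 k, algebraMap R κ (algebraMap (𝓞 k) R z) = algebraMap k κ z) →
    ∀ G : R[X][X], G.Monic → G.natDegree = l → (∀ i, (G.coeff i).natDegree ≤ n) →
      AbsIrr (G.map (mapRingHom (algebraMap R κ))) → ∀ N : R, N ≠ 0 →
      ∀ S : Finset (HeightOneSpectrum (𝓞 k)),
        Tendsto (Pool.Agent.W353.FB.average S fun v => avg (wt1 l n) (enc l n G) N e v) atTop (𝓝 1)

end Pool.Agent.Zk97.CB
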