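import Pool.Agent.Zk97.CB.G5

/-!
# General pencils of plane curves
-/

set_option autoImplicit false
set_option linter.all false

open Polynomial

namespace Pool.Agent.Zk97.CB

/-- a pencil without fixed components, monic in `y` -/
structure GP {M : Type} [Field M] (l : ℕ) (A B : M[X][X]) : Prop where
  pen : Pen l A B
  rel : IsRelPrime B A

section
variable {M : Type} [Field M] {A B : M[X][X]} {l : ℕ}

theorem GP.rel_hm (h : GP l A B) {D : M[X]} (hD : D ≠ 0) (k : ℕ) :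
    IsRelPrime (hm D B A) (A ^ k) := by
  refine IsRelPrime.pow_right ?_
  intro c h1 h2
  exact (IsRelPrime.pow_left h.rel : IsRelPrime (B ^ D.natDegree) A) (dvd_hm hD h2 h1) h2

theorem GP.dvd_of_zero (h : GP l A B) {p : M[X]} [hfact : Fact (Irreducible p)]
    {G : M[X][X]} (hG : th (AdjoinRoot.root p) A B G = 0) : hm p B A ∣ G := by
  have hp : Irreducible p := hfact.out
  have hA := h.pen.A0
  obtain ⟨z, hz⟩ := AdjoinRoot.mk_eq_zero.1 hG
  let σ : M[X][X][X] →+* (AdjoinRoot p)[X][X] := mapRingHom (mapRingHom (AdjoinRoot.mk p))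
  have hσs : Function.Surjective σ :=
    Polynomial.map_surjective _ (Polynomial.map_surjective _ AdjoinRoot.mk_surjective)
  have hκ : σ = ka (AdjoinRoot.root p) := by
    show mapRingHom (mapRingHom (AdjoinRoot.mk p)) = mapRingHom (mapRingHom _)
    congr 2
    refine RingHom.ext fun q => ?_
    exact (AdjoinRoot.aeval_eq q).symm
  obtain ⟨z', hz'⟩ := hσs z
  have h1 : σ (up2 G - f1 A B * z') = 0 := by
    have e1 := RingHom.map_sub σ (up2 G) (f1 A B * z')
    have e2 := RingHom.map_mul σ (f1 A B) z'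
    refine e1.trans ?_
    rw [e2, hz', hκ, ka_up2, ka_f1, hz, sub_self]
  obtain ⟨P, hP⟩ := ker_sigma h1
  have h2 : ev A B (up2 G) = rho A B p * ev A B P := by
    have e1 := RingHom.map_sub (ev A B) (up2 G) (f1 A B * z')
    have e2 := RingHom.map_mul (ev A B) (f1 A B) z'
    have e3 := RingHom.map_mul (ev A B) (C (C p)) P
    rw [hP, e3, e2, ev_f1 hA, zero_mul, sub_zero, ev_CC] at e1
    exact e1.symm
  rw [ev_up2] at h2
  obtain ⟨k, Q, h3, -⟩ := pr_all (w := AdjoinRoot.root p) (B := B) hA P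
  have h4 : A ^ (k + p.natDegree) * G = hm p B A * Q := by
    apply al_inj
    rw [map_mul, map_mul, map_pow, ← h3, ← rho_hm hA, h2, pow_add]
    ring
  exact (h.rel_hm hp.ne_zero (k + p.natDegree)).dvd_of_dvd_mul_left (Dvd.intro _ h4.symm)

/-- an irreducible member gives a prime element -/
theorem GP.prime_hm (h : GP l A B) {p : M[X]} [hfact : Fact (Irreducible p)]
    (hirr : Irreducible (ff (AdjoinRoot.root p) A B)) : Prime (hm p B A) := by
  have hp : Irreducible p := hfact.out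
  have hdeg := hm_deg h.pen hp.ne_zero
  have hp1 : 0 < p.natDegree := hp.natDegree_pos
  refine ⟨hdeg.2, ?_, ?_⟩
  · intro hu
    have h1 := natDegree_eq_zero_of_isUnit hu
    rw [hdeg.1] at h1
    have := Nat.mul_pos h.pen.l0 hp1
    omega
  · intro G H hGH
    have hdom : IsDomain (AdjoinRoot (ff (AdjoinRoot.root p) A B)) :=
      AdjoinRoot.isDomain_of_prime hirr.prime
    have h0 : th (AdjoinRoot.root p) A B (hm p B A) = 0 := by
      rw [th_hm]
      have : aeval (AdjoinRoot.root p) p = 0 := by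
        rw [AdjoinRoot.aeval_eq, AdjoinRoot.mk_self]
      rw [this]
      unfold ct
      rw [C_0, C_0, map_zero, zero_mul]
    obtain ⟨Q, hQ⟩ := hGH
    have h1 : th (AdjoinRoot.root p) A B G * th (AdjoinRoot.root p) A B H = 0 := by
      rw [← map_mul, hQ, map_mul, h0, zero_mul]
    rcases mul_eq_zero.1 h1 with h2 | h2
    · exact Or.inl (h.dvd_of_zero h2)
    · exact Or.inr (h.dvd_of_zero h2)

end

section
variable {M K : Type} [Field M] [Field K] [Algebra M K] {w : K} {A B : M[X][X]} {l : ℕ}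

theorem GP.thA_ne (h : GP l A B) (hw : Transcendental M w)
    (hK : ∀ z : K, ∃ p q : M[X], aeval w q ≠ 0 ∧ z * aeval w q = aeval w p) : th w A B A ≠ 0 := by
  intro h0
  exact h.pen.A0 (th_inj h.pen hw hK (by rw [h0, map_zero]))

theorem GP.H2 (h : GP l A B) (hD : StD) (hw : Transcendental M w)
    (hK : ∀ z : K, ∃ p q : M[X], aeval w q ≠ 0 ∧ z * aeval w q = aeval w p)
    (hdom : IsDomain (AdjoinRoot (ff w A B)))
    (𝔭 : Ideal (AdjoinRoot (ff w A B))) (hp : 𝔭.IsPrime) (h0 : 𝔭 ≠ ⊥) (hA : th w A B A ∉ 𝔭) :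
    ∃ π : M[X][X], 𝔭.comap (th w A B) = Ideal.span {π} := by
  obtain ⟨z, hz, hz0⟩ := Submodule.exists_mem_ne_zero_of_ne_bot h0
  obtain ⟨D, k, P, hD0, h1⟩ := h1_exp h.pen hw hK z
  have hr : (𝔭.comap (th w A B)).IsPrime := Ideal.comap_isPrime _ _
  have hP : P ∈ 𝔭.comap (th w A B) := by
    rw [Ideal.mem_comap, ← h1]
    exact 𝔭.mul_mem_left _ hz
  have hP0 : P ≠ 0 := by
    rintro rfl
    rw [map_zero] at h1
    rcases mul_eq_zero.1 h1 with h2 | h2
    · rcases mul_eq_zero.1 h2 with h3 | h3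
      · exact (ct_unit w A B (aeval_ne hw hD0)).ne_zero h3
      · exact (pow_ne_zero k (h.thA_ne hw hK)) h3
    · exact hz0 h2
  obtain ⟨π, hπ, hπP⟩ : ∃ π, Irreducible π ∧ π ∈ 𝔭.comap (th w A B) := by
    have h6 : 𝔭.comap (th w A B) ≠ ⊥ := by
      intro h7
      rw [h7] at hP
      exact hP0 (Ideal.mem_bot.1 hP)
    obtain ⟨p, hp1, hp'⟩ := Ideal.IsPrime.exists_mem_prime_of_ne_bot hr h6
    exact ⟨p, hp'.irreducible, hp1⟩
  rcases (hD M).2.2.1 _ hr π hπP hπ with h2 | h2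
  · exact ⟨π, h2⟩
  · exfalso
    obtain ⟨E, hE0, hE⟩ := (hD M).2.2.2 _ h2 A B (fun h3 => hA h3)
    rw [Ideal.mem_comap, th_hm] at hE
    rcases hp.mem_or_mem hE with h3 | h3
    · exact hp.ne_top (Ideal.eq_top_of_isUnit_mem _ h3 (ct_unit w A B (aeval_ne hw hE0)))
    · exact hA (hp.mem_of_pow_mem _ h3)

/-- the first half of H3 -/
theorem GP.H3 (h : GP l A B) (hw : Transcendental M w)
    (hK : ∀ z : K, ∃ p q : M[X], aeval w q ≠ 0 ∧ z * aeval w q = aeval w p)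
    (π : M[X][X]) (hπ : Irreducible π) (hA : ¬ π ∣ A) (hk : ∃ k : ℕ, th w A B π ∣ th w A B A ^ k) :
    ∃ p, Irreducible p ∧ π ∣ hm p B A := by
  obtain ⟨k, z, hz⟩ := hk
  obtain ⟨D, j, P, hD0, h1⟩ := h1_exp h.pen hw hK z
  have h2 : π * P * A ^ D.natDegree = hm D B A * A ^ (k + j) := by
    apply th_inj h.pen hw hK
    rw [map_mul, map_mul, map_mul, th_hm, ← h1, map_pow, map_pow, pow_add, hz]
    ring
  have hπp : Prime π := hπ.prime
  have h3 : π ∣ hm D B A := by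
    have h4 : π ∣ hm D B A * A ^ (k + j) := by
      rw [← h2, mul_assoc]
      exact Dvd.intro _ rfl
    rcases hπp.dvd_or_dvd h4 with h5 | h5
    · exact h5
    · exact absurd (hπp.dvd_of_dvd_pow h5) hA
  obtain ⟨p, hp, hpD, h5⟩ := dvd_factor h.pen.A0 hπp D hD0 h3
  exact ⟨p, hp, h5⟩

theorem GP.eq_lift (h : GP l A B) (hw : Transcendental M w)
    (hK : ∀ z : K, ∃ p q : M[X], aeval w q ≠ 0 ∧ z * aeval w q = aeval w p) {p q : M[X]} {D₁ D₂ : M[X][X]}
    (he : ct w A B (aeval w q) * th w A B D₁ = ct w A B (aeval w p) * th w A B D₂) :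
    hm q B A * A ^ p.natDegree * D₁ = hm p B A * A ^ q.natDegree * D₂ := by
  apply th_inj h.pen hw hK
  rw [map_mul, map_mul, map_mul, map_mul, th_hm, th_hm, map_pow, map_pow]
  calc _ = (ct w A B (aeval w q) * th w A B D₁) * (th w A B A ^ q.natDegree * th w A B A ^ p.natDegree) := by
        ring
    _ = _ := by rw [he]; ring

/-- coprime members have no common component outside `A = 0` -/
theorem GP.coprime_hm (h : GP l A B) {p q : M[X]} (hpq : IsCoprime p q) {π : M[X][X]} (hπ : Prime π)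
    (h1 : π ∣ hm p B A) (h2 : π ∣ hm q B A) : π ∣ A := by
  obtain ⟨u, v, huv⟩ := hpq
  have h6 : hm u B A * hm p B A * A ^ (v.natDegree + q.natDegree) +
      hm v B A * hm q B A * A ^ (u.natDegree + p.natDegree) =
      A ^ (u.natDegree + p.natDegree + v.natDegree + q.natDegree) := by
    apply al_inj
    have e1 := congrArg (rho A B) huv
    rw [map_add, map_mul, map_mul, map_one] at e1
    rw [map_add, map_mul, map_mul, map_mul, map_mul, ← rho_hm h.pen.A0, ← rho_hm h.pen.A0,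
      ← rho_hm h.pen.A0, ← rho_hm h.pen.A0, map_pow, map_pow, map_pow]
    calc _ = (rho A B u * rho A B p + rho A B v * rho A B q) *
          algebraMap M[X][X] (FractionRing M[X][X]) A ^
            (u.natDegree + p.natDegree + v.natDegree + q.natDegree) := by
          rw [pow_add, pow_add, pow_add, pow_add, pow_add]
          ring
      _ = _ := by rw [e1, one_mul]
  apply hπ.dvd_of_dvd_pow (n := u.natDegree + p.natDegree + v.natDegree + q.natDegree)
  rw [← h6]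
  refine dvd_add ?_ ?_
  · exact (h1.mul_left _).mul_right _
  · exact (h2.mul_left _).mul_right _

variable (𝔯 : Ideal M[X][X])

theorem GP.isMaximal (h : GP l A B) (hD : StD) (hr : 𝔯.IsPrime) (hA : A ∈ 𝔯)
    (hB : B ∈ 𝔯) : 𝔯.IsMaximal := by
  have h6 : 𝔯 ≠ ⊥ := by
    rintro rfl
    exact h.pen.A0 (Ideal.mem_bot.1 hA)
  obtain ⟨π, hp1, hp'⟩ := Ideal.IsPrime.exists_mem_prime_of_ne_bot hr h6
  rcases (hD M).2.2.1 𝔯 hr π hp1 hp'.irreducible with h1 | h1
  · rw [h1, Ideal.mem_span_singleton] at hA hB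
    exact absurd (h.rel hB hA) hp'.not_unit
  · exact h1

theorem GP.mem_minimal (h : GP l A B) (hD : StD) :
    𝔯 ∈ (Ideal.span {A, B}).minimalPrimes ↔ 𝔯.IsPrime ∧ A ∈ 𝔯 ∧ B ∈ 𝔯 := by
  have hsp : ∀ 𝔮 : Ideal M[X][X], Ideal.span {A, B} ≤ 𝔮 ↔ A ∈ 𝔮 ∧ B ∈ 𝔮 := by
    intro 𝔮
    rw [Ideal.span_le, Set.insert_subset_iff, Set.singleton_subset_iff]
    rfl
  constructor
  · intro h1
    exact ⟨h1.1.1, (hsp _).1 h1.1.2⟩
  · rintro ⟨h1, h2, h3⟩
    refine ⟨⟨h1, (hsp _).2 ⟨h2, h3⟩⟩, ?_⟩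
    intro 𝔮 hq hle
    have h4 := (hsp _).1 hq.2
    have h5 := h.isMaximal 𝔮 hD hq.1 h4.1 h4.2
    exact (h5.eq_of_le h1.ne_top hle).ge

/-- the primes over the base points -/
theorem GP.card_primes (h : GP l A B) (hD : StD) (hw : Transcendental M w)
    (hK : ∀ z : K, ∃ p q : M[X], aeval w q ≠ 0 ∧ z * aeval w q = aeval w p)
    [IsDedekindDomain (AdjoinRoot (ff w A B))] :
    {𝔮 : Ideal (AdjoinRoot (ff w A B)) | 𝔮.IsPrime ∧ th w A B A ∈ 𝔮}.ncard =
      (Ideal.span {A, B}).minimalPrimes.ncard := by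
  have hB : ∀ 𝔮 : Ideal (AdjoinRoot (ff w A B)), th w A B A ∈ 𝔮 → th w A B B ∈ 𝔮 := by
    intro 𝔮 h1
    rw [th_B]
    exact 𝔮.mul_mem_left _ h1
  have key : ∀ 𝔮 : Ideal (AdjoinRoot (ff w A B)), 𝔮.IsPrime → th w A B A ∈ 𝔮 →
      (𝔮.comap (th w A B)).map (th w A B) = 𝔮 := by
    intro 𝔮 h1 h2
    have h3 : (𝔮.comap (th w A B)).IsPrime := Ideal.comap_isPrime _ _
    have h4 := map_prime (𝔮.comap (th w A B)) h3 h2 (hB 𝔮 h2) hw hK
    have h5 : (𝔮.comap (th w A B)).map (th w A B) ≤ 𝔮 := Ideal.map_comap_le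
    have h6 : (𝔮.comap (th w A B)).map (th w A B) ≠ ⊥ := by
      intro h7
      have h8 : th w A B A ∈ (𝔮.comap (th w A B)).map (th w A B) := Ideal.mem_map_of_mem _ h2
      rw [h7, Ideal.mem_bot] at h8
      exact h.thA_ne hw hK h8
    exact (h4.isMaximal h6).eq_of_le h1.ne_top h5
  refine Set.ncard_congr (fun 𝔮 _ => 𝔮.comap (th w A B)) ?_ ?_ ?_
  · rintro 𝔮 ⟨h1, h2⟩
    exact (h.mem_minimal _ hD).2 ⟨Ideal.comap_isPrime _ _, h2, hB 𝔮 h2⟩
  · rintro 𝔮 𝔮' ⟨h1, h2⟩ ⟨h3, h4⟩ he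
    rw [← key 𝔮 h1 h2, ← key 𝔮' h3 h4]
    exact congrArg _ he
  · intro 𝔯 hr
    obtain ⟨h1, h2, h3⟩ := (h.mem_minimal _ hD).1 hr
    have h4 := map_prime 𝔯 h1 h2 h3 hw hK
    have h5 : th w A B A ∈ 𝔯.map (th w A B) := Ideal.mem_map_of_mem _ h2
    refine ⟨𝔯.map (th w A B), ⟨h4, h5⟩, ?_⟩
    have h6 := h.isMaximal 𝔯 hD h1 h2 h3
    exact (h6.eq_of_le (Ideal.comap_isPrime (th w A B) (𝔯.map (th w A B))).ne_top Ideal.le_comap_map).symm

end

end Pool.Agent.Zk97.CB
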