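import Pool.Agent.Zk97.CB.P1
import Pool.Agent.Zk97.CB.PDefs

/-!
# General pencils of plane curves: the components of the members
-/

set_option autoImplicit false
set_option linter.all false

open Polynomial

namespace Pool.Agent.Zk97.CB

section
variable {R ι : Type} [CommRing R] [IsDomain R] {b : ι → R}

theorem dvd_fprod {π : R} (hπ : Prime π) {n : ι →₀ ℕ} (h : π ∣ n.prod fun i k => b i ^ k) :
    ∃ i, n i ≠ 0 ∧ π ∣ b i := by
  obtain ⟨i, hi, h1⟩ := (Prime.dvd_finset_prod_iff hπ _).1 h
  exact ⟨i, Finsupp.mem_support_iff.1 hi, hπ.dvd_of_dvd_pow h1⟩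

theorem fprod_dvd {n : ι →₀ ℕ} {i : ι} (h : n i ≠ 0) : b i ∣ n.prod fun i k => b i ^ k :=
  (dvd_pow_self (b i) h).trans (Finset.dvd_prod_of_mem _ (Finsupp.mem_support_iff.2 h))

theorem fprod_add (n n' : ι →₀ ℕ) : (n + n').prod (fun i k => b i ^ k) =
    (n.prod fun i k => b i ^ k) * n'.prod fun i k => b i ^ k := by
  classical
  exact Finsupp.prod_add_index' (fun i => pow_zero _) (fun i k k' => pow_add _ _ _)

theorem fprod_single (i : ι) (k : ℕ) : (Finsupp.single i k).prod (fun i k => b i ^ k) = b i ^ k :=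
  Finsupp.prod_single_index (pow_zero _)

/-- unique factorization -/
theorem fprod_uniq (hb : ∀ i, Prime (b i)) (hne : ∀ i j, b i ∣ b j → i = j) :
    ∀ (m : ℕ) (n n' : ι →₀ ℕ), n.degree = m →
      Associated (n.prod fun i k => b i ^ k) (n'.prod fun i k => b i ^ k) → n = n' := by
  classical
  intro m
  induction m with
  | zero =>
    intro n n' hn ha
    have h0 : n = 0 := (Finsupp.degree_eq_zero_iff n).1 hn
    subst h0
    symm
    by_contra h1
    obtain ⟨i, hi⟩ := Finsupp.ne_iff.1 h1
    rw [Finsupp.prod_zero_index] at ha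
    have h2 : b i ∣ 1 := (fprod_dvd hi).trans ha.symm.dvd
    exact (hb i).not_unit (isUnit_of_dvd_one h2)
  | succ m ih =>
    intro n n' hn ha
    have h0 : n ≠ 0 := by
      rintro rfl
      rw [map_zero] at hn
      omega
    obtain ⟨i, hi⟩ := Finsupp.ne_iff.1 h0
    have h1 : b i ∣ n'.prod fun i k => b i ^ k := (fprod_dvd hi).trans ha.dvd
    obtain ⟨j, hj, h2⟩ := dvd_fprod (hb i) h1
    have hij := hne i j h2
    subst hij
    have e1 : n = (n - Finsupp.single i 1) + Finsupp.single i 1 := by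
      rw [tsub_add_cancel_of_le]
      rw [Finsupp.single_le_iff]
      exact Nat.one_le_iff_ne_zero.2 hi
    have e2 : n' = (n' - Finsupp.single i 1) + Finsupp.single i 1 := by
      rw [tsub_add_cancel_of_le]
      rw [Finsupp.single_le_iff]
      exact Nat.one_le_iff_ne_zero.2 hj
    rw [e1, e2, fprod_add, fprod_add, fprod_single, pow_one] at ha
    have h3 := ha.of_mul_right (Associated.refl (b i)) (hb i).ne_zero
    have h4 : (n - Finsupp.single i 1).degree = m := by
      have h5 : n.degree = (n - Finsupp.single i 1).degree + 1 := by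
        conv_lhs => rw [e1]
        rw [map_add, Finsupp.degree_single]
      omega
    have h6 := ih _ _ h4 h3
    rw [e1, e2, h6]

end

section
variable {M : Type} [Field M]

/-- the irreducible curves in the plane -/
def PI (M : Type) [Field M] : Type := {𝔭 : Ideal M[X][X] // ∃ π : M[X][X], Irreducible π ∧ 𝔭 = Ideal.span {π}}

noncomputable def gen (x : PI M) : M[X][X] := x.2.choose

theorem gen_irr (x : PI M) : Irreducible (gen x) := x.2.choose_spec.1

theorem gen_span (x : PI M) : x.1 = Ideal.span {gen x} := x.2.choose_spec.2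

theorem gen_prime (x : PI M) : Prime (gen x) := (gen_irr x).prime

theorem gen_inj {x y : PI M} (h : gen x ∣ gen y) : x = y := by
  apply Subtype.ext
  rw [gen_span, gen_span, Ideal.span_singleton_eq_span_singleton]
  exact (gen_irr x).associated_of_dvd (gen_irr y) h

/-- the curve of an irreducible polynomial -/
noncomputable def mkI (π : M[X][X]) (h : Irreducible π) : PI M := ⟨Ideal.span {π}, π, h, rfl⟩

theorem gen_mk (π : M[X][X]) (h : Irreducible π) : Associated (gen (mkI π h)) π := by
  have h1 := gen_span (mkI π h)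
  exact (Ideal.span_singleton_eq_span_singleton.1 h1.symm)

theorem factor (P : M[X][X]) : P ≠ 0 → ∃ n : PI M →₀ ℕ,
    Associated P (n.prod fun x k => gen x ^ k) ∧ ∀ x, n x ≠ 0 ↔ gen x ∣ P := by
  classical
  induction P using WfDvdMonoid.induction_on_irreducible with
  | zero => intro h; exact absurd rfl h
  | unit u hu =>
    intro _
    refine ⟨0, ?_, fun x => ?_⟩
    · rw [Finsupp.prod_zero_index]
      exact associated_one_iff_isUnit.2 hu
    · rw [Finsupp.zero_apply]
      refine ⟨fun h => absurd rfl h, fun h => absurd (isUnit_of_dvd_unit h hu) (gen_prime x).not_unit⟩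
  | mul a p ha0 hp ih =>
    intro _
    obtain ⟨n, h1, h2⟩ := ih ha0
    refine ⟨n + Finsupp.single (mkI p hp) 1, ?_, fun x => ?_⟩
    · rw [fprod_add, fprod_single, pow_one, mul_comm p a]
      exact h1.mul_mul (gen_mk p hp).symm
    · rw [Finsupp.add_apply, (gen_prime x).dvd_mul, ← h2, Finsupp.single_apply]
      have h3 : gen x ∣ p ↔ mkI p hp = x := by
        constructor
        · intro h
          exact (gen_inj (h.trans (gen_mk p hp).symm.dvd)).symm
        · rintro rfl
          exact (gen_mk p hp).dvd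
      rw [h3]
      split_ifs with h4
      · simp [h4]
      · simp [h4]

end

section
variable {M : Type} [Field M] {A B : M[X][X]} {l : ℕ}

/-- the closed points of the line -/
def MPt (M : Type) [Field M] : Type := {p : M[X] // p.Monic ∧ Irreducible p}

theorem GP.exists_x0 (h : GP l A B) (p : MPt M) : ∃ x : PI M, gen x ∣ hm p.1 B A := by
  have h1 := hm_deg h.pen p.2.2.ne_zero
  have h2 : ¬ IsUnit (hm p.1 B A) := by
    intro hu
    have h3 := natDegree_eq_zero_of_isUnit hu
    rw [h1.1] at h3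
    have := Nat.mul_pos h.pen.l0 p.2.2.natDegree_pos
    omega
  obtain ⟨π, h3, h4⟩ := WfDvdMonoid.exists_irreducible_factor h2 h1.2
  exact ⟨mkI π h3, (gen_mk π h3).dvd.trans h4⟩

/-- a chosen component of each member -/
noncomputable def GP.x0 (h : GP l A B) (p : MPt M) : PI M := (h.exists_x0 p).choose

theorem GP.x0_dvd (h : GP l A B) (p : MPt M) : gen (h.x0 p) ∣ hm p.1 B A := (h.exists_x0 p).choose_spec

theorem GP.not_A (h : GP l A B) {D : M[X]} (hD : D ≠ 0) {π : M[X][X]} (hπ : Prime π) (h1 : π ∣ hm D B A) :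
    ¬ π ∣ A := by
  intro h2
  have h3 := h.rel_hm hD 1
  rw [pow_one] at h3
  exact hπ.not_unit (h3 h1 h2)

theorem coprime_of_ne {p q : MPt M} (h : p ≠ q) : IsCoprime p.1 q.1 := by
  rw [p.2.2.coprime_iff_not_dvd]
  intro h1
  apply h
  apply Subtype.ext
  exact eq_of_monic_of_associated p.2.1 q.2.1 (p.2.2.associated_of_dvd q.2.2 h1)

theorem GP.eq_of (h : GP l A B) {p q : MPt M} {π : M[X][X]} (hπ : Prime π) (h1 : π ∣ hm p.1 B A)
    (h2 : π ∣ hm q.1 B A) : p = q := by
  by_contra hne
  exact h.not_A p.2.2.ne_zero hπ h1 (h.coprime_hm (coprime_of_ne hne) hπ h1 h2)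

/-- the components of `A = 0`, and those of the members, without the chosen ones -/
def GP.I (h : GP l A B) : Set (PI M) :=
  {x | gen x ∣ A ∨ ∃ p : MPt M, gen x ∣ hm p.1 B A ∧ x ≠ h.x0 p}

theorem GP.x0_not (h : GP l A B) (p : MPt M) : h.x0 p ∉ h.I := by
  rintro (h1 | ⟨q, h1, h2⟩)
  · exact h.not_A p.2.2.ne_zero (gen_prime _) (h.x0_dvd p) h1
  · have h3 := h.eq_of (gen_prime _) (h.x0_dvd p) h1
    subst h3
    exact h2 rfl

/-- monic form of an irreducible polynomial -/
theorem exists_monic {p : M[X]} (hp : Irreducible p) : ∃ (q : MPt M) (c : M), c ≠ 0 ∧ p = C c * q.1 := by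
  have h1 := leadingCoeff_ne_zero.2 hp.ne_zero
  have h2 : Irreducible (C (p.leadingCoeff)⁻¹ * p) := by
    rw [irreducible_isUnit_mul]
    · exact hp
    · exact isUnit_C.2 (isUnit_iff_ne_zero.2 (inv_ne_zero h1))
  have h3 : (C (p.leadingCoeff)⁻¹ * p).Monic := by
    rw [mul_comm]
    exact monic_mul_leadingCoeff_inv hp.ne_zero
  refine ⟨⟨_, h3, h2⟩, p.leadingCoeff, h1, ?_⟩
  show p = C p.leadingCoeff * (C (p.leadingCoeff)⁻¹ * p)
  rw [← mul_assoc, ← C_mul, mul_inv_cancel₀ h1, C_1, one_mul]

theorem hm_Cmul (hA : A ≠ 0) {c : M} (hc : c ≠ 0) {q : M[X]} (hq : q ≠ 0) :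
    hm (C c * q) B A = C (C c) * hm q B A := by
  rw [hm_mul hA (C_ne_zero.2 hc) hq, hm_C]

end

end Pool.Agent.Zk97.CB
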