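import Pool.Agent.Zk97.CB.P2

/-!
# General pencils of plane curves: the rank
-/

set_option autoImplicit false
set_option linter.all false

open Polynomial

namespace Pool.Agent.Zk97.CB

section
variable {R ι : Type} [CommRing R] [IsDomain R] {b : ι → R}

theorem fprod_smul (e : ℕ) (n : ι →₀ ℕ) : (e • n).prod (fun i k => b i ^ k) =
    (n.prod fun i k => b i ^ k) ^ e := by
  induction e with
  | zero => rw [zero_smul, Finsupp.prod_zero_index, pow_zero]
  | succ e ih => rw [succ_nsmul, fprod_add, ih, pow_succ]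

end

section
variable {M K : Type} [Field M] [Field K] [Algebra M K] {w : K} {A B : M[X][X]} {l : ℕ}

/-- the family of the independent components -/
noncomputable def GP.bb (h : GP l A B) (i : h.I) : M[X][X] := gen i.1

theorem GP.bb_prime (h : GP l A B) (i : h.I) : Prime (h.bb i) := gen_prime _

theorem GP.bb_inj (h : GP l A B) (i j : h.I) (hd : h.bb i ∣ h.bb j) : i = j := Subtype.ext (gen_inj hd)

theorem assoc_T {P Q : M[X][X]} (h : Associated P Q) : Associated (th w A B P) (th w A B Q) :=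
  h.map (th w A B)

theorem hm_dvd_T (hw : Transcendental M w) {D : M[X]} (hD : D ≠ 0) {P : M[X][X]} (h1 : P ∣ hm D B A) :
    th w A B P ∣ th w A B A ^ D.natDegree := by
  have h2 : th w A B P ∣ th w A B (hm D B A) := _root_.map_dvd _ h1
  rw [th_hm] at h2
  exact (ct_unit w A B (aeval_ne hw hD)).dvd_mul_left.1 h2

theorem GP.b_dvd (h : GP l A B) (hw : Transcendental M w) (i : h.I) :
    ∃ k : ℕ, th w A B (h.bb i) ∣ th w A B A ^ k := by
  rcases i.2 with h1 | ⟨p, h1, -⟩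
  · exact ⟨1, by rw [pow_one]; exact _root_.map_dvd _ h1⟩
  · exact ⟨p.1.natDegree, hm_dvd_T hw p.2.2.ne_zero h1⟩

/-- restriction of the exponents to the family -/
theorem GP.restrict (h : GP l A B) (n : PI M →₀ ℕ) (hn : ∀ x, n x ≠ 0 → x ∈ h.I) :
    ∃ n' : h.I →₀ ℕ, (n'.prod fun i k => h.bb i ^ k) = n.prod fun x k => gen x ^ k := by
  classical
  refine ⟨n.subtypeDomain (fun x => x ∈ h.I), ?_⟩
  exact Finsupp.prod_subtypeDomain_index (h := fun x k => gen x ^ k)
    (fun x hx => hn x (Finsupp.mem_support_iff.1 hx))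

theorem GP.span (h : GP l A B) (hw : Transcendental M w)
    (hK : ∀ z : K, ∃ p q : M[X], aeval w q ≠ 0 ∧ z * aeval w q = aeval w p)
    (π : M[X][X]) (hπ : Irreducible π) (hk : ∃ k : ℕ, th w A B π ∣ th w A B A ^ k) :
    ∃ (u : AdjoinRoot (ff w A B)) (m : ℕ) (n n' : h.I →₀ ℕ), IsUnit u ∧ m ≠ 0 ∧
      th w A B π ^ m * th w A B (n.prod fun i k => h.bb i ^ k) =
        u * th w A B (n'.prod fun i k => h.bb i ^ k) := by
  classical
  have hA0 := h.pen.A0
  have hgen := gen_mk π hπ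
  -- the case of a member of the family
  have case1 : mkI π hπ ∈ h.I → ∃ (u : AdjoinRoot (ff w A B)) (m : ℕ) (n n' : h.I →₀ ℕ), IsUnit u ∧ m ≠ 0 ∧
      th w A B π ^ m * th w A B (n.prod fun i k => h.bb i ^ k) =
        u * th w A B (n'.prod fun i k => h.bb i ^ k) := by
    intro hx
    obtain ⟨v, hv⟩ := assoc_T (w := w) (A := A) (B := B) hgen
    refine ⟨v, 1, 0, Finsupp.single ⟨_, hx⟩ 1, v.isUnit, one_ne_zero, ?_⟩
    rw [Finsupp.prod_zero_index, map_one, mul_one, fprod_single, pow_one, pow_one, ← hv, mul_comm]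
    rfl
  by_cases hA : π ∣ A
  · exact case1 (Or.inl (hgen.dvd.trans hA))
  obtain ⟨p, hp, h1⟩ := h.H3 hw hK π hπ hA hk
  obtain ⟨q, c, hc, rfl⟩ := exists_monic hp
  rw [hm_Cmul hA0 hc q.2.2.ne_zero] at h1
  have hu : IsUnit (C (C c) : M[X][X]) := isUnit_C.2 (isUnit_C.2 (isUnit_iff_ne_zero.2 hc))
  have h2 : π ∣ hm q.1 B A := hu.dvd_mul_left.1 h1
  by_cases hx : mkI π hπ = h.x0 q
  · obtain ⟨n, h3, h4⟩ := factor (hm q.1 B A) (hm_deg h.pen q.2.2.ne_zero).2
    obtain ⟨nA, h5, h6⟩ := factor A hA0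
    set x := mkI π hπ with hxd
    have hnx : n x ≠ 0 := (h4 x).2 (hgen.dvd.trans h2)
    obtain ⟨n', hn'⟩ := h.restrict (n.erase x) (by
      intro y hy
      have hyx : y ≠ x := by
        rintro rfl
        exact hy Finsupp.erase_same
      rw [Finsupp.erase_ne hyx] at hy
      exact Or.inr ⟨q, (h4 y).1 hy, by rw [← hx]; exact hyx⟩)
    obtain ⟨nA', hnA'⟩ := h.restrict nA (fun y hy => Or.inl ((h6 y).1 hy))
    have h7 : Associated (π ^ (n x) * (n'.prod fun i k => h.bb i ^ k)) (hm q.1 B A) := by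
      have e : gen x ^ (n x) * ((n.erase x).prod fun x k => gen x ^ k) = n.prod fun x k => gen x ^ k := by
        conv_rhs => rw [← Finsupp.single_add_erase x n]
        rw [fprod_add, fprod_single]
      rw [hn']
      refine Associated.trans ?_ h3.symm
      rw [← e]
      exact (hgen.symm.pow_pow).mul_right _
    have h8 : Associated (th w A B (hm q.1 B A)) (th w A B ((q.1.natDegree • nA').prod fun i k => h.bb i ^ k)) := by
      rw [fprod_smul, hnA', map_pow, th_hm]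
      have h9 : Associated (th w A B A ^ q.1.natDegree)
          (th w A B (nA.prod fun x k => gen x ^ k) ^ q.1.natDegree) := (assoc_T h5).pow_pow
      exact (associated_unit_mul_left _ _ (ct_unit w A B (aeval_ne hw q.2.2.ne_zero))).trans h9
    obtain ⟨v, hv⟩ := ((assoc_T h7).trans h8).symm
    refine ⟨v, n x, n', q.1.natDegree • nA', v.isUnit, hnx, ?_⟩
    rw [← map_pow, ← map_mul, ← hv, mul_comm]
  · exact case1 (Or.inr ⟨q, hgen.dvd.trans h2, hx⟩)

theorem GP.unit_of (h : GP l A B) (hw : Transcendental M w)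
    (hK : ∀ z : K, ∃ p q : M[X], aeval w q ≠ 0 ∧ z * aeval w q = aeval w p) {p q : M[X]} (hp0 : p ≠ 0)
    (hq0 : q ≠ 0) (hpq : IsCoprime p q) {D₂ : M[X][X]} (n : h.I →₀ ℕ)
    (he : ct w A B (aeval w q) * th w A B (n.prod fun i k => h.bb i ^ k) =
      ct w A B (aeval w p) * th w A B D₂) : IsUnit p := by
  by_contra hpu
  have hA0 := h.pen.A0
  obtain ⟨p₁, hp₁, hpp⟩ := WfDvdMonoid.exists_irreducible_factor hpu hp0
  obtain ⟨q₁, c, hc, rfl⟩ := exists_monic hp₁
  obtain ⟨t, rfl⟩ := (Dvd.intro_left _ rfl : q₁.1 ∣ C c * q₁.1).trans hpp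
  have ht0 : t ≠ 0 := right_ne_zero_of_mul hp0
  have hπ := gen_prime (h.x0 q₁)
  have h1 : gen (h.x0 q₁) ∣ hm (q₁.1 * t) B A := by
    rw [hm_mul hA0 q₁.2.2.ne_zero ht0]
    exact (h.x0_dvd q₁).mul_right _
  have e := h.eq_lift hw hK he
  have h2 : gen (h.x0 q₁) ∣ hm q B A * A ^ (q₁.1 * t).natDegree * (n.prod fun i k => h.bb i ^ k) := by
    rw [e]
    exact (h1.mul_right _).mul_right _
  have h3 : gen (h.x0 q₁) ∣ hm q B A := by
    rcases hπ.dvd_or_dvd h2 with h4 | h4
    · rcases hπ.dvd_or_dvd h4 with h5 | h5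
      · exact h5
      · exact absurd (hπ.dvd_of_dvd_pow h5) (h.not_A q₁.2.2.ne_zero hπ (h.x0_dvd q₁))
    · obtain ⟨i, -, h5⟩ := dvd_fprod hπ h4
      have h6 : h.x0 q₁ = i.1 := gen_inj h5
      exact absurd (by rw [h6]; exact i.2) (h.x0_not q₁)
  exact h.not_A q₁.2.2.ne_zero hπ (h.x0_dvd q₁)
    (h.coprime_hm (IsCoprime.of_mul_left_left hpq) hπ (h.x0_dvd q₁) h3)

theorem GP.indep (h : GP l A B) (hw : Transcendental M w)
    (hK : ∀ z : K, ∃ p q : M[X], aeval w q ≠ 0 ∧ z * aeval w q = aeval w p)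
    (hunit : ∀ u : AdjoinRoot (ff w A B), IsUnit u → ∃ c : K, c ≠ 0 ∧ u = ct w A B c)
    (u : AdjoinRoot (ff w A B)) (n n' : h.I →₀ ℕ) (hu : IsUnit u)
    (he : th w A B (n.prod fun i k => h.bb i ^ k) = u * th w A B (n'.prod fun i k => h.bb i ^ k)) :
    n = n' := by
  classical
  obtain ⟨c, hc0, rfl⟩ := hunit u hu
  obtain ⟨p, q, hq, hpq⟩ := hK c
  have hq0 : q ≠ 0 := by
    rintro rfl
    exact hq (map_zero _)
  have hp0 : p ≠ 0 := by
    rintro rfl
    rw [map_zero] at hpq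
    exact (mul_ne_zero hc0 hq) hpq
  have hg0 : EuclideanDomain.gcd p q ≠ 0 := by
    intro h0
    exact hq0 (EuclideanDomain.gcd_eq_zero_iff.1 h0).2
  obtain ⟨p', hp'⟩ := EuclideanDomain.gcd_dvd_left p q
  obtain ⟨q', hq'⟩ := EuclideanDomain.gcd_dvd_right p q
  set g := EuclideanDomain.gcd p q with hg
  have hp'0 : p' ≠ 0 := by
    rintro rfl
    exact hp0 (by rw [hp', mul_zero])
  have hq'0 : q' ≠ 0 := by
    rintro rfl
    exact hq0 (by rw [hq', mul_zero])
  have hcop : IsCoprime p' q' := by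
    have e := EuclideanDomain.gcd_eq_gcd_ab p q
    refine ⟨EuclideanDomain.gcdA p q, EuclideanDomain.gcdB p q, ?_⟩
    apply mul_left_cancel₀ hg0
    rw [mul_one]
    calc _ = (g * p') * EuclideanDomain.gcdA p q + (g * q') * EuclideanDomain.gcdB p q := by ring
      _ = g := by rw [← hp', ← hq', ← e]
  have hc : c * aeval w q' = aeval w p' := by
    apply mul_left_cancel₀ (aeval_ne hw hg0)
    rw [← map_mul, ← hp', ← hpq, hq', map_mul]
    ring
  have he' : ct w A B (aeval w q') * th w A B (n.prod fun i k => h.bb i ^ k) =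
      ct w A B (aeval w p') * th w A B (n'.prod fun i k => h.bb i ^ k) := by
    rw [he, ← mul_assoc, ← ct_mul, mul_comm (aeval w q'), hc]
  have hu1 := h.unit_of hw hK hp'0 hq'0 hcop n he'
  have hu2 := h.unit_of hw hK hq'0 hp'0 hcop.symm n' he'.symm
  obtain ⟨a, ha, rfl⟩ := Polynomial.isUnit_iff.1 hu1
  obtain ⟨b, hb, rfl⟩ := Polynomial.isUnit_iff.1 hu2
  have e := h.eq_lift hw hK he'
  rw [hm_C, hm_C, natDegree_C, natDegree_C, pow_zero, mul_one, mul_one] at e
  have ua : IsUnit (C (C a) : M[X][X]) := isUnit_C.2 (isUnit_C.2 ha)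
  have ub : IsUnit (C (C b) : M[X][X]) := isUnit_C.2 (isUnit_C.2 hb)
  have ha1 : Associated (n.prod fun i k => h.bb i ^ k) (n'.prod fun i k => h.bb i ^ k) := by
    have e1 := associated_unit_mul_left (n.prod fun i k => h.bb i ^ k) _ ub
    have e2 := associated_unit_mul_left (n'.prod fun i k => h.bb i ^ k) _ ua
    rw [e] at e1
    exact e1.symm.trans e2
  exact fprod_uniq h.bb_prime h.bb_inj _ n n' rfl ha1

/-- **The rank.** -/
theorem GP.rank (h : GP l A B) (hD : StD) (hQ : StQ) (hw : Transcendental M w)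
    (hK : ∀ z : K, ∃ p q : M[X], aeval w q ≠ 0 ∧ z * aeval w q = aeval w p)
    (hunit : ∀ u : AdjoinRoot (ff w A B), IsUnit u → ∃ c : K, c ≠ 0 ∧ u = ct w A B c)
    [hT : IsDedekindDomain (AdjoinRoot (ff w A B))] :
    Finite h.I ∧ Module.rank ℤ (Additive (ClassGroup (AdjoinRoot (ff w A B)))) + (Nat.card h.I : Cardinal) =
      ((Ideal.span {A, B}).minimalPrimes.ncard : Cardinal) := by
  have hdom : IsDomain (AdjoinRoot (ff w A B)) := inferInstance
  rw [← h.card_primes hD hw hK]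
  refine hQ (AdjoinRoot (ff w A B)) M[X][X] h.I (th w A B) A h.bb (th_inj h.pen hw hK) h.pen.A0 ?_ ?_
    (h.b_dvd hw) (h.span hw hK) (h.indep hw hK hunit)
  · intro z
    obtain ⟨D, k, P, hD0, h1⟩ := h1_exp h.pen hw hK z
    exact ⟨ct w A B (aeval w D), k, P, ct_unit w A B (aeval_ne hw hD0), h1⟩
  · exact h.H2 hD hw hK hdom

end

end Pool.Agent.Zk97.CB
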