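import Pool.Agent.Zk97.CB.P3

/-!
# General pencils of plane curves: the number of the components
-/

set_option autoImplicit false
set_option linter.all false

open Polynomial

namespace Pool.Agent.Zk97.CB

section
variable {M : Type} [Field M] {A B : M[X][X]} {l : ℕ}

/-- the set of the components of a curve -/
def cset (P : M[X][X]) : Set (PI M) := {x | gen x ∣ P}

/-- the number of the components of a curve -/
noncomputable def om (P : M[X][X]) : ℕ := (cset P).ncard

theorem cset_finite {P : M[X][X]} (hP : P ≠ 0) : (cset P).Finite := by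
  obtain ⟨n, -, h⟩ := factor P hP
  refine n.support.finite_toSet.subset ?_
  intro x hx
  exact Finsupp.mem_support_iff.2 ((h x).2 hx)

theorem om_minimal {P : M[X][X]} (hP : P ≠ 0) : (Ideal.span {P}).minimalPrimes.ncard = om P := by
  unfold om
  rw [← Set.ncard_image_of_injective (cset P) (f := fun x : PI M => x.1) Subtype.val_injective]
  congr 1
  ext 𝔯
  constructor
  · intro h
    obtain ⟨π, h1, rfl⟩ := mem_minimal_one 𝔯 hP h
    refine ⟨mkI π h1, ?_, rfl⟩
    exact (gen_mk π h1).dvd.trans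
      (Ideal.mem_span_singleton.1 (h.1.2 (Ideal.mem_span_singleton_self P)))
  · rintro ⟨x, hx, rfl⟩
    have hx' : gen x ∣ P := hx
    show x.1 ∈ _
    rw [gen_span]
    have hpr : (Ideal.span {gen x}).IsPrime := (Ideal.span_singleton_prime (gen_irr x).ne_zero).2 (gen_prime x)
    refine ⟨⟨hpr, (Ideal.span_singleton_le_iff_mem _).2 (Ideal.mem_span_singleton.2 hx')⟩, ?_⟩
    rintro 𝔮 ⟨hq, hqA⟩ hle
    have h3 : P ∈ 𝔮 := hqA (Ideal.mem_span_singleton_self P)
    obtain ⟨π', h4, h5⟩ : ∃ π' : M[X][X], Irreducible π' ∧ π' ∈ 𝔮 := by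
      have h6 : 𝔮 ≠ ⊥ := by
        rintro rfl
        exact hP (Ideal.mem_bot.1 h3)
      obtain ⟨p, hp, hp'⟩ := Ideal.IsPrime.exists_mem_prime_of_ne_bot hq h6
      exact ⟨p, hp'.irreducible, hp⟩
    have h7 : gen x ∣ π' := Ideal.mem_span_singleton.1 (hle h5)
    have h8 : Associated (gen x) π' := (gen_irr x).associated_of_dvd h4 h7
    rw [Ideal.span_singleton_le_iff_mem]
    exact 𝔮.mem_of_dvd h8.symm.dvd h5

theorem card_sigma_fin {α : Type} {β : α → Type} [hf : Finite (Σ a, β a)] :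
    Nat.card (Σ a, β a) = ∑ᶠ a, Nat.card (β a) := by
  classical
  have hS : {a : α | Nonempty (β a)}.Finite := by
    refine (Set.finite_range (fun x : Σ a, β a => x.1)).subset ?_
    rintro a ⟨b⟩
    exact ⟨⟨a, b⟩, rfl⟩
  have hb : ∀ a, Finite (β a) := fun a => Finite.of_injective (fun b : β a => (⟨a, b⟩ : Σ a, β a))
    (fun b b' h => by simpa using h)
  have hsup : (Function.support fun a => Nat.card (β a)) ⊆ (hS.toFinset : Set α) := by
    intro a ha
    rw [Set.Finite.coe_toFinset]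
    rw [Function.mem_support] at ha
    exact (Nat.card_pos_iff.1 (Nat.pos_of_ne_zero ha)).1
  rw [finsum_eq_sum_of_support_subset _ hsup]
  let e : (Σ a, β a) ≃ Σ a : hS.toFinset, β a.1 :=
    { toFun := fun x => ⟨⟨x.1, hS.mem_toFinset.2 ⟨x.2⟩⟩, x.2⟩
      invFun := fun x => ⟨x.1.1, x.2⟩
      left_inv := fun x => rfl
      right_inv := fun x => rfl }
  rw [Nat.card_congr e, Nat.card_sigma, Finset.sum_coe_sort hS.toFinset (fun a => Nat.card (β a))]

theorem GP.card_I (h : GP l A B) (hfin : Finite h.I) : Nat.card h.I =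
    om A + ∑ᶠ p : MPt M, (om (hm p.1 B A) - 1) := by
  classical
  have hA0 := h.pen.A0
  let β : MPt M → Type := fun p => {x : PI M // x ∈ cset (hm p.1 B A) \ {h.x0 p}}
  have hd1 : ∀ (p : MPt M) (x : PI M), gen x ∣ hm p.1 B A → ¬ gen x ∣ A := fun p x hx =>
    h.not_A p.2.2.ne_zero (gen_prime x) hx
  let f : (cset A) ⊕ (Σ p, β p) → h.I := Sum.elim (fun x => ⟨x.1, Or.inl x.2⟩)
    (fun x => ⟨x.2.1, Or.inr ⟨x.1, x.2.2.1, x.2.2.2⟩⟩)
  have hf : Function.Bijective f := by
    constructor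
    · rintro (x | ⟨p, x⟩) (y | ⟨q, y⟩) hxy
      · have : x.1 = y.1 := congrArg (fun z : h.I => (z.1 : PI M)) hxy
        rw [Subtype.ext this]
      · have h1 : x.1 = y.1 := congrArg (fun z : h.I => (z.1 : PI M)) hxy
        exact absurd (by rw [← h1]; exact x.2) (hd1 q y.1 y.2.1)
      · have h1 : x.1 = y.1 := congrArg (fun z : h.I => (z.1 : PI M)) hxy
        exact absurd (by rw [h1]; exact y.2) (hd1 p x.1 x.2.1)
      · have h1 : x.1 = y.1 := congrArg (fun z : h.I => (z.1 : PI M)) hxy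
        have h2 : p = q := h.eq_of (gen_prime x.1) x.2.1 (by rw [h1]; exact y.2.1)
        subst h2
        rw [Subtype.ext h1]
    · rintro ⟨x, h1 | ⟨p, h1, h2⟩⟩
      · exact ⟨Sum.inl ⟨x, h1⟩, rfl⟩
      · exact ⟨Sum.inr ⟨p, ⟨x, h1, h2⟩⟩, rfl⟩
  have hfs : Finite ((cset A) ⊕ (Σ p, β p)) := Finite.of_injective f hf.1
  have hf1 : Finite (cset A) := Finite.of_injective (Sum.inl : cset A → (cset A) ⊕ (Σ p, β p)) Sum.inl_injective
  have hf2 : Finite (Σ p, β p) := Finite.of_injective (Sum.inr : (Σ p, β p) → (cset A) ⊕ (Σ p, β p)) Sum.inr_injective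
  rw [← Nat.card_congr (Equiv.ofBijective f hf), Nat.card_sum, card_sigma_fin]
  congr 1
  refine finsum_congr fun p => ?_
  show (cset (hm p.1 B A) \ {h.x0 p}).ncard = _
  have hm' : h.x0 p ∈ cset (hm p.1 B A) := h.x0_dvd p
  rw [Set.ncard_diff_singleton_of_mem hm']
  rfl

theorem irr_C (p : MPt M) : Irreducible (C p.1 : M[X][X]) := (prime_C_iff.2 p.2.2.prime).irreducible

/-- the vertical line over a point -/
noncomputable def vl (p : MPt M) : PI M := mkI (C p.1) (irr_C p)

theorem vl_gen (p : MPt M) : Associated (gen (vl p)) (C p.1) := gen_mk _ _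

theorem vl_inj : Function.Injective (vl : MPt M → PI M) := by
  intro p q h
  have h1 : Associated (C p.1 : M[X][X]) (C q.1) := (vl_gen p).symm.trans (by rw [h]; exact vl_gen q)
  apply Subtype.ext
  have h2 : p.1 ∣ q.1 := by
    have h3 := (C_dvd_iff_dvd_coeff _ _).1 h1.dvd 0
    rwa [coeff_C_zero] at h3
  exact eq_of_monic_of_associated p.2.1 q.2.1 (p.2.2.associated_of_dvd q.2.2 h2)

theorem cset_C (D : M[X]) : D ≠ 0 → ∀ x : PI M, gen x ∣ C D → ∃ q : MPt M, q.1 ∣ D ∧ x = vl q := by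
  induction D using WfDvdMonoid.induction_on_irreducible with
  | zero => intro h; exact absurd rfl h
  | unit u hu =>
    intro _ x hx
    exact absurd (isUnit_of_dvd_unit hx (isUnit_C.2 hu)) (gen_prime x).not_unit
  | mul a p ha0 hp ih =>
    intro _ x hx
    rw [C_mul] at hx
    rcases (gen_prime x).dvd_or_dvd hx with h1 | h1
    · obtain ⟨q, c, hc, rfl⟩ := exists_monic hp
      rw [C_mul] at h1
      have hu : IsUnit (C (C c) : M[X][X]) := isUnit_C.2 (isUnit_C.2 (isUnit_iff_ne_zero.2 hc))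
      have h2 : gen x ∣ C q.1 := hu.dvd_mul_left.1 h1
      exact ⟨q, (Dvd.intro_left _ rfl : q.1 ∣ C c * q.1).mul_right a,
        gen_inj (h2.trans (vl_gen q).symm.dvd)⟩
    · obtain ⟨q, h2, h3⟩ := ih ha0 x h1
      exact ⟨q, h2.mul_left p, h3⟩

/-- the closed points of the line where `D` vanishes -/
def dset (D : M[X]) : Set (MPt M) := {p | p.1 ∣ D}

theorem cset_C_eq {D : M[X]} (hD : D ≠ 0) : cset (C D) = vl '' dset D := by
  ext x
  constructor
  · intro hx
    obtain ⟨q, h1, rfl⟩ := cset_C D hD x hx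
    exact ⟨q, h1, rfl⟩
  · rintro ⟨q, h1, rfl⟩
    exact (vl_gen q).dvd.trans (_root_.map_dvd C h1)

theorem dset_finite {D : M[X]} (hD : D ≠ 0) : (dset D).Finite := by
  have h1 := cset_finite (P := (C D : M[X][X])) (C_ne_zero.2 hD)
  rw [cset_C_eq hD] at h1
  exact h1.of_finite_image vl_inj.injOn

theorem om_C {D : M[X]} (hD : D ≠ 0) : om (C D) = (dset D).ncard := by
  unfold om
  rw [cset_C_eq hD, Set.ncard_image_of_injective _ vl_inj]

/-- the components of the members over the zeros of `D` -/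
theorem GP.cset_hm (h : GP l A B) {D : M[X]} (hD : D ≠ 0) :
    cset (hm D B A) = ⋃ p ∈ dset D, cset (hm p.1 B A) := by
  ext x
  rw [Set.mem_iUnion₂]
  constructor
  · intro hx
    obtain ⟨p, hp, h1, h2⟩ := dvd_factor h.pen.A0 (gen_prime x) D hD hx
    obtain ⟨q, c, hc, rfl⟩ := exists_monic hp
    rw [hm_Cmul h.pen.A0 hc q.2.2.ne_zero] at h2
    have hu : IsUnit (C (C c) : M[X][X]) := isUnit_C.2 (isUnit_C.2 (isUnit_iff_ne_zero.2 hc))
    exact ⟨q, (Dvd.intro_left _ rfl : q.1 ∣ C c * q.1).trans h1, hu.dvd_mul_left.1 h2⟩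
  · rintro ⟨p, ⟨t, ht⟩, h2⟩
    have ht0 : t ≠ 0 := by
      rintro rfl
      exact hD (by rw [ht, mul_zero])
    show gen x ∣ hm D B A
    rw [ht, hm_mul h.pen.A0 p.2.2.ne_zero ht0]
    exact h2.mul_right _

theorem GP.om_hm (h : GP l A B) {D : M[X]} (hD : D ≠ 0) :
    om (hm D B A) = ∑ p ∈ (dset_finite hD).toFinset, om (hm p.1 B A) := by
  classical
  have hf : ∀ p : MPt M, (cset (hm p.1 B A)).Finite := fun p => cset_finite (hm_deg h.pen p.2.2.ne_zero).2
  have hf' : (cset (hm D B A)).Finite := cset_finite (hm_deg h.pen hD).2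
  have e : hf'.toFinset = (dset_finite hD).toFinset.biUnion fun p => (hf p).toFinset := by
    ext x
    rw [Set.Finite.mem_toFinset, Finset.mem_biUnion, h.cset_hm hD, Set.mem_iUnion₂]
    constructor
    · rintro ⟨p, h1, h2⟩
      exact ⟨p, (Set.Finite.mem_toFinset _).2 h1, (Set.Finite.mem_toFinset _).2 h2⟩
    · rintro ⟨p, h1, h2⟩
      exact ⟨p, (Set.Finite.mem_toFinset _).1 h1, (Set.Finite.mem_toFinset _).1 h2⟩
  unfold om
  rw [Set.ncard_eq_toFinset_card _ hf', e, Finset.card_biUnion]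
  · exact Finset.sum_congr rfl fun p _ => (Set.ncard_eq_toFinset_card _ (hf p)).symm
  · intro p _ q _ hpq
    show Disjoint (hf p).toFinset (hf q).toFinset
    rw [Finset.disjoint_left]
    intro x h1 h2
    have h3 : x ∈ cset (hm p.1 B A) := (Set.Finite.mem_toFinset (hf p)).1 h1
    have h4 : x ∈ cset (hm q.1 B A) := (Set.Finite.mem_toFinset (hf q)).1 h2
    exact hpq (h.eq_of (gen_prime x) h3 h4)

theorem GP.om_pos (h : GP l A B) (p : MPt M) : 1 ≤ om (hm p.1 B A) := by
  have hf : (cset (hm p.1 B A)).Finite := cset_finite (hm_deg h.pen p.2.2.ne_zero).2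
  have h1 : 0 < (cset (hm p.1 B A)).ncard := (Set.ncard_pos hf).2 ⟨h.x0 p, h.x0_dvd p⟩
  exact h1

/-- the correction from the reducible members -/
theorem GP.om_sub (h : GP l A B) {D : M[X]} (hD : D ≠ 0)
    (hirr : ∀ p : MPt M, ¬ p.1 ∣ D → om (hm p.1 B A) = 1) :
    om (hm D B A) = om (C D) + ∑ᶠ p : MPt M, (om (hm p.1 B A) - 1) := by
  classical
  have hsup : (Function.support fun p : MPt M => om (hm p.1 B A) - 1) ⊆ ((dset_finite hD).toFinset : Set (MPt M)) := by
    intro p hp
    rw [Set.Finite.coe_toFinset]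
    by_contra h1
    apply hp
    show om (hm p.1 B A) - 1 = 0
    rw [hirr p h1]
  rw [h.om_hm hD, om_C hD, finsum_eq_sum_of_support_subset _ hsup,
    Set.ncard_eq_toFinset_card _ (dset_finite hD), Finset.card_eq_sum_ones, ← Finset.sum_add_distrib]
  refine Finset.sum_congr rfl fun p _ => ?_
  have := h.om_pos p
  omega

theorem om_prime {P : M[X][X]} (hP : Prime P) : om P = 1 := by
  have h1 : cset P = {mkI P hP.irreducible} := by
    ext x
    rw [Set.mem_singleton_iff]
    constructor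
    · intro hx
      exact gen_inj (hx.trans (gen_mk P hP.irreducible).symm.dvd)
    · rintro rfl
      exact (gen_mk P hP.irreducible).dvd
  unfold om
  rw [h1, Set.ncard_singleton]

end

end Pool.Agent.Zk97.CB
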